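import Pool.Agent.helper98.NIG.Defs

/-!
# NIG-C08: elementary facts on growth

`Ball T n` (see Defs) is the set of the products of lists of length `≤ n` of elements of `T ∪ T⁻¹`.

PROOFS.
* `ball_fin`: finitely many lists of bounded length over a finite alphabet.
* `exp_of_surjective`: let `T, c` be the data of `Δ`; choose `T' : Finset Γ` with `f '' T' = T` (lift every
  element); `f` maps `Ball T' n` onto `Ball T n` (lift the list: an element `s` with `s⁻¹ ∈ T` is lifted to
  the inverse of the lift of `s⁻¹`). So the cardinality of `Ball T' n` is at least that of `Ball T n`.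
* `exp_of_injective`: `f : Δ →* Γ` injective, `ExpGrowth Δ`: take the image of `T`; `f` is injective on
  `Ball T n`.
* `exp_of_words`: if there are a finite set `T ⊆ Γ` and `m ≥ 1` and for every `n` an injective map
  `(Fin n → Bool) → Γ` with values in `Ball T (m * n)` then `ExpGrowth Γ` (with `c = 2^(1/m) `, note that
  for general `r` use `n = r / m` and monotonicity; to get `c ^ r ≤ |Ball r|` for ALL `r` replace `T` by a
  larger set: take the new generating set `T' = Ball T m` (finite), then `Ball T' n ⊇ Ball T (m n)` has at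
  least `2 ^ n` elements: `c = 2`).
* `poly_iff_all`: if `PolyGrowth Γ` then for EVERY finite `T' : Finset Γ` there are `d, C` with
  `|Ball T' n| ≤ C (n+1)^d`: every element of `T'` is a product of at most `m` elements of `T^±1`
  (`closure = ⊤`), so `Ball T' n ⊆ Ball T (m n)`.
* `poly_of_finite`: `T = univ`, `d = 0`, `C = Nat.card`.
* `poly_of_embed`: `Γ` finitely generated, homomorphisms `π i : Γ →* Δ i` (`i : Fin n`) to groups of
  polynomial growth and `π0 : Γ →* Q`, `Q` finite, jointly injective. Take a finite generating set `T` of `Γ`.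
  The map `Ball T r → ∏ i, Ball (π i '' T) r × Q` is injective, and each
  `|Ball (π i '' T) r| ≤ C_i (r+1)^(d_i)` by `poly_iff_all`. So `|Ball T r| ≤ (∏ C_i) |Q| (r+1)^(∑ d_i)`.
* `exp_not_poly`: not both: `c^n ≤ |Ball T n| ≤ C (n+1)^d` for all `n` is impossible for `c > 1`.
* `exp_all`: if `ExpGrowth Γ` and `T'` is a finite generating set then there is `c > 1` with
  `c^n ≤ |Ball T' n|` for all large `n`... (`Ball T n ⊆ Ball T' (m n)`, monotone in `n`).
-/

namespace Pool.Agent.helper98.NIG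

variable {Γ Δ : Type} [Group Γ] [Group Δ]

namespace C08

theorem one_mem (T : Set Γ) (n : ℕ) : (1 : Γ) ∈ Ball T n :=
  ⟨[], by simp, by simp, by simp⟩

theorem mul_mem {T : Set Γ} {m n : ℕ} {g h : Γ} (hg : g ∈ Ball T m) (hh : h ∈ Ball T n) :
    g * h ∈ Ball T (m + n) := by
  obtain ⟨l, h1, h2, rfl⟩ := hg
  obtain ⟨l', h1', h2', rfl⟩ := hh
  refine ⟨l ++ l', by rw [List.length_append]; omega, ?_, by rw [List.prod_append]⟩
  intro s hs
  rcases List.mem_append.1 hs with hs | hs
  · exact h2 s hs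
  · exact h2' s hs

theorem inv_mem {T : Set Γ} {n : ℕ} {g : Γ} (hg : g ∈ Ball T n) : g⁻¹ ∈ Ball T n := by
  obtain ⟨l, h1, h2, rfl⟩ := hg
  refine ⟨(l.map (fun x => x⁻¹)).reverse, by simpa using h1, ?_, by
    rw [List.prod_inv_reverse]⟩
  intro s hs
  rw [List.mem_reverse, List.mem_map] at hs
  obtain ⟨a, ha, rfl⟩ := hs
  rw [inv_inv]
  exact (h2 a ha).symm

theorem sub_ball {T T' : Set Γ} {m : ℕ} (h : ∀ s ∈ T, s ∈ Ball T' m) (n : ℕ) :
    Ball T n ⊆ Ball T' (m * n) := by
  rintro g ⟨l, h1, h2, rfl⟩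
  have key : ∀ l : List Γ, (∀ s ∈ l, s ∈ T ∨ s⁻¹ ∈ T) → l.prod ∈ Ball T' (m * l.length) := by
    intro l
    induction l with
    | nil => intro _; exact one_mem _ _
    | cons a l ih =>
      intro h3
      have ha : a ∈ Ball T' m := by
        rcases h3 a (by simp) with h4 | h4
        · exact h a h4
        · have := inv_mem (h _ h4)
          rwa [inv_inv] at this
      have := mul_mem ha (ih fun s hs => h3 s (List.mem_cons_of_mem _ hs))
      rw [List.prod_cons, List.length_cons, Nat.mul_succ, Nat.add_comm]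
      exact this
  obtain ⟨l', a1, a2, a3⟩ := key l h2
  exact ⟨l', a1.trans (Nat.mul_le_mul_left m h1), a2, a3⟩

theorem mem_one {T : Set Γ} {s : Γ} (hs : s ∈ T) : s ∈ Ball T 1 :=
  ⟨[s], by simp, by simpa using Or.inl hs, by simp⟩

theorem image_ball (f : Γ →* Δ) (T : Set Γ) (n : ℕ) : f '' Ball T n ⊆ Ball (f '' T) n := by
  rintro _ ⟨_, ⟨l, h1, h2, rfl⟩, rfl⟩
  refine ⟨l.map f, by simpa using h1, ?_, (map_list_prod f l).symm⟩
  intro s hs
  rw [List.mem_map] at hs
  obtain ⟨a, ha, rfl⟩ := hs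
  rcases h2 a ha with h3 | h3
  · exact Or.inl ⟨a, h3, rfl⟩
  · exact Or.inr ⟨a⁻¹, h3, map_inv f a⟩

theorem exists_ball {T : Set Γ} {g : Γ} (hg : g ∈ Subgroup.closure T) : ∃ n, g ∈ Ball T n := by
  induction hg using Subgroup.closure_induction with
  | mem x hx => exact ⟨1, mem_one hx⟩
  | one => exact ⟨0, one_mem _ _⟩
  | mul x y _ _ hx hy =>
    obtain ⟨m, hm⟩ := hx
    obtain ⟨n, hn⟩ := hy
    exact ⟨m + n, mul_mem hm hn⟩
  | inv x _ hx =>
    obtain ⟨m, hm⟩ := hx
    exact ⟨m, inv_mem hm⟩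

end C08

theorem ball_mono (T : Set Γ) {m n : ℕ} (h : m ≤ n) : Ball T m ⊆ Ball T n := by
  rintro g ⟨l, h1, h2, h3⟩
  exact ⟨l, h1.trans h, h2, h3⟩

theorem ball_fin (T : Finset Γ) (n : ℕ) : (Ball (T : Set Γ) n).Finite := by
  classical
  have hA : {s : Γ | s ∈ (T : Set Γ) ∨ s⁻¹ ∈ (T : Set Γ)}.Finite := by
    refine Set.Finite.subset ((T.finite_toSet).union ((T.finite_toSet).image (fun x => x⁻¹))) ?_
    rintro s (hs | hs)
    · exact Or.inl hs
    · exact Or.inr ⟨s⁻¹, hs, inv_inv s⟩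
  induction n with
  | zero =>
    refine Set.Finite.subset (Set.finite_singleton (1 : Γ)) ?_
    rintro g ⟨l, h1, -, rfl⟩
    have : l = [] := List.length_eq_zero_iff.1 (Nat.le_zero.1 h1)
    rw [this]
    simp
  | succ n ih =>
    refine Set.Finite.subset ((Set.finite_singleton (1 : Γ)).union (Set.Finite.image2
      (fun a b => a * b) hA ih)) ?_
    rintro g ⟨l, h1, h2, rfl⟩
    cases l with
    | nil => exact Or.inl (by simp)
    | cons a l =>
      refine Or.inr ⟨a, h2 a (by simp), l.prod, ⟨l, ?_, fun s hs =>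
        h2 s (List.mem_cons_of_mem _ hs), rfl⟩, ?_⟩
      · rw [List.length_cons] at h1
        omega
      · rw [List.prod_cons]

namespace C08

theorem exists_unif {T' : Set Γ} (hT' : Subgroup.closure T' = ⊤) (T : Finset Γ) :
    ∃ m, 1 ≤ m ∧ ∀ s ∈ (T : Set Γ), s ∈ Ball T' m := by
  classical
  induction T using Finset.induction_on with
  | empty => exact ⟨1, le_refl _, by simp⟩
  | insert a T _ ih =>
    obtain ⟨m, hm, h⟩ := ih
    obtain ⟨n, hn⟩ := exists_ball (T := T') (g := a) (by rw [hT']; trivial)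
    refine ⟨max m n, le_max_of_le_left hm, ?_⟩
    intro s hs
    rw [Finset.coe_insert, Set.mem_insert_iff] at hs
    rcases hs with rfl | hs
    · exact ball_mono T' (le_max_right m n) hn
    · exact ball_mono T' (le_max_left m n) (h s hs)

end C08

theorem exp_of_surjective (f : Γ →* Δ) (hf : Function.Surjective f) (h : ExpGrowth Δ) :
    ExpGrowth Γ := by
  classical
  obtain ⟨T, c, hc, H⟩ := h
  choose r hr using hf
  refine ⟨T.image r, c, hc, fun n => (H n).trans ?_⟩
  have hsub : Ball (T : Set Δ) n ⊆ f '' Ball ((T.image r : Finset Γ) : Set Γ) n := by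
    rintro g ⟨l, h1, h2, rfl⟩
    have key : ∀ l : List Δ, (∀ s ∈ l, s ∈ (T : Set Δ) ∨ s⁻¹ ∈ (T : Set Δ)) →
        ∃ l' : List Γ, l'.length = l.length ∧
          (∀ s ∈ l', s ∈ ((T.image r : Finset Γ) : Set Γ) ∨
            s⁻¹ ∈ ((T.image r : Finset Γ) : Set Γ)) ∧ f l'.prod = l.prod := by
      intro l
      induction l with
      | nil => intro _; exact ⟨[], rfl, by simp, by simp⟩
      | cons a l ih =>
        intro h3
        obtain ⟨l', a1, a2, a3⟩ := ih fun s hs => h3 s (List.mem_cons_of_mem _ hs)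
        rcases h3 a (by simp) with h4 | h4
        · refine ⟨r a :: l', by simp [a1], ?_, ?_⟩
          · intro s hs
            rcases List.mem_cons.1 hs with rfl | hs
            · left
              rw [Finset.coe_image]
              exact ⟨a, h4, rfl⟩
            · exact a2 s hs
          · rw [List.prod_cons, map_mul, a3, hr, List.prod_cons]
        · refine ⟨(r a⁻¹)⁻¹ :: l', by simp [a1], ?_, ?_⟩
          · intro s hs
            rcases List.mem_cons.1 hs with rfl | hs
            · right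
              rw [inv_inv, Finset.coe_image]
              exact ⟨a⁻¹, h4, rfl⟩
            · exact a2 s hs
          · rw [List.prod_cons, map_mul, a3, map_inv, hr, inv_inv, List.prod_cons]
    obtain ⟨l', a1, a2, a3⟩ := key l h2
    exact ⟨l'.prod, ⟨l', by rw [a1]; exact h1, a2, rfl⟩, a3⟩
  exact_mod_cast (Set.ncard_le_ncard hsub ((ball_fin _ n).image f)).trans
    (Set.ncard_image_le (ball_fin _ n))

theorem exp_of_injective (f : Δ →* Γ) (hf : Function.Injective f) (h : ExpGrowth Δ) :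
    ExpGrowth Γ := by
  classical
  obtain ⟨T, c, hc, H⟩ := h
  refine ⟨T.image f, c, hc, fun n => (H n).trans ?_⟩
  have h1 := C08.image_ball f (T : Set Δ) n
  rw [← Finset.coe_image] at h1
  have h2 := Set.ncard_le_ncard h1 (ball_fin _ n)
  rw [Set.ncard_image_of_injective _ hf] at h2
  exact_mod_cast h2

theorem exp_of_words (T : Finset Γ) (m : ℕ) (w : ∀ n : ℕ, (Fin n → Bool) → Γ)
    (hw : ∀ n, Function.Injective (w n)) (hT : ∀ n i, w n i ∈ Ball (T : Set Γ) (m * n)) :
    ExpGrowth Γ := by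
  classical
  refine ⟨(ball_fin T m).toFinset, 2, by norm_num, fun n => ?_⟩
  have key : ∀ n : ℕ, Ball (T : Set Γ) (m * n) ⊆
      Ball (((ball_fin T m).toFinset : Finset Γ) : Set Γ) n := by
    intro n
    induction n with
    | zero =>
      rintro g ⟨l, h1, -, rfl⟩
      have : l = [] := List.length_eq_zero_iff.1 (by omega)
      rw [this]
      exact C08.one_mem _ _
    | succ n ih =>
      rintro g ⟨l, h1, h2, rfl⟩
      rw [← List.take_append_drop m l, List.prod_append, Nat.add_comm n 1]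
      refine C08.mul_mem ?_ ?_
      · refine C08.mem_one ?_
        rw [Set.Finite.coe_toFinset]
        exact ⟨l.take m, List.length_take_le m l, fun s hs => h2 s (List.mem_of_mem_take hs), rfl⟩
      · apply ih
        refine ⟨l.drop m, ?_, fun s hs => h2 s (List.mem_of_mem_drop hs), rfl⟩
        rw [List.length_drop, Nat.sub_le_iff_le_add]
        rw [Nat.mul_succ] at h1
        exact h1
  have h1 : Set.range (w n) ⊆ Ball (((ball_fin T m).toFinset : Finset Γ) : Set Γ) n := by
    rintro _ ⟨i, rfl⟩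
    exact key n (hT n i)
  have h2 := Set.ncard_le_ncard h1 (ball_fin _ n)
  rw [← Set.image_univ, Set.ncard_image_of_injective _ (hw n), Set.ncard_univ,
    Nat.card_eq_fintype_card, Fintype.card_fun, Fintype.card_bool, Fintype.card_fin] at h2
  exact_mod_cast h2

theorem poly_all (h : PolyGrowth Γ) (T : Finset Γ) :
    ∃ d C : ℕ, ∀ n : ℕ, (Ball (T : Set Γ) n).ncard ≤ C * (n + 1) ^ d := by
  obtain ⟨T0, d, C, hT0, H⟩ := h
  obtain ⟨m, -, hm⟩ := C08.exists_unif hT0 T
  refine ⟨d, C * (m + 1) ^ d, fun n => ?_⟩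
  refine (Set.ncard_le_ncard (C08.sub_ball hm n) (ball_fin T0 _)).trans ((H _).trans ?_)
  rw [mul_assoc, ← mul_pow]
  refine Nat.mul_le_mul_left C (Nat.pow_le_pow_left ?_ d)
  nlinarith

theorem poly_of_finite [Finite Γ] : PolyGrowth Γ := by
  classical
  have := Fintype.ofFinite Γ
  refine ⟨Finset.univ, 0, Nat.card Γ, by simp, fun n => ?_⟩
  rw [pow_zero, mul_one, ← Set.ncard_univ]
  exact Set.ncard_le_ncard (Set.subset_univ _) Set.finite_univ

theorem poly_of_equiv (e : Γ ≃* Δ) (h : PolyGrowth Δ) : PolyGrowth Γ := by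
  classical
  obtain ⟨T, d, C, hT, H⟩ := h
  refine ⟨T.image e.symm, d, C, ?_, fun n => ?_⟩
  · have h1 := MonoidHom.map_closure (e.symm : Δ →* Γ) (T : Set Δ)
    rw [hT] at h1
    rw [Finset.coe_image]
    have h2 : Subgroup.map (e.symm : Δ →* Γ) ⊤ = ⊤ := by
      rw [← MonoidHom.range_eq_map]
      exact MonoidHom.range_eq_top.2 e.symm.surjective
    rw [h2] at h1
    exact h1.symm
  · have h1 := C08.image_ball (e : Γ →* Δ) (((T.image e.symm : Finset Γ)) : Set Γ) n
    have h2 : (e : Γ →* Δ) '' (((T.image e.symm : Finset Γ)) : Set Γ) = (T : Set Δ) := by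
      rw [Finset.coe_image, Set.image_image]
      simp
    rw [h2] at h1
    have h3 := Set.ncard_le_ncard h1 (ball_fin T n)
    rw [Set.ncard_image_of_injective _ (f := (e : Γ →* Δ)) e.injective] at h3
    exact h3.trans (H n)

theorem poly_of_embed (T : Finset Γ) (hT : Subgroup.closure (T : Set Γ) = ⊤) {n : ℕ}
    {Δ : Fin n → Type} [∀ i, Group (Δ i)] (π : ∀ i, Γ →* Δ i) (hΔ : ∀ i, PolyGrowth (Δ i))
    {Q : Type} [Group Q] [Finite Q] (π0 : Γ →* Q)
    (hinj : ∀ g : Γ, (∀ i, π i g = 1) → π0 g = 1 → g = 1) : PolyGrowth Γ := by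
  classical
  have h1 : ∀ i, ∃ d C : ℕ, ∀ r : ℕ, (Ball (((T.image (π i) : Finset (Δ i))) : Set (Δ i)) r).ncard ≤
      C * (r + 1) ^ d := fun i => poly_all (hΔ i) _
  choose d C H using h1
  refine ⟨T, ∑ i, d i, (∏ i, C i) * Nat.card Q, hT, fun r => ?_⟩
  have hsub : ∀ (i : Fin n) (g : Ball (T : Set Γ) r),
      π i g.1 ∈ Ball (((T.image (π i) : Finset (Δ i))) : Set (Δ i)) r := by
    intro i g
    rw [Finset.coe_image]
    exact C08.image_ball (π i) (T : Set Γ) r ⟨g.1, g.2, rfl⟩
  let Φ : Ball (T : Set Γ) r →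
      (∀ i, Ball (((T.image (π i) : Finset (Δ i))) : Set (Δ i)) r) × Q :=
    fun g => (fun i => ⟨π i g.1, hsub i g⟩, π0 g.1)
  have hΦ : Function.Injective Φ := by
    intro g g' hgg
    have e1 : ∀ i, π i g.1 = π i g'.1 := fun i =>
      congrArg Subtype.val (congrFun (congrArg Prod.fst hgg) i)
    have e2 : π0 g.1 = π0 g'.1 := congrArg Prod.snd hgg
    have e3 : g.1 * (g'.1)⁻¹ = 1 := by
      apply hinj
      · intro i
        rw [map_mul, map_inv, e1, mul_inv_cancel]
      · rw [map_mul, map_inv, e2, mul_inv_cancel]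
    exact Subtype.ext (mul_inv_eq_one.1 e3)
  have hfin : ∀ i, Finite (Ball (((T.image (π i) : Finset (Δ i))) : Set (Δ i)) r) :=
    fun i => (ball_fin _ r).to_subtype
  have h2 := Nat.card_le_card_of_injective Φ hΦ
  rw [Nat.card_prod, Nat.card_pi] at h2
  have h3 : (Ball (T : Set Γ) r).ncard = Nat.card (Ball (T : Set Γ) r) :=
    (Nat.card_coe_set_eq _).symm
  rw [h3]
  refine h2.trans ?_
  have h4 : ∏ i, Nat.card (Ball (((T.image (π i) : Finset (Δ i))) : Set (Δ i)) r) ≤
      ∏ i, (C i * (r + 1) ^ d i) := by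
    refine Finset.prod_le_prod' fun i _ => ?_
    rw [Nat.card_coe_set_eq]
    exact H i r
  rw [Finset.prod_mul_distrib, Finset.prod_pow_eq_pow_sum] at h4
  calc _ ≤ ((∏ i, C i) * (r + 1) ^ ∑ i, d i) * Nat.card Q := Nat.mul_le_mul_right _ h4
    _ = _ := by ring

theorem exp_all (h : ExpGrowth Γ) (T : Finset Γ) (hT : Subgroup.closure (T : Set Γ) = ⊤) :
    ∃ c : ℝ, 1 < c ∧ ∀ᶠ n : ℕ in Filter.atTop, c ^ n ≤ ((Ball (T : Set Γ) n).ncard : ℝ) := by
  obtain ⟨T0, c, hc, H⟩ := h
  obtain ⟨m, hm1, hm⟩ := C08.exists_unif hT T0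
  have hm0 : 0 < m := hm1
  have hc0 : (0 : ℝ) ≤ c := by linarith
  have h2m : ((2 * m : ℕ) : ℝ) ≠ 0 := by positivity
  have hroot : (c ^ (((2 * m : ℕ) : ℝ)⁻¹)) ^ (2 * m) = c :=
    Real.rpow_inv_natCast_pow hc0 (by omega)
  have hgt : 1 < c ^ (((2 * m : ℕ) : ℝ)⁻¹) := Real.one_lt_rpow hc (by positivity)
  refine ⟨c ^ (((2 * m : ℕ) : ℝ)⁻¹), hgt, ?_⟩
  filter_upwards [Filter.eventually_ge_atTop (2 * m)] with r hr
  have h1 : r ≤ (2 * m) * (r / m) := by
    have h2 := Nat.div_add_mod r m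
    have h3 := Nat.mod_lt r hm0
    nlinarith
  calc (c ^ (((2 * m : ℕ) : ℝ)⁻¹)) ^ r ≤ (c ^ (((2 * m : ℕ) : ℝ)⁻¹)) ^ ((2 * m) * (r / m)) :=
        pow_le_pow_right₀ hgt.le h1
    _ = c ^ (r / m) := by rw [pow_mul, hroot]
    _ ≤ ((Ball (T0 : Set Γ) (r / m)).ncard : ℝ) := H _
    _ ≤ ((Ball (T : Set Γ) r).ncard : ℝ) := by
        have h4 : Ball (T0 : Set Γ) (r / m) ⊆ Ball (T : Set Γ) r :=
          (C08.sub_ball hm _).trans (ball_mono _ (Nat.mul_div_le r m))
        exact_mod_cast Set.ncard_le_ncard h4 (ball_fin T r)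

end Pool.Agent.helper98.NIG
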