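import Pool.Agent.helper98.NIG.C07
import Pool.Agent.helper98.NIG.C08

/-!
# NIG-C09: the dichotomy for systems implies the dichotomy for all finitely generated groups of
piecewise shifts

PROOFS.
* `dich_gen`: `Gen.decomposition`. If some `(B i).G` has exponential growth use `exp_of_surjective`.
  Otherwise all have polynomial growth: `poly_of_embed` with `T` = the generators `A.S` as elements of
  `A.G` (`A.G` is the closure of `A.S`; `Subgroup.closure_closure_coe_preimage`).
* `dich_fg`: let `H ≤ PW b F` be finitely generated by the finite set `T`. All elements of `T` and their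
  inverses are in `PW b F`; let `ρ` be a common radius (`IsPW.mono`), `S = T ∪ T⁻¹ ∪ {1}`: a `Gen` with
  `A.G = H`.
-/

namespace Pool.Agent.helper98.NIG

variable {b : Base} {F : Type}

theorem dich_gen [Finite F] (h : ∀ A : Sys b F, ExpGrowth A.G ∨ PolyGrowth A.G) (A : Gen b F) :
    ExpGrowth A.G ∨ PolyGrowth A.G := by
  classical
  obtain ⟨n, B, π, Q, i1, i2, π0, hsurj, hinj⟩ := A.decomposition
  by_cases hexp : ∃ i, ExpGrowth (B i).G
  · obtain ⟨i, hi⟩ := hexp
    exact Or.inl (exp_of_surjective (π i) (hsurj i) hi)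
  · right
    have hpoly : ∀ i, PolyGrowth (B i).G := fun i =>
      (h (B i)).resolve_left fun hi => hexp ⟨i, hi⟩
    have hmem : ∀ s ∈ A.S, s ∈ A.G := fun s hs => Subgroup.subset_closure hs
    have hT : Subgroup.closure
        ((A.S.attach.image fun s => (⟨s.1, hmem s.1 s.2⟩ : A.G) : Finset A.G) : Set A.G) = ⊤ := by
      have h1 : ((A.S.attach.image fun s => (⟨s.1, hmem s.1 s.2⟩ : A.G) : Finset A.G) :
          Set A.G) = (fun g : A.G => (g : Equiv.Perm (Pt b F))) ⁻¹'
            (A.S : Set (Equiv.Perm (Pt b F))) := by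
        ext g
        rw [Finset.coe_image]
        constructor
        · rintro ⟨s, -, rfl⟩
          exact s.2
        · intro hg
          exact ⟨⟨g.1, hg⟩, Finset.mem_coe.2 (Finset.mem_attach _ _), rfl⟩
      rw [h1]
      exact Subgroup.closure_closure_coe_preimage (k := (A.S : Set (Equiv.Perm (Pt b F))))
    exact poly_of_embed _ hT π hpoly π0 hinj

theorem dich_fg [Finite F] (h : ∀ A : Sys b F, ExpGrowth A.G ∨ PolyGrowth A.G)
    (H : Subgroup (Equiv.Perm (Pt b F))) (hH : H ≤ PW b F) (hfg : H.FG) :
    ExpGrowth H ∨ PolyGrowth H := by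
  classical
  obtain ⟨T, hT⟩ := hfg
  have hTPW : ∀ t ∈ T, t ∈ PW b F := fun t ht =>
    hH (hT ▸ Subgroup.subset_closure (Finset.mem_coe.2 ht))
  have hρ : ∃ ρ, ∀ t ∈ T, PWr ρ t := by
    clear hT
    induction T using Finset.induction_on with
    | empty => exact ⟨0, by simp⟩
    | insert a T _ ih =>
      obtain ⟨ρ, hρ⟩ := ih fun t ht => hTPW t (Finset.mem_insert_of_mem ht)
      obtain ⟨σ, hσ⟩ := hTPW a (Finset.mem_insert_self a T)
      refine ⟨max ρ σ, fun t ht => ?_⟩
      rcases Finset.mem_insert.1 ht with rfl | ht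
      · exact ⟨hσ.1.mono (le_max_right _ _), hσ.2.mono (le_max_right _ _)⟩
      · exact ⟨(hρ t ht).1.mono (le_max_left _ _), (hρ t ht).2.mono (le_max_left _ _)⟩
  obtain ⟨ρ, hρ⟩ := hρ
  let S : Finset (Equiv.Perm (Pt b F)) := insert 1 (T ∪ T.image fun t => t⁻¹)
  have hS : ∀ s ∈ S, s = 1 ∨ s ∈ T ∨ s⁻¹ ∈ T := by
    intro s hs
    rcases Finset.mem_insert.1 hs with rfl | hs
    · exact Or.inl rfl
    · rcases Finset.mem_union.1 hs with hs | hs
      · exact Or.inr (Or.inl hs)
      · obtain ⟨t, ht, rfl⟩ := Finset.mem_image.1 hs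
        exact Or.inr (Or.inr (by rwa [inv_inv]))
  have hTS : ∀ t ∈ T, t ∈ S := fun t ht =>
    Finset.mem_insert_of_mem (Finset.mem_union_left _ ht)
  have hTS' : ∀ t ∈ T, t⁻¹ ∈ S := fun t ht =>
    Finset.mem_insert_of_mem (Finset.mem_union_right _ (Finset.mem_image_of_mem _ ht))
  let A : Gen b F :=
    { S := S
      ρ := ρ
      pw := by
        intro s hs
        rcases hS s hs with rfl | hs | hs
        · exact ⟨IsPW.one.mono (Nat.zero_le _), IsPW.one.mono (Nat.zero_le _)⟩
        · exact hρ s hs
        · have h1 := hρ _ hs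
          exact ⟨h1.2, h1.1⟩
      one_mem := Finset.mem_insert_self _ _
      inv_mem := by
        intro s hs
        rcases hS s hs with rfl | hs | hs
        · rw [inv_one]
          exact Finset.mem_insert_self _ _
        · exact hTS' s hs
        · exact hTS _ hs }
  have hAG : A.G = H := by
    rw [← hT]
    apply le_antisymm
    · refine (Subgroup.closure_le _).2 fun s hs => ?_
      rcases hS s hs with rfl | hs | hs
      · exact Subgroup.one_mem _
      · exact Subgroup.subset_closure hs
      · have h1 : s⁻¹ ∈ Subgroup.closure (T : Set (Equiv.Perm (Pt b F))) :=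
          Subgroup.subset_closure hs
        have h2 := Subgroup.inv_mem _ h1
        rwa [inv_inv] at h2
    · exact Subgroup.closure_mono fun t ht => hTS t ht
  have h3 := dich_gen h A
  rw [hAG] at h3
  exact h3

end Pool.Agent.helper98.NIG
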