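import Pool.Agent.helper98.NIG.D01

/-!
# NIG-D02: codings from itineraries

Data: a permutation `τ ∈ PW b F` of `Pt b F`, a clopen `τ`-invariant set `D`, a letter function
`L : Pt b F → α` which depends on a window, `X ⊆ (ℤ → α)` and its shift `T : X ≃ₜ X`.
If every itinerary `i ↦ L ((τ ^ i) z)`, `z ∈ D`, is in `X`, itineraries are injective on `D`, and all points of
`X` are itineraries, then `(X, T)` has a coding.

PROOF.  `e x` = the unique `z ∈ D` with itinerary `x`. `e (T x) = τ (e x)` (the itinerary of `τ z` is the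
shift of that of `z`), `e (T.symm x) = τ⁻¹ (e x)`. `range e = D`: clopen. `step`, `step_symm`: `τ` is a
piecewise shift. `inv_cont`: a neighbourhood of `x` in `X` contains all `x'` which agree with `x` at
finitely many `i` (product of discrete spaces); `L ((τ ^ i) z)` depends on a window of `z` (`τ ^ i ∈ PW`,
`agree_map`). `cont`: let `N`, `x` be given and suppose that `Agree N (e x) (e x')` does not hold eventually in
`𝓝 x`. Then there is an ultrafilter `U ≤ 𝓝 x` with `¬ Agree N (e x) (e x')` for `U`-almost all `x'`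
(`Filter.Eventually`, `Ultrafilter.of`). By `exists_ulim` `e x' → z` along `U` for some `z : Pt b F`; `z ∈ D`
(clopen, all `e x' ∈ D`); for every `i` the `i`-th letter of the itinerary of `z` is the limit of `x' i`
along `U`, which is `x i` (`U ≤ 𝓝 x`, discrete). So the itinerary of `z` is `x`, `z = e x` (injective), and
`Agree N (e x') z` eventually: contradiction.
-/

namespace Pool.Agent.helper98.NIG

open Topology

variable {b : Base} {F : Type}

/-- A window-dependent function of `(τ ^ i) z` depends on a window of `z`. -/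
theorem D02_win {α : Type*} {τ : Equiv.Perm (Pt b F)} (hτ : τ ∈ PW b F) {L : Pt b F → α}
    (hL : ∃ N : ℕ, ∀ z z' : Pt b F, Agree N z z' → L z = L z') (i : ℤ) :
    ∃ N : ℕ, ∀ z z' : Pt b F, Agree N z z' → L ((τ ^ i) z) = L ((τ ^ i) z') := by
  obtain ⟨N, hN⟩ := hL
  obtain ⟨ρ, hρ, -⟩ := (PW b F).zpow_mem hτ i
  exact ⟨ρ + N, fun z z' h => hN _ _ (agree_map hρ h)⟩

theorem D02_win_fin {α : Type*} {τ : Equiv.Perm (Pt b F)} (hτ : τ ∈ PW b F) {L : Pt b F → α}
    (hL : ∃ N : ℕ, ∀ z z' : Pt b F, Agree N z z' → L z = L z') {I : Set ℤ} (hI : I.Finite) :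
    ∃ N : ℕ, ∀ z z' : Pt b F, Agree N z z' → ∀ i ∈ I, L ((τ ^ i) z) = L ((τ ^ i) z') := by
  classical
  choose N hN using fun i => D02_win hτ hL i
  refine ⟨hI.toFinset.sup N, fun z z' h i hi => hN i z z' (h.mono ?_)⟩
  exact Finset.le_sup (f := N) (hI.mem_toFinset.2 hi)

/-- limits of points of `D` along an ultrafilter: the point is in `D` and the letters converge -/
theorem D02_lim {α : Type*} {ι : Type*} {τ : Equiv.Perm (Pt b F)} (hτ : τ ∈ PW b F)
    {D : Set (Pt b F)} (hD : ∃ N : ℕ, ∀ z z' : Pt b F, Agree N z z' → (z ∈ D ↔ z' ∈ D))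
    {L : Pt b F → α} (hL : ∃ N : ℕ, ∀ z z' : Pt b F, Agree N z z' → L z = L z')
    {U : Ultrafilter ι} {u : ι → Pt b F} {z : Pt b F}
    (hu : ∀ N : ℕ, ∀ᶠ n in (U : Filter ι), Agree N (u n) z) (huD : ∀ n, u n ∈ D)
    {x : ℤ → α} (hx : ∀ i : ℤ, ∀ᶠ n in (U : Filter ι), L ((τ ^ i) (u n)) = x i) :
    z ∈ D ∧ ∀ i : ℤ, L ((τ ^ i) z) = x i := by
  constructor
  · obtain ⟨N, hN⟩ := hD
    obtain ⟨n, hn⟩ := (hu N).exists
    exact (hN _ _ hn).1 (huD n)
  · intro i
    obtain ⟨N, hN⟩ := D02_win hτ hL i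
    obtain ⟨n, hn, hn'⟩ := ((hu N).and (hx i)).exists
    rw [← hN _ _ hn, hn']

theorem exists_coding [Finite F] {α : Type} [TopologicalSpace α] [DiscreteTopology α]
    (X : Set (ℤ → α)) (T : X ≃ₜ X) (hT : ∀ (x : X) (i : ℤ), (T x).1 i = x.1 (i + 1))
    (τ : Equiv.Perm (Pt b F)) (hτ : τ ∈ PW b F) (D : Set (Pt b F))
    (hD : ∃ N : ℕ, ∀ z z' : Pt b F, Agree N z z' → (z ∈ D ↔ z' ∈ D))
    (hinv : ∀ z, τ z ∈ D ↔ z ∈ D)
    (L : Pt b F → α) (hL : ∃ N : ℕ, ∀ z z' : Pt b F, Agree N z z' → L z = L z')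
    (hmem : ∀ z ∈ D, (fun i : ℤ => L ((τ ^ i) z)) ∈ X)
    (hinj : ∀ z ∈ D, ∀ z' ∈ D, (∀ i : ℤ, L ((τ ^ i) z) = L ((τ ^ i) z')) → z = z')
    (hsurj : ∀ x ∈ X, ∃ z ∈ D, ∀ i : ℤ, L ((τ ^ i) z) = x i) :
    Nonempty (Coding b F T) := by
  classical
  have hex : ∀ x : X, ∃ z, z ∈ D ∧ ∀ i : ℤ, L ((τ ^ i) z) = x.1 i := fun x => by
    obtain ⟨z, hz, h⟩ := hsurj x.1 x.2
    exact ⟨z, hz, h⟩
  choose e heD he using hex
  have huniq : ∀ (x : X) (z : Pt b F), z ∈ D → (∀ i : ℤ, L ((τ ^ i) z) = x.1 i) → e x = z := by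
    intro x z hz h
    exact hinj _ (heD x) _ hz fun i => by rw [he x i, h i]
  have hTe : ∀ x, e (T x) = τ (e x) := by
    intro x
    refine huniq _ _ ((hinv _).2 (heD x)) fun i => ?_
    rw [hT, ← he x (i + 1), zpow_add_one, Equiv.Perm.mul_apply]
  have hTs : ∀ x, e (T.symm x) = τ.symm (e x) := by
    intro x
    have h := hTe (T.symm x)
    rw [T.apply_symm_apply] at h
    rw [h, τ.symm_apply_apply]
  have hinj' : Function.Injective e := by
    intro x x' h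
    apply Subtype.ext
    funext i
    rw [← he x i, ← he x' i, h]
  have hrange : ∀ z, z ∈ Set.range e ↔ z ∈ D := by
    intro z
    constructor
    · rintro ⟨x, rfl⟩
      exact heD x
    · intro hz
      exact ⟨⟨_, hmem z hz⟩, huniq _ _ hz fun i => rfl⟩
  obtain ⟨ρ, hρ, hρ'⟩ := hτ
  refine ⟨⟨e, hinj', ?_, ?_, ?_, ?_, ?_⟩⟩
  · obtain ⟨N, hN⟩ := hD
    refine ⟨N, fun x x' h => ?_⟩
    rw [hrange, hrange]
    exact hN x x' h
  · intro N y
    by_contra hcon
    have hfr : ∃ᶠ y' in 𝓝 y, ¬ Agree N (e y) (e y') := Filter.not_eventually.1 hcon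
    have hne : (𝓝 y ⊓ Filter.principal {y' | ¬ Agree N (e y) (e y')}).NeBot :=
      Filter.frequently_mem_iff_neBot.1 hfr
    let U : Ultrafilter X := Ultrafilter.of (𝓝 y ⊓ Filter.principal {y' | ¬ Agree N (e y) (e y')})
    have hU : (U : Filter X) ≤ 𝓝 y ⊓ Filter.principal {y' | ¬ Agree N (e y) (e y')} :=
      Ultrafilter.of_le _
    have hU1 : (U : Filter X) ≤ 𝓝 y := hU.trans inf_le_left
    have hU2 : ∀ᶠ y' in (U : Filter X), ¬ Agree N (e y) (e y') :=
      Filter.le_principal_iff.1 (hU.trans inf_le_right)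
    obtain ⟨z, hz⟩ := exists_ulim U e
    have hlim : ∀ i : ℤ, ∀ᶠ y' in (U : Filter X), L ((τ ^ i) (e y')) = y.1 i := by
      intro i
      have h1 : ∀ᶠ y' in 𝓝 y, y'.1 i = y.1 i := by
        have hc : Continuous fun y' : X => y'.1 i := (continuous_apply i).comp continuous_subtype_val
        have h2 : {a : α | a = y.1 i} ∈ 𝓝 (y.1 i) := by
          rw [nhds_discrete]
          exact rfl
        exact hc.continuousAt.eventually h2
      have h3 : ∀ᶠ y' in (U : Filter X), y'.1 i = y.1 i := hU1 h1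
      filter_upwards [h3] with y' h
      rw [he y' i]
      exact h
    obtain ⟨hzD, hzL⟩ := D02_lim ⟨ρ, hρ, hρ'⟩ hD hL hz heD hlim
    have hez : e y = z := huniq y z hzD hzL
    obtain ⟨y', h1, h2⟩ := ((hz N).and hU2).exists
    apply h2
    rw [hez]
    exact h1.symm
  · intro y U hU
    rw [nhds_subtype_eq_comap, Filter.mem_comap] at hU
    obtain ⟨V, hV, hVU⟩ := hU
    rw [nhds_pi, Filter.mem_pi] at hV
    obtain ⟨I, hI, t, ht, hV⟩ := hV
    obtain ⟨N, hN⟩ := D02_win_fin (τ := τ) ⟨ρ, hρ, hρ'⟩ hL hI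
    refine ⟨N, fun y' hy' => hVU (hV ?_)⟩
    intro i hi
    have h1 : y'.1 i = y.1 i := by
      rw [← he y' i, ← he y i]
      exact (hN _ _ hy' i hi).symm
    rw [h1]
    exact mem_of_mem_nhds (ht i)
  · refine ⟨ρ, fun y => ?_⟩
    obtain ⟨n, hn, H⟩ := hρ (e y)
    refine ⟨n, hn, fun y' hy' => ?_⟩
    rw [hTe, hTe]
    exact H _ hy'
  · refine ⟨ρ, fun y => ?_⟩
    obtain ⟨n, hn, H⟩ := hρ' (e y)
    refine ⟨n, hn, fun y' hy' => ?_⟩
    rw [hTs, hTs]
    exact H _ hy'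

/-- Surjectivity by compactness: it is enough that all windows of the points of `X` occur. -/
theorem surj_of_windows [Finite F] {α : Type} (X : Set (ℤ → α))
    (τ : Equiv.Perm (Pt b F)) (hτ : τ ∈ PW b F) (D : Set (Pt b F))
    (hD : ∃ N : ℕ, ∀ z z' : Pt b F, Agree N z z' → (z ∈ D ↔ z' ∈ D))
    (L : Pt b F → α) (hL : ∃ N : ℕ, ∀ z z' : Pt b F, Agree N z z' → L z = L z')
    (hw : ∀ x ∈ X, ∀ n : ℕ, ∃ z ∈ D, ∀ i : ℤ, |i| ≤ n → L ((τ ^ i) z) = x i) :
    ∀ x ∈ X, ∃ z ∈ D, ∀ i : ℤ, L ((τ ^ i) z) = x i := by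
  intro x hx
  choose z hzD hz using fun n => hw x hx n
  let U : Ultrafilter ℕ := Filter.hyperfilter ℕ
  obtain ⟨z0, hz0⟩ := exists_ulim U z
  refine ⟨z0, D02_lim hτ hD hL hz0 hzD fun i => ?_⟩
  have h1 : ∀ᶠ n in (Filter.atTop : Filter ℕ), L ((τ ^ i) (z n)) = x i := by
    refine (Filter.eventually_ge_atTop i.natAbs).mono fun n hn => hz n i ?_
    rw [Int.abs_eq_natAbs]
    exact_mod_cast hn
  exact Nat.hyperfilter_le_atTop h1

end Pool.Agent.helper98.NIG
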