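import Pool.Agent.helper98.NIG.B01
import Pool.Agent.helper98.NIG.D02

/-!
# NIG-D03: the Chacon subshift is coded over `chaconBase`

Letters: `false = 0`, `true = 1`. `chSubst 0 = 0010`, `chSubst 1 = 1`. `B k = chWord^[k] [false]`:
`B 0 = 0`, `B (k+1) = B k ++ B k ++ [1] ++ B k` (`flatMap` of an append; prove by induction on `k` that
`chWord^[k]` is multiplicative: `chWord^[k] (u ++ v) = chWord^[k] u ++ chWord^[k] v`,
`chWord^[k] [true] = [true]`, `chWord^[k+1] [false] = chWord^[k] [false, false, true, false]`).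

The point `(y, f)` of the tower: `y n` says whether the `n`-th zero is followed by a one, `f` says whether we
stand at the zero number `0` (`f = false`) or at the one after it (`f = true`, needs `y 0 = true`).
`chT (y, false) = (y, true)` if `y 0`, `(sh 1 y, false)` otherwise; `chT (y, true) = (sh 1 y, false)`
if `y 0`; the points `(y, true)` with `y 0 = false` are not in `chD` and are fixed.

PROOFS.
* `chT_mem_PW`: radius `1`: all cases depend on `y 0`, resp. `y (-1)`.
* `chD`: invariant and clopen (window `0`).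
* `ch_inj`: let `z, z' ∈ chD` have the same itineraries (`L z = z.2`). For every `w ∈ chD` the letter `L w = w.2`,
  and `w.1 0 = true` iff `w.2 = true` or `(chT w).2 = true`. So by induction on `|i|` (both signs; for the
  negative direction: `w' = chT⁻¹ w`: the displacement of `chT⁻¹` at `w` is `0` if `w.2 = true`, and `-1`
  if `w.2 = false`, both read off the letter `w.2`) we have integers `n_i` (the same for `z` and `z'`)
  with `(chT ^ i) z = (sh (n_i) z.1, ·)`, `(chT ^ i) z' = (sh (n_i) z'.1, ·)`, and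
  `z.1 (n_i) = z'.1 (n_i)`. `n_(i+1) - n_i ∈ {0, 1}` and it is `1` for one of two consecutive `i`, so
  every integer is some `n_i`: `z.1 = z'.1`.
* words of the tower: for `a ≤ c` let `W a c` = the concatenation over `a ≤ i ≤ c` of `[0]` or `[0, 1]`,
  according to `tau3 i = false, true`. `B k = W 1 (3^k - 1) ++ [false]`: induction, with
  `tau3 (i + 3^k) = tau3 i = tau3 (i + 2 * 3^k)` for `0 < i < 3^k` (`tau3_eq` or `chaconBase.loc`),
  `tau3 (3^k) = false`, `tau3 (2 * 3^k) = true` (`tau3_eq`).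
* `ch_mem`: let `z = (y, f) ∈ chD`, and a window `[i, i + n)` of its itinerary. The positions
  `(chT ^ j) z`, `i ≤ j < i + n`, are at heights `n_j` with `|n_j| ≤ M := |i| + n`. By the definition of the hull
  there is `m` with `|m| > M + 1` and `y k = tau3 (k - m)` for `|k| ≤ M + 1`. We may assume that `k - m > 0` for all
  `|k| ≤ M + 1`: otherwise `k - m < 0` for all of them (`|m| > M + 1`) and we replace `m` by
  `m - 3^K` with `3^K > M + 1 + |m|` and... (`tau3 (x + 3^K) = tau3 x` for `-3^(K-1) < x < 0`, by `loc`). So the window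
  of the itinerary is an infix of `W (−M−m) (M−m)`, with `1 ≤ -M-m`, hence of `B k` for `3^k > M - m + 1`.
* `ch_windows` (for `surj_of_windows`): `B k` is the itinerary, read at the times `0 ≤ j < |B k|`, of the
  point `(sh 1 (sg h), false)` (`skel n = tau3 n` for `n ≥ 1`). Given `x ∈ X` and `n`, the window
  `x [-n, n]` is an infix of some `B k`, at index `j0` say: `z = (chT ^ (j0 + n)) (sh 1 (sg h), false)`.
-/

namespace Pool.Agent.helper98.NIG

/-- The Chacon substitution `0 ↦ 0010`, `1 ↦ 1` on letters. -/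
def chSubst : Bool → List Bool
  | false => [false, false, true, false]
  | true => [true]

/-- The Chacon substitution on words. -/
def chWord (w : List Bool) : List Bool := w.flatMap chSubst

/-- The Chacon subshift: all finite windows occur in some `σ^k(0)`, i.e. in `σ^∞(0)`. -/
def ChaconShift : Set (ℤ → Bool) :=
  {x | ∀ (i : ℤ) (n : ℕ), ∃ k : ℕ, (List.ofFn fun m : Fin n => x (i + m)) <:+: chWord^[k] [false]}

/-- The tower map. -/
def chTfun (z : Pt chaconBase Bool) : Pt chaconBase Bool :=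
  match z.2, z.1.1 0 with
  | false, false => (sh 1 z.1, false)
  | false, true => (z.1, true)
  | true, true => (sh 1 z.1, false)
  | true, false => z

/-- The inverse of the tower map. -/
def chTinv (z : Pt chaconBase Bool) : Pt chaconBase Bool :=
  match z.2, z.1.1 0, z.1.1 (-1) with
  | true, true, _ => (z.1, false)
  | true, false, _ => z
  | false, _, true => (sh (-1) z.1, true)
  | false, _, false => (sh (-1) z.1, false)

private theorem chF_ff (y : chaconBase.Hull) (h : y.1 0 = false) :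
    chTfun (y, false) = (sh 1 y, false) := by
  simp [chTfun, h]

private theorem chF_ft (y : chaconBase.Hull) (h : y.1 0 = true) :
    chTfun (y, false) = (y, true) := by
  simp [chTfun, h]

private theorem chF_tt (y : chaconBase.Hull) (h : y.1 0 = true) :
    chTfun (y, true) = (sh 1 y, false) := by
  simp [chTfun, h]

private theorem chF_tf (y : chaconBase.Hull) (h : y.1 0 = false) :
    chTfun (y, true) = (y, true) := by
  simp [chTfun, h]

private theorem chI_tt (y : chaconBase.Hull) (h : y.1 0 = true) :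
    chTinv (y, true) = (y, false) := by
  simp [chTinv, h]

private theorem chI_tf (y : chaconBase.Hull) (h : y.1 0 = false) :
    chTinv (y, true) = (y, true) := by
  simp [chTinv, h]

private theorem chI_ft (y : chaconBase.Hull) (h : y.1 (-1) = true) :
    chTinv (y, false) = (sh (-1) y, true) := by
  simp [chTinv, h]

private theorem chI_ff (y : chaconBase.Hull) (h : y.1 (-1) = false) :
    chTinv (y, false) = (sh (-1) y, false) := by
  simp [chTinv, h]

private theorem sh_neg_one_one (y : chaconBase.Hull) : sh (-1) (sh 1 y) = y := by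
  rw [sh_sh]; simp

private theorem sh_one_neg_one (y : chaconBase.Hull) : sh 1 (sh (-1) y) = y := by
  rw [sh_sh]; simp

theorem chT_left (z : Pt chaconBase Bool) : chTinv (chTfun z) = z := by
  obtain ⟨y, f⟩ := z
  cases f <;> cases h : y.1 0
  · rw [chF_ff y h, chI_ff _ (by simpa using h), sh_neg_one_one]
  · rw [chF_ft y h, chI_tt y h]
  · rw [chF_tf y h, chI_tf y h]
  · rw [chF_tt y h, chI_ft _ (by simpa using h), sh_neg_one_one]

theorem chT_right (z : Pt chaconBase Bool) : chTfun (chTinv z) = z := by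
  obtain ⟨y, f⟩ := z
  cases f
  · cases h : y.1 (-1)
    · rw [chI_ff y h, chF_ff _ (by simpa using h), sh_one_neg_one]
    · rw [chI_ft y h, chF_tt _ (by simpa using h), sh_one_neg_one]
  · cases h : y.1 0
    · rw [chI_tf y h, chF_tf y h]
    · rw [chI_tt y h, chF_ft y h]

/-- The tower map as a permutation. -/
def chT : Equiv.Perm (Pt chaconBase Bool) := ⟨chTfun, chTinv, chT_left, chT_right⟩

/-- The domain of the tower. -/
def chD : Set (Pt chaconBase Bool) := {z | z.2 = true → z.1.1 0 = true}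

private theorem isPW_chTfun : IsPW 1 chTfun := by
  rintro ⟨y, f⟩
  have key : ∀ x' : Pt chaconBase Bool, Agree 1 (y, f) x' → x'.2 = f ∧ x'.1.1 0 = y.1 0 :=
    fun x' hx' => ⟨hx'.1.symm, (hx'.2 0 (by simp)).symm⟩
  cases f <;> cases h : y.1 0
  · refine ⟨1, by simp, fun x' hx' => ?_⟩
    obtain ⟨y', f'⟩ := x'
    obtain ⟨h1, h2⟩ := key _ hx'
    simp only at h1 h2
    subst h1
    rw [chF_ff y h, chF_ff y' (h2.trans h)]
    exact ⟨rfl, rfl⟩
  · refine ⟨0, by simp, fun x' hx' => ?_⟩
    obtain ⟨y', f'⟩ := x'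
    obtain ⟨h1, h2⟩ := key _ hx'
    simp only at h1 h2
    subst h1
    rw [chF_ft y h, chF_ft y' (h2.trans h)]
    exact ⟨(sh_zero y').symm, rfl⟩
  · refine ⟨0, by simp, fun x' hx' => ?_⟩
    obtain ⟨y', f'⟩ := x'
    obtain ⟨h1, h2⟩ := key _ hx'
    simp only at h1 h2
    subst h1
    rw [chF_tf y h, chF_tf y' (h2.trans h)]
    exact ⟨(sh_zero y').symm, rfl⟩
  · refine ⟨1, by simp, fun x' hx' => ?_⟩
    obtain ⟨y', f'⟩ := x'
    obtain ⟨h1, h2⟩ := key _ hx'
    simp only at h1 h2
    subst h1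
    rw [chF_tt y h, chF_tt y' (h2.trans h)]
    exact ⟨rfl, rfl⟩

private theorem isPW_chTinv : IsPW 1 chTinv := by
  rintro ⟨y, f⟩
  have key : ∀ x' : Pt chaconBase Bool, Agree 1 (y, f) x' →
      x'.2 = f ∧ x'.1.1 0 = y.1 0 ∧ x'.1.1 (-1) = y.1 (-1) :=
    fun x' hx' => ⟨hx'.1.symm, (hx'.2 0 (by simp)).symm, (hx'.2 (-1) (by simp)).symm⟩
  cases f
  · cases h : y.1 (-1)
    · refine ⟨-1, by simp, fun x' hx' => ?_⟩
      obtain ⟨y', f'⟩ := x'
      obtain ⟨h1, h2, h3⟩ := key _ hx'
      simp only at h1 h2 h3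
      subst h1
      rw [chI_ff y h, chI_ff y' (h3.trans h)]
      exact ⟨rfl, rfl⟩
    · refine ⟨-1, by simp, fun x' hx' => ?_⟩
      obtain ⟨y', f'⟩ := x'
      obtain ⟨h1, h2, h3⟩ := key _ hx'
      simp only at h1 h2 h3
      subst h1
      rw [chI_ft y h, chI_ft y' (h3.trans h)]
      exact ⟨rfl, rfl⟩
  · cases h : y.1 0
    · refine ⟨0, by simp, fun x' hx' => ?_⟩
      obtain ⟨y', f'⟩ := x'
      obtain ⟨h1, h2, h3⟩ := key _ hx'
      simp only at h1 h2 h3
      subst h1
      rw [chI_tf y h, chI_tf y' (h2.trans h)]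
      exact ⟨(sh_zero y').symm, rfl⟩
    · refine ⟨0, by simp, fun x' hx' => ?_⟩
      obtain ⟨y', f'⟩ := x'
      obtain ⟨h1, h2, h3⟩ := key _ hx'
      simp only at h1 h2 h3
      subst h1
      rw [chI_tt y h, chI_tt y' (h2.trans h)]
      exact ⟨(sh_zero y').symm, rfl⟩

theorem chT_mem_PW : chT ∈ PW chaconBase Bool :=
  ⟨1, isPW_chTfun, isPW_chTinv⟩

theorem chD_inv (z : Pt chaconBase Bool) : chT z ∈ chD ↔ z ∈ chD := by
  obtain ⟨y, f⟩ := z
  change chTfun (y, f) ∈ chD ↔ (y, f) ∈ chD
  cases f <;> cases h : y.1 0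
  · rw [chF_ff y h]; simp [chD]
  · rw [chF_ft y h]; simp [chD, h]
  · rw [chF_tf y h]
  · rw [chF_tt y h]; simp [chD, h]

theorem ch_zero (u : Pt chaconBase Bool) (hu : u ∈ chD) :
    u.1.1 0 = (u.2 || (chT u).2) := by
  obtain ⟨y, f⟩ := u
  change y.1 0 = (f || (chTfun (y, f)).2)
  cases f <;> cases h : y.1 0
  · rw [chF_ff y h]; rfl
  · rw [chF_ft y h]; rfl
  · exact absurd (hu rfl) (by rw [h]; simp)
  · rfl

theorem ch_disp (u : Pt chaconBase Bool) (hu : u ∈ chD) :
    (chT u).1 = sh (if (chT u).2 = true then 0 else 1) u.1 := by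
  obtain ⟨y, f⟩ := u
  change (chTfun (y, f)).1 = sh (if (chTfun (y, f)).2 = true then 0 else 1) y
  cases f <;> cases h : y.1 0
  · rw [chF_ff y h]; simp
  · rw [chF_ft y h]; simp
  · exact absurd (hu rfl) (by rw [h]; simp)
  · rw [chF_tt y h]; simp

theorem ch_next (u : Pt chaconBase Bool) (hu : u ∈ chD) (h2 : u.2 = true) :
    (chT u).2 = false := by
  obtain ⟨y, f⟩ := u
  simp only at h2
  subst h2
  have h : y.1 0 = true := hu rfl
  change (chTfun (y, true)).2 = false
  rw [chF_tt y h]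

theorem ch_succ (z : Pt chaconBase Bool) (i : ℤ) :
    (chT ^ (i + 1)) z = chT ((chT ^ i) z) := by
  rw [add_comm, zpow_add, zpow_one]
  rfl

theorem chD_zpow (z : Pt chaconBase Bool) (hz : z ∈ chD) (i : ℤ) : (chT ^ i) z ∈ chD := by
  induction i using Int.induction_on with
  | zero => simpa using hz
  | succ n ih =>
    rw [ch_succ, chD_inv]
    exact ih
  | pred n ih =>
    rw [← chD_inv, ← ch_succ, sub_add_cancel]
    exact ih

/-- one step upwards or downwards in the addresses -/
theorem ch_step (z : Pt chaconBase Bool) (hz : z ∈ chD) (i m : ℤ)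
    (h : ((chT ^ i) z).1 = sh m z.1) :
    (((chT ^ (i + 1)) z).2 = false → ((chT ^ (i + 1)) z).1 = sh (m + 1) z.1) ∧
    (((chT ^ (i + 1)) z).2 = true → ((chT ^ (i + 1 + 1)) z).1 = sh (m + 1) z.1) ∧
    (((chT ^ i) z).2 = false → ((chT ^ (i - 1)) z).1 = sh (m - 1) z.1) ∧
    (((chT ^ i) z).2 = true → ((chT ^ (i - 1 - 1)) z).1 = sh (m - 1) z.1) := by
  have hd : ∀ j : ℤ, ((chT ^ (j + 1)) z).1 =
      sh (if ((chT ^ (j + 1)) z).2 = true then 0 else 1) ((chT ^ j) z).1 := by
    intro j
    have := ch_disp _ (chD_zpow z hz j)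
    rw [← ch_succ] at this
    exact this
  have hn : ∀ j : ℤ, ((chT ^ j) z).2 = true → ((chT ^ (j + 1)) z).2 = false := by
    intro j hj
    rw [ch_succ]
    exact ch_next _ (chD_zpow z hz j) hj
  have hb : ∀ j : ℤ, ((chT ^ j) z).1 =
      sh (if ((chT ^ j) z).2 = true then 0 else 1) ((chT ^ (j - 1)) z).1 := by
    intro j
    have := hd (j - 1)
    rwa [sub_add_cancel] at this
  refine ⟨fun h1 => ?_, fun h1 => ?_, fun h1 => ?_, fun h1 => ?_⟩
  · rw [hd i, h1, if_neg (by simp), h, sh_sh, add_comm]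
  · rw [hd (i + 1), hn (i + 1) h1, if_neg (by simp), hd i, h1, if_pos rfl, h, sh_zero, sh_sh,
      add_comm]
  · have h2 := hb i
    rw [h1, if_neg (by simp), h] at h2
    have h3 := congrArg (sh (-1)) h2
    rw [sh_neg_one_one, sh_sh] at h3
    rw [← h3]
    congr 1
    ring
  · have h2 := hb i
    rw [h1, if_pos rfl, sh_zero, h] at h2
    have h4 : ((chT ^ (i - 1)) z).2 = false := by
      by_contra hc
      have h5 := hn (i - 1) (by simpa using hc)
      rw [sub_add_cancel, h1] at h5
      exact absurd h5 (by simp)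
    have h6 := hb (i - 1)
    rw [h4, if_neg (by simp), ← h2] at h6
    have h3 := congrArg (sh (-1)) h6
    rw [sh_neg_one_one, sh_sh] at h3
    rw [← h3]
    congr 1
    ring

theorem ch_inj (z : Pt chaconBase Bool) (hz : z ∈ chD) (z' : Pt chaconBase Bool) (hz' : z' ∈ chD)
    (h : ∀ i : ℤ, ((chT ^ i) z).2 = ((chT ^ i) z').2) : z = z' := by
  have hR : ∀ m : ℤ, ∃ i : ℤ, ((chT ^ i) z).1 = sh m z.1 ∧ ((chT ^ i) z').1 = sh m z'.1 := by
    intro m
    induction m using Int.induction_on with
    | zero => exact ⟨0, by simp, by simp⟩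
    | succ n ih =>
      obtain ⟨i, h1, h2⟩ := ih
      obtain ⟨a1, a2, -, -⟩ := ch_step z hz i n h1
      obtain ⟨b1, b2, -, -⟩ := ch_step z' hz' i n h2
      cases hc : ((chT ^ (i + 1)) z).2
      · exact ⟨i + 1, a1 hc, b1 (by rw [← h]; exact hc)⟩
      · exact ⟨i + 1 + 1, a2 hc, b2 (by rw [← h]; exact hc)⟩
    | pred n ih =>
      obtain ⟨i, h1, h2⟩ := ih
      obtain ⟨-, -, a1, a2⟩ := ch_step z hz i _ h1
      obtain ⟨-, -, b1, b2⟩ := ch_step z' hz' i _ h2
      cases hc : ((chT ^ i) z).2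
      · exact ⟨i - 1, a1 hc, b1 (by rw [← h]; exact hc)⟩
      · exact ⟨i - 1 - 1, a2 hc, b2 (by rw [← h]; exact hc)⟩
  have hy : z.1 = z'.1 := by
    apply Subtype.ext
    funext m
    obtain ⟨i, h1, h2⟩ := hR m
    have e1 := ch_zero _ (chD_zpow z hz i)
    have e2 := ch_zero _ (chD_zpow z' hz' i)
    rw [← ch_succ, h1, sh_apply, zero_add] at e1
    rw [← ch_succ, h2, sh_apply, zero_add] at e2
    rw [e1, e2, h, h]
  have h0 := h 0
  simp only [zpow_zero, Equiv.Perm.coe_one, id_eq] at h0
  exact Prod.ext hy h0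

/-- The block of a symbol of the skeleton: a zero, followed by a one if the symbol is `true`. -/
def chBlk (t : Bool) : List Bool := if t then [false, true] else [false]

/-- The concatenation of the blocks of `f a, ..., f (a + n - 1)`. -/
def chW (f : ℤ → Bool) : ℤ → ℕ → List Bool
  | _, 0 => []
  | a, n + 1 => chBlk (f a) ++ chW f (a + 1) n

theorem chW_add (f : ℤ → Bool) (a : ℤ) (n m : ℕ) : chW f a (n + m) = chW f a n ++ chW f (a + n) m := by
  induction n generalizing a with
  | zero => simp [chW]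
  | succ n ih =>
    rw [Nat.succ_add]
    change chBlk (f a) ++ chW f (a + 1) (n + m) = (chBlk (f a) ++ chW f (a + 1) n) ++ _
    rw [ih, List.append_assoc]
    congr 3
    push_cast
    ring

theorem chW_congr {f g : ℤ → Bool} {a c : ℤ} {n : ℕ}
    (h : ∀ j : ℤ, 0 ≤ j → j < n → f (a + j) = g (c + j)) : chW f a n = chW g c n := by
  induction n generalizing a c with
  | zero => rfl
  | succ n ih =>
    change chBlk (f a) ++ chW f (a + 1) n = chBlk (g c) ++ chW g (c + 1) n
    have h0 := h 0 le_rfl (by positivity)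
    rw [add_zero, add_zero] at h0
    rw [h0, ih]
    intro j hj hj'
    have h1 := h (j + 1) (by linarith) (by push_cast; linarith)
    rw [show a + 1 + j = a + (j + 1) by ring, show c + 1 + j = c + (j + 1) by ring, h1]

theorem le_length_chW (f : ℤ → Bool) (a : ℤ) (n : ℕ) : n ≤ (chW f a n).length := by
  induction n generalizing a with
  | zero => simp
  | succ n ih =>
    change n + 1 ≤ (chBlk (f a) ++ chW f (a + 1) n).length
    rw [List.length_append]
    have h1 : 1 ≤ (chBlk (f a)).length := by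
      unfold chBlk
      split <;> simp
    have := ih (a + 1)
    omega

/-! ### words of the substitution -/

theorem chWord_append (u v : List Bool) : chWord (u ++ v) = chWord u ++ chWord v :=
  List.flatMap_append

theorem chWord_iter_append (k : ℕ) (u v : List Bool) :
    chWord^[k] (u ++ v) = chWord^[k] u ++ chWord^[k] v := by
  induction k generalizing u v with
  | zero => rfl
  | succ k ih => rw [Function.iterate_succ_apply, chWord_append, ih]; rfl

theorem chWord_iter_true (k : ℕ) : chWord^[k] [true] = [true] := by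
  induction k with
  | zero => rfl
  | succ k ih =>
    rw [Function.iterate_succ_apply]
    exact ih

theorem chWord_iter_succ (k : ℕ) : chWord^[k + 1] [false] =
    chWord^[k] [false] ++ (chWord^[k] [false] ++ ([true] ++ chWord^[k] [false])) := by
  rw [Function.iterate_succ_apply]
  have h : chWord [false] = [false] ++ ([false] ++ ([true] ++ [false])) := rfl
  rw [h, chWord_iter_append, chWord_iter_append, chWord_iter_append, chWord_iter_true]

theorem tau3_shift {k : ℕ} {j t : ℤ} (h0 : j ≠ 0) (h : |j| < 3 ^ k) :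
    tau3 (j + 3 ^ k * t) = tau3 j := by
  obtain ⟨v, u, hu, rfl⟩ := B01_dec Nat.prime_three h0
  replace hu : ¬ (3 : ℤ) ∣ u := hu
  change |(3 : ℤ) ^ v * u| < 3 ^ k at h
  change tau3 ((3 : ℤ) ^ v * u + 3 ^ k * t) = tau3 ((3 : ℤ) ^ v * u)
  have hu0 : u ≠ 0 := by
    rintro rfl
    exact hu (dvd_zero _)
  have hv : v < k := by
    by_contra hv
    have h1 : (3 : ℤ) ^ k ≤ 3 ^ v := pow_le_pow_right₀ (by norm_num) (not_lt.1 hv)
    have h2 : (1 : ℤ) ≤ |u| := Int.one_le_abs hu0
    rw [abs_mul, abs_of_pos (by positivity : (0 : ℤ) < 3 ^ v)] at h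
    nlinarith [pow_pos (by norm_num : (0 : ℤ) < 3) v]
  obtain ⟨w, rfl⟩ : ∃ w, k = v + (w + 1) := ⟨k - v - 1, by omega⟩
  have e : (3 : ℤ) ^ v * u + 3 ^ (v + (w + 1)) * t = 3 ^ v * (u + 3 * (3 ^ w * t)) := by ring
  set y := (3 : ℤ) ^ w * t
  have h1 : ¬ (3 : ℤ) ∣ (u + 3 * y) := by omega
  rw [e, tau3_eq v u hu, tau3_eq v _ h1, decide_eq_decide]
  omega

theorem chWord_iter_eq (k : ℕ) : chWord^[k] [false] = chW tau3 1 (3 ^ k - 1) ++ [false] := by
  induction k with
  | zero => rfl
  | succ k ih =>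
    have hpos : 1 ≤ 3 ^ k := Nat.one_le_pow _ _ (by norm_num)
    have e : 3 ^ (k + 1) - 1 = (3 ^ k - 1) + (1 + ((3 ^ k - 1) + (1 + (3 ^ k - 1)))) := by
      rw [pow_succ]; omega
    have hc : ((3 ^ k - 1 : ℕ) : ℤ) = 3 ^ k - 1 := by
      push_cast [Nat.cast_sub hpos]
      rfl
    have h1 : tau3 (3 ^ k) = false := by
      have := tau3_eq k 1 (by norm_num)
      rw [mul_one] at this
      rw [this]; rfl
    have h2 : tau3 (3 ^ k + 3 ^ k) = true := by
      have := tau3_eq k 2 (by norm_num)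
      rw [show (3 : ℤ) ^ k + 3 ^ k = 3 ^ k * 2 by ring, this]; rfl
    have hb : ∀ t : ℤ, chW tau3 (3 ^ k * t + 1) (3 ^ k - 1) = chW tau3 1 (3 ^ k - 1) := by
      intro t
      apply chW_congr
      intro j hj hj'
      rw [hc] at hj'
      rw [show (3 : ℤ) ^ k * t + 1 + j = 1 + j + 3 ^ k * t by ring]
      apply tau3_shift (by linarith)
      rw [abs_of_pos (by linarith)]
      linarith
    have hs : ∀ a : ℤ, chW tau3 a 1 = chBlk (tau3 a) := fun a => by
      change chBlk (tau3 a) ++ [] = _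
      rw [List.append_nil]
    rw [chWord_iter_succ, ih, e, chW_add, chW_add, chW_add, chW_add, hs, hs, hc]
    rw [show (1 : ℤ) + (3 ^ k - 1) = 3 ^ k by ring, h1]
    rw [show (3 : ℤ) ^ k + ((1 : ℕ) : ℤ) = 3 ^ k * 1 + 1 by push_cast; ring, hb]
    rw [show (3 : ℤ) ^ k * 1 + 1 + (3 ^ k - 1) = 3 ^ k + 3 ^ k by ring, h2]
    rw [show (3 : ℤ) ^ k + 3 ^ k + ((1 : ℕ) : ℤ) = 3 ^ k * 2 + 1 by push_cast; ring, hb]
    simp [chBlk]

theorem chW_infix {a : ℤ} (ha : 1 ≤ a) (n : ℕ) : ∃ k : ℕ, chW tau3 a n <:+: chWord^[k] [false] := by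
  obtain ⟨a', rfl⟩ : ∃ a' : ℕ, a = 1 + a' := ⟨(a - 1).toNat, by omega⟩
  have hk : a' + n < 3 ^ (a' + n) := Nat.lt_pow_self (by norm_num)
  obtain ⟨r, hr⟩ : ∃ r, 3 ^ (a' + n) - 1 = a' + (n + r) := ⟨3 ^ (a' + n) - 1 - (a' + n), by omega⟩
  refine ⟨a' + n, ?_⟩
  rw [chWord_iter_eq, hr, chW_add, chW_add]
  refine ⟨chW tau3 1 a', chW tau3 (1 + (a' : ℤ) + n) r ++ [false], ?_⟩
  simp [List.append_assoc]

theorem chHull_infix (y : chaconBase.Hull) (n : ℕ) :
    ∃ k : ℕ, chW y.1 0 n <:+: chWord^[k] [false] := by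
  obtain ⟨m, hm, h⟩ := y.2 n
  have h' : ∀ j : ℤ, |j| ≤ n → y.1 j = tau3 (j - m) := h
  rcases lt_abs.1 hm with hm | hm
  · -- `m > n`: shift by a power of three
    obtain ⟨M, rfl⟩ : ∃ M : ℕ, m = M := ⟨m.toNat, by omega⟩
    have hk : M < 3 ^ M := Nat.lt_pow_self (by norm_num)
    have hk' : (M : ℤ) < 3 ^ M := by exact_mod_cast hk
    have e : chW y.1 0 n = chW tau3 (-M + 3 ^ M) n := by
      apply chW_congr
      intro j hj hj'
      rw [h' (0 + j) (by rw [zero_add, abs_of_nonneg hj]; exact hj'.le)]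
      rw [show -(M : ℤ) + 3 ^ M + j = (0 + j - M) + 3 ^ M * 1 by ring]
      symm
      apply tau3_shift (by linarith)
      rw [abs_of_neg (by linarith)]
      linarith
    rw [e]
    exact chW_infix (by linarith) n
  · have e : chW y.1 0 n = chW tau3 (-m) n := by
      apply chW_congr
      intro j hj hj'
      rw [h' (0 + j) (by rw [zero_add, abs_of_nonneg hj]; exact hj'.le)]
      congr 1
      ring
    rw [e]
    exact chW_infix (by have : (0 : ℤ) ≤ n := by positivity
                        linarith) n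

/-! ### itineraries -/

/-- The list of the letters of the itinerary at the times `0, ..., m - 1`. -/
def chIt (z : Pt chaconBase Bool) (m : ℕ) : List Bool :=
  List.ofFn fun j : Fin m => ((chT ^ (j : ℕ)) z).2

theorem chIt_zero (z : Pt chaconBase Bool) : chIt z 0 = [] := rfl

theorem chIt_add (z : Pt chaconBase Bool) (m k : ℕ) :
    chIt z (m + k) = chIt z m ++ chIt ((chT ^ m) z) k := by
  unfold chIt
  rw [List.ofFn_add]
  congr 1
  congr 1
  funext j
  rw [← Equiv.Perm.mul_apply, ← pow_add]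
  simp [add_comm]

theorem length_chIt (z : Pt chaconBase Bool) (m : ℕ) : (chIt z m).length = m := by
  unfold chIt
  rw [List.length_ofFn]

theorem chT_false_false {z : Pt chaconBase Bool} (h : z.2 = false) (h0 : z.1.1 0 = false) :
    chT z = (sh 1 z.1, false) := by
  change chTfun z = _
  unfold chTfun
  rw [h, h0]

theorem chT_false_true {z : Pt chaconBase Bool} (h : z.2 = false) (h0 : z.1.1 0 = true) :
    chT z = (z.1, true) := by
  change chTfun z = _
  unfold chTfun
  rw [h, h0]

theorem chT_true_true {z : Pt chaconBase Bool} (h : z.2 = true) (h0 : z.1.1 0 = true) :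
    chT z = (sh 1 z.1, false) := by
  change chTfun z = _
  unfold chTfun
  rw [h, h0]

theorem chIt_block (y : chaconBase.Hull) :
    chIt (y, false) (chBlk (y.1 0)).length = chBlk (y.1 0) ∧
      (chT ^ (chBlk (y.1 0)).length) (y, false) = (sh 1 y, false) := by
  by_cases h : y.1 0 = true
  · have h1 : chT (y, false) = (y, true) := chT_false_true rfl h
    have h2 : chT (y, true) = (sh 1 y, false) := chT_true_true rfl h
    rw [h]
    have h3 : (chT ^ (chBlk true).length) (y, false) = chT (chT (y, false)) := rfl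
    refine ⟨?_, by rw [h3, h1, h2]⟩
    change [((chT ^ 0) (y, false)).2, ((chT ^ 1) (y, false)).2] = [false, true]
    rw [pow_zero, pow_one, h1]
    rfl
  · rw [Bool.not_eq_true] at h
    have h1 : chT (y, false) = (sh 1 y, false) := chT_false_false rfl h
    rw [h]
    exact ⟨rfl, h1⟩

theorem chIt_eq (y : chaconBase.Hull) (n : ℕ) :
    chIt (y, false) (chW y.1 0 n).length = chW y.1 0 n ∧
      (chT ^ (chW y.1 0 n).length) (y, false) = (sh n y, false) := by
  induction n generalizing y with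
  | zero => exact ⟨rfl, by simp [chW]⟩
  | succ n ih =>
    obtain ⟨h1, h2⟩ := chIt_block y
    obtain ⟨h3, h4⟩ := ih (sh 1 y)
    have e : chW (sh 1 y).1 0 n = chW y.1 (0 + 1) n := by
      apply chW_congr
      intro j _ _
      rw [sh_apply, show (0 : ℤ) + j + 1 = 0 + 1 + j by ring]
    rw [e] at h3 h4
    change chIt (y, false) (chBlk (y.1 0) ++ chW y.1 (0 + 1) n).length =
      chBlk (y.1 0) ++ chW y.1 (0 + 1) n ∧ (chT ^ (chBlk (y.1 0) ++ chW y.1 (0 + 1) n).length)
        (y, false) = _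
    rw [List.length_append, chIt_add, h1, h2, h3]
    refine ⟨rfl, ?_⟩
    rw [add_comm, pow_add, Equiv.Perm.mul_apply, h2, h4, sh_sh]
    push_cast
    rfl

theorem chIt_take (z : Pt chaconBase Bool) {m k : ℕ} (h : m ≤ k) : chIt z m <+: chIt z k := by
  obtain ⟨r, rfl⟩ := Nat.exists_eq_add_of_le h
  rw [chIt_add]
  exact List.prefix_append _ _

theorem chIt_infix {z : Pt chaconBase Bool} (hz : z ∈ chD) (n : ℕ) :
    ∃ k : ℕ, chIt z n <:+: chWord^[k] [false] := by
  obtain ⟨y, f⟩ := z
  cases f with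
  | false =>
    obtain ⟨k, hk⟩ := chHull_infix y n
    refine ⟨k, ?_⟩
    rw [← (chIt_eq y n).1] at hk
    exact (chIt_take _ (le_length_chW _ _ _)).isInfix.trans hk
  | true =>
    obtain ⟨k, hk⟩ := chHull_infix y (n + 1)
    refine ⟨k, ?_⟩
    rw [← (chIt_eq y (n + 1)).1] at hk
    have h1 : chIt (y, false) (n + 1) <:+: chWord^[k] [false] :=
      (chIt_take _ (le_length_chW _ _ _)).isInfix.trans hk
    have h2 : (chT ^ 1) (y, false) = ((y, true) : Pt chaconBase Bool) := by
      rw [pow_one]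
      exact chT_false_true rfl (hz rfl)
    rw [add_comm, chIt_add, h2] at h1
    exact (List.suffix_append _ _).isInfix.trans h1

theorem chD_pow (z : Pt chaconBase Bool) (i : ℤ) : (chT ^ i) z ∈ chD ↔ z ∈ chD := by
  induction i using Int.induction_on with
  | zero => rfl
  | succ i ih =>
    rw [add_comm, zpow_add, zpow_one, Equiv.Perm.mul_apply, chD_inv, ih]
  | pred i ih =>
    have e : (chT ^ (-(i : ℤ))) z = chT ((chT ^ (-(i : ℤ) - 1)) z) := by
      rw [← Equiv.Perm.mul_apply, ← zpow_one_add]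
      congr 2
      ring
    rw [← ih, e, chD_inv]

theorem ch_mem (z : Pt chaconBase Bool) (hz : z ∈ chD) :
    (fun i : ℤ => ((chT ^ i) z).2) ∈ ChaconShift := by
  intro i n
  obtain ⟨k, hk⟩ := chIt_infix ((chD_pow z i).2 hz) n
  refine ⟨k, ?_⟩
  have e : (List.ofFn fun m : Fin n => ((chT ^ (i + (m : ℤ))) z).2) = chIt ((chT ^ i) z) n := by
    unfold chIt
    congr 1
    funext j
    rw [add_comm, zpow_add, Equiv.Perm.mul_apply, zpow_natCast]
  change (List.ofFn fun m : Fin n => ((chT ^ (i + (m : ℤ))) z).2) <:+: _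
  rw [e]
  exact hk

theorem chW_sing (k : ℕ) :
    chWord^[k] [false] = chIt (sh 1 (sg chaconBase false), false) (chWord^[k] [false]).length := by
  have e : chW tau3 1 (3 ^ k - 1) = chW (sh 1 (sg chaconBase false)).1 0 (3 ^ k - 1) := by
    apply chW_congr
    intro j hj _
    rw [sh_apply]
    change tau3 (1 + j) = skel chaconBase false (0 + j + 1)
    unfold skel
    rw [if_neg (by linarith), show (0 : ℤ) + j + 1 = 1 + j by ring]
    rfl
  rw [chWord_iter_eq, e, List.length_append, chIt_add, (chIt_eq _ _).1, (chIt_eq _ _).2]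
  rfl

theorem ch_windows (x : ℤ → Bool) (hx : x ∈ ChaconShift) (n : ℕ) :
    ∃ z ∈ chD, ∀ i : ℤ, |i| ≤ n → ((chT ^ i) z).2 = x i := by
  obtain ⟨k, s, t, hst⟩ := hx (-n) (2 * n + 1)
  have h0 : ((sh 1 (sg chaconBase false), false) : Pt chaconBase Bool) ∈ chD := by
    intro h
    exact absurd h (by simp)
  set z0 : Pt chaconBase Bool := (sh 1 (sg chaconBase false), false) with hz0
  refine ⟨(chT ^ ((s.length + n : ℕ) : ℤ)) z0, (chD_pow _ _).2 h0, fun i hi => ?_⟩
  obtain ⟨hi1, hi2⟩ := abs_le.1 hi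
  obtain ⟨j, hj⟩ : ∃ j : ℕ, i + n = j := ⟨(i + n).toNat, by omega⟩
  have hj2 : j < 2 * n + 1 := by omega
  have e1 : (chT ^ i) ((chT ^ ((s.length + n : ℕ) : ℤ)) z0) = (chT ^ (s.length + j)) z0 := by
    rw [← Equiv.Perm.mul_apply, ← zpow_add, ← zpow_natCast]
    congr 2
    push_cast
    linarith
  rw [e1]
  have h1 := chW_sing k
  rw [← hz0, ← hst] at h1
  have h2 : (s ++ (List.ofFn fun m : Fin (2 * n + 1) => x (-(n : ℤ) + m)) ++ t)[s.length + j]? =
      some (x i) := by
    rw [List.append_assoc, List.getElem?_append_right (by omega), Nat.add_sub_cancel_left,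
      List.getElem?_append_left (by rw [List.length_ofFn]; exact hj2), List.getElem?_ofFn,
      dif_pos hj2]
    congr 2
    change -(n : ℤ) + (j : ℤ) = i
    linarith
  rw [h1] at h2
  unfold chIt at h2
  rw [List.getElem?_ofFn] at h2
  split_ifs at h2 with hlt
  exact Option.some.inj h2

/-- The Chacon subshift is coded over `chaconBase`. -/
theorem chacon_coding (T : ChaconShift ≃ₜ ChaconShift)
    (hT : ∀ (x : ChaconShift) (i : ℤ), (T x).1 i = x.1 (i + 1)) :
    Nonempty (Coding chaconBase Bool T) := by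
  have hD : ∃ N : ℕ, ∀ z z' : Pt chaconBase Bool, Agree N z z' → (z ∈ chD ↔ z' ∈ chD) := by
    refine ⟨0, fun z z' h => ?_⟩
    have h0 := h.2 0 (by simp)
    change (z.2 = true → z.1.1 0 = true) ↔ (z'.2 = true → z'.1.1 0 = true)
    rw [h.1, h0]
  have hL : ∃ N : ℕ, ∀ z z' : Pt chaconBase Bool, Agree N z z' →
      (fun z : Pt chaconBase Bool => z.2) z = (fun z : Pt chaconBase Bool => z.2) z' :=
    ⟨0, fun z z' h => h.1⟩
  exact exists_coding ChaconShift T hT chT chT_mem_PW chD hD chD_inv (fun z => z.2) hL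
    (fun z hz => ch_mem z hz) ch_inj
    (surj_of_windows ChaconShift chT chT_mem_PW chD hD (fun z => z.2) hL ch_windows)

theorem chacon_compact : CompactSpace ChaconShift := by
  rw [← isCompact_iff_compactSpace]
  apply IsClosed.isCompact
  have e : ChaconShift = ⋂ (i : ℤ) (n : ℕ), (fun (x : ℤ → Bool) (m : Fin n) => x (i + m)) ⁻¹'
      {w | ∃ k : ℕ, List.ofFn w <:+: chWord^[k] [false]} := by
    ext x
    simp [ChaconShift]
  rw [e]
  refine isClosed_iInter fun i => isClosed_iInter fun n => ?_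
  refine (isClosed_discrete _).preimage ?_
  exact continuous_pi fun m => continuous_apply _

end Pool.Agent.helper98.NIG
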