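import Pool.Agent.helper98.NIG.B01
import Pool.Agent.helper98.NIG.D02

/-!
# NIG-D04: the Rudin-Shapiro subshift is coded over `rsBase`

Letters: `Fin 4`, `0 = a, 1 = b, 2 = c, 3 = d`; substitution `a ↦ ab, b ↦ ac, c ↦ db, d ↦ dc`.
`R k c = rsWord^[k] [c]`, of length `2^k`; letter number `j` (`0 ≤ j < 2^k`) of `R k a` is in `{a, d}` if
`j` is even and in `{b, c}` if `j` is odd; its sign (`a, b` plus = false; `c, d` minus = true) is
`s j = xor_{1 ≤ i ≤ j} tau2 i`. The letters of `R k d` are those of `R k a` with the opposite signs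
(`flip`: `a ↔ d`, `b ↔ c` commutes with the substitution).

The point `(y, σ)`: `σ` is the sign of the letter at the time `0`; `rsT (y, σ) = (sh 1 y, xor σ (y 0))`.
The letter of `(y, σ)`: it has even type (`a` or `d`) iff the position `0` of `y` is NOT a level one gate, i.e. iff
`¬ 2 ∣ r` for the address `r` of `y` at level `3` (`exists_addr`, unique modulo `8` by `addr_unique`).

PROOFS.
* `even_iff`/window: `rsEven y := ∃ r, Addr y 3 r ∧ ¬ (2:ℤ) ∣ r`. It depends on a window of `y`: by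
  `exists_gate y 5 0` and `gate_addr` the address modulo `8` is that of a gate `c` of level `5`,
  `0 ≤ c < 2^6`, and `IsGate y 5 c` depends on the window `c + 2^5`. If `y'` agrees with `y` on the window
  `2^8` then `IsGate y' 5 c`, so the addresses agree modulo `8`. Also `rsEven (sh 1 y) ↔ ¬ rsEven y`
  (`Addr (sh 1 y) 3 (r - 1)`).
* `rs_inj`: the letters determine `σ`-s: sign of the letter of `(rsT ^ i) z` is the second coordinate `σ_i`, and
  `σ_(i+1) = xor σ_i (y i)`; so the itinerary determines `y` and `σ`.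
* signs: `tau2 (2 q) = xor (tau2 q) (q even)`, `tau2 (2 q + 1) = (q odd)` for `q ≥ 1` resp. `q ≥ 0`
  (`tau2_eq`). With `s 0 = false`, `s j = xor (s (j-1)) (tau2 j)`: `s (2 j) = s j` and
  `s (2 j + 1) = xor (s j) (j odd)` by induction: `s (2j+1) = xor (s (2j)) (tau2 (2j+1))`,
  `s (2j) = xor (xor (s (2(j-1)+1)) (tau2 (2j))) = xor (s (j-1)) (j-1 odd) (tau2 j) (j even)
  = xor (s (j-1)) (tau2 j) = s j`. On the other side the letters of `R (k+1) a` at `2j`, `2j+1` are the
  two letters of the image of the letter `j` of `R k a`: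
  at `2j` the letter has even type and the sign of letter `j`; at `2j+1` it has odd type and the sign of
  letter `j` if `j` is even, the opposite sign if `j` is odd (check the four images).
* `rs_mem`: let `z = (y, σ)` and a window `[i, i + n)`; `M = |i| + n + 1`. By the definition of the hull
  `y k = tau2 (k - m)` for `|k| ≤ M` with `|m| > M`; as in D03 we may assume `k - m > 0` for all `|k| ≤ M`, and
  moreover (choosing the window larger, so that a level `5` gate is seen, or comparing addresses) the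
  type of the letter at time `j` is even iff `j - m` is odd. (Address: `m` is an address of level `3` of `y` up to
  `8`: take the window `≥ 2^8`, then `y` has a gate `c` of level `5` there... `y (c + k) = tau2 (c - m + k)` for
  `0 < |k| < 32`; the same argument as in `gate_addr` shows `8 ∣ c - m`; one can apply `gate_addr` to the hull
  point `sh (-m) (sg h)`, whose address is `m`, which agrees with `y` on a large window.)
  Then the window of the itinerary is the window of `R k a` or of `R k d` (according to the sign at one place)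
  at the index `j - m - 1`: the letter with index `q` of `R k a` corresponds to the time `j` with
  `j - m = q + 1` (toggle between the indices `q - 1` and `q` is `tau2 q`; toggle between the times `j - 1`, `j`
  is `y (j - 1) = tau2 (j - 1 - m)`, so `q = j - 1 - m`).
* `rs_windows`: `R k a` is the itinerary at the times `0 ≤ j < 2^k` of `(sh 1 (sg h), false)`, `R k d` of
  `(sh 1 (sg h), true)`. `R k b`, `R k c` are factors of `R (k+1) a` (as `a ↦ ab`), `R (k+1) b`: so all
  windows of `x ∈ RSShift` are factors of some `R k a` (letters `b`: `R k b` is a suffix of `R (k+1) a`; `c`: `R k c`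
  is a suffix of `R (k+1) b`, hence of `R (k+2) a`; `d`: `R k d` is an initial factor of `R (k+1) c`).
-/

namespace Pool.Agent.helper98.NIG

/-- The Rudin-Shapiro substitution on letters (`0 = a`, `1 = b`, `2 = c`, `3 = d`). -/
def rsSubst : Fin 4 → List (Fin 4)
  | 0 => [0, 1]
  | 1 => [0, 2]
  | 2 => [3, 1]
  | 3 => [3, 2]

/-- The Rudin-Shapiro substitution on words. -/
def rsWord (w : List (Fin 4)) : List (Fin 4) := w.flatMap rsSubst

/-- The Rudin-Shapiro subshift. -/
def RSShift : Set (ℤ → Fin 4) :=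
  {x | ∀ (i : ℤ) (n : ℕ), ∃ (c : Fin 4) (k : ℕ), 1 ≤ k ∧
    (List.ofFn fun m : Fin n => x (i + m)) <:+: rsWord^[k] [c]}

/-- The tower map. -/
def rsT : Equiv.Perm (Pt rsBase Bool) where
  toFun z := (sh 1 z.1, xor z.2 (z.1.1 0))
  invFun z := (sh (-1) z.1, xor z.2 (z.1.1 (-1)))
  left_inv z := by
    ext1
    · show sh (-1) (sh 1 z.1) = z.1
      rw [sh_sh]; simp
    · show xor (xor z.2 (z.1.1 0)) ((sh 1 z.1).1 (-1)) = z.2
      rw [sh_apply]
      norm_num
  right_inv z := by
    ext1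
    · show sh 1 (sh (-1) z.1) = z.1
      rw [sh_sh]; simp
    · show xor (xor z.2 (z.1.1 (-1))) ((sh (-1) z.1).1 0) = z.2
      rw [sh_apply]
      norm_num

/-- Position `0` is not a level one gate. -/
def rsEven (y : rsBase.Hull) : Prop := ∃ r : ℤ, Addr y 3 r ∧ ¬ (2 : ℤ) ∣ r

open Classical in
/-- The letter of a point. -/
noncomputable def rsLetter (z : Pt rsBase Bool) : Fin 4 :=
  if rsEven z.1 then (if z.2 then 3 else 0) else (if z.2 then 2 else 1)

theorem rsT_mem_PW : rsT ∈ PW rsBase Bool := by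
  refine ⟨1, fun x => ⟨1, by simp, fun x' h => ⟨rfl, ?_⟩⟩,
    fun x => ⟨-1, by simp, fun x' h => ⟨rfl, ?_⟩⟩⟩
  · change xor x'.2 (x'.1.1 0) = xor x.2 (x.1.1 0)
    rw [h.1, h.2 0 (by simp)]
  · change xor x'.2 (x'.1.1 (-1)) = xor x.2 (x.1.1 (-1))
    rw [h.1, h.2 (-1) (by simp)]

theorem rs_addr_shift {y : rsBase.Hull} {r : ℤ} (h : Addr y 3 r) : Addr (sh 1 y) 3 (r - 1) := by
  intro n hn
  have e : n - (r - 1) = n + 1 - r := by ring
  rw [e] at hn ⊢
  exact h (n + 1) hn

theorem rs_addr_shift' {y : rsBase.Hull} {r : ℤ} (h : Addr (sh 1 y) 3 r) : Addr y 3 (r + 1) := by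
  intro n hn
  have e : n - (r + 1) = n - 1 - r := by ring
  rw [e] at hn ⊢
  have h1 := h (n - 1) hn
  rw [sh_apply, sub_add_cancel] at h1
  exact h1

theorem rs_two_dvd {a : ℤ} (h : (rsBase.p : ℤ) ^ 3 ∣ a) : (2 : ℤ) ∣ a := by
  have h1 : (rsBase.p : ℤ) ^ 3 = 8 := by
    change ((2 : ℕ) : ℤ) ^ 3 = 8
    norm_num
  rw [h1] at h
  omega

theorem rsEven_shift (y : rsBase.Hull) : rsEven (sh 1 y) ↔ ¬ rsEven y := by
  constructor
  · rintro ⟨r', h1, h2⟩ ⟨r, h3, h4⟩
    have h5 := rs_two_dvd (addr_unique le_rfl h3 (rs_addr_shift' h1))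
    omega
  · intro h
    obtain ⟨r, hr⟩ := exists_addr y 3
    have h2 : (2 : ℤ) ∣ r := by
      by_contra hc
      exact h ⟨r, hr, hc⟩
    exact ⟨r - 1, rs_addr_shift hr, by omega⟩

/-- The parity of a gate of level five decides. -/
theorem rsEven_iff_gate {y : rsBase.Hull} {c : ℤ} (hc : IsGate y 5 c) :
    rsEven y ↔ ¬ (2 : ℤ) ∣ c := by
  have key : ∀ r, Addr y 3 r → (2 : ℤ) ∣ r - c := fun r hr =>
    rs_two_dvd (gate_addr le_rfl hc hr)
  constructor
  · rintro ⟨r, hr, h⟩
    have := key r hr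
    omega
  · intro h
    obtain ⟨r, hr⟩ := exists_addr y 3
    have := key r hr
    exact ⟨r, hr, by omega⟩

theorem rsEven_window {y y' : rsBase.Hull} (h : ∀ k : ℤ, |k| ≤ 96 → y.1 k = y'.1 k) :
    rsEven y ↔ rsEven y' := by
  obtain ⟨c, h1, h2, hc⟩ := exists_gate y 5 0
  have e5 : (rsBase.p : ℤ) ^ 5 = 32 := by
    change ((2 : ℕ) : ℤ) ^ 5 = 32
    norm_num
  have e6 : (rsBase.p : ℤ) ^ (5 + 1) = 64 := by
    change ((2 : ℕ) : ℤ) ^ (5 + 1) = 64
    norm_num
  rw [e6] at h2
  have hc' : IsGate y' 5 c := by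
    intro k hk0 hk
    rw [← hc k hk0 hk]
    rw [e5] at hk
    refine (h _ ?_).symm
    rw [abs_lt] at hk
    rw [abs_le]
    constructor <;> linarith [hk.1, hk.2]
  rw [rsEven_iff_gate hc, rsEven_iff_gate hc']

theorem rsLetter_window : ∃ N : ℕ, ∀ z z' : Pt rsBase Bool, Agree N z z' →
    rsLetter z = rsLetter z' := by
  refine ⟨96, fun z z' h => ?_⟩
  have h1 : rsEven z.1 ↔ rsEven z'.1 := rsEven_window fun k hk => h.2 k (by exact_mod_cast hk)
  unfold rsLetter
  rw [h.1]
  by_cases h2 : rsEven z.1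
  · rw [if_pos h2, if_pos (h1.1 h2)]
  · rw [if_neg h2, if_neg (fun h3 => h2 (h1.2 h3))]

theorem rsT_zpow_fst (i : ℤ) (z : Pt rsBase Bool) : ((rsT ^ i) z).1 = sh i z.1 := by
  induction i using Int.induction_on generalizing z with
  | zero =>
    rw [zpow_zero, sh_zero]
    rfl
  | succ i ih =>
    rw [zpow_add_one, Equiv.Perm.mul_apply, ih]
    change sh (i : ℤ) (sh 1 z.1) = _
    rw [sh_sh]
  | pred i ih =>
    rw [zpow_sub_one, Equiv.Perm.mul_apply, ih]
    change sh (-(i : ℤ)) (sh (-1) z.1) = _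
    rw [sh_sh, sub_eq_add_neg]

theorem rsT_zpow_succ_snd (i : ℤ) (z : Pt rsBase Bool) :
    ((rsT ^ (i + 1)) z).2 = xor ((rsT ^ i) z).2 (z.1.1 i) := by
  rw [add_comm i 1, zpow_one_add, Equiv.Perm.mul_apply]
  change xor ((rsT ^ i) z).2 (((rsT ^ i) z).1.1 0) = _
  rw [rsT_zpow_fst, sh_apply, zero_add]

/-- The sign of the letter of a point is its second coordinate. -/
theorem rsLetter_sign (z : Pt rsBase Bool) :
    decide (rsLetter z = 2 ∨ rsLetter z = 3) = z.2 := by
  unfold rsLetter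
  by_cases h : rsEven z.1
  · rw [if_pos h]
    cases z.2 <;> simp
  · rw [if_neg h]
    cases z.2 <;> simp

theorem rs_inj (z z' : Pt rsBase Bool)
    (h : ∀ i : ℤ, rsLetter ((rsT ^ i) z) = rsLetter ((rsT ^ i) z')) : z = z' := by
  have h1 : ∀ i : ℤ, ((rsT ^ i) z).2 = ((rsT ^ i) z').2 := by
    intro i
    rw [← rsLetter_sign, ← rsLetter_sign, h i]
  refine Prod.ext (Subtype.ext (funext fun i => ?_)) (h1 0)
  have h2 := h1 (i + 1)
  rw [rsT_zpow_succ_snd, rsT_zpow_succ_snd, h1 i] at h2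
  exact (Bool.xor_right_inj).1 h2

/-! ### the letters of the words -/

/-- letter with type `e` (`true` = even type) and sign `σ` -/
def rsLt (e σ : Bool) : Fin 4 := if e then (if σ then 3 else 0) else (if σ then 2 else 1)

theorem rsSubst_lt (e σ : Bool) : rsSubst (rsLt e σ) = [rsLt true σ, rsLt false (xor σ (!e))] := by
  cases e <;> cases σ <;> rfl

/-- the signs along the word -/
def rsSign : ℕ → Bool
  | 0 => false
  | j + 1 => xor (rsSign j) (tau2 ((j : ℤ) + 1))

theorem D04_tau2_odd (q : ℤ) : tau2 (2 * q + 1) = decide (q % 2 = 1) := by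
  have h : ¬ (2 : ℤ) ∣ 2 * q + 1 := by omega
  have h1 := tau2_eq 0 (2 * q + 1) h
  rw [pow_zero, one_mul] at h1
  rw [h1]
  have h2 : decide (2 ≤ 0 ∧ 0 % 2 = 0) = false := by decide
  rw [h2, Bool.xor_false, decide_eq_decide]
  omega

theorem D04_tau2_even {q : ℤ} (hq : q ≠ 0) :
    tau2 (2 * q) = xor (tau2 q) (decide (q % 2 = 0)) := by
  obtain ⟨v, u, hu, hm⟩ := B01_dec Nat.prime_two hq
  replace hu : ¬ (2 : ℤ) ∣ u := hu
  replace hm : q = 2 ^ v * u := hm
  have e : 2 * q = 2 ^ (v + 1) * u := by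
    rw [hm, pow_succ]
    ring
  rw [e, tau2_eq (v + 1) u hu]
  rw [hm, tau2_eq v u hu, Bool.xor_assoc]
  congr 1
  rcases Nat.eq_zero_or_pos v with rfl | hv
  · have h1 : ¬ (2 ^ 0 * u) % 2 = 0 := by
      rw [pow_zero, one_mul]
      omega
    have h2 : ¬ (2 ≤ 0 + 1 ∧ (0 + 1) % 2 = 0) := by omega
    have h3 : ¬ (2 ≤ 0 ∧ 0 % 2 = 0) := by omega
    rw [decide_eq_false h1, decide_eq_false h2, decide_eq_false h3]
    rfl
  · obtain ⟨w, rfl⟩ : ∃ w, v = w + 1 := ⟨v - 1, by omega⟩
    have h1 : (2 ^ (w + 1) * u) % 2 = 0 := by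
      have : (2 : ℤ) ^ (w + 1) * u = 2 * (2 ^ w * u) := by ring
      rw [this]
      exact Int.mul_emod_right 2 _
    rw [decide_eq_true h1]
    rcases Nat.even_or_odd' w with ⟨t, rfl | rfl⟩
    · have h2 : (2 ≤ 2 * t + 1 + 1 ∧ (2 * t + 1 + 1) % 2 = 0) := by omega
      have h3 : ¬ (2 ≤ 2 * t + 1 ∧ (2 * t + 1) % 2 = 0) := by omega
      rw [decide_eq_true h2, decide_eq_false h3]
      rfl
    · have h2 : ¬ (2 ≤ 2 * t + 1 + 1 + 1 ∧ (2 * t + 1 + 1 + 1) % 2 = 0) := by omega
      have h3 : (2 ≤ 2 * t + 1 + 1 ∧ (2 * t + 1 + 1) % 2 = 0) := by omega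
      rw [decide_eq_false h2, decide_eq_true h3]
      rfl

theorem rsSign_succ (j : ℕ) : rsSign (j + 1) = xor (rsSign j) (tau2 ((j : ℤ) + 1)) := rfl

theorem rsSign_odd_of (j : ℕ) (h : rsSign (2 * j) = rsSign j) : rsSign (2 * j + 1) =
    xor (rsSign j) (!(decide (j % 2 = 0))) := by
  rw [rsSign_succ, h]
  congr 1
  push_cast
  rw [D04_tau2_odd, ← decide_not, decide_eq_decide]
  omega

theorem rsSign_two (j : ℕ) : rsSign (2 * j) = rsSign j := by
  induction j with
  | zero => rfl
  | succ j ih =>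
    have ih2 := rsSign_odd_of j ih
    have e : 2 * (j + 1) = 2 * j + 1 + 1 := by ring
    rw [e, rsSign_succ (2 * j + 1), ih2, rsSign_succ j]
    have e2 : ((2 * j + 1 : ℕ) : ℤ) + 1 = 2 * ((j : ℤ) + 1) := by
      push_cast
      ring
    have e3 : decide (((j : ℤ) + 1) % 2 = 0) = !(decide (j % 2 = 0)) := by
      rw [← decide_not, decide_eq_decide]
      omega
    rw [e2, D04_tau2_even (by omega), e3]
    generalize rsSign j = a
    generalize tau2 ((j : ℤ) + 1) = c
    generalize (!(decide (j % 2 = 0))) = d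
    revert a c d
    decide

theorem rsSign_odd (j : ℕ) : rsSign (2 * j + 1) = xor (rsSign j) (!(decide (j % 2 = 0))) :=
  rsSign_odd_of j (rsSign_two j)

/-- The letters of `R k a` (`σ = false`) and `R k d` (`σ = true`). -/
def rsW (σ : Bool) (j : ℕ) : Fin 4 := rsLt (decide (j % 2 = 0)) (xor σ (rsSign j))

theorem rsW_subst (σ : Bool) (j : ℕ) : rsSubst (rsW σ j) = [rsW σ (2 * j), rsW σ (2 * j + 1)] := by
  unfold rsW
  rw [rsSubst_lt, rsSign_two, rsSign_odd]
  have h1 : decide (2 * j % 2 = 0) = true := decide_eq_true (by omega)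
  have h2 : decide ((2 * j + 1) % 2 = 0) = false := decide_eq_false (by omega)
  rw [h1, h2, Bool.xor_assoc]

theorem D04_flatMap_range (f : ℕ → Fin 4) (n : ℕ) :
    (List.range n).flatMap (fun j => [f (2 * j), f (2 * j + 1)]) = (List.range (2 * n)).map f := by
  induction n with
  | zero => rfl
  | succ n ih =>
    have e : 2 * (n + 1) = 2 * n + 1 + 1 := by ring
    rw [e, List.range_succ, List.range_succ, List.range_succ, List.flatMap_append, ih]
    simp

theorem rsWord_range (σ : Bool) (n : ℕ) :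
    rsWord ((List.range n).map (rsW σ)) = (List.range (2 * n)).map (rsW σ) := by
  unfold rsWord
  rw [List.flatMap_map, ← D04_flatMap_range]
  simp only [rsW_subst]

theorem rsWord_iter (σ : Bool) (k : ℕ) :
    rsWord^[k] [rsLt true σ] = (List.range (2 ^ k)).map (rsW σ) := by
  induction k with
  | zero =>
    show [rsLt true σ] = [rsW σ 0]
    unfold rsW
    have h : xor σ (rsSign 0) = σ := by
      show xor σ false = σ
      simp
    rw [h]
    rfl
  | succ k ih =>
    rw [Function.iterate_succ_apply', ih, rsWord_range, pow_succ, mul_comm]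

theorem rsWord_append (u v : List (Fin 4)) : rsWord (u ++ v) = rsWord u ++ rsWord v :=
  List.flatMap_append

theorem rsWord_iter_append (k : ℕ) (u v : List (Fin 4)) :
    rsWord^[k] (u ++ v) = rsWord^[k] u ++ rsWord^[k] v := by
  induction k with
  | zero => rfl
  | succ k ih =>
    rw [Function.iterate_succ_apply', Function.iterate_succ_apply', Function.iterate_succ_apply',
      ih, rsWord_append]

/-- every word is an infix of a word of type `a` or `d` -/
theorem rsWord_infix (c : Fin 4) (k : ℕ) : ∃ (σ : Bool) (k' : ℕ),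
    rsWord^[k] [c] <:+: rsWord^[k'] [rsLt true σ] := by
  fin_cases c
  · exact ⟨false, k, List.infix_rfl⟩
  · refine ⟨false, k + 1, ?_⟩
    rw [Function.iterate_succ_apply]
    have h : rsWord [rsLt true false] = [(0 : Fin 4)] ++ [(1 : Fin 4)] := rfl
    rw [h, rsWord_iter_append]
    exact (List.suffix_append _ _).isInfix
  · refine ⟨true, k + 1, ?_⟩
    rw [Function.iterate_succ_apply]
    have h : rsWord [rsLt true true] = [(3 : Fin 4)] ++ [(2 : Fin 4)] := rfl
    rw [h, rsWord_iter_append]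
    exact (List.suffix_append _ _).isInfix
  · exact ⟨true, k, List.infix_rfl⟩

/-! ### addresses and types -/

theorem D04_addr_sh {y : rsBase.Hull} {J : ℕ} {r : ℤ} (hr : Addr y J r) (i : ℤ) :
    Addr (sh i y) J (r - i) := by
  intro n hn
  rw [sh_apply]
  have e : n - (r - i) = n + i - r := by ring
  rw [e] at hn ⊢
  exact hr _ hn

theorem D04_even_iff {y : rsBase.Hull} {r : ℤ} (hr : Addr y 3 r) :
    rsEven y ↔ ¬ (2 : ℤ) ∣ r := by
  constructor
  · rintro ⟨r', hr', h2⟩
    have h : (2 : ℤ) ^ 3 ∣ r' - r := addr_unique le_rfl hr' hr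
    norm_num at h
    omega
  · exact fun h => ⟨r, hr, h⟩

theorem D04_rsLetter (z : Pt rsBase Bool) {r : ℤ} (hr : Addr z.1 3 r) :
    rsLetter z = rsLt (decide (¬ (2 : ℤ) ∣ r)) z.2 := by
  unfold rsLetter rsLt
  by_cases h : (2 : ℤ) ∣ r
  · have h1 : ¬ rsEven z.1 := fun h2 => (D04_even_iff hr).1 h2 h
    rw [if_neg h1, decide_eq_false (not_not.2 h)]
    simp
  · have h1 : rsEven z.1 := (D04_even_iff hr).2 h
    rw [if_pos h1, decide_eq_true h]
    simp

theorem D04_sg_addr (h : Bool) : Addr (sg rsBase h) 3 0 := by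
  intro n hn
  rw [sub_zero] at hn ⊢
  have h0 : n ≠ 0 := by
    rintro rfl
    exact hn (dvd_zero _)
  show skel rsBase h n = _
  unfold skel
  rw [if_neg h0]

/-- On every window the points of the hull look like the skeleton far on the right, with the
right types. -/
theorem D04_exact (y : rsBase.Hull) (N : ℕ) : ∃ m : ℤ, m < -(N : ℤ) ∧
    (∀ k : ℤ, |k| ≤ N → y.1 k = tau2 (k - m)) ∧ Addr y 3 m := by
  obtain ⟨m, hm1, hm2⟩ := y.2 (N + 192)
  have hm2' : ∀ n : ℤ, |n| ≤ ((N + 192 : ℕ) : ℤ) → y.1 n = tau2 (n - m) := hm2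
  clear hm2
  push_cast at hm1 hm2'
  -- the address
  obtain ⟨r, hr⟩ := exists_addr y 4
  obtain ⟨c, hc0, hc1, hc⟩ := exists_gate y (4 + 2) 0
  have hc1' : c < 0 + (2 : ℤ) ^ (4 + 2 + 1) := hc1
  norm_num at hc1'
  have hcr : (2 : ℤ) ^ 4 ∣ r - c := gate_addr (J := 4) (by norm_num) hc hr
  have hy'addr : Addr (sh (-m) (sg rsBase false)) 4 m := by
    intro n hn
    show skel rsBase false (n + -m) = _
    unfold skel
    have e : n + -m = n - m := by ring
    rw [e]
    have h0 : n - m ≠ 0 := by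
      intro h
      rw [h] at hn
      exact hn (dvd_zero _)
    rw [if_neg h0]
  have hy'gate : IsGate (sh (-m) (sg rsBase false)) (4 + 2) c := by
    intro k hk0 hk
    rw [← hc k hk0 hk]
    have hk' : |k| < (2 : ℤ) ^ (4 + 2) := hk
    norm_num at hk'
    have h1 := abs_add_le c k
    rw [abs_of_nonneg hc0] at h1
    rw [hm2' (c + k) (by omega)]
    show skel rsBase false (c + k + -m) = _
    unfold skel
    have h0 : c + k + -m ≠ 0 := by
      intro h
      have h2 : c + k = m := by omega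
      rw [h2] at h1
      omega
    rw [if_neg h0]
    rfl
  have hcm : (2 : ℤ) ^ 4 ∣ m - c := gate_addr (J := 4) (by norm_num) hy'gate hy'addr
  have hmr : (2 : ℤ) ^ 4 ∣ m - r := by
    have h := dvd_sub hcm hcr
    have e : m - c - (r - c) = m - r := by ring
    rwa [e] at h
  have haddr : Addr y 3 m := by
    intro n hn
    have hn' : ¬ (2 : ℤ) ^ 3 ∣ n - m := hn
    have h1 : ¬ (2 : ℤ) ^ 3 ∣ n - r := by
      intro h
      apply hn'
      have h3 : (2 : ℤ) ^ 3 ∣ m - r := (pow_dvd_pow _ (by norm_num)).trans hmr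
      have h2 := dvd_sub h h3
      have e : n - r - (m - r) = n - m := by ring
      rwa [e] at h2
    have h2 : ¬ (2 : ℤ) ^ 4 ∣ n - r := fun h => h1 ((pow_dvd_pow _ (by norm_num)).trans h)
    rw [hr n h2]
    refine rsBase.loc 3 _ _ h1 ?_
    have e : n - r - (n - m) = m - r := by ring
    rw [e]
    exact hmr
  -- move to the right
  obtain ⟨K, hK⟩ : ∃ K : ℕ, K = N + m.natAbs + 4 := ⟨_, rfl⟩
  have hpow : (K : ℤ) < (2 : ℤ) ^ K := B02_lt_pow rsBase K
  have hK' : (K : ℤ) = N + |m| + 4 := by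
    rw [hK]
    push_cast
    rfl
  have hm3 : m - 2 ^ (K + 1) < -(N : ℤ) := by
    rw [pow_succ]
    have := le_abs_self m
    omega
  refine ⟨m - 2 ^ (K + 1), hm3, ?_, ?_⟩
  · intro k hk
    rw [hm2' k (by omega)]
    have hne : k - m ≠ 0 := by
      intro h
      have h2 : k = m := by omega
      rw [h2] at hk
      omega
    have hlt : |k - m| < (2 : ℤ) ^ K := by
      have := abs_sub k m
      omega
    refine rsBase.loc K _ _ (B02_not_dvd rsBase hne hlt) ?_
    have e : k - m - (k - (m - 2 ^ (K + 1))) = - 2 ^ (K + 1) := by ring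
    rw [e]
    exact (dvd_neg).2 dvd_rfl
  · have h := Addr.add haddr (t := - 2 ^ (K + 1)) ((dvd_neg).2 (pow_dvd_pow _ (by omega)))
    rwa [← sub_eq_add_neg] at h

theorem D04_T_pow (i : ℤ) : ∀ z : Pt rsBase Bool, ((rsT ^ i) z).1 = sh i z.1 := by
  induction i using Int.induction_on with
  | zero =>
    intro z
    simp
  | succ i ih =>
    intro z
    rw [zpow_add_one, Equiv.Perm.mul_apply, ih]
    show sh (i : ℤ) (sh 1 z.1) = _
    rw [sh_sh]
  | pred i ih =>
    intro z
    rw [zpow_sub_one, Equiv.Perm.mul_apply, ih]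
    show sh (-(i : ℤ)) (sh (-1) z.1) = _
    rw [sh_sh]
    rfl

theorem D04_T_sign (z : Pt rsBase Bool) (i : ℤ) :
    ((rsT ^ (i + 1)) z).2 = xor ((rsT ^ i) z).2 (z.1.1 i) := by
  rw [add_comm i 1, zpow_one_add, Equiv.Perm.mul_apply]
  show xor ((rsT ^ i) z).2 (((rsT ^ i) z).1.1 0) = _
  rw [D04_T_pow, sh_apply, zero_add]

/-- the itinerary of a point over a good window -/
theorem D04_itin (z : Pt rsBase Bool) (m i0 : ℤ) (hm : m < i0) (n : ℕ) (haddr : Addr z.1 3 m)
    (hz : ∀ t : ℕ, t < n → z.1.1 (i0 + t) = tau2 (i0 + t - m)) (t : ℕ) (ht : t ≤ n) :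
    rsLetter ((rsT ^ (i0 + t)) z) =
      rsW (xor ((rsT ^ i0) z).2 (rsSign (i0 - m - 1).toNat)) ((i0 - m - 1).toNat + t) := by
  obtain ⟨q, hq⟩ : ∃ q : ℕ, q = (i0 - m - 1).toNat := ⟨_, rfl⟩
  have hq' : (q : ℤ) = i0 - m - 1 := by
    rw [hq]
    omega
  rw [← hq]
  have hsign : ∀ t : ℕ, t ≤ n → ((rsT ^ (i0 + t)) z).2 =
      xor (xor ((rsT ^ i0) z).2 (rsSign q)) (rsSign (q + t)) := by
    intro t
    induction t with
    | zero =>
      intro _
      simp
    | succ t ih =>
      intro ht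
      have e : i0 + ((t + 1 : ℕ) : ℤ) = i0 + t + 1 := by
        push_cast
        ring
      have e2 : ((q + t : ℕ) : ℤ) + 1 = i0 + t - m := by
        push_cast
        omega
      rw [e, D04_T_sign, ih (by omega), hz t (by omega), ← add_assoc, rsSign_succ, e2]
      simp only [Bool.xor_assoc]
  have h1 : Addr ((rsT ^ (i0 + t)) z).1 3 (m - (i0 + t)) := by
    rw [D04_T_pow]
    exact D04_addr_sh haddr _
  rw [D04_rsLetter _ h1, hsign t ht]
  unfold rsW
  congr 1
  rw [decide_eq_decide]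
  omega

theorem D04_infix (σ : Bool) (q n : ℕ) : ∃ k : ℕ, 1 ≤ k ∧
    (List.ofFn fun t : Fin n => rsW σ (q + t)) <:+: rsWord^[k] [rsLt true σ] := by
  refine ⟨q + n + 1, by omega, ?_⟩
  rw [rsWord_iter]
  have h2 : q + n + 1 < 2 ^ (q + n + 1) := Nat.lt_two_pow_self
  have h : (List.ofFn fun t : Fin n => rsW σ (q + t)) =
      (((List.range (2 ^ (q + n + 1))).map (rsW σ)).drop q).take n := by
    refine List.ext_getElem ?_ ?_
    · simp
      omega
    · intro i h3 h4
      simp
  rw [h]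
  exact (List.take_prefix _ _).isInfix.trans (List.drop_suffix _ _).isInfix

theorem rs_mem (z : Pt rsBase Bool) : (fun i : ℤ => rsLetter ((rsT ^ i) z)) ∈ RSShift := by
  intro i n
  obtain ⟨m, hm1, hm2, hm3⟩ := D04_exact z.1 (i.natAbs + n)
  push_cast at hm1 hm2
  have hi := neg_abs_le i
  have hi' := le_abs_self i
  have hmi : m < i := by omega
  have hz : ∀ t : ℕ, t < n → z.1.1 (i + t) = tau2 (i + t - m) := by
    intro t ht
    apply hm2
    rw [abs_le]
    constructor <;> omega
  obtain ⟨k, hk, h⟩ := D04_infix (xor ((rsT ^ i) z).2 (rsSign (i - m - 1).toNat))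
    (i - m - 1).toNat n
  refine ⟨rsLt true (xor ((rsT ^ i) z).2 (rsSign (i - m - 1).toNat)), k, hk, ?_⟩
  have h4 : (List.ofFn fun m : Fin n => (fun i : ℤ => rsLetter ((rsT ^ i) z)) (i + m)) =
      List.ofFn fun t : Fin n => rsW (xor ((rsT ^ i) z).2 (rsSign (i - m - 1).toNat))
        ((i - m - 1).toNat + t) := by
    congr 1
    funext t
    exact D04_itin z m i hmi n hm3 hz t.1 t.2.le
  rw [h4]
  exact h

theorem rs_windows (x : ℤ → Fin 4) (hx : x ∈ RSShift) (n : ℕ) :
    ∃ z : Pt rsBase Bool, ∀ i : ℤ, |i| ≤ n → rsLetter ((rsT ^ i) z) = x i := by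
  obtain ⟨c, k, -, hinf⟩ := hx (-(n : ℤ)) (2 * n + 1)
  obtain ⟨σ, k', h'⟩ := rsWord_infix c k
  have h2 := hinf.trans h'
  rw [rsWord_iter] at h2
  obtain ⟨s, t, hst⟩ := h2
  have hlen := congrArg List.length hst
  simp only [List.length_append, List.length_ofFn, List.length_map, List.length_range] at hlen
  have key : ∀ j : ℕ, j < 2 * n + 1 → x (-(n : ℤ) + j) = rsW σ (s.length + j) := by
    intro j hj
    have h3 := congrArg (fun l => l[s.length + j]?) hst
    rw [List.append_assoc, List.getElem?_append_right (by omega), List.getElem?_append_left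
      (by rw [List.length_ofFn]; omega)] at h3
    rw [Nat.add_sub_cancel_left, List.getElem?_eq_getElem (by rw [List.length_ofFn]; omega),
      List.getElem?_eq_getElem (by rw [List.length_map, List.length_range]; omega)] at h3
    rw [List.getElem_ofFn, List.getElem_map, List.getElem_range] at h3
    exact Option.some.inj h3
  obtain ⟨z0, hz0⟩ : ∃ z0 : Pt rsBase Bool, z0 = (sh 1 (sg rsBase false), σ) := ⟨_, rfl⟩
  have haddr : Addr z0.1 3 (-1) := by
    rw [hz0]
    have h3 := D04_addr_sh (D04_sg_addr false) 1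
    rwa [zero_sub] at h3
  have hval : ∀ t : ℕ, z0.1.1 (0 + t) = tau2 (0 + t - (-1)) := by
    intro t
    rw [hz0]
    show skel rsBase false (0 + t + 1) = _
    unfold skel
    rw [if_neg (by omega)]
    show tau2 _ = _
    congr 1
  have hitin : ∀ t : ℕ, rsLetter ((rsT ^ (t : ℤ)) z0) = rsW σ t := by
    intro t
    have h3 := D04_itin z0 (-1) 0 (by norm_num) t haddr (fun t _ => hval t) t le_rfl
    have e1 : ((0 : ℤ) - -1 - 1).toNat = 0 := by norm_num
    rw [e1, zero_add, zero_add, zpow_zero] at h3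
    rw [h3]
    congr 1
    show xor z0.2 (rsSign 0) = σ
    rw [hz0]
    show xor σ false = σ
    simp
  refine ⟨(rsT ^ ((s.length + n : ℕ) : ℤ)) z0, fun i hi => ?_⟩
  rw [← Equiv.Perm.mul_apply, ← zpow_add]
  have hi2 := abs_le.1 hi
  obtain ⟨j, hj⟩ : ∃ j : ℕ, (j : ℤ) = i + n := ⟨(i + n).toNat, by omega⟩
  have e1 : i + ((s.length + n : ℕ) : ℤ) = ((s.length + j : ℕ) : ℤ) := by
    push_cast
    omega
  have e2 : i = -(n : ℤ) + j := by omega
  rw [e1, hitin]
  rw [e2]
  exact (key j (by omega)).symm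

/-- The Rudin-Shapiro subshift is coded over `rsBase`. -/
theorem rs_coding (T : RSShift ≃ₜ RSShift)
    (hT : ∀ (x : RSShift) (i : ℤ), (T x).1 i = x.1 (i + 1)) :
    Nonempty (Coding rsBase Bool T) := by
  have hD : ∃ N : ℕ, ∀ z z' : Pt rsBase Bool, Agree N z z' →
      (z ∈ (Set.univ : Set (Pt rsBase Bool)) ↔ z' ∈ (Set.univ : Set (Pt rsBase Bool))) :=
    ⟨0, fun _ _ _ => by simp⟩
  refine exists_coding RSShift T hT rsT rsT_mem_PW Set.univ hD (fun _ => by simp) rsLetter
    rsLetter_window (fun z _ => rs_mem z) (fun z _ z' _ h => rs_inj z z' h)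
    (surj_of_windows RSShift rsT rsT_mem_PW Set.univ hD rsLetter rsLetter_window ?_)
  intro x hx n
  obtain ⟨z, hz⟩ := rs_windows x hx n
  exact ⟨z, Set.mem_univ _, hz⟩

theorem rs_compact : CompactSpace RSShift := by
  rw [← isCompact_iff_compactSpace]
  apply IsClosed.isCompact
  have h : RSShift = ⋂ (i : ℤ) (n : ℕ), (fun (x : ℤ → Fin 4) (m : Fin n) => x (i + m)) ⁻¹'
      {w | ∃ (c : Fin 4) (k : ℕ), 1 ≤ k ∧ List.ofFn w <:+: rsWord^[k] [c]} := by
    ext x
    simp only [RSShift, Set.mem_ofPred_eq, Set.mem_iInter, Set.mem_preimage]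
  rw [h]
  refine isClosed_iInter fun i => isClosed_iInter fun n => IsClosed.preimage ?_ ?_
  · exact continuous_pi fun m => continuous_apply _
  · exact isClosed_discrete _

end Pool.Agent.helper98.NIG
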