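import Pool.Agent.helper98.NIG.C02
import Pool.Agent.helper98.NIG.C09
import Pool.Agent.helper98.NIG.D03
import Pool.Agent.helper98.NIG.D04
import Pool.Agent.helper97.NIG.Quot

/-!
# NIG-D05: from the theorem on reduced systems to the statement on topological full groups

author: helper74

PROOFS.
* `dich_sys`: `Sys.poly_or_exp` of helper97 with `Sys.exists_BCN`.
* `dich_full`: `Coding.embed` gives an injective homomorphism `φ` of the group of homeomorphisms, mapping
  `FullGroup T` into `PW b F`. The image `H.map φ` is finitely generated and `≤ PW b F`, so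
  `dich_fg` applies to it; `H ≃* H.map φ` (`Subgroup.equivMapOfInjective`), `exp_of_injective`,
  `poly_of_equiv`.
* `dich_growth`: with `wordGrowth S r` = the number of the elements of `G` that are products of at most
  `r` elements of `S ∪ S⁻¹` (for a finite set `S` with closure `⊤`; `S.Finite` gives a `Finset`): `poly_all`,
  `exp_all` of C08 (`PolyGrowth`: `≤ C (r+1)^d ≤ C 2^d r^d` for `r ≥ 1`).
* `not_intermediate`: if `c^r ≤ w r` eventually, `c > 1`, then `w r / exp (c' r)` with `c' = log c / 2` does not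
  tend to `0` (it is `≥ exp (log c r / 2) → ∞`); if `w r ≤ C (r+1)^d` then `w r / r^(d+1)` does not tend to
  `∞` (it is bounded by `C 2^d / r`). Needs a finite generating set, which exists since the group is
  finitely generated.
-/

namespace Pool.Agent.helper98.NIG

open Filter Topology

theorem dich_sys {b : Base} {F : Type} [Fintype F]
    (hred : ∀ A : Sys b F, A.Reduced → ExpGrowth A.G) (A : Sys b F) :
    ExpGrowth A.G ∨ PolyGrowth A.G := by
  obtain ⟨N, hN⟩ := A.exists_BCN
  exact (Sys.poly_or_exp hN hred).symm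

theorem dich_full {b : Base} {F : Type} [Fintype F]
    (hred : ∀ A : Sys b F, A.Reduced → ExpGrowth A.G)
    {Y : Type} [TopologicalSpace Y] [CompactSpace Y] {T : Y ≃ₜ Y} (c : Coding b F T)
    (H : Subgroup (Y ≃ₜ Y)) (hH : H ≤ FullGroup T) (hfg : H.FG) :
    ExpGrowth H ∨ PolyGrowth H := by
  obtain ⟨φ, hφ, hφ2⟩ := c.embed
  have h1 : H.map φ ≤ PW b F := by
    rintro _ ⟨g, hg, rfl⟩
    exact hφ2 g (hH hg)
  have h2 : (H.map φ).FG := by
    classical
    obtain ⟨T, hT⟩ := hfg
    refine ⟨T.image φ, ?_⟩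
    rw [Finset.coe_image, ← MonoidHom.map_closure, hT]
  have h3 := dich_fg (dich_sys hred) _ h1 h2
  let e : H ≃* H.map φ := H.equivMapOfInjective φ hφ
  rcases h3 with h3 | h3
  · exact Or.inl (exp_of_injective e.symm.toMonoidHom e.symm.injective h3)
  · exact Or.inr (poly_of_equiv e h3)

/-- `wordGrowth S r`: the number of elements of `G` that are products of at most `r` elements of
`S ∪ S⁻¹`. -/
noncomputable def wordGrowth {G : Type} [Group G] (S : Set G) (r : ℕ) : ℕ :=
  {g : G | ∃ l : List G, l.length ≤ r ∧ (∀ s ∈ l, s ∈ S ∨ s⁻¹ ∈ S) ∧ l.prod = g}.ncard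

theorem growth_of_poly {G : Type} [Group G] (h : PolyGrowth G) (S : Set G) (hS : S.Finite) :
    ∃ d C : ℕ, ∀ r : ℕ, 1 ≤ r → wordGrowth S r ≤ C * r ^ d := by
  obtain ⟨d, C, H⟩ := poly_all h hS.toFinset
  refine ⟨d, C * 2 ^ d, fun r hr => ?_⟩
  have h1 : wordGrowth S r = (Ball ((hS.toFinset : Finset G) : Set G) r).ncard := by
    rw [Set.Finite.coe_toFinset]
    rfl
  rw [h1, mul_assoc, ← mul_pow]
  exact (H r).trans (Nat.mul_le_mul_left C (Nat.pow_le_pow_left (by omega) d))

theorem growth_of_exp {G : Type} [Group G] (h : ExpGrowth G) (S : Set G) (hS : S.Finite)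
    (hgen : Subgroup.closure S = ⊤) :
    ∃ c : ℝ, 0 < c ∧ ∀ᶠ r : ℕ in atTop, Real.exp (c * r) ≤ (wordGrowth S r : ℝ) := by
  obtain ⟨c, hc, H⟩ := exp_all h hS.toFinset (by rw [Set.Finite.coe_toFinset]; exact hgen)
  refine ⟨Real.log c, Real.log_pos hc, ?_⟩
  filter_upwards [H] with r hr
  have h1 : wordGrowth S r = (Ball ((hS.toFinset : Finset G) : Set G) r).ncard := by
    rw [Set.Finite.coe_toFinset]
    rfl
  rw [h1, mul_comm, Real.exp_nat_mul, Real.exp_log (by linarith)]
  exact hr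

theorem not_intermediate {G : Type} [Group G] (h : ExpGrowth G ∨ PolyGrowth G)
    (hfg : Group.FG G) : ∃ S : Set G, S.Finite ∧ Subgroup.closure S = ⊤ ∧
      ¬ ((∀ d : ℕ, Tendsto (fun r : ℕ => (wordGrowth S r : ℝ) / (r : ℝ) ^ d) atTop atTop) ∧
        (∀ c : ℝ, 0 < c →
          Tendsto (fun r : ℕ => (wordGrowth S r : ℝ) / Real.exp (c * r)) atTop (𝓝 0))) := by
  obtain ⟨S, hgen, hS⟩ := Group.fg_iff.1 hfg
  refine ⟨S, hS, hgen, ?_⟩
  rintro ⟨h1, h2⟩
  rcases h with h | h
  · obtain ⟨c, hc, H⟩ := growth_of_exp h S hS hgen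
    have h3 := (h2 c hc).eventually (gt_mem_nhds (zero_lt_one : (0 : ℝ) < 1))
    obtain ⟨r, hr1, hr2⟩ := (H.and h3).exists
    rw [div_lt_one (Real.exp_pos _)] at hr2
    exact absurd hr1 (not_le.2 hr2)
  · obtain ⟨d, C, H⟩ := growth_of_poly h S hS
    obtain ⟨r, hr1, hr2⟩ := (((h1 d).eventually_gt_atTop (C : ℝ)).and
      (eventually_ge_atTop 1)).exists
    have hr0 : (0 : ℝ) < (r : ℝ) ^ d := pow_pos (by exact_mod_cast hr2) d
    rw [lt_div_iff₀ hr0] at hr1
    have h3 : (wordGrowth S r : ℝ) ≤ C * (r : ℝ) ^ d := by exact_mod_cast H r hr2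
    exact absurd hr1 (not_lt.2 h3)

end Pool.Agent.helper98.NIG
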