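import Pool.Agent.helper98.NIG.B05

/-!
# NIG-C01: systems without minimality, bounded connectivity (BCN)

`PSys` = `Sys` without `nonempty`, `triv`, `minimal`.

PROOFS.
* `exists_list`: `Subgroup.exists_list_of_mem_closure` and `inv_mem`. `map_mem`: induction.
* `hit`: let `hx : x ∈ A.D`. Take `g0 ∈ A.G` with `disp g0 x < n` (`left`) and `g1 ∈ A.G` with
  `n ≤ disp g1 x` (`right`). Write `g1 * g0⁻¹ = l.prod` with a list of generators and prove by
  induction on the list (generalised over `g0`): if `disp g0 x < n` and `n ≤ disp (l.prod * g0) x`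
  then there is `g ∈ A.G` with `n ≤ disp g x ≤ n + ρ`: consider the suffixes of the list; the first
  point of the path at a position `≥ n` is reached from a position `≤ n - 1` by one generator, which
  moves by at most `ρ` (`abs_disp_le`, `disp_mul`).
* `same_*`: group facts; `same_shift`: `sh_sh`.
* `same_of_agree`: for fixed `y`, `M` there are finitely many `(k, φ, k', φ')` with `|k|, |k'| ≤ M`;
  for each of them with `A.Same y k φ k' φ'` choose `g ∈ A.G`, of some radius `r`; take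
  `N ≥ M + ρ + r` for all of them. If `y'` agrees with `y` on the window `N` then
  `(sh k y', φ) ∈ A.D` (`clopen`, `agree_sh`) and `g (sh k y', φ) = (sh k' y', φ')`
  (`disp_eq_of_agree`: equal displacement `k' - k` and equal second coordinate; see `eq_of_pos`,
  `sameLine_of_mem_PW`, and `sh_inj`/`pos_sh` to identify the displacement).
* `θ`: the set of the orbits on the line of `y`. By `hit` every orbit on the line is
  `A.orb (sh k y, φ)` with `0 ≤ k ≤ ρ`, `(sh k y, φ) ∈ A.D`: so the set is finite (`lineOrb_finite`).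
  `θ_sh`: the line of `sh n y` has the same points.
* `θ_le`: let `y'` agree with `y` on the window `2ρ` and suppose that `Same y` implies `Same y'` on the
  window `ρ`. Map `Φ : lineOrb y → lineOrb y'`: choose a representative `(k, φ)`, `|k| ≤ ρ`, and take
  `A.orb (sh k y', φ)`. It is surjective: `O' = A.orb (sh k y', φ)` with `|k| ≤ ρ`; then
  `(sh k y, φ) ∈ A.D` and if `(k1, φ1)` is the chosen representative of `A.orb (sh k y, φ)` then
  `Same y k φ k1 φ1`, so `Same y' k φ k1 φ1` and `Φ (A.orb (sh k y, φ)) = O'`. So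
  `θ y' ≤ θ y` (`Set.ncard_le_ncard`, `Set.ncard_image_le`).
* `θ_const`: by symmetry `θ y ≤ θ y'` for all `y, y'` suffices: take `N` from `same_of_agree y' ρ`,
  `t` from `linear_rec` with `sh t y` agreeing with `y'` on the window `max N (2ρ)`; then
  `θ y = θ (sh t y) ≤ θ y'` by `θ_le` (with `y'` in the role of `y`).
* `same_iff_of_agree`: fix `y`, `M`; let `M' = max M ρ` and `N` from `same_of_agree y M'`, enlarged to
  `N ≥ M' + ρ`. For `y'` agreeing with `y` on `N` the map `Φ` (representatives in the window `M'`; by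
  `same_of_agree` the value does not depend on the representative) is surjective between finite sets
  of equal cardinality (`θ_const`), hence injective. If `Same y' k φ k' φ'` then `(sh k y, φ)`,
  `(sh k' y, φ') ∈ A.D` and `Φ` of their orbits agree, so the orbits agree: `Same y k φ k' φ'`.
* `bcn`: suppose not; for every `L : ℕ` choose `x L ∈ A.D`, `g L ∈ A.G` with `|disp (g L) (x L)| ≤ M`
  and no list of length `≤ L`. Take an ultrafilter `U` on `ℕ` finer than `atTop`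
  (`Filter.hyperfilter ℕ`) and a limit `x` of `x L` (`exists_ulim`). `x ∈ A.D`. The pair
  `(disp (g L) (x L), (g L (x L)).2)` takes finitely many values, so it is eventually a constant
  `(k, φ')` along `U`; also `(x L).2` is eventually `x.2 =: φ`. So `Same (x L).1 0 φ k φ'` for
  `U`-almost all `L`. By `same_iff_of_agree x.1` also `Same x.1 0 φ k φ'`: there is `g ∈ A.G` with
  `g x = (sh k x.1, φ')`. Write `g = l.prod`, `l` a list of generators. For `U`-almost all `L` the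
  point `x L` agrees with `x` on the radius of `g`, so `l.prod (x L) = g (x L) = (sh k (x L).1, φ')
  = g L (x L)`; and `l.length ≤ L` for `U`-almost all `L`: contradiction.
-/

namespace Pool.Agent.helper98.NIG

variable {b : Base} {F : Type}

/-- A system without minimality. -/
structure PSys (b : Base) (F : Type) where
  S : Finset (Equiv.Perm (Pt b F))
  ρ : ℕ
  D : Set (Pt b F)
  pw : ∀ s ∈ S, PWr ρ s
  one_mem : 1 ∈ S
  inv_mem : ∀ s ∈ S, s⁻¹ ∈ S
  clopen : ∀ x x' : Pt b F, Agree ρ x x' → (x ∈ D ↔ x' ∈ D)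
  maps : ∀ s ∈ S, ∀ x ∈ D, s x ∈ D
  right : ∀ x ∈ D, ∀ M : ℤ, ∃ g ∈ Subgroup.closure (S : Set (Equiv.Perm (Pt b F))), M < disp g x
  left : ∀ x ∈ D, ∀ M : ℤ, ∃ g ∈ Subgroup.closure (S : Set (Equiv.Perm (Pt b F))), disp g x < M

/-- forget minimality -/
def Sys.toP (A : Sys b F) : PSys b F where
  S := A.S
  ρ := A.ρ
  D := A.D
  pw := A.pw
  one_mem := A.one_mem
  inv_mem := A.inv_mem
  clopen := A.clopen
  maps := A.maps
  right := A.right
  left := A.left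

/-- Two points of the hull agree on the window of radius `N`. -/
def AgreeH (N : ℕ) (y y' : b.Hull) : Prop := ∀ k : ℤ, |k| ≤ N → y.1 k = y'.1 k

namespace PSys

/-- the group -/
def G (A : PSys b F) : Subgroup (Equiv.Perm (Pt b F)) :=
  Subgroup.closure (A.S : Set (Equiv.Perm (Pt b F)))

/-- the orbit -/
def orb (A : PSys b F) (x : Pt b F) : Set (Pt b F) := {a | ∃ g ∈ A.G, a = g x}

/-- `(sh k y, φ)` is in `D` and `(sh k' y, φ')` is in its orbit. -/
def Same (A : PSys b F) (y : b.Hull) (k : ℤ) (φ : F) (k' : ℤ) (φ' : F) : Prop :=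
  ((sh k y, φ) : Pt b F) ∈ A.D ∧ ∃ g ∈ A.G, g (sh k y, φ) = (sh k' y, φ')

/-- the set of the orbits on the line of `y` -/
def lineOrb (A : PSys b F) (y : b.Hull) : Set (Set (Pt b F)) :=
  {O | ∃ (k : ℤ) (φ : F), ((sh k y, φ) : Pt b F) ∈ A.D ∧ O = A.orb (sh k y, φ)}

/-- the number of the orbits on the line of `y` -/
noncomputable def θ (A : PSys b F) (y : b.Hull) : ℕ := (A.lineOrb y).ncard

variable (A : PSys b F)

theorem C01_inv_apply {α : Type} (g : Equiv.Perm α) (x : α) : g⁻¹ (g x) = x :=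
  g.symm_apply_apply x

theorem G_le_PW : A.G ≤ PW b F :=
  (Subgroup.closure_le _).2 fun s hs => ⟨A.ρ, A.pw s hs⟩

theorem mem_G_of_mem_S {s : Equiv.Perm (Pt b F)} (hs : s ∈ A.S) : s ∈ A.G :=
  Subgroup.subset_closure hs

theorem exists_list {g : Equiv.Perm (Pt b F)} (hg : g ∈ A.G) :
    ∃ l : List (Equiv.Perm (Pt b F)), (∀ s ∈ l, s ∈ A.S) ∧ l.prod = g := by
  change g ∈ Subgroup.closure (A.S : Set (Equiv.Perm (Pt b F))) at hg
  induction hg using Subgroup.closure_induction with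
  | mem s hs => exact ⟨[s], fun t ht => by rw [List.mem_singleton.1 ht]; exact hs, by simp⟩
  | one => exact ⟨[], by simp, rfl⟩
  | mul g h _ _ ihg ihh =>
    obtain ⟨l, hl, rfl⟩ := ihg
    obtain ⟨l', hl', rfl⟩ := ihh
    refine ⟨l ++ l', fun s hs => ?_, by rw [List.prod_append]⟩
    rcases List.mem_append.1 hs with h | h
    · exact hl s h
    · exact hl' s h
  | inv g _ ih =>
    obtain ⟨l, hl, rfl⟩ := ih
    refine ⟨(l.map fun x => x⁻¹).reverse, fun s hs => ?_, by rw [List.prod_inv_reverse]⟩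
    rw [List.mem_reverse, List.mem_map] at hs
    obtain ⟨t, ht, rfl⟩ := hs
    exact A.inv_mem t (hl t ht)

theorem C01_prod_mem {l : List (Equiv.Perm (Pt b F))} (hl : ∀ s ∈ l, s ∈ A.S) : l.prod ∈ A.G :=
  Subgroup.list_prod_mem _ fun s hs => A.mem_G_of_mem_S (hl s hs)

theorem map_mem {g : Equiv.Perm (Pt b F)} (hg : g ∈ A.G) {x : Pt b F} (hx : x ∈ A.D) :
    g x ∈ A.D := by
  obtain ⟨l, hl, rfl⟩ := A.exists_list hg
  clear hg
  induction l with
  | nil => exact hx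
  | cons s l ih =>
    rw [List.prod_cons, Equiv.Perm.mul_apply]
    exact A.maps s (hl s (by simp)) _ (ih fun t ht => hl t (by simp [ht]))

theorem hit {x : Pt b F} (hx : x ∈ A.D) (n : ℤ) :
    ∃ g ∈ A.G, n ≤ disp g x ∧ disp g x ≤ n + A.ρ := by
  obtain ⟨g0, hg0, h0⟩ := A.left x hx n
  obtain ⟨g1, hg1, h1⟩ := A.right x hx n
  change g0 ∈ A.G at hg0
  change g1 ∈ A.G at hg1
  obtain ⟨l, hl, e⟩ := A.exists_list (mul_mem hg1 (Subgroup.inv_mem _ hg0))
  have key : ∀ l : List (Equiv.Perm (Pt b F)), (∀ s ∈ l, s ∈ A.S) → n ≤ disp (l.prod * g0) x →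
      ∃ g ∈ A.G, n ≤ disp g x ∧ disp g x ≤ n + A.ρ := by
    intro l hl h
    induction l with
    | nil =>
      rw [List.prod_nil, one_mul] at h
      exact absurd h0 (not_lt.2 h)
    | cons s l ih =>
      have hl' : ∀ t ∈ l, t ∈ A.S := fun t ht => hl t (by simp [ht])
      have hs : s ∈ A.S := hl s (by simp)
      have hlG : l.prod * g0 ∈ A.G := mul_mem (A.C01_prod_mem hl') hg0
      by_cases hc : n ≤ disp (l.prod * g0) x
      · exact ih hl' hc
      · rw [List.prod_cons, mul_assoc] at h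
        refine ⟨s * (l.prod * g0), mul_mem (A.mem_G_of_mem_S hs) hlG, h, ?_⟩
        rw [disp_mul (A.G_le_PW (A.mem_G_of_mem_S hs)) (A.G_le_PW hlG)]
        have h2 := (abs_le.1 (abs_disp_le (A.pw s hs).1 ((l.prod * g0) x))).2
        push Not at hc
        linarith
  refine key l hl ?_
  rw [e, inv_mul_cancel_right]
  exact h1.le

theorem orb_eq_iff {x a : Pt b F} : a ∈ A.orb x ↔ A.orb a = A.orb x := by
  constructor
  · rintro ⟨g, hg, rfl⟩
    ext z
    constructor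
    · rintro ⟨h, hh, rfl⟩
      exact ⟨h * g, mul_mem hh hg, rfl⟩
    · rintro ⟨h, hh, rfl⟩
      refine ⟨h * g⁻¹, mul_mem hh (Subgroup.inv_mem _ hg), ?_⟩
      rw [Equiv.Perm.mul_apply, C01_inv_apply]
  · intro h
    rw [← h]
    exact ⟨1, Subgroup.one_mem _, rfl⟩

theorem same_refl {y : b.Hull} {k : ℤ} {φ : F} (h : ((sh k y, φ) : Pt b F) ∈ A.D) :
    A.Same y k φ k φ := ⟨h, 1, Subgroup.one_mem _, rfl⟩

theorem same_symm {y : b.Hull} {k k' : ℤ} {φ φ' : F} (h : A.Same y k φ k' φ') :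
    A.Same y k' φ' k φ := by
  obtain ⟨h, g, hg, e⟩ := h
  refine ⟨?_, g⁻¹, Subgroup.inv_mem _ hg, ?_⟩
  · rw [← e]
    exact A.map_mem hg h
  · rw [← e, C01_inv_apply]

theorem same_trans {y : b.Hull} {k k' k'' : ℤ} {φ φ' φ'' : F} (h : A.Same y k φ k' φ')
    (h' : A.Same y k' φ' k'' φ'') : A.Same y k φ k'' φ'' := by
  obtain ⟨h, g, hg, e⟩ := h
  obtain ⟨h', g', hg', e'⟩ := h'
  refine ⟨h, g' * g, mul_mem hg' hg, ?_⟩
  rw [Equiv.Perm.mul_apply, e, e']

theorem same_shift (y : b.Hull) (n k k' : ℤ) (φ φ' : F) :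
    A.Same (sh n y) k φ k' φ' ↔ A.Same y (k + n) φ (k' + n) φ' := by
  unfold Same
  rw [sh_sh, sh_sh]

/-- `Same` in terms of orbits -/
theorem C01_same_iff {y : b.Hull} {k k' : ℤ} {φ φ' : F} (h : ((sh k y, φ) : Pt b F) ∈ A.D) :
    A.Same y k φ k' φ' ↔ A.orb (sh k' y, φ') = A.orb (sh k y, φ) := by
  rw [← A.orb_eq_iff]
  constructor
  · rintro ⟨-, g, hg, e⟩
    exact ⟨g, hg, e.symm⟩
  · rintro ⟨g, hg, e⟩
    exact ⟨h, g, hg, e.symm⟩

/-- agreement of the lines gives agreement of the points -/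
theorem C01_agree {y y' : b.Hull} {N M : ℕ} (h : AgreeH N y y') (k : ℤ) (φ : F)
    (hk : |k| + M ≤ N) : Agree M ((sh k y, φ) : Pt b F) (sh k y', φ) :=
  agree_sh (x := (y, φ)) (x' := (y', φ)) ⟨rfl, h⟩ k φ hk

theorem C01_same_pt (y : b.Hull) (k k' : ℤ) (φ φ' : F) : ∃ N : ℕ, ∀ y' : b.Hull,
    AgreeH N y y' → A.Same y k φ k' φ' → A.Same y' k φ k' φ' := by
  by_cases h : A.Same y k φ k' φ'
  · obtain ⟨h, g, hg, e⟩ := h
    obtain ⟨r, hr, -⟩ := A.G_le_PW hg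
    refine ⟨k.natAbs + (A.ρ + r), fun y' hy' _ => ?_⟩
    have h1 : Agree (A.ρ + r) ((sh k y, φ) : Pt b F) (sh k y', φ) := by
      apply C01_agree hy'
      push_cast
      exact le_rfl
    refine ⟨(A.clopen _ _ (h1.mono (by omega))).1 h, g, hg, ?_⟩
    obtain ⟨n, -, H⟩ := hr (sh k y, φ)
    have h2 := H _ (Agree.refl _ _)
    have h3 := H _ (h1.mono (by omega))
    rw [e] at h2 h3
    have h4 : k' = n + k := by
      have h5 : sh k' y = sh n (sh k y) := h2.1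
      rw [sh_sh] at h5
      exact sh_inj h5
    refine Prod.ext ?_ h3.2
    rw [h3.1]
    change sh n (sh k y') = sh k' y'
    rw [sh_sh, h4]
  · exact ⟨0, fun y' _ h' => absurd h' h⟩

theorem same_of_agree [Finite F] (y : b.Hull) (M : ℕ) : ∃ N : ℕ, ∀ y' : b.Hull, AgreeH N y y' →
    ∀ (k k' : ℤ) (φ φ' : F), |k| ≤ M → |k'| ≤ M → A.Same y k φ k' φ' → A.Same y' k φ k' φ' := by
  choose N hN using fun (t : (Set.Icc (-(M : ℤ)) M × Set.Icc (-(M : ℤ)) M) × (F × F)) =>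
    A.C01_same_pt y t.1.1 t.1.2 t.2.1 t.2.2
  obtain ⟨C, hC⟩ := (Set.finite_range N).bddAbove
  refine ⟨C, fun y' hy' k k' φ φ' hk hk' h => ?_⟩
  have h1 := hN ((⟨k, abs_le.1 hk⟩, ⟨k', abs_le.1 hk'⟩), (φ, φ')) y'
  have h2 := hC (Set.mem_range_self ((⟨k, abs_le.1 hk⟩, ⟨k', abs_le.1 hk'⟩), (φ, φ')))
  exact h1 (fun n hn => hy' n (hn.trans (by exact_mod_cast h2))) h

/-- Every orbit on a line has a representative in the window `0 ≤ k ≤ ρ`. -/
theorem C01_rep {y : b.Hull} {k : ℤ} {φ : F} (h : ((sh k y, φ) : Pt b F) ∈ A.D) :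
    ∃ (k1 : ℤ) (φ1 : F), 0 ≤ k1 ∧ k1 ≤ A.ρ ∧ ((sh k1 y, φ1) : Pt b F) ∈ A.D ∧
      A.orb (sh k y, φ) = A.orb (sh k1 y, φ1) := by
  obtain ⟨g, hg, h1, h2⟩ := A.hit h (-k)
  have h3 := eq_of_pos (sameLine_of_mem_PW (A.G_le_PW hg) (sh k y, φ))
  rw [sh_sh] at h3
  change g (sh k y, φ) = (sh (disp g (sh k y, φ) + k) y, (g (sh k y, φ)).2) at h3
  refine ⟨disp g (sh k y, φ) + k, (g (sh k y, φ)).2, by linarith, by linarith, ?_, ?_⟩
  · rw [← h3]
    exact A.map_mem hg h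
  · rw [← h3]
    exact (A.orb_eq_iff.1 ⟨g, hg, rfl⟩).symm

theorem lineOrb_finite [Finite F] (y : b.Hull) : (A.lineOrb y).Finite := by
  have h : (Set.Icc (0 : ℤ) A.ρ ×ˢ (Set.univ : Set F)).Finite :=
    (Set.finite_Icc _ _).prod Set.finite_univ
  refine (h.image fun t => A.orb (sh t.1 y, t.2)).subset ?_
  rintro O ⟨k, φ, hk, rfl⟩
  obtain ⟨k1, φ1, h0, h1, -, e⟩ := A.C01_rep hk
  exact ⟨(k1, φ1), ⟨⟨h0, h1⟩, trivial⟩, e.symm⟩

theorem θ_sh (y : b.Hull) (n : ℤ) : A.θ (sh n y) = A.θ y := by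
  unfold θ
  congr 1
  ext O
  constructor
  · rintro ⟨k, φ, h, rfl⟩
    rw [sh_sh] at h ⊢
    exact ⟨k + n, φ, h, rfl⟩
  · rintro ⟨k, φ, h, rfl⟩
    refine ⟨k - n, φ, ?_⟩
    rw [sh_sh, sub_add_cancel]
    exact ⟨h, rfl⟩

theorem θ_le [Finite F] {y y' : b.Hull} (h : AgreeH (2 * A.ρ) y y')
    (hs : ∀ (k k' : ℤ) (φ φ' : F), |k| ≤ A.ρ → |k'| ≤ A.ρ → A.Same y k φ k' φ' →
      A.Same y' k φ k' φ') : A.θ y' ≤ A.θ y := by
  classical
  have hrep : ∀ O ∈ A.lineOrb y, ∃ t : ℤ × F, |t.1| ≤ A.ρ ∧ ((sh t.1 y, t.2) : Pt b F) ∈ A.D ∧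
      O = A.orb (sh t.1 y, t.2) := by
    rintro O ⟨k, φ, hk, rfl⟩
    obtain ⟨k1, φ1, h0, h1, h2, e⟩ := A.C01_rep hk
    refine ⟨(k1, φ1), ?_, h2, e⟩
    rwa [abs_of_nonneg h0]
  choose r hr using hrep
  have hsub : A.lineOrb y' ⊆ (fun O => if hO : O ∈ A.lineOrb y then
      A.orb (sh (r O hO).1 y', (r O hO).2) else ∅) '' A.lineOrb y := by
    rintro O' ⟨k', φ', hk', rfl⟩
    obtain ⟨k, φ, h0, h1, h2, e⟩ := A.C01_rep hk'
    have hka : |k| ≤ A.ρ := by rwa [abs_of_nonneg h0]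
    have h3 : ((sh k y, φ) : Pt b F) ∈ A.D := by
      refine (A.clopen _ _ (C01_agree h k φ ?_)).2 h2
      push_cast
      linarith
    have h4 : A.orb (sh k y, φ) ∈ A.lineOrb y := ⟨k, φ, h3, rfl⟩
    refine ⟨_, h4, ?_⟩
    obtain ⟨h5, h6, h7⟩ := hr _ h4
    have h8 := hs _ _ _ _ hka h5 ((A.C01_same_iff h3).2 h7.symm)
    beta_reduce
    rw [dif_pos h4, e]
    exact (A.C01_same_iff h2).1 h8
  exact (Set.ncard_le_ncard hsub ((A.lineOrb_finite y).image _)).trans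
    (Set.ncard_image_le (A.lineOrb_finite y))

theorem θ_const [Finite F] (y y' : b.Hull) : A.θ y = A.θ y' := by
  have key : ∀ y y' : b.Hull, A.θ y ≤ A.θ y' := by
    intro y y'
    obtain ⟨N, hN⟩ := A.same_of_agree y' A.ρ
    obtain ⟨C, -, hC⟩ := linear_rec b
    obtain ⟨t, -, -, ht⟩ := hC y y' (max N (2 * A.ρ)) 0
    rw [← A.θ_sh y t]
    have h1 : AgreeH (max N (2 * A.ρ)) y' (sh t y) := fun k hk => (ht k hk).symm
    refine A.θ_le (fun k hk => h1 k (hk.trans ?_)) (hN _ fun k hk => h1 k (hk.trans ?_))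
    · exact_mod_cast le_max_right _ _
    · exact_mod_cast le_max_left _ _
  exact le_antisymm (key y y') (key y' y)

theorem same_iff_of_agree [Finite F] (y : b.Hull) (M : ℕ) :
    ∃ N : ℕ, ∀ y' : b.Hull, AgreeH N y y' →
    ∀ (k k' : ℤ) (φ φ' : F), |k| ≤ M → |k'| ≤ M → (A.Same y k φ k' φ' ↔ A.Same y' k φ k' φ') := by
  classical
  obtain ⟨N0, hN0⟩ := A.same_of_agree y (max M A.ρ)
  -- orbits on a line come from the window
  have hsurj : ∀ z : b.Hull, A.lineOrb z =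
      (fun q : ℤ × F => A.orb (sh q.1 z, q.2)) ''
        {q : ℤ × F | |q.1| ≤ (max M A.ρ : ℕ) ∧ ((sh q.1 z, q.2) : Pt b F) ∈ A.D} := by
    intro z
    ext O
    constructor
    · rintro ⟨k, φ, hD, rfl⟩
      obtain ⟨g, hg, h1, h2⟩ := A.hit hD (-k)
      have hline := sameLine_of_mem_PW (A.G_le_PW hg) ((sh k z, φ) : Pt b F)
      have hgx : g (sh k z, φ) = (sh (disp g (sh k z, φ) + k) z, (g (sh k z, φ)).2) := by
        have h3 := eq_of_pos hline
        change g (sh k z, φ) = (sh (disp g (sh k z, φ)) (sh k z), (g (sh k z, φ)).2) at h3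
        rw [sh_sh] at h3
        exact h3
      refine ⟨(disp g (sh k z, φ) + k, (g (sh k z, φ)).2), ⟨?_, ?_⟩, ?_⟩
      · have h4 : (A.ρ : ℤ) ≤ ((max M A.ρ : ℕ) : ℤ) := by exact_mod_cast le_max_right _ _
        rw [abs_of_nonneg (by linarith)]
        linarith
      · change (sh (disp g (sh k z, φ) + k) z, (g (sh k z, φ)).2) ∈ A.D
        rw [← hgx]
        exact A.map_mem hg hD
      · change A.orb (sh (disp g (sh k z, φ) + k) z, (g (sh k z, φ)).2) = _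
        rw [← hgx]
        exact A.orb_eq_iff.1 ⟨g, hg, rfl⟩
    · rintro ⟨⟨k, φ⟩, ⟨-, hD⟩, rfl⟩
      exact ⟨k, φ, hD, rfl⟩
  refine ⟨max N0 (max M A.ρ + A.ρ), fun y' hy' => ?_⟩
  have hle0 : (N0 : ℤ) ≤ ((max N0 (max M A.ρ + A.ρ) : ℕ) : ℤ) := by
    exact_mod_cast le_max_left _ _
  have hle1 : ((max M A.ρ : ℕ) : ℤ) + A.ρ ≤ ((max N0 (max M A.ρ + A.ρ) : ℕ) : ℤ) := by
    exact_mod_cast le_max_right _ _
  have hleM : (M : ℤ) ≤ ((max M A.ρ : ℕ) : ℤ) := by exact_mod_cast le_max_left _ _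
  have hS : ∀ (k k' : ℤ) (φ φ' : F), |k| ≤ (max M A.ρ : ℕ) → |k'| ≤ (max M A.ρ : ℕ) →
      A.Same y k φ k' φ' → A.Same y' k φ k' φ' :=
    hN0 y' fun k hk => hy' k (hk.trans hle0)
  -- the two windows coincide
  have hW : ∀ (k : ℤ) (φ : F), |k| ≤ (max M A.ρ : ℕ) →
      (((sh k y, φ) : Pt b F) ∈ A.D ↔ ((sh k y', φ) : Pt b F) ∈ A.D) := by
    intro k φ hk
    refine A.clopen _ _ ⟨rfl, fun j hj => ?_⟩
    change y.1 (j + k) = y'.1 (j + k)
    exact hy' _ ((abs_add_le j k).trans (by linarith))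
  set W : Set (ℤ × F) := {q : ℤ × F | |q.1| ≤ (max M A.ρ : ℕ) ∧
    ((sh q.1 y, q.2) : Pt b F) ∈ A.D} with hWdef
  have hW' : {q : ℤ × F | |q.1| ≤ (max M A.ρ : ℕ) ∧ ((sh q.1 y', q.2) : Pt b F) ∈ A.D} = W := by
    ext q
    constructor
    · rintro ⟨h1, h2⟩
      exact ⟨h1, (hW q.1 q.2 h1).2 h2⟩
    · rintro ⟨h1, h2⟩
      exact ⟨h1, (hW q.1 q.2 h1).1 h2⟩
  have e1 := hsurj y
  have e2 := hsurj y'
  rw [hW'] at e2
  set f : ℤ × F → Set (Pt b F) := fun q => A.orb (sh q.1 y, q.2) with hf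
  set f' : ℤ × F → Set (Pt b F) := fun q => A.orb (sh q.1 y', q.2) with hf'
  have hff : ∀ q ∈ W, ∀ q' ∈ W, f q = f q' → f' q = f' q' := by
    rintro q hq q' hq' h
    have h1 : (sh q'.1 y, q'.2) ∈ A.orb (sh q.1 y, q.2) := A.orb_eq_iff.2 h.symm
    obtain ⟨g, hg, hgx⟩ := h1
    have h2 := hS q.1 q'.1 q.2 q'.2 hq.1 hq'.1 ⟨hq.2, g, hg, hgx.symm⟩
    obtain ⟨-, g', hg', hgx'⟩ := h2
    exact (A.orb_eq_iff.1 ⟨g', hg', hgx'.symm⟩).symm
  set Φ : Set (Pt b F) → Set (Pt b F) := fun O =>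
    if h : ∃ q ∈ W, f q = O then f' h.choose else ∅ with hΦ
  have hΦf : ∀ q ∈ W, Φ (f q) = f' q := by
    intro q hq
    have hex : ∃ q' ∈ W, f q' = f q := ⟨q, hq, rfl⟩
    rw [hΦ]
    simp only [dif_pos hex]
    exact hff _ hex.choose_spec.1 _ hq hex.choose_spec.2
  have himg : Φ '' A.lineOrb y = A.lineOrb y' := by
    rw [e1, e2, Set.image_image]
    exact Set.image_congr hΦf
  have hinj : Set.InjOn Φ (A.lineOrb y) := by
    refine Set.injOn_of_ncard_image_eq ?_ (A.lineOrb_finite y)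
    rw [himg]
    exact (A.θ_const y y').symm
  intro k k' φ φ' hk hk'
  have hk1 := hk.trans hleM
  have hk1' := hk'.trans hleM
  refine ⟨hS k k' φ φ' hk1 hk1', ?_⟩
  rintro ⟨hD, g, hg, hgx⟩
  have hD' : ((sh k' y', φ') : Pt b F) ∈ A.D := by
    rw [← hgx]
    exact A.map_mem hg hD
  have q1 : (k, φ) ∈ W := ⟨hk1, (hW k φ hk1).2 hD⟩
  have q2 : (k', φ') ∈ W := ⟨hk1', (hW k' φ' hk1').2 hD'⟩
  have h3 : f' (k', φ') = f' (k, φ) := A.orb_eq_iff.1 ⟨g, hg, hgx.symm⟩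
  have h4 : f (k', φ') = f (k, φ) := by
    refine hinj ?_ ?_ ?_
    · rw [e1]; exact ⟨_, q2, rfl⟩
    · rw [e1]; exact ⟨_, q1, rfl⟩
    · rw [hΦf _ q2, hΦf _ q1, h3]
  obtain ⟨g', hg', hgx'⟩ := A.orb_eq_iff.2 h4
  exact ⟨q1.2, g', hg', hgx'.symm⟩

theorem bcn [Finite F] (M : ℕ) : ∃ L : ℕ, ∀ x ∈ A.D, ∀ g ∈ A.G, |disp g x| ≤ M →
    ∃ l : List (Equiv.Perm (Pt b F)), l.length ≤ L ∧ (∀ s ∈ l, s ∈ A.S) ∧ l.prod x = g x := by
  classical
  by_contra hcon
  push Not at hcon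
  choose x hxD g hgG hdisp hno using hcon
  obtain ⟨x0, hx0⟩ := exists_ulim (Filter.hyperfilter ℕ) x
  -- the displacement and the second coordinates are eventually constant
  have hfin : (Set.Icc (-(M : ℤ)) M ×ˢ (Set.univ : Set F)).Finite :=
    (Set.finite_Icc _ _).prod Set.finite_univ
  have hex : ∀ᶠ L in (Filter.hyperfilter ℕ : Filter ℕ),
      ∃ q ∈ Set.Icc (-(M : ℤ)) M ×ˢ (Set.univ : Set F),
        (disp (g L) (x L), (g L (x L)).2) = q :=
    Filter.Eventually.of_forall fun L => ⟨_, ⟨abs_le.1 (hdisp L), Set.mem_univ _⟩, rfl⟩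
  rw [Ultrafilter.eventually_exists_mem_iff hfin] at hex
  obtain ⟨⟨k, φ'⟩, ⟨hk, -⟩, hkφ⟩ := hex
  have hkM : |k| ≤ M := abs_le.2 hk
  obtain ⟨N, hN⟩ := A.same_iff_of_agree x0.1 M
  -- the limit
  have hsame : A.Same x0.1 0 x0.2 k φ' := by
    obtain ⟨L, hL1, hL2⟩ := (hkφ.and (hx0 N)).exists
    rw [Prod.mk.injEq] at hL1
    have hAg : AgreeH N x0.1 (x L).1 := fun j hj => (hL2.2 j hj).symm
    rw [hN (x L).1 hAg 0 k x0.2 φ' (by simp) hkM]
    have h1 : ((sh 0 (x L).1, x0.2) : Pt b F) = x L := by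
      rw [sh_zero]
      exact Prod.ext rfl hL2.1.symm
    refine ⟨by rw [h1]; exact hxD L, g L, hgG L, ?_⟩
    rw [h1, ← hL1.1, ← hL1.2]
    exact eq_of_pos (sameLine_of_mem_PW (A.G_le_PW (hgG L)) (x L))
  obtain ⟨-, h, hhG, hhx⟩ := hsame
  rw [sh_zero] at hhx
  obtain ⟨l, hl, rfl⟩ := A.exists_list hhG
  obtain ⟨r, hr, -⟩ := A.G_le_PW hhG
  have hlen : ∀ᶠ L in (Filter.hyperfilter ℕ : Filter ℕ), l.length ≤ L :=
    Nat.hyperfilter_le_atTop (Filter.eventually_ge_atTop l.length)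
  obtain ⟨L, ⟨hL1, hL2⟩, hL3⟩ := ((hkφ.and (hx0 r)).and hlen).exists
  rw [Prod.mk.injEq] at hL1
  refine hno L l hL3 hl ?_
  have h1 : disp l.prod (x L) = k := by
    rw [disp_eq_of_agree hr hL2]
    exact pos_eq (by rw [hhx])
  have h2 : (l.prod (x L)).2 = φ' := by
    obtain ⟨n, -, H⟩ := hr x0
    rw [(H (x L) hL2.symm).2, hhx]
  have h3 := eq_of_pos (sameLine_of_mem_PW (A.G_le_PW hhG) (x L))
  have h4 := eq_of_pos (sameLine_of_mem_PW (A.G_le_PW (hgG L)) (x L))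
  rw [h3, h4]
  change (sh (disp l.prod (x L)) (x L).1, (l.prod (x L)).2) =
    (sh (disp (g L) (x L)) (x L).1, (g L (x L)).2)
  rw [h1, h2, hL1.1, hL1.2]

end PSys

end Pool.Agent.helper98.NIG
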