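import Pool.Agent.helper98.NIG.C03
import Pool.Agent.helper98.NIG.C01

/-!
# NIG-C04: dichotomy (bounded or bi-infinite orbits), the clopen set of the infinite orbits

PROOFS.  `A : Gen b F`, `[Finite F]`, `M0, θ` from `Gen.exists_κ_const`.
* `gen_exists_list`: closure and `inv_mem`.
* `conn_of_list`: if `g = l.prod` with a list of generators and `g (sh k y, φ) = (sh k' y, φ')` then there
  are `u ≤ v` (any `u, v` with `u ≤ k - l.length * ρ`, `k + l.length * ρ ≤ v`) with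
  `Conn y u v (k, φ) (k', φ')`. `list_of_conn`: conversely `Conn y u v a a'` gives `g ∈ A.G` with
  `g (sh a.1 y, a.2) = (sh a'.1 y, a'.2)`.
* `big_imp_infinite` (`R1 = M0 + 2ρ + 1`): let `x`, `g ∈ A.G` with `R1 ≤ |disp g x|`; say
  `d = disp g x ≥ R1` (otherwise exchange the roles: apply the first case to `g x`, `g⁻¹`).
  Put `y = x.1`, `a = (0, x.2)`, `a' = (d, (g x).2)`; by `conn_of_list` `Conn y u' v' a a'` for a large
  interval, which we may take with `u' ≤ 0`, `v' ≥ d`. If `ρ = 0` then `d = 0`, impossible; so `ρ ≥ 1`. Apply `Gen.crossing`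
  with `u = 0`, `v = M0 + ρ` (`a.1 = 0 < ρ`, `v - ρ = M0 < d`, `u + 2ρ ≤ v` as `2ρ ≤ M0`): `c1` with `Conn u' v' a c1` and
  `Cr y u v c1`. For any `M` apply `Gen.cr_extend` to the interval `[-M - ρ, v + M + ρ]`: `c1` is
  connected to a point at a position `< -M` and to a point at a position `> v + M`... (adjust the
  constants); so the orbit of `x` is unbounded in both directions.
* `Dinf A R1 = {x | ∃ g ∈ A.G, R1 ≤ |disp g x|}` is invariant (`big_imp_infinite` and `disp_mul`) and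
  clopen of radius `R1 + ρ`: let `x ∈ Dinf`, `Agree (R1 + ρ) x x'`, `g = l.prod` with
  `R1 ≤ |disp g x|`; take the shortest suffix `l'` of `l` with `R1 ≤ |disp l'.prod x|`
  (induction on the list); all points of the path before its end are at positions of absolute value
  `< R1`, and the generators applied there depend on the window `R1 + ρ` only: so
  `disp l'.prod x' = disp l'.prod x`.
* `exists_psys`: assemble.
* `fin_agree`: for `x ∉ Dinf` all `g ∈ A.G` have `|disp g x| < R1`, so if `Agree (R1 + ρ) x x'` and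
  `g = l.prod` then by induction on the list `disp g x = disp g x'` and `(g x).2 = (g x').2`; hence
  `g x = x ↔ g x' = x'`.
-/

namespace Pool.Agent.helper98.NIG

variable {b : Base} {F : Type}

namespace Gen

variable (A : Gen b F)

theorem exists_list {g : Equiv.Perm (Pt b F)} (hg : g ∈ A.G) :
    ∃ l : List (Equiv.Perm (Pt b F)), (∀ s ∈ l, s ∈ A.S) ∧ l.prod = g := by
  have hg' : g ∈ (Subgroup.closure (A.S : Set (Equiv.Perm (Pt b F)))).toSubmonoid := hg
  rw [Subgroup.closure_toSubmonoid] at hg'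
  obtain ⟨l, hl, h⟩ := Submonoid.exists_list_of_mem_closure hg'
  refine ⟨l, fun s hs => ?_, h⟩
  rcases hl s hs with h1 | h1
  · exact h1
  · have h2 := A.inv_mem _ h1
    rwa [inv_inv] at h2

theorem G_le_PW : A.G ≤ PW b F :=
  (Subgroup.closure_le _).2 fun s hs => ⟨A.ρ, A.pw s hs⟩

theorem c04_mem_G {s : Equiv.Perm (Pt b F)} (hs : s ∈ A.S) : s ∈ A.G :=
  Subgroup.subset_closure hs

theorem c04_prod_mem_G {l : List (Equiv.Perm (Pt b F))} (hl : ∀ s ∈ l, s ∈ A.S) : l.prod ∈ A.G :=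
  A.G.list_prod_mem fun s hs => A.c04_mem_G (hl s hs)

theorem exists_conn {g : Equiv.Perm (Pt b F)} (hg : g ∈ A.G) {y : b.Hull} {a a' : ℤ × F}
    (h : g (sh a.1 y, a.2) = (sh a'.1 y, a'.2)) :
    ∃ M : ℕ, ∀ u v : ℤ, u ≤ a.1 - M → a.1 + M ≤ v → A.Conn y u v a a' := by
  obtain ⟨l, hl, rfl⟩ := A.exists_list hg
  have key : ∀ a' : ℤ × F, l.prod (sh a.1 y, a.2) = (sh a'.1 y, a'.2) →
      |a'.1 - a.1| ≤ ((l.length * A.ρ : ℕ) : ℤ) ∧
      ∀ u v : ℤ, u ≤ a.1 - ((l.length * A.ρ : ℕ) : ℤ) → a.1 + ((l.length * A.ρ : ℕ) : ℤ) ≤ v →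
        A.Conn y u v a a' := by
    clear h hg
    induction l with
    | nil =>
      intro a' h
      have h1 : a = a' := by
        rw [List.prod_nil, Equiv.Perm.one_apply] at h
        exact Prod.ext (sh_inj (congrArg Prod.fst h)) (congrArg (fun z : Pt b F => z.2) h)
      subst h1
      refine ⟨by simp, fun u v _ _ => Relation.ReflTransGen.refl⟩
    | cons s l ih =>
      intro a' h
      have hs : s ∈ A.S := hl s List.mem_cons_self
      have hl' : ∀ t ∈ l, t ∈ A.S := fun t ht => hl t (List.mem_cons_of_mem _ ht)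
      obtain ⟨n, hn⟩ := sameLine_of_mem_PW (A.G_le_PW (A.c04_prod_mem_G hl')) (sh a.1 y, a.2)
      have h1 : l.prod (sh a.1 y, a.2) = (sh (n + a.1) y, (l.prod (sh a.1 y, a.2)).2) := by
        refine Prod.ext ?_ rfl
        rw [hn]
        exact sh_sh _ _ _
      obtain ⟨h2, h3⟩ := ih hl' (n + a.1, (l.prod (sh a.1 y, a.2)).2) h1
      have h4 : A.Step y (n + a.1, (l.prod (sh a.1 y, a.2)).2) a' := by
        refine ⟨s, hs, ?_⟩
        rw [← h]
        change s (sh (n + a.1) y, (l.prod (sh a.1 y, a.2)).2) = _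
        rw [← h1, List.prod_cons, Equiv.Perm.mul_apply]
      have h5 := A.step_le h4
      have hle : (((s :: l).length * A.ρ : ℕ) : ℤ) = ((l.length * A.ρ : ℕ) : ℤ) + A.ρ := by
        rw [List.length_cons]
        push_cast
        ring
      rw [hle]
      rw [abs_le] at h2 h5
      refine ⟨?_, fun u v hu hv => ?_⟩
      · rw [abs_le]
        constructor <;> linarith [h2.1, h2.2, h5.1, h5.2]
      · have hρ : (0 : ℤ) ≤ A.ρ := Int.natCast_nonneg _
        refine (h3 u v (by linarith) (by linarith)).tail ⟨?_, ?_, h4⟩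
        · exact ⟨by linarith [h2.1], by linarith [h2.2]⟩
        · exact ⟨by linarith [h2.1, h5.1], by linarith [h2.2, h5.2]⟩
  exact ⟨l.length * A.ρ, (key a' h).2⟩

theorem exists_of_conn {y : b.Hull} {u v : ℤ} {a a' : ℤ × F} (h : A.Conn y u v a a') :
    ∃ g ∈ A.G, g (sh a.1 y, a.2) = (sh a'.1 y, a'.2) := by
  induction h with
  | refl => exact ⟨1, A.G.one_mem, rfl⟩
  | tail _ h2 ih =>
    obtain ⟨g, hg, h3⟩ := ih
    obtain ⟨-, -, s, hs, h4⟩ := h2
    exact ⟨s * g, A.G.mul_mem (A.c04_mem_G hs) hg, by rw [Equiv.Perm.mul_apply, h3, h4]⟩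

theorem c04_conn_eq (h0 : A.ρ = 0) {y : b.Hull} {u v : ℤ} {a a' : ℤ × F}
    (h : A.Conn y u v a a') : a'.1 = a.1 := by
  induction h with
  | refl => rfl
  | tail _ h2 ih =>
    have h3 := A.step_le h2.2.2
    rw [h0, Nat.cast_zero, abs_le] at h3
    linarith [h3.1, h3.2]

/-- Dichotomy: an orbit of large diameter is unbounded in both directions. -/
theorem big_imp_infinite [Finite F] : ∃ R1 : ℕ, 0 < R1 ∧ ∀ x : Pt b F, ∀ g ∈ A.G,
    (R1 : ℤ) ≤ |disp g x| → ∀ M : ℤ, (∃ h ∈ A.G, M < disp h x) ∧ (∃ h ∈ A.G, disp h x < M) := by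
  obtain ⟨M0, θ, hM0, hθ⟩ := A.exists_κ_const
  have hM0' : 2 * (A.ρ : ℤ) ≤ M0 := by exact_mod_cast hM0
  have hρ0 : (0 : ℤ) ≤ A.ρ := Int.natCast_nonneg _
  -- the case of a positive displacement
  have key : ∀ x : Pt b F, ∀ g ∈ A.G, ((M0 + 1 : ℕ) : ℤ) ≤ disp g x →
      ∀ M : ℤ, (∃ h ∈ A.G, M < disp h x) ∧ (∃ h ∈ A.G, disp h x < M) := by
    intro x g hg hd M
    push_cast at hd
    have hx0 : ((sh (0 : ℤ) x.1, x.2) : Pt b F) = x := by rw [sh_zero]
    have h1 : g (sh ((0 : ℤ), x.2).1 x.1, ((0 : ℤ), x.2).2) =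
        (sh (disp g x, (g x).2).1 x.1, (disp g x, (g x).2).2) := by
      change g (sh 0 x.1, x.2) = (sh (disp g x) x.1, (g x).2)
      rw [hx0]
      exact eq_of_pos (sameLine_of_mem_PW (A.G_le_PW hg) x)
    obtain ⟨M1, hM1⟩ := A.exists_conn hg h1
    have h2 := hM1 (-(M1 : ℤ)) (max (M1 : ℤ) (M0 + A.ρ)) (by simp) (by simp)
    have hρ : (0 : ℤ) < A.ρ := by
      rcases Nat.eq_zero_or_pos A.ρ with h0 | h0
      · exfalso
        have h3 : disp g x = 0 := A.c04_conn_eq h0 h2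
        have : (0 : ℤ) ≤ M0 := Int.natCast_nonneg _
        linarith
      · exact_mod_cast h0
    obtain ⟨c1, c2, h3, h4, h5, h6, h7, h8⟩ := A.crossing (u := 0) (v := (M0 : ℤ) + A.ρ)
      (by simp : -(M1 : ℤ) ≤ 0) (le_max_right _ _) (by linarith) h2 (by simpa using hρ)
      (by change (M0 : ℤ) + A.ρ - A.ρ < disp g x; linarith)
    have hcr : A.Cr x.1 0 ((M0 : ℤ) + A.ρ) c1 :=
      ⟨h5, ⟨c1, Relation.ReflTransGen.refl, h5, h7⟩, ⟨c2, h4, h6, h8⟩⟩
    obtain ⟨g1, hg1, hg2⟩ := A.exists_of_conn h3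
    have hg3 : g1 x = (sh c1.1 x.1, c1.2) := by
      have h9 : g1 (sh 0 x.1, x.2) = (sh c1.1 x.1, c1.2) := hg2
      rwa [hx0] at h9
    have hcr2 := A.cr_extend hM0 hθ (u' := min 0 (M - A.ρ))
      (v' := max ((M0 : ℤ) + A.ρ) (M + A.ρ)) (min_le_left _ _) (le_max_left _ _)
      (by linarith) hcr
    have hfin : ∀ a1 : ℤ × F, A.Conn x.1 (min 0 (M - A.ρ)) (max ((M0 : ℤ) + A.ρ) (M + A.ρ)) c1 a1 →
        ∃ h ∈ A.G, disp h x = a1.1 := by
      intro a1 ha1
      obtain ⟨g2, hg4, hg5⟩ := A.exists_of_conn ha1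
      refine ⟨g2 * g1, A.G.mul_mem hg4 hg1, ?_⟩
      apply pos_eq
      rw [Equiv.Perm.mul_apply, hg3, hg5]
    obtain ⟨-, ⟨a1, ha1, -, ha1'⟩, ⟨a2, ha2, -, ha2'⟩⟩ := hcr2
    obtain ⟨k1, hk1, hk1'⟩ := hfin a1 ha1
    obtain ⟨k2, hk2, hk2'⟩ := hfin a2 ha2
    refine ⟨⟨k2, hk2, ?_⟩, ⟨k1, hk1, ?_⟩⟩
    · rw [hk2']
      have := le_max_right ((M0 : ℤ) + A.ρ) (M + A.ρ)
      linarith
    · rw [hk1']
      have := min_le_right (0 : ℤ) (M - A.ρ)
      linarith
  refine ⟨M0 + 1, Nat.succ_pos _, fun x g hg hd M => ?_⟩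
  rcases le_total 0 (disp g x) with h0 | h0
  · rw [abs_of_nonneg h0] at hd
    exact key x g hg hd M
  · rw [abs_of_nonpos h0, ← disp_inv (A.G_le_PW hg) x] at hd
    obtain ⟨⟨k2, hk2, hk2'⟩, ⟨k1, hk1, hk1'⟩⟩ :=
      key (g x) g⁻¹ (A.G.inv_mem hg) hd (M - disp g x)
    refine ⟨⟨k2 * g, A.G.mul_mem hk2 hg, ?_⟩, ⟨k1 * g, A.G.mul_mem hk1 hg, ?_⟩⟩
    · rw [disp_mul (A.G_le_PW hk2) (A.G_le_PW hg)]
      linarith
    · rw [disp_mul (A.G_le_PW hk1) (A.G_le_PW hg)]
      linarith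

/-- The set of the points whose orbit has a large diameter. -/
def Dinf (R1 : ℕ) : Set (Pt b F) := {x | ∃ g ∈ A.G, (R1 : ℤ) ≤ |disp g x|}

/-- The path of `x` along a list of generators, followed until it leaves the window `R1`. -/
theorem c04_path_alt {R1 : ℕ} {x x' : Pt b F} (h : Agree (R1 + A.ρ) x x')
    (l : List (Equiv.Perm (Pt b F))) (hl : ∀ s ∈ l, s ∈ A.S) :
    (∃ g ∈ A.G, (R1 : ℤ) ≤ |disp g x| ∧ (R1 : ℤ) ≤ |disp g x'|) ∨
    (|disp l.prod x| < R1 ∧ disp l.prod x' = disp l.prod x ∧ (l.prod x').2 = (l.prod x).2) := by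
  induction l with
  | nil =>
    rw [List.prod_nil, disp_one, disp_one, abs_zero]
    rcases Nat.eq_zero_or_pos R1 with h0 | h0
    · left
      refine ⟨1, A.G.one_mem, ?_, ?_⟩ <;> rw [h0, Nat.cast_zero] <;> exact abs_nonneg _
    · right
      exact ⟨by exact_mod_cast h0, rfl, h.1.symm⟩
  | cons s l ih =>
    have hs : s ∈ A.S := hl s List.mem_cons_self
    have hl' : ∀ t ∈ l, t ∈ A.S := fun t ht => hl t (List.mem_cons_of_mem _ ht)
    rcases ih hl' with h1 | ⟨h1, h2, h3⟩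
    · exact Or.inl h1
    · have hP := A.G_le_PW (A.c04_prod_mem_G hl')
      have hsP := A.G_le_PW (A.c04_mem_G hs)
      have h4 : Agree A.ρ (l.prod x) (l.prod x') := by
        have h5 : l.prod x = (sh (disp l.prod x) x.1, (l.prod x).2) :=
          eq_of_pos (sameLine_of_mem_PW hP x)
        have h6 : l.prod x' = (sh (disp l.prod x) x'.1, (l.prod x).2) := by
          rw [← h2, ← h3]
          exact eq_of_pos (sameLine_of_mem_PW hP x')
        rw [h5, h6]
        refine agree_sh h _ _ ?_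
        push_cast
        linarith
      have h7 : disp s (l.prod x') = disp s (l.prod x) := (disp_eq_of_agree (A.pw s hs).1 h4).symm
      have h8 : disp (s * l.prod) x' = disp (s * l.prod) x := by
        rw [disp_mul hsP hP, disp_mul hsP hP, h7, h2]
      rw [List.prod_cons]
      rcases lt_or_ge |disp (s * l.prod) x| (R1 : ℤ) with h9 | h9
      · right
        refine ⟨h9, h8, ?_⟩
        obtain ⟨n, -, H⟩ := (A.pw s hs).1 (l.prod x)
        exact (H _ h4).2
      · left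
        exact ⟨s * l.prod, A.G.mul_mem (A.c04_mem_G hs) (A.c04_prod_mem_G hl'), h9,
          by rw [h8]; exact h9⟩

theorem Dinf_clopen (R1 : ℕ) (x x' : Pt b F) (h : Agree (R1 + A.ρ) x x') :
    x ∈ A.Dinf R1 ↔ x' ∈ A.Dinf R1 := by
  have key : ∀ x x' : Pt b F, Agree (R1 + A.ρ) x x' → x ∈ A.Dinf R1 → x' ∈ A.Dinf R1 := by
    rintro x x' h ⟨g, hg, hd⟩
    obtain ⟨l, hl, rfl⟩ := A.exists_list hg
    rcases A.c04_path_alt h l hl with ⟨k, hk, -, h1⟩ | ⟨h1, -, -⟩
    · exact ⟨k, hk, h1⟩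
    · exact absurd hd (not_le.2 h1)
  exact ⟨key x x' h, key x' x h.symm⟩

theorem fin_agree {R1 : ℕ} {x x' : Pt b F} (hx : x ∉ A.Dinf R1) (h : Agree (R1 + A.ρ) x x')
    {g : Equiv.Perm (Pt b F)} (hg : g ∈ A.G) :
    disp g x = disp g x' ∧ (g x).2 = (g x').2 ∧ (g x = x ↔ g x' = x') := by
  obtain ⟨l, hl, rfl⟩ := A.exists_list hg
  rcases A.c04_path_alt h l hl with ⟨k, hk, h1, -⟩ | ⟨-, h1, h2⟩
  · exact absurd ⟨k, hk, h1⟩ hx
  · have hfix : ∀ z : Pt b F, l.prod z = z ↔ disp l.prod z = 0 ∧ (l.prod z).2 = z.2 := by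
      intro z
      constructor
      · intro hz
        exact ⟨by unfold disp; rw [hz, pos_self], by rw [hz]⟩
      · rintro ⟨h3, h4⟩
        have h5 : l.prod z = (sh (disp l.prod z) z.1, (l.prod z).2) :=
          eq_of_pos (sameLine_of_mem_PW (A.G_le_PW hg) z)
        rw [h5, h3, sh_zero, h4]
    refine ⟨h1.symm, h2.symm, ?_⟩
    rw [hfix, hfix, h1, h2, h.1]

/-- The infinite part of `A`. -/
theorem exists_psys [Finite F] : ∃ (P : PSys b F) (R1 : ℕ), P.S = A.S ∧ P.D = A.Dinf R1 := by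
  obtain ⟨R1, -, hR⟩ := A.big_imp_infinite
  refine ⟨{
    S := A.S
    ρ := R1 + A.ρ
    D := A.Dinf R1
    pw := fun s hs => ⟨(A.pw s hs).1.mono (Nat.le_add_left _ _),
      (A.pw s hs).2.mono (Nat.le_add_left _ _)⟩
    one_mem := A.one_mem
    inv_mem := A.inv_mem
    clopen := A.Dinf_clopen R1
    maps := ?_
    right := ?_
    left := ?_ }, R1, rfl, rfl⟩
  · rintro s hs x ⟨g, hg, hd⟩
    obtain ⟨⟨h, hh, h1⟩, -⟩ := hR x g hg hd (R1 + disp s x)
    have hsG := A.c04_mem_G hs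
    refine ⟨h * s⁻¹, A.G.mul_mem hh (A.G.inv_mem hsG), ?_⟩
    have h2 := disp_mul (A.G_le_PW (A.G.mul_mem hh (A.G.inv_mem hsG))) (A.G_le_PW hsG) x
    rw [inv_mul_cancel_right] at h2
    exact le_trans (by linarith) (le_abs_self _)
  · rintro x ⟨g, hg, hd⟩ M
    exact (hR x g hg hd M).1
  · rintro x ⟨g, hg, hd⟩ M
    exact (hR x g hg hd M).2

end Gen

end Pool.Agent.helper98.NIG
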