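import Pool.Agent.helper98.NIG.E08
import Pool.Agent.helper97.NIG.Desc5

/-!
# NIG-E10: the descent (exclusion of V-shaped top tokens)

## Definitions
`GoodL c0 W L z l`: a token (over a point at distance at least `c0` from the ends) which is locked over `[l + W, β]`,
`β ≥ l + W + L`, is locked over `[l, β]`. `GoodR` on the right.
`PFam c0 z y l r R`: finite nonempty rows of tokens of `orb y` over the points of `orb z` at positions in
`[l + c0, r - c0]`, transported by all paths inside of `[l, r]`.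
`Cfg`: the configuration of the descent, with the constants `c0` (BCc), `m`, `n` (scale of the signs), `M` (position
of the base point `a0`), `C0` (gap), `e` (end of the lock of `t0`):
over `[l, x]` there are rows `R`; the base point `a0` has position in `[x - M, x - m]`; `t0 ∈ R a0` is locked over `[e, x]`
(sign `+1`), and NOT locked over `[e - 1, e + Lg]`; `τ0` is locked over `[l, x]` (sign `-1`), never a token of the
rows, at least as high as all tokens of the rows, and `dh t0 τ0 ≤ C0`.

## THEOREM `no_cfg`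
Order of the constants: `n ≥ n0`, then `m ≥ m0(n)`, `M ≥ m + ρ`, `Lg ≥ 2 c0 + 2 ρ`, then `Cs`; `C0 ≥ Cs`; then `Y0, Wm`; then
`(W1, L1)` with `W1 ≥ Wm`, then `W2`: there is no configuration with `GoodL c0 W1 L1 z l`, `l + W2 ≤ e`, `e + Y0 < x`.

## PROOF (strong induction on the number of tokens `(R a0).ncard`)
`short_path` is `exists_RW` (helper2/NIG/L02; `BCc` is literally `BCon`), so the margin of the short paths is `c0`.
By `height_of_list` a short path `h` between positions at distance `d` changes all heights (`dh t (h t)`) by at most `Λ (d + 1)`.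
NOTE: if a token is locked over `[α, β]` then all paths inside `[α, β]` from `a0` to the same point give the same token
(`LockI.eq`), so the path may be replaced by a short one at any time.
Constants: `n0 = max` (scale of `compare`, scale of `near_sign`); `R0` from `top_token n`; `c1` from `compare`;
`m0 = 2 c0 + c1 + n_cmp + R0 + ρ + 1`. `L_cmp(C)` is the length from `compare`.
`Cs = 4 Λ (R0 + M + m + 2 c0 + 2 ρ + 2)`. Given `C0 ≥ Cs`:
`L1' = L_cmp(2 C0) + 2 m + 2 ρ + M`, `X = c0 + 2 R0 + L1' + 1`, `L2' = L_cmp(C0 + 2 Λ (X + M + 2))`,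
`Y0 = L1' + L2' + X + Lg + 2 R0 + 4 M + c0 + 10`; `K = 2 Λ (Y0 + R0 + ρ + 3)`; `W'` from `URaise` with the window `Lg + 2` and `K`;
`Y1 = W' + Lg`; `Cb = C0 + 2 Λ (Y1 + R0 + 2 c0 + m + 2 ρ + M + 4)`; `Wm = c0 + R0`; `W2 = L_cmp(Cb) + W1 + L1 + W' + 2 R0 + 2 M + c0 + 10`.
Let a configuration be given. `Fam z y (l + c0) (x - c0) R` holds (`PFam`), so by `top_token n` there are `v, w`, `w ≤ v + R0` with
`GoodT R n (-1)` at all orbit points at positions in `[l + c0 + R0, v]` and `GoodT R n 1` at positions in `[w, x - c0 - R0]`.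
WARNING: `v` may be larger than `x` and `w` smaller than `l`: always intersect with `[l + c0 + R0, x - c0 - R0]`.
(T) Let all orbit points at positions in `[α, β] ⊆ [l + c0 + R0, x - c0 - R0]` be good with one sign; `top a` the
highest token. If `a`, `s a` are both in `[α, β]` then `top (s a) = s (top a)` (third clause of `GoodT` at `a`: `s (top a)` is the unique highest
element of `R (s a)`; it is an element by `Fam.eqv`). So `top` is transported by all paths inside `[α, β]` and `LockI z α β a (top a)`.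
CASE B: `w > x - c0 - R0 - L1'`. So `v ≥ w - R0 > x - X`. Let `v' = min v (x - c0 - R0)`, `a` an orbit point at a position in
`[v' - m - ρ, v' - m]`, `h` a short path from `a0` to `a` inside `[e, x]` (both points have distance `≥ c0` from both ends).
`h t0 ∈ R a`; `dh (h t0) (h τ0) ≤ C0 + 2 Λ (X + M + 1)`; `0 ≤ dh (h t0) (top a)`, and `0 ≤ dh (top a) (h τ0)` (`τ_top`); so
`|dh (top a) (h τ0)| ≤ C0 + 2 Λ (X + M + 2)`. Both `top a` and `h τ0` are locked over `[l + c0 + R0, v']` (length `≥ L2'`) with the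
sign `-1` (`τ_sgn`, `GoodT`), in the orbit of `y`. `compare` (with `h = h' = 1` and base point `a`): `top a = h τ0`. But `top a ∈ R a`, `h τ0 ∉ R a` (`τ_not`):
contradiction.
CASE A: `w ≤ x - c0 - R0 - L1'`. Let `w' = max w (l + c0 + R0)`, `a` an orbit point at a position in
`[x - c0 - R0 - m - ρ, x - c0 - R0 - m]`, `h` a short path from `a0` to `a` inside `[e, x]`: as before
`|dh (h t0) (top a)| ≤ C0 + 2 Λ (M + c0 + R0 + m + ρ + 1) ≤ 2 C0`; both are locked over `[max w' e, x - c0 - R0]` (length `≥ L1'`) with the sign `1`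
(`t_sgn`): `top a = h t0` by `compare`.
(A1) `e ≤ w`: if `w ≤ e - 1` then `h t0 = top a` is locked over `[e - 1, x - c0 - R0]` at `a`; a path `k` inside `[e, x - c0 - R0]` from `a` to a
point at a position in `[e + c0, e + Lg - c0]` gives a contradiction to `t_end` for the path `k * h`.
So `max w' e = w`, and for every orbit point `p` at a position in `[w + c0, x - c0 - R0 - c0]` and every path `k` inside `[e, x]` from `a0` to `p`:
`top p = k t0` (`LockI.eq`). Let `v1 = min v w`, so `w - R0 ≤ v1 ≤ w`, `v1 ≥ e - R0`.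
Let `a'` be an orbit point at a position in `[v1 - M, v1 - m]` (`M ≥ m + ρ`), `τ' = top a'`: locked over `[l + c0 + R0, v1]`, so over `[l + W1, v1]`, so
over `[l, v1]` by `GoodL c0 W1 L1`. For a path `k` inside `[l, v1]` from `a'` to a point `p` at a position in `[l + m, v1 - m]`: `k τ' = top p` (there is also a path inside
`[l + c0 + R0, v1]`, `LockI.eq`).
(A2) `x - w ≥ Y1`: let `k1` be a path inside `[l, x]` from `a0` to `a'`. `τ'` and `k1 τ0` are locked over `[l, v1]`, with the sign `-1`, and different (`τ_not`),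
so by `compare` `|dh τ' (k1 τ0)| > Cb`, and `0 ≤ dh τ' (k1 τ0)` by `τ_top`. Let `a''` be an orbit point at a position in `[w + c0, w + c0 + ρ]`, `k2` a short
path from `a0` to `a''` inside `[e, x]`, `k3` a short path from `a''` to `a'` inside `[l, x]`. `dh (k2 t0) (k2 τ0) ≤ C0 + 2 Λ (x - w + 1)`. `k3 k2 t0 ∈ R a'`,
so `0 ≤ dh (k3 k2 t0) τ'`, and `k1 τ0 = k3 k2 τ0`. Hence `Cb < dh τ' (k1 τ0) ≤ dh (k3 k2 t0) (k3 k2 τ0) ≤ C0 + 2 Λ (x - w + 1) + 2 Λ (R0 + 2 c0 + ρ + M + 1)`.
(A3) `v1 - e > Y0`: let `ae` be an orbit point at a position in `[e + c0, e + c0 + ρ]`, `he` a path inside `[e, x]` from `a0` to `ae`, `te = he t0`. By `t_end`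
some loop of `ae` inside `[e - 1, e + Lg]` moves `te`; by `URaise` there is a loop `g` of `ae` in the window `W'`, with `K ≤ dh te (g te)`; it is inside
`[l, x]` (`l + W' ≤ l + W2 ≤ e`; `ae + W' ≤ e + Lg + W' ≤ w + Y1 ≤ x`). So `g te ∈ R ae`. Let `aw` be an orbit point at a position in `[w + c0, w + c0 + ρ]`, `k` a short path from
`ae` to `aw` inside `[e, x]`. `top aw = k he t0 = k te` and `k g te ∈ R aw`, so `dh (k te) (k g te) ≤ 0` and `K ≤ dh te (g te) ≤ 2 Λ (w - e + ρ + 1)`, so
`w - e > Y0 + R0`, and `v1 ≥ w - R0 > e + Y0`.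
NEW CONFIGURATION: `x' = v1`, `a0' = a'`, `t0' = k t0` (`k` a path inside `[e, x]` from `a0` to `a'`), `τ0' = τ'`,
`R' p = R p \ {q | ∃ k, RIn z l v1 a' k ∧ k a' = p ∧ q = k τ'}`, the same `l, e`.
Check: `t0' ∈ R a'`; `t0' ≠ τ'` because the signs are different (`near_sign`). `R' p` is nonempty: it contains `k t0'` for a path `k` from `a'` to `p` inside `[l, v1]`
(`k t0' = k' τ' = k τ'` is impossible). `eqv`: the removed token over `h p` is `h` of the removed token over `p` (`RIn.inv`, `RIn.trans`). `t_sgn`, `t_end`: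
from the old ones (compose the paths). `τ_sgn`, `τ_top`: `k τ' = top p` for positions in `[l + m, v1 - m]` (see above). `τ_not`: by definition of `R'`.
`gap`: with `a''` and a short path `k` inside `[e, x]` from `a''` to `a'`: `t0' = k t''`, `t'' = top a''`, `k⁻¹ τ' ∈ R a''`, so `dh t'' (k⁻¹ τ') ≤ 0` and
`dh t0' τ' ≤ 2 Λ (R0 + 2 c0 + ρ + M + 1) ≤ Cs ≤ C0`. The number of tokens: `(R' a').ncard < (R a').ncard = (R a0).ncard` (`R a' = k '' R a0`; the token `τ'` is removed).
-/

namespace Pool.Agent.helper98.NIG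

variable {b : Base} {F : Type}

namespace Sys

/-- The descent: there is no configuration (definitions `GoodL`, `GoodR`, `PFam`, `Cfg`, and
`short_path`, `height_of_list` in `helper97/NIG/DescDefs.lean`). -/
theorem no_cfg [Fintype F] (A : Sys b F) {N c0 : ℕ} (hN : A.BCN N) (hc : A.BCc c0)
    (hred : A.Reduced) (hur : A.URaise) :
    ∃ n0 : ℕ, ∀ n, n0 ≤ n → ∃ m0 : ℕ, ∀ m, m0 ≤ m → ∀ M : ℕ, m + A.ρ ≤ M →
    ∀ Lg : ℕ, 2 * c0 + 2 * A.ρ ≤ Lg →
    ∃ Cs : ℝ, ∀ C0 : ℝ, Cs ≤ C0 → ∃ Y0 Wm : ℕ, ∀ W1 L1 : ℕ, Wm ≤ W1 → ∃ W2 : ℕ,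
      ∀ (z y : Pt b F) (l x e : ℤ) (R : Pt b F → Set (Pt b F)) (a0 t0 τ0 : Pt b F),
        A.GoodL c0 W1 L1 z l → l + W2 ≤ e → e + Y0 < x →
        ¬ A.Cfg c0 n m M Lg C0 z y l x e R a0 t0 τ0 :=
  no_cfg' A hN hc hred hur

end Sys

end Pool.Agent.helper98.NIG
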