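import Pool.Agent.helper98.NIG.E07a
import Pool.Agent.helper98.NIG.E10
import Pool.Agent.helper2.NIG.L29

/-!
# NIG-E09: good ends exist

A lock which can not be prolonged at an end is only possible near a gate of high level.

PROOFS. `P = (b.p : ℤ)`. `BCc c0` is `BCon c0`.
* `core_end` (`W, δ` given). `w0` from `visible_loop`. `Γ = W + w0 + 2 c0 + 2 ρ + 2`. Let `k ≥ 3`. Suppose there is no `L`: for every `i : ℕ`
  there are `a_i, t_i ∈ D`, locked over `{p | -c0 ≤ δ p ∧ δ p ≤ i}`, not locked over `Icc (-W) W`, without gate of level `k` at distance `≤ Γ`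
  (`∀ r, Addr (a_i).1 k r → ∀ n, |n| ≤ Γ → ¬ P ^ k ∣ n - r`).
  By `lock_short` there is a list `l_i` of length `≤ L0`, `ReachL a_i (Icc (-W) W) l_i`, `l_i.prod a_i = a_i`, `l_i.prod t_i ≠ t_i`. Limits `a*`, `t*` in `D` along
  `Filter.hyperfilter ℕ`, `l_i = l` constant along it. `ReachL a* (Icc (-W) W) l` (positions of finitely many words), `q = l.prod` fixes `a*`, moves `t*`
  (`fix_iff_of_agree`): `¬ Rel a* t*`. A loop `g` of `a*` in `{p | -c0 ≤ δ p}` is a loop of `a_i` in `{p | -c0 ≤ δ p ∧ δ p ≤ i}` for almost all `i`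
  (`exists_reach_bounded` is not enough: use that a path is reached in `{p | -c0 ≤ δ p} ∩ Icc (-C) C` for some `C`, and `Reach.congr`), so it fixes
  `t_i`, and `t*`: `Lock A {p | -c0 ≤ δ p} a* t*`. `lock_half2`: there is `x1 ∈ D` with `AsTw c0 δ a* x1` and `Rel x1 t*` (`σ = 1`: `x1 = t*`; `σ = -1`: `x1 = y'`; the
  alternatives `a* = t*`, `a* = y'` contradict `¬ Rel a* t*`). So `g a* = tw b h n φ` for some `g ∈ G`, and `a* = tw b h m ψ` (`map_tw` for `g⁻¹`); the hole is at position `-m`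
  relative to `a*`. CLAIM `|m| ≤ Γ`.
  (i) suppose `δ m > Γ`. Let `x1' = tw b (!h) m ψ ∈ D` (`tw_mem`). `AsTw` with `M = c0 + ρ + 1`: `g` reached from `a*` in `{p | -c0 ≤ δ p}`,
  `g a* = tw b h n φ`, `g x1 = tw b (!h) n φ`. All these points are on the side `δ` of the hole at distance `> ρ` (`δ (m + p) > ρ`), so `reach_congr_Icc`
  transports the path to `x1'`: `g x1' = tw b (!h) n φ`, so `x1 = x1'`. Now `q` is reached from `a*` in `Icc (-W) W`, also on the side `δ` of the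
  hole, so `q` fixes `x1'` (the sequences agree there: same displacement and floor), so `q` fixes `t*` (`Rel x1 t*`): contradiction.
  (ii) suppose `δ m < - Γ`. `AsTw` with `M = 1`: `g` reached in `{p | -c0 ≤ δ p}`, `u := g a* = tw b h n φ`, `u' := g x1 = tw b (!h) n φ`, `0 < δ n`.
  `¬ Rel u u'`. `x1` is locked to `a*` over `{p | -c0 ≤ δ p}` (`Rel x1 t*`); `lock_move`: `u'` is locked to `u` over `{p | -c0 ≤ δ (p + disp g a*)}`,
  `disp g a* = n - m`. `visible_loop` for `u, u'` themselves: not locked over `Icc (min 0 (-n) - w0) (max 0 (-n) + w0)`; this interval is contained in the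
  half line: for `p` in it `δ (p + n - m) ≥ -w0 - δ m ≥ -c0`: contradiction.
  So `|m| ≤ Γ`. `Addr a*.1 k (-m)` (`addr_sg`), `al_window hk`: for almost all `i` and every address `r` of `a_i` at level `k`: `P ^ k ∣ r + m`, i.e. `P ^ k ∣ (-m) - r`:
  contradiction.
* `good_endL`: `Γ = Γ(core) + W + 3 c0 + 4 ρ + 2` with `core_end` for `W' = W + 3 c0 + 4 ρ`, `δ = 1`; `L = L(core) + 2 c0 + 3 ρ`. Let `a, t, β` be given, suppose
  `¬ LockI z l β a t`. Let `a'` be a point at a position in `[l + W + c0, l + W + c0 + ρ]` (`syn`), `h` a path from `a` to `a'` inside `[l + W, β]` (`exists_path`), `t' = h t`.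
  `LockI z (l + W) β a' t'` and `¬ LockI z l β a' t'` (`LockI.map`); `LockI.glue` (with `α = l + W`, `β' = l + W + 2 c0 + 2 ρ`): `¬ LockI z l (l + W + 2 c0 + 2 ρ) a' t'`. So `t'` is
  not locked to `a'` over `Icc (-W') W'`, and it is locked over `{p | -c0 ≤ 1 * p ∧ 1 * p ≤ L(core)}`: `core_end` gives a gate of level `k` of `a'` at distance `≤ Γ(core)`;
  `a'.1 = sh (pos z a') z.1`, `addr_sh`.
* `good_endR`: the same with `δ = -1`, `a'` at a position in `[r - W - c0 - ρ, r - W - c0]`.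
* `good_endsL` (`Γ1 = Γ(W1)`): `k1 ≥ 3` with `P ^ k1 > W1 + 2 Γ1 + 1`, `L1 = L(W1, k1)`. Given `W2`: `Γ2`, `k2 ≥ 3` with
  `P ^ k2 ≥ W2 + 2 Γ2 + P ^ k1 + Γ1 + 4`, `L2 = L(W2, k2)`, `C = 2 P ^ k2`. Let `z, m` be given, `r1, r2` addresses of levels `k1, k2` (`exists_addr`; all addresses of one
  level are congruent: `addr_unique`). Let `g2 ≥ m` be the least number with `P ^ k2 ∣ g2 - r2` (`g2 < m + P ^ k2`), `g1 ≥ g2 + Γ2 + 1` the least one with `P ^ k1 ∣ g1 - r1`, `l = g1 + Γ1 + 1`.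
  `[l - Γ1, l + W1 + Γ1]` lies strictly between `g1` and `g1 + P ^ k1`, and `[l - Γ2, l + W2 + Γ2]` strictly between `g2` and `g2 + P ^ k2`.
* `good_endsR`: the same.
-/

namespace Pool.Agent.helper98.NIG

variable {b : Base} {F : Type}

namespace Sys

theorem E09a_reach {A : Sys b F} {x : Pt b F} {I : Set ℤ} {l : List (Equiv.Perm (Pt b F))}
    (h : A.ReachL x I l) : A.Reach x I l.prod := by
  induction l with
  | nil => exact Reach.one
  | cons s l ih =>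
    rw [List.prod_cons]
    exact Reach.step (ih h.2.2) h.1 h.2.1

/-- a path stays in a bounded set -/
theorem E09a_bdd {A : Sys b F} {x : Pt b F} {I : Set ℤ} {g : Equiv.Perm (Pt b F)}
    (h : A.Reach x I g) : ∃ C : ℕ, A.Reach x (I ∩ Set.Icc (-(C : ℤ)) C) g := by
  induction h with
  | one => exact ⟨0, Reach.one⟩
  | @step g s _ hs hp ih =>
    obtain ⟨C, hC⟩ := ih
    have h1 : ((C + (pos x (s (g x))).natAbs : ℕ) : ℤ) = C + |pos x (s (g x))| := by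
      rw [Int.abs_eq_natAbs]
      push_cast
      ring
    refine ⟨C + (pos x (s (g x))).natAbs, Reach.step (hC.mono ?_) hs ⟨hp, ?_⟩⟩
    · refine Set.inter_subset_inter_right _ (Set.Icc_subset_Icc ?_ ?_)
      · rw [h1]; linarith [abs_nonneg (pos x (s (g x)))]
      · rw [h1]; linarith [abs_nonneg (pos x (s (g x)))]
    · rw [h1, Set.mem_Icc]
      have h2 := abs_le.1 (le_refl |pos x (s (g x))|)
      constructor <;> linarith [h2.1, h2.2, Int.natCast_nonneg C]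

/-- the two singular lines agree outside of the hole -/
theorem E09a_sg (h : Bool) {m : ℤ} (hm : m ≠ 0) : (sg b h).1 m = (sg b (!h)).1 m := by
  change skel b h m = skel b (!h) m
  unfold skel
  rw [if_neg hm, if_neg hm]

/-- a path of a point of a singular line which stays away from the hole has the same effect at
the twin -/
theorem E09a_twin {A : Sys b F} {h : Bool} {m : ℤ} {ψ : F} {I : Set ℤ} (h0 : (0 : ℤ) ∈ I)
    (hI : ∀ k ∈ I, ∀ j : ℤ, |j| ≤ A.ρ → k + j + m ≠ 0) {g : Equiv.Perm (Pt b F)}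
    (hg : A.Reach (tw b h m ψ) I g) {n : ℤ} {φ : F} (he : g (tw b h m ψ) = tw b h n φ) :
    g (tw b (!h) m ψ) = tw b (!h) n φ := by
  obtain ⟨-, h2, h3⟩ := reach_congr_Icc (x := tw b h m ψ) (x' := tw b (!h) m ψ) h0 rfl
    (fun k hk j hj => E09a_sg h (hI k hk j hj)) hg
  have e1 := map_tw (A.G_le_PW hg.mem_G) h m ψ
  have e2 := map_tw (A.G_le_PW hg.mem_G) (!h) m ψ
  obtain ⟨-, e3, e4⟩ := tw_inj (e1.symm.trans he)
  rw [e2, h2, h3, e3, e4]

/-- the limit situation -/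
theorem E09a_lim [Finite F] {A : Sys b F} (hred : A.Reduced) {c0 w : ℕ} (hc : A.BCon c0)
    (hw : A.SYN w) {W w0 : ℕ} (hw0 : ∀ (h : Bool) (n : ℤ) (φ : F), tw b h n φ ∈ A.D →
      tw b (!h) n φ ∈ A.D → ¬ A.Rel (tw b h n φ) (tw b (!h) n φ) → ∀ u v : Pt b F,
      u.2 = φ → v.2 = φ → (∀ k : ℤ, min 0 (-n) - w0 ≤ k → k ≤ max 0 (-n) + w0 →
        u.1.1 k = (sg b h).1 (k + n) ∧ v.1.1 k = (sg b (!h)).1 (k + n)) →
      ¬ A.Lock (Set.Icc (min 0 (-n) - w0) (max 0 (-n) + w0)) u v)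
    {δ : ℤ} (hδ : δ = 1 ∨ δ = -1) {a t : Pt b F} (ha : a ∈ A.D) (ht : t ∈ A.D)
    (hl : A.Lock {p | -(c0 : ℤ) ≤ δ * p} a t) {q : Equiv.Perm (Pt b F)}
    (hq : A.Reach a (Set.Icc (-(W : ℤ)) W) q) (hqa : q a = a) (hqt : q t ≠ t) :
    ∃ (h : Bool) (m : ℤ) (ψ : F), a = tw b h m ψ ∧
      |m| ≤ ((W + w0 + 2 * c0 + 2 * A.ρ + 2 : ℕ) : ℤ) := by
  have hnr : ¬ A.Rel a t := fun hr => hqt ((hr q hq.mem_G).1 hqa)
  obtain ⟨x1, hx1, htw, hrel⟩ : ∃ x1 ∈ A.D, A.AsTw c0 δ a x1 ∧ A.Rel x1 t := by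
    obtain ⟨σ, B, hσ, -, h1, h2⟩ := lock_half2 hred hc hw hδ ha ht hl
    rcases hσ with rfl | rfl
    · rcases h1 rfl with rfl | h3
      · exact absurd (Rel.refl A a) hnr
      · exact ⟨t, ht, h3, Rel.refl A t⟩
    · obtain ⟨y', hy', hr, -, h3⟩ := h2 rfl
      rcases h3 with rfl | h3
      · exact absurd hr.symm hnr
      · exact ⟨y', hy', h3, hr.symm⟩
  have hnr1 : ¬ A.Rel a x1 := fun hr => hnr (hr.trans hrel)
  obtain ⟨h, m, ψ, rfl⟩ : ∃ (h : Bool) (m : ℤ) (ψ : F), a = tw b h m ψ := by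
    obtain ⟨g, hg, h, n, φ, -, e1, -⟩ := htw 0
    have e2 := map_tw (A.G_le_PW (A.G.inv_mem hg.mem_G)) h n φ
    rw [← e1] at e2
    exact ⟨h, _, _, (g.symm_apply_apply a).symm.trans e2⟩
  refine ⟨h, m, ψ, rfl, ?_⟩
  by_contra hm
  rw [not_le] at hm
  push_cast at hm
  have hρ0 : (0 : ℤ) ≤ A.ρ := Int.natCast_nonneg _
  have hc0 : (0 : ℤ) ≤ c0 := Int.natCast_nonneg _
  have hW0 : (0 : ℤ) ≤ W := Int.natCast_nonneg _
  have hw00 : (0 : ℤ) ≤ w0 := Int.natCast_nonneg _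
  have h0I : (0 : ℤ) ∈ {p : ℤ | -(c0 : ℤ) ≤ δ * p} := by
    change -(c0 : ℤ) ≤ δ * 0
    rw [mul_zero]
    linarith
  have hδm : |m| = δ * m ∨ |m| = -(δ * m) := by
    rcases hδ with rfl | rfl
    · rw [one_mul]; exact abs_choice m
    · rw [neg_one_mul, neg_neg]; exact (abs_choice m).symm
  rcases hδm with hδm | hδm
  · -- the hole is behind
    rw [hδm] at hm
    have hx1' : tw b (!h) m ψ ∈ A.D := A.tw_mem (by rw [hδm]; linarith) ha
    obtain ⟨g, hg, h', n, φ, -, e1, e2⟩ := htw (c0 + A.ρ + 1)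
    obtain ⟨rfl, e3, -⟩ := tw_inj ((map_tw (A.G_le_PW hg.mem_G) h m ψ).symm.trans e1)
    have e4 := E09a_twin h0I (fun k hk j hj => by
      have hk' : -(c0 : ℤ) ≤ δ * k := hk
      have hj' := abs_le.1 hj
      rcases hδ with rfl | rfl
      · intro hz
        linarith [hj'.1, hj'.2]
      · intro hz
        linarith [hj'.1, hj'.2]) hg e1
    have e5 : x1 = tw b (!h) m ψ := g.injective (e2.trans e4.symm)
    have e6 := E09a_twin (I := Set.Icc (-(W : ℤ)) W) ⟨by linarith, by linarith⟩ (fun k hk j hj => by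
      have hj' := abs_le.1 hj
      have hk1 := hk.1
      have hk2 := hk.2
      rcases hδ with rfl | rfl
      · intro hz
        linarith [hj'.1, hj'.2]
      · intro hz
        linarith [hj'.1, hj'.2]) hq hqa
    rw [← e5] at e6
    exact hqt ((hrel q hq.mem_G).1 e6)
  · -- the hole is in front
    rw [hδm] at hm
    obtain ⟨g, hg, h', n, φ, hn, e1, e2⟩ := htw 1
    obtain ⟨rfl, e3, -⟩ := tw_inj ((map_tw (A.G_le_PW hg.mem_G) h m ψ).symm.trans e1)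
    have hl1 : A.Lock {p | -(c0 : ℤ) ≤ δ * p} (tw b h m ψ) x1 := fun g' hg' hfix =>
      (hrel g' hg'.mem_G).2 (hl g' hg' hfix)
    have hl2 := lock_move h0I hl1 hg
    rw [e1, e2] at hl2
    have hD1 : tw b h n φ ∈ A.D := by rw [← e1]; exact A.map_mem hg.mem_G ha
    have hD2 : tw b (!h) n φ ∈ A.D := by rw [← e2]; exact A.map_mem hg.mem_G hx1
    have hnr2 : ¬ A.Rel (tw b h n φ) (tw b (!h) n φ) := by
      rw [← e1, ← e2]
      intro hr
      have h3 := Rel.map hr (A.G.inv_mem hg.mem_G)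
      have f1 : ∀ z : Pt b F, g⁻¹ (g z) = z := fun z => g.symm_apply_apply z
      rw [f1, f1] at h3
      exact hnr1 h3
    refine hw0 h n φ hD1 hD2 hnr2 (tw b h n φ) (tw b (!h) n φ) rfl rfl (fun k _ _ => ⟨rfl, rfl⟩)
      (Lock.mono ?_ hl2)
    intro k hk
    change -(c0 : ℤ) ≤ δ * (k + disp g (tw b h m ψ))
    have hk1 := hk.1
    have hk2 := hk.2
    rw [Nat.cast_one] at hn
    rcases hδ with rfl | rfl
    · rw [min_eq_right (by linarith)] at hk1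
      linarith
    · rw [max_eq_right (by linarith)] at hk2
      linarith

theorem core_end [Fintype F] (A : Sys b F) {c0 w : ℕ} (hc : A.BCc c0) (hw : A.SYN w)
    (hred : A.Reduced) (W : ℕ) {δ : ℤ} (hδ : δ = 1 ∨ δ = -1) : ∃ Γ : ℕ, ∀ k : ℕ, 3 ≤ k → ∃ L : ℕ,
    ∀ a ∈ A.D, ∀ t ∈ A.D, A.Lock {p | -(c0 : ℤ) ≤ δ * p ∧ δ * p ≤ L} a t →
      ¬ A.Lock (Set.Icc (-(W : ℤ)) W) a t →
      ∃ r n : ℤ, Addr a.1 k r ∧ |n| ≤ Γ ∧ (b.p : ℤ) ^ k ∣ n - r := by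
  obtain ⟨w0, hw0⟩ := visible_loop hred (R := c0) hc hw
  refine ⟨W + w0 + 2 * c0 + 2 * A.ρ + 2, fun k hk => ?_⟩
  by_contra hcon
  push Not at hcon
  choose a ha t ht hl hnl hno using hcon
  obtain ⟨L0, hL0⟩ := A.lock_short W
  have h1 : ∀ i, ∃ g ∈ {g : Equiv.Perm (Pt b F) | ∃ l : List (Equiv.Perm (Pt b F)),
      l.length ≤ L0 ∧ (∀ s ∈ l, s ∈ A.S) ∧ l.prod = g},
      A.Reach (a i) (Set.Icc (-(W : ℤ)) W) g ∧ g (a i) = a i ∧ g (t i) ≠ t i := by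
    intro i
    by_contra hc'
    push Not at hc'
    refine hnl i fun h hh hfix => hL0 (a i) (t i) (fun l hl' hR hlz => ?_) h hh hfix
    exact hc' l.prod ⟨l, hl', E08_mem hR, rfl⟩ (E09a_reach hR) hlz
  choose v hv hvR hva hvt using h1
  set U : Ultrafilter ℕ := Filter.hyperfilter ℕ with hU
  have hge : ∀ m : ℕ, ∀ᶠ i in (U : Filter ℕ), m ≤ i :=
    fun m => Nat.hyperfilter_le_atTop (Filter.eventually_ge_atTop m)
  obtain ⟨q, -, hqv⟩ : ∃ g ∈ {g : Equiv.Perm (Pt b F) | ∃ l : List (Equiv.Perm (Pt b F)),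
      l.length ≤ L0 ∧ (∀ s ∈ l, s ∈ A.S) ∧ l.prod = g}, ∀ᶠ i in (U : Filter ℕ), v i = g := by
    rw [← Ultrafilter.eventually_exists_mem_iff (E08_fin A L0)]
    exact Filter.Eventually.of_forall fun i => ⟨v i, hv i, rfl⟩
  obtain ⟨a', ha'⟩ := exists_ulim U a
  obtain ⟨t', ht'⟩ := exists_ulim U t
  have haD : a' ∈ A.D := A.mem_D_of_ulim ha' (Filter.Eventually.of_forall ha)
  have htD : t' ∈ A.D := A.mem_D_of_ulim ht' (Filter.Eventually.of_forall ht)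
  have hW0 : (0 : ℤ) ≤ W := Int.natCast_nonneg _
  have hqR : A.Reach a' (Set.Icc (-(W : ℤ)) W) q := by
    obtain ⟨i, hi1, hi2⟩ := ((ha' (W + A.ρ)).and hqv).exists
    refine (Reach.congr (x := a i) (N := W + A.ρ) (I := Set.Icc (-(W : ℤ)) W) (fun k hk => ?_) ⟨by linarith, by linarith⟩ hi1
      (hi2 ▸ hvR i)).1
    push_cast
    have := abs_le.2 hk
    linarith
  obtain ⟨ρ', hρ', -⟩ := A.G_le_PW hqR.mem_G
  have hqa : q a' = a' := by
    obtain ⟨i, hi1, hi2⟩ := ((ha' ρ').and hqv).exists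
    rw [← fix_iff_of_agree hρ' hi1, ← hi2]
    exact hva i
  have hqt : q t' ≠ t' := by
    obtain ⟨i, hi1, hi2⟩ := ((ht' ρ').and hqv).exists
    rw [Ne, ← fix_iff_of_agree hρ' hi1, ← hi2]
    exact hvt i
  have hlim : A.Lock {p | -(c0 : ℤ) ≤ δ * p} a' t' := by
    intro g hg hfix
    obtain ⟨C, hC⟩ := E09a_bdd hg
    obtain ⟨ρ1, hρ1, -⟩ := A.G_le_PW hg.mem_G
    obtain ⟨i, ⟨⟨hi1, hi2⟩, hi3⟩, hi4⟩ :=
      ((((ha' (C + A.ρ)).and (ha' ρ1)).and (ht' ρ1)).and (hge C)).exists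
    have h2 : A.Reach (a i) ({p | -(c0 : ℤ) ≤ δ * p} ∩ Set.Icc (-(C : ℤ)) C) g := by
      refine (Reach.congr (x := a') (N := C + A.ρ)
        (I := {p | -(c0 : ℤ) ≤ δ * p} ∩ Set.Icc (-(C : ℤ)) C) (fun k hk => ?_) ⟨?_, ?_⟩ hi1.symm hC).1
      · push_cast
        have := abs_le.2 hk.2
        linarith
      · change -(c0 : ℤ) ≤ δ * 0
        rw [mul_zero]
        linarith [Int.natCast_nonneg c0]
      · exact ⟨by linarith [Int.natCast_nonneg C], Int.natCast_nonneg C⟩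
    have hsub : ({p | -(c0 : ℤ) ≤ δ * p} ∩ Set.Icc (-(C : ℤ)) C) ⊆
        {p | -(c0 : ℤ) ≤ δ * p ∧ δ * p ≤ i} := by
      intro p hp
      have hp0 : -(c0 : ℤ) ≤ δ * p := hp.1
      have hp1 := hp.2.1
      have hp2 := hp.2.2
      have hi5 : (C : ℤ) ≤ i := by exact_mod_cast hi4
      refine ⟨hp0, ?_⟩
      rcases hδ with rfl | rfl <;> linarith
    exact (fix_iff_of_agree hρ1 hi3).1
      (hl i g (h2.mono hsub) ((fix_iff_of_agree hρ1 hi2).2 hfix))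
  obtain ⟨h, m, ψ, he, hm⟩ := E09a_lim hred hc hw hw0 hδ haD htD hlim hqR hqa hqt
  obtain ⟨N, hN⟩ := al_window (b := b) hk
  obtain ⟨i, hi⟩ := (ha' N).exists
  obtain ⟨r, hr⟩ := exists_addr (a i).1 k
  have hr' : Addr a'.1 k (-m) := by
    rw [he]
    exact addr_sg m h k
  have h4 := hN (a i).1 a'.1 (fun j hj => hi.2 j hj) r (-m) hr hr'
  exact hno i r (-m) hr (by rw [abs_neg]; exact hm) h4

/-- a multiple of `P ^ k` shifted by `r` in every window of length `P ^ k` -/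
private theorem E09b_exists (b : Base) (k : ℕ) (m r : ℤ) :
    ∃ g : ℤ, m ≤ g ∧ g < m + (b.p : ℤ) ^ k ∧ (b.p : ℤ) ^ k ∣ g - r := by
  have hp : 0 < (b.p : ℤ) ^ k := by
    have h1 : (0 : ℤ) < b.p := by exact_mod_cast (lt_of_lt_of_le (by norm_num) b.two_le)
    positivity
  have h1 := Int.emod_nonneg (r - m) hp.ne'
  have h2 := Int.emod_lt_of_pos (r - m) hp
  refine ⟨m + (r - m) % (b.p : ℤ) ^ k, by linarith, by linarith, ?_⟩
  have h3 : m + (r - m) % (b.p : ℤ) ^ k - r = -((b.p : ℤ) ^ k * ((r - m) / (b.p : ℤ) ^ k)) := by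
    have h4 := Int.emod_add_mul_ediv (r - m) ((b.p : ℤ) ^ k)
    linarith
  rw [h3]
  exact (dvd_mul_right _ _).neg_right

/-- no gate strictly between two consecutive ones -/
private theorem E09b_no {Q g r r' n : ℤ} (h1 : Q ∣ g - r) (h2 : Q ∣ r - r')
    (h3 : g < n) (h4 : n < g + Q) : ¬ Q ∣ n - r' := by
  intro h
  have h5 : Q ∣ n - g := by
    have e : n - g = n - r' - (g - r) - (r - r') := by ring
    rw [e]
    exact dvd_sub (dvd_sub h h1) h2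
  have h6 := Int.le_of_dvd (by linarith) h5
  linarith

private theorem E09b_pow (b : Base) (n : ℕ) : ∃ k : ℕ, 3 ≤ k ∧ (n : ℤ) < (b.p : ℤ) ^ k := by
  refine ⟨n + 3, by omega, ?_⟩
  have h1 : n + 3 < b.p ^ (n + 3) := Nat.lt_pow_self (lt_of_lt_of_le (by norm_num) b.two_le)
  have h2 : n < b.p ^ (n + 3) := by omega
  exact_mod_cast h2

/-- a point of the orbit of `z` at a position in `[n, n + ρ]` -/
private theorem E09b_pt {A : Sys b F} {z : Pt b F} (hz : z ∈ A.D) (n : ℤ) :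
    ∃ a' ∈ A.orb z, n ≤ pos z a' ∧ pos z a' ≤ n + A.ρ := by
  obtain ⟨g, hg, h1, h2⟩ := A.syn hz n
  exact ⟨g z, ⟨g, hg, rfl⟩, h1, h2⟩

/-- locks over intervals and locks over sets of positions -/
private theorem E09b_lockI {A : Sys b F} {z a t : Pt b F} {l r : ℤ} {I : Set ℤ}
    (h : A.Lock I a t) (hI : ∀ k : ℤ, l - pos z a ≤ k → k ≤ r - pos z a → k ∈ I) :
    A.LockI z l r a t :=
  fun g hg hga => h g (Reach.mono (fun k hk => hI k hk.1 hk.2) hg) hga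

private theorem E09b_lock {A : Sys b F} {z a t : Pt b F} {l r : ℤ} {I : Set ℤ}
    (h : A.LockI z l r a t) (hI : ∀ k : ℤ, k ∈ I → l - pos z a ≤ k ∧ k ≤ r - pos z a) :
    A.Lock I a t := by
  intro g hg hga
  refine h g (Reach.mono (fun k hk => ?_) hg) hga
  exact ⟨(hI k hk).1, (hI k hk).2⟩

theorem good_endL [Fintype F] (A : Sys b F) {c0 w : ℕ} (hc : A.BCc c0) (hw : A.SYN w)
    (hred : A.Reduced) (W : ℕ) : ∃ Γ : ℕ, ∀ k : ℕ, 3 ≤ k → ∃ L : ℕ, ∀ z ∈ A.D, ∀ l : ℤ,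
      (∀ r : ℤ, Addr z.1 k r → ∀ n : ℤ, l - Γ ≤ n → n ≤ l + W + Γ → ¬ (b.p : ℤ) ^ k ∣ n - r) →
      A.GoodL c0 W L z l := by
  obtain ⟨Γ0, hΓ0⟩ := A.core_end hc hw hred (W + 3 * c0 + 4 * A.ρ) (δ := 1) (Or.inl rfl)
  refine ⟨Γ0 + W + 3 * c0 + 4 * A.ρ + 2, fun k hk => ?_⟩
  obtain ⟨L0, hL0⟩ := hΓ0 k hk
  refine ⟨L0 + 2 * c0 + 3 * A.ρ, fun z hz l hgate a ha t ht β hβ ha1 ha2 hlock => ?_⟩
  by_contra hnot
  push_cast at hβ
  obtain ⟨a', ha', hp1, hp2⟩ := E09b_pt hz (l + W + c0)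
  obtain ⟨h, hh, hha⟩ := exists_path hc hz ha ha' (l := l + W) (r := β) ha1 ha2 hp1
    (by linarith [(Nat.cast_nonneg A.ρ : (0 : ℤ) ≤ A.ρ), (Nat.cast_nonneg L0 : (0 : ℤ) ≤ L0)])
  have hW0 : (0 : ℤ) ≤ W := Nat.cast_nonneg W
  have hc00 : (0 : ℤ) ≤ c0 := Nat.cast_nonneg c0
  have hρ0 : (0 : ℤ) ≤ A.ρ := Nat.cast_nonneg A.ρ
  have hL00 : (0 : ℤ) ≤ L0 := Nat.cast_nonneg L0
  have hΓ00 : (0 : ℤ) ≤ Γ0 := Nat.cast_nonneg Γ0
  have hlock' : A.LockI z (l + W) β a' (h t) := by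
    rw [← hha]
    exact hlock.map ha (by linarith) (by linarith) hh
  have hhw : A.RIn z l β a h := hh.mono (by linarith) le_rfl
  have hnot' : ¬ A.LockI z l β a' (h t) := by
    intro hl
    apply hnot
    have h1 : A.RIn z l β (h a) h⁻¹ := hhw.inv ha (by linarith) (by linarith)
    rw [hha] at h1
    have h2 := hl.map ha' (by linarith) (by linarith) h1
    have e1 : h⁻¹ a' = a := by rw [← hha]; exact h.symm_apply_apply a
    have e2 : h⁻¹ (h t) = t := h.symm_apply_apply t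
    rwa [e1, e2] at h2
  have hnot2 : ¬ A.LockI z l (l + W + 2 * c0 + 2 * A.ρ) a' (h t) := by
    intro hl
    apply hnot'
    exact LockI.glue hc hz ha' (l := l) (α := l + W) (β := l + W + 2 * c0 + 2 * A.ρ) (r := β)
      (by linarith) (by linarith) (by linarith) hp1 (by linarith) hl hlock'
  have hq1 : ¬ A.Lock (Set.Icc (-((W + 3 * c0 + 4 * A.ρ : ℕ) : ℤ)) (W + 3 * c0 + 4 * A.ρ : ℕ)) a' (h t) := by
    intro hl
    apply hnot2
    refine E09b_lockI hl fun j hj1 hj2 => ?_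
    push_cast
    exact ⟨by linarith, by linarith⟩
  have hq2 : A.Lock {p | -(c0 : ℤ) ≤ 1 * p ∧ 1 * p ≤ L0} a' (h t) := by
    refine E09b_lock hlock' fun j hj => ?_
    obtain ⟨hj1, hj2⟩ := hj
    exact ⟨by linarith, by linarith⟩
  obtain ⟨r, n, hr, hn, hd⟩ := hL0 a' (orb_mem_D hz ha') (h t) (A.map_mem hh.mem_G ht) hq2 hq1
  have hs : a'.1 = sh (pos z a') z.1 := by
    obtain ⟨g, hg, rfl⟩ := ha'
    exact pos_spec (sameLine_of_mem_PW (A.G_le_PW hg) z)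
  have hr' : Addr z.1 k (r + pos z a') := by
    rw [← addr_sh (n := pos z a'), ← hs, add_sub_cancel_right]
    exact hr
  rw [abs_le] at hn
  refine hgate _ hr' (n + pos z a') ?_ ?_ ?_
  · push_cast
    linarith [hn.1]
  · push_cast
    linarith [hn.2]
  · have e : n + pos z a' - (r + pos z a') = n - r := by ring
    rw [e]
    exact hd

theorem good_endR [Fintype F] (A : Sys b F) {c0 w : ℕ} (hc : A.BCc c0) (hw : A.SYN w)
    (hred : A.Reduced) (W : ℕ) : ∃ Γ : ℕ, ∀ k : ℕ, 3 ≤ k → ∃ L : ℕ, ∀ z ∈ A.D, ∀ r0 : ℤ,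
      (∀ r : ℤ, Addr z.1 k r → ∀ n : ℤ, r0 - W - Γ ≤ n → n ≤ r0 + Γ → ¬ (b.p : ℤ) ^ k ∣ n - r) →
      A.GoodR c0 W L z r0 := by
  obtain ⟨Γ0, hΓ0⟩ := A.core_end hc hw hred (W + 3 * c0 + 4 * A.ρ) (δ := -1) (Or.inr rfl)
  refine ⟨Γ0 + W + 3 * c0 + 4 * A.ρ + 2, fun k hk => ?_⟩
  obtain ⟨L0, hL0⟩ := hΓ0 k hk
  refine ⟨L0 + 2 * c0 + 3 * A.ρ, fun z hz r0 hgate a ha t ht α hα ha1 ha2 hlock => ?_⟩
  by_contra hnot
  push_cast at hα
  have hW0 : (0 : ℤ) ≤ W := Nat.cast_nonneg W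
  have hc00 : (0 : ℤ) ≤ c0 := Nat.cast_nonneg c0
  have hρ0 : (0 : ℤ) ≤ A.ρ := Nat.cast_nonneg A.ρ
  have hL00 : (0 : ℤ) ≤ L0 := Nat.cast_nonneg L0
  have hΓ00 : (0 : ℤ) ≤ Γ0 := Nat.cast_nonneg Γ0
  obtain ⟨a', ha', hp1, hp2⟩ := E09b_pt hz (r0 - W - c0 - A.ρ)
  obtain ⟨h, hh, hha⟩ := exists_path hc hz ha ha' (l := α) (r := r0 - W) ha1 ha2
    (by linarith) (by linarith)
  have hlock' : A.LockI z α (r0 - W) a' (h t) := by
    rw [← hha]
    exact hlock.map ha (by linarith) (by linarith) hh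
  have hhw : A.RIn z α r0 a h := hh.mono le_rfl (by linarith)
  have hnot' : ¬ A.LockI z α r0 a' (h t) := by
    intro hl
    apply hnot
    have h1 : A.RIn z α r0 (h a) h⁻¹ := hhw.inv ha (by linarith) (by linarith)
    rw [hha] at h1
    have h2 := hl.map ha' (by linarith) (by linarith) h1
    have e1 : h⁻¹ a' = a := by rw [← hha]; exact h.symm_apply_apply a
    have e2 : h⁻¹ (h t) = t := h.symm_apply_apply t
    rwa [e1, e2] at h2
  have hnot2 : ¬ A.LockI z (r0 - W - 2 * c0 - 2 * A.ρ) r0 a' (h t) := by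
    intro hl
    apply hnot'
    exact LockI.glue hc hz ha' (l := α) (α := r0 - W - 2 * c0 - 2 * A.ρ) (β := r0 - W) (r := r0)
      (by linarith) (by linarith) (by linarith) (by linarith) (by linarith) hlock' hl
  have hq1 : ¬ A.Lock (Set.Icc (-((W + 3 * c0 + 4 * A.ρ : ℕ) : ℤ)) (W + 3 * c0 + 4 * A.ρ : ℕ)) a' (h t) := by
    intro hl
    apply hnot2
    refine E09b_lockI hl fun j hj1 hj2 => ?_
    push_cast
    exact ⟨by linarith, by linarith⟩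
  have hq2 : A.Lock {p | -(c0 : ℤ) ≤ -1 * p ∧ -1 * p ≤ L0} a' (h t) := by
    refine E09b_lock hlock' fun j hj => ?_
    obtain ⟨hj1, hj2⟩ := hj
    exact ⟨by linarith, by linarith⟩
  obtain ⟨r, n, hr, hn, hd⟩ := hL0 a' (orb_mem_D hz ha') (h t) (A.map_mem hh.mem_G ht) hq2 hq1
  have hs : a'.1 = sh (pos z a') z.1 := by
    obtain ⟨g, hg, rfl⟩ := ha'
    exact pos_spec (sameLine_of_mem_PW (A.G_le_PW hg) z)
  have hr' : Addr z.1 k (r + pos z a') := by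
    rw [← addr_sh (n := pos z a'), ← hs, add_sub_cancel_right]
    exact hr
  rw [abs_le] at hn
  refine hgate _ hr' (n + pos z a') ?_ ?_ ?_
  · push_cast
    linarith [hn.1]
  · push_cast
    linarith [hn.2]
  · have e : n + pos z a' - (r + pos z a') = n - r := by ring
    rw [e]
    exact hd

theorem good_endsL [Fintype F] (A : Sys b F) {c0 w : ℕ} (hc : A.BCc c0) (hw : A.SYN w)
    (hred : A.Reduced) (W1 : ℕ) : ∃ L1 : ℕ, ∀ W2 : ℕ, ∃ L2 C : ℕ, ∀ z ∈ A.D, ∀ m : ℤ,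
      ∃ l : ℤ, m ≤ l ∧ l ≤ m + C ∧ A.GoodL c0 W1 L1 z l ∧ A.GoodL c0 W2 L2 z l := by
  obtain ⟨Γ1, h1⟩ := A.good_endL hc hw hred W1
  obtain ⟨k1, hk1, hP1⟩ := E09b_pow b (W1 + 2 * Γ1 + 1)
  obtain ⟨L1, hL1⟩ := h1 k1 hk1
  refine ⟨L1, fun W2 => ?_⟩
  obtain ⟨Γ2, h2⟩ := A.good_endL hc hw hred W2
  obtain ⟨k2, hk2, hP2⟩ := E09b_pow b (W2 + 2 * Γ2 + b.p ^ k1 + Γ1 + 4)
  obtain ⟨L2, hL2⟩ := h2 k2 hk2
  refine ⟨L2, 2 * b.p ^ k2, fun z hz m => ?_⟩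
  obtain ⟨r1, hr1⟩ := exists_addr z.1 k1
  obtain ⟨r2, hr2⟩ := exists_addr z.1 k2
  obtain ⟨g2, hg2a, hg2b, hg2c⟩ := E09b_exists b k2 m r2
  obtain ⟨g1, hg1a, hg1b, hg1c⟩ := E09b_exists b k1 (g2 + Γ2 + 1) r1
  push_cast at hP1 hP2
  have hW1 : (0 : ℤ) ≤ W1 := Nat.cast_nonneg W1
  have hW2 : (0 : ℤ) ≤ W2 := Nat.cast_nonneg W2
  have hΓ1 : (0 : ℤ) ≤ Γ1 := Nat.cast_nonneg Γ1
  have hΓ2 : (0 : ℤ) ≤ Γ2 := Nat.cast_nonneg Γ2
  refine ⟨g1 + Γ1 + 1, by linarith, ?_, ?_, ?_⟩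
  · push_cast
    linarith
  · refine hL1 z hz _ fun r hr n hn1 hn2 => ?_
    exact E09b_no hg1c (addr_unique hk1 hr1 hr) (by linarith) (by linarith)
  · refine hL2 z hz _ fun r hr n hn1 hn2 => ?_
    exact E09b_no hg2c (addr_unique hk2 hr2 hr) (by linarith) (by linarith)

theorem good_endsR [Fintype F] (A : Sys b F) {c0 w : ℕ} (hc : A.BCc c0) (hw : A.SYN w)
    (hred : A.Reduced) (W1 : ℕ) : ∃ L1 : ℕ, ∀ W2 : ℕ, ∃ L2 C : ℕ, ∀ z ∈ A.D, ∀ m : ℤ,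
      ∃ r : ℤ, m ≤ r ∧ r ≤ m + C ∧ A.GoodR c0 W1 L1 z r ∧ A.GoodR c0 W2 L2 z r := by
  obtain ⟨Γ1, h1⟩ := A.good_endR hc hw hred W1
  obtain ⟨k1, hk1, hP1⟩ := E09b_pow b (W1 + 2 * Γ1 + 1)
  obtain ⟨L1, hL1⟩ := h1 k1 hk1
  refine ⟨L1, fun W2 => ?_⟩
  obtain ⟨Γ2, h2⟩ := A.good_endR hc hw hred W2
  obtain ⟨k2, hk2, hP2⟩ := E09b_pow b (W2 + 2 * Γ2 + b.p ^ k1 + W1 + Γ1 + 4)
  obtain ⟨L2, hL2⟩ := h2 k2 hk2
  refine ⟨L2, 2 * b.p ^ k2, fun z hz m => ?_⟩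
  obtain ⟨r1, hr1⟩ := exists_addr z.1 k1
  obtain ⟨r2, hr2⟩ := exists_addr z.1 k2
  obtain ⟨g2, hg2a, hg2b, hg2c⟩ := E09b_exists b k2 m r2
  obtain ⟨g1, hg1a, hg1b, hg1c⟩ := E09b_exists b k1 (g2 + W2 + Γ2 + 1) r1
  push_cast at hP1 hP2
  have hW1 : (0 : ℤ) ≤ W1 := Nat.cast_nonneg W1
  have hW2 : (0 : ℤ) ≤ W2 := Nat.cast_nonneg W2
  have hΓ1 : (0 : ℤ) ≤ Γ1 := Nat.cast_nonneg Γ1
  have hΓ2 : (0 : ℤ) ≤ Γ2 := Nat.cast_nonneg Γ2
  refine ⟨g1 + W1 + Γ1 + 1, by linarith, ?_, ?_, ?_⟩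
  · push_cast
    linarith
  · refine hL1 z hz _ fun r hr n hn1 hn2 => ?_
    exact E09b_no hg1c (addr_unique hk1 hr1 hr) (by linarith) (by linarith)
  · refine hL2 z hz _ fun r hr n hn1 hn2 => ?_
    exact E09b_no hg2c (addr_unique hk2 hr2 hr) (by linarith) (by linarith)

end Sys

end Pool.Agent.helper98.NIG
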