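import Pool.Agent.helper97.NIG.HarmSys

/-!
# NIG-E03: harmonic functions on a window with zero current have bounded oscillation

PROOF (local version of `harm_zero_const`).  Let `K = M * card ι * N` and `R = r (N + 2)` (see
`abs_bd_loc`). All constants depend on `r, M, N, card ι, L` only. Let the window be `(c, c']`, `f` harmonic there, `L`-Lipschitz on the edges near the
window, with current `0` at `c`; then the current is `0` at all cuts between `c` and `c'` (`cur_sub`).
For `c + R + 1 ≤ u ≤ w ≤ c' - R - 1` `green` for `(u, w]` gives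
`en u w ≤ |bd f f u| + |bd f f w| ≤ K (en (u - R - 1) (u + R) + en (w - R - 1) (w + R))` (`abs_bd_loc`, where
the local energy bounds all squares of gradients, `sq_le_en`). So with `u_m = c + R + 1 + m (2R+2)`,
`w_m = c' - (R + 1) - m (2R + 2)` and `e_m = en u_m w_m` we get `e_(m+1) ≤ K (e_m - e_(m+1))`
(`en_mono`, `en_add`: the neighbourhoods of radius `R + 1` of `u_(m+1)`, `w_(m+1)` are contained in `(u_m, w_m]` and
disjoint from `(u_(m+1) + R, w_(m+1) - R - 1]`... shift the indices so that the inclusion is clean, e.g.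
replace `2R + 2` by `2R + 4`), so `e_m ≤ q^m e_0`, `q = K / (K + 1)`, and `e_0 ≤ 2 K L^2`. So every
edge at distance at least `(R+1) + m (2R+2)` from both ends has a gradient of size `≤ sqrt (q^m e_0)`.
Two points `v, w` of the window: join them by a chain: `hit` gives points at the positions `pos v, pos v + (r+1), ...`
and consecutive ones are joined by `conn` (lists of length `≤ N`): the difference of `f` along the
chain is at most the sum over the links of `N * (max gradient near the link)`, which is a geometric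
sum from both ends: `≤ C (L, q, r, N)`. (Near the two ends the gradient is at most `L`.)
An alternative to the chain: induct on the window from the middle.

NOTE (helper52): the Lipschitz hypothesis is on the neighbourhood of radius `r * (N + 2)` of the window (the statement
with radius `r` is false: two points of the window may be joined only outside of this neighbourhood).
-/

open scoped BigOperators
open Set Function

set_option linter.unusedSectionVars false

namespace NIG.Strand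

namespace E03

variable {V ι : Type*} [Fintype ι] {mv : ι → V → V} {rev : ι → ι} {pos : V → ℤ} {r M N : ℕ}

/-- the current vanishes at all the cuts of the window -/
theorem cur_zero (h : IsStrand mv rev pos r M N) {f : V → ℝ} {c c' : ℤ}
    (hf : ∀ v, c < pos v → pos v ≤ c' → lap mv f v = 0) (hJ : cur mv pos f c = 0) {u : ℤ}
    (h1 : c ≤ u) (h2 : u ≤ c') : cur mv pos f u = 0 := by
  have := cur_sub h f h1
  rw [Finset.sum_eq_zero
    (fun v hv => hf v (h.mem_win.1 hv).1 ((h.mem_win.1 hv).2.trans h2))] at this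
  linarith

theorem en_le_bd (h : IsStrand mv rev pos r M N) {f : V → ℝ} {c c' : ℤ}
    (hf : ∀ v, c < pos v → pos v ≤ c' → lap mv f v = 0) {u w : ℤ}
    (h1 : c ≤ u) (huw : u ≤ w) (h2 : w ≤ c') :
    h.en f f u w ≤ |bd mv pos f f u| + |bd mv pos f f w| := by
  have := green h f f huw
  rw [Finset.sum_eq_zero (fun v hv => by
    have hv' := h.mem_win.1 hv
    rw [hf v (by omega) (by omega), mul_zero]), mul_zero] at this
  have h3 := le_abs_self (bd mv pos f f w)
  have h4 := neg_abs_le (bd mv pos f f u)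
  linarith

theorem decay_step (h : IsStrand mv rev pos r M N) {f : V → ℝ} {c c' : ℤ}
    (hf : ∀ v, c < pos v → pos v ≤ c' → lap mv f v = 0) (hJ : cur mv pos f c = 0)
    {R : ℕ} (hR : R = r * (N + 2)) {a b : ℤ} (ha : c ≤ a) (hb : b ≤ c')
    (hab : a + (2 * R + 2) ≤ b - (2 * R + 2)) :
    h.en f f (a + (2 * R + 2)) (b - (2 * R + 2)) ≤ M * Fintype.card ι * N *
      (h.en f f a b - h.en f f (a + (2 * R + 2)) (b - (2 * R + 2))) := by
  have hK0 : (0 : ℝ) ≤ M * Fintype.card ι * N := by positivity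
  have hZ : ∀ u : ℤ, c ≤ u → u ≤ c' → |bd mv pos f f u| ≤
      M * Fintype.card ι * N * h.en f f (u - R - 1) (u + R) := by
    intro u h1 h2
    apply h.abs_bd_loc f u (cur_zero h hf hJ h1 h2) (h.en_nonneg _ _ _)
    intro v i hv
    apply h.sq_le_en
    rw [h.mem_win]
    have e : (r : ℤ) * (N + 2) = (R : ℤ) := by rw [hR]; push_cast; ring
    rw [e, abs_le] at hv
    omega
  have h1 := en_le_bd h hf (u := a + R + 1) (w := b - R - 1) (by omega) (by omega) (by omega)
  have h2 := hZ (a + R + 1) (by omega) (by omega)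
  have h3 := hZ (b - R - 1) (by omega) (by omega)
  have e1 : a + (R : ℤ) + 1 - R - 1 = a := by ring
  have e2 : b - (R : ℤ) - 1 + R = b - 1 := by ring
  have e3 : b - (R : ℤ) - 1 - R - 1 = b - (2 * R + 2) := by ring
  rw [e1] at h2
  rw [e2, e3] at h3
  have h4 : h.en f f (a + (2 * R + 2)) (b - (2 * R + 2)) ≤
      h.en f f (a + R + 1) (b - R - 1) := h.en_mono f (by omega) (by omega)
  have h5 : h.en f f a (a + R + 1 + R) ≤ h.en f f a (a + (2 * R + 2)) :=
    h.en_mono f le_rfl (by omega)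
  have h6 : h.en f f (b - (2 * R + 2)) (b - 1) ≤ h.en f f (b - (2 * R + 2)) b :=
    h.en_mono f le_rfl (by omega)
  have h7 := h.en_add f (a := a) (b := a + (2 * R + 2)) (c := b - (2 * R + 2)) (by omega) hab
  have h8 := h.en_add f (a := a) (b := b - (2 * R + 2)) (c := b) (by omega) (by omega)
  have h9 := mul_le_mul_of_nonneg_left (add_le_add h5 h6) hK0
  have h10 : h.en f f a b - h.en f f (a + (2 * R + 2)) (b - (2 * R + 2)) =
      h.en f f a (a + (2 * R + 2)) + h.en f f (b - (2 * R + 2)) b := by linarith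
  rw [h10]
  rw [mul_add] at h9
  linarith

theorem decay (h : IsStrand mv rev pos r M N) {f : V → ℝ} {c c' : ℤ}
    (hf : ∀ v, c < pos v → pos v ≤ c' → lap mv f v = 0) (hJ : cur mv pos f c = 0)
    {R : ℕ} (hR : R = r * (N + 2)) {K q Z : ℝ} (hK : K = M * Fintype.card ι * N)
    (hq : q = (K + 1) / (K + 2)) (hZ : h.en f f c c' ≤ Z) (m : ℕ)
    (hm : c + m * (2 * R + 2) ≤ c' - m * (2 * R + 2)) :
    h.en f f (c + m * (2 * R + 2)) (c' - m * (2 * R + 2)) ≤ q ^ m * Z := by
  have hK0 : 0 ≤ K := by rw [hK]; positivity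
  have hq0 : 0 ≤ q := by rw [hq]; positivity
  induction m with
  | zero => simpa using hZ
  | succ m ih =>
    have hm' : c + m * (2 * (R : ℤ) + 2) ≤ c' - m * (2 * R + 2) := by
      push_cast at hm
      nlinarith
    have h1 := ih hm'
    have e1 : c + ((m + 1 : ℕ) : ℤ) * (2 * R + 2) = c + m * (2 * R + 2) + (2 * R + 2) := by
      push_cast; ring
    have e2 : c' - ((m + 1 : ℕ) : ℤ) * (2 * R + 2) = c' - m * (2 * R + 2) - (2 * R + 2) := by
      push_cast; ring
    have hc : (0 : ℤ) ≤ m * (2 * R + 2) := by positivity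
    have h2 := decay_step h hf hJ hR (a := c + m * (2 * R + 2)) (b := c' - m * (2 * R + 2))
      (by omega) (by omega) (by rw [← e1, ← e2]; exact hm)
    rw [e1, e2]
    rw [← hK] at h2
    set e := h.en f f (c + m * (2 * R + 2)) (c' - m * (2 * R + 2))
    set e' := h.en f f (c + m * (2 * R + 2) + (2 * R + 2)) (c' - m * (2 * R + 2) - (2 * R + 2))
    have he : 0 ≤ e := h.en_nonneg _ _ _
    have h3 : e' ≤ q * e := by
      rw [hq, div_mul_eq_mul_div, le_div_iff₀ (by positivity)]
      nlinarith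
    calc e' ≤ q * e := h3
      _ ≤ q * (q ^ m * Z) := mul_le_mul_of_nonneg_left h1 hq0
      _ = q ^ (m + 1) * Z := by ring

/-- chain of near points, telescoping bound -/
theorem chain_tel (h : IsStrand mv rev pos r M N) {f : V → ℝ} {c c' : ℤ} {Φ : ℤ → ℝ}
    (hΦ : Monotone Φ) (hf : ∀ v w, c ≤ pos v → pos v ≤ pos w → pos w ≤ c' →
      |pos v - pos w| ≤ 3 * r + 3 → |f v - f w| ≤ Φ (pos v + 1) - Φ (pos v)) (v w : V)
    (h1 : c ≤ pos v) (h2 : pos v ≤ pos w) (h3 : pos w ≤ c') :
    |f v - f w| ≤ Φ (pos w + 1) - Φ (pos v) := by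
  have key : ∀ (k : ℕ) (v w : V), c ≤ pos v → pos v ≤ pos w → pos w ≤ c' →
      pos w - pos v ≤ k → |f v - f w| ≤ Φ (pos w + 1) - Φ (pos v) := by
    intro k
    induction k with
    | zero =>
      intro v w h1 h2 h3 h4
      have h5 := hf v w h1 h2 h3 (by rw [abs_le]; push_cast at h4; constructor <;> omega)
      have h6 : Φ (pos v + 1) ≤ Φ (pos w + 1) := hΦ (by omega)
      linarith
    | succ k ih =>
      intro v w h1 h2 h3 h4
      by_cases hc : pos w - pos v ≤ 3 * r + 3
      · have h5 := hf v w h1 h2 h3 (by rw [abs_le]; constructor <;> omega)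
        have h6 : Φ (pos v + 1) ≤ Φ (pos w + 1) := hΦ (by omega)
        linarith
      · obtain ⟨u, hu⟩ := h.hit (pos v + r + 1)
        rw [abs_le] at hu
        have h5 := hf v u h1 (by omega) (by omega) (by rw [abs_le]; constructor <;> omega)
        have h6 := ih u w (by omega) (by omega) h3 (by push_cast at h4; omega)
        have h7 : Φ (pos v + 1) ≤ Φ (pos u) := hΦ (by omega)
        have h8 := abs_sub_le (f v) (f u) (f w)
        linarith
  exact key (pos w - pos v).toNat v w h1 h2 h3 (by omega)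

end E03

open E03

theorem osc_bound {ι : Type} [Fintype ι] (r M N : ℕ) (L : ℝ) :
    ∃ C : ℝ, ∀ {V : Type} {mv : ι → V → V} {rev : ι → ι} {pos : V → ℤ},
      IsStrand mv rev pos r M N → ∀ (f : V → ℝ) (c c' : ℤ),
      (∀ v i, c - r * (N + 2) ≤ pos v → pos v ≤ c' + r * (N + 2) → |f (mv i v) - f v| ≤ L) →
      (∀ v, c < pos v → pos v ≤ c' → lap mv f v = 0) → cur mv pos f c = 0 →
      ∀ v w, c ≤ pos v → pos v ≤ c' → c ≤ pos w → pos w ≤ c' → |f v - f w| ≤ C := by
  obtain ⟨K, hK⟩ : ∃ K : ℝ, K = M * Fintype.card ι * N := ⟨_, rfl⟩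
  have hK0 : 0 ≤ K := by rw [hK]; positivity
  obtain ⟨R, hR⟩ : ∃ R : ℕ, R = r * (N + 2) := ⟨_, rfl⟩
  have hRz : (r : ℤ) * (N + 2) = R := by rw [hR]; push_cast; ring
  obtain ⟨S, hS⟩ : ∃ S : ℕ, S = 2 * R + 2 := ⟨_, rfl⟩
  obtain ⟨q, hq⟩ : ∃ q : ℝ, q = (K + 1) / (K + 2) := ⟨_, rfl⟩
  have hq0 : 0 < q := by rw [hq]; positivity
  have hq1 : q < 1 := by rw [hq, div_lt_one (by positivity)]; linarith
  obtain ⟨s, hs⟩ : ∃ s : ℝ, s = Real.sqrt q := ⟨_, rfl⟩
  have hs0 : 0 < s := by rw [hs]; exact Real.sqrt_pos.2 hq0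
  have hs1 : s < 1 := by
    rw [hs, Real.sqrt_lt' one_pos]; simpa using hq1
  have hSr : (2 : ℝ) ≤ S := by
    rw [hS]; push_cast
    have : (0 : ℝ) ≤ R := by positivity
    linarith
  obtain ⟨τ, hτ⟩ : ∃ τ : ℝ, τ = 1 - (1 - s) / S := ⟨_, rfl⟩
  have hx1 : 0 < (1 - s) / S := div_pos (by linarith) (by linarith)
  have hx2 : (1 - s) / S < 1 := by rw [div_lt_one (by linarith)]; linarith
  have hτ0 : 0 < τ := by rw [hτ]; linarith
  have hτ1 : τ < 1 := by rw [hτ]; linarith
  have hτS : s ≤ τ ^ S := by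
    have h1 := one_add_mul_le_pow (a := -((1 - s) / S)) (by linarith) S
    have h2 : (1 : ℝ) + -((1 - s) / S) = τ := by rw [hτ]; ring
    rw [h2] at h1
    have h3 : (1 : ℝ) + S * -((1 - s) / S) = s := by
      have : (S : ℝ) ≠ 0 := by linarith
      field_simp
      ring
    rw [h3] at h1
    exact h1
  obtain ⟨Z, hZ⟩ : ∃ Z : ℝ, Z = 2 * (K * L ^ 2) := ⟨_, rfl⟩
  have hZ0 : 0 ≤ Z := by rw [hZ]; positivity
  obtain ⟨G, hG⟩ : ∃ G : ℝ, G = |L| + Real.sqrt Z := ⟨_, rfl⟩
  have hG0 : 0 ≤ G := by rw [hG]; positivity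
  obtain ⟨κ, hκ⟩ : ∃ κ : ℝ, κ = (τ ^ (S + R + 1))⁻¹ := ⟨_, rfl⟩
  have hκ0 : 0 < κ := by rw [hκ]; positivity
  refine ⟨2 * (N * G * κ) / (1 - τ), ?_⟩
  intro V mv rev pos h f c c' hL hf hJ
  have hLR : ∀ v i, c - R ≤ pos v → pos v ≤ c' + R → |grad mv f (v, i)| ≤ |L| := by
    intro v i h1 h2
    exact (hL v i (by rw [hRz]; exact h1) (by rw [hRz]; exact h2)).trans (le_abs_self L)
  have hcur := fun {u : ℤ} (h1 : c ≤ u) (h2 : u ≤ c') => cur_zero h hf hJ h1 h2
  -- energy of the whole window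
  have hen : c ≤ c' → h.en f f c c' ≤ Z := by
    intro hcc
    have h1 := en_le_bd h hf (u := c) (w := c') le_rfl hcc le_rfl
    have h2 : ∀ u, c ≤ u → u ≤ c' → |bd mv pos f f u| ≤ K * L ^ 2 := by
      intro u h3 h4
      rw [hK]
      apply h.abs_bd_loc f u (hcur h3 h4) (sq_nonneg _)
      intro v i hv
      rw [hRz, abs_le] at hv
      rw [← sq_abs, ← sq_abs L]
      exact pow_le_pow_left₀ (abs_nonneg _) (hLR v i (by omega) (by omega)) 2
    have h3 := h2 c le_rfl hcc
    have h4 := h2 c' hcc le_rfl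
    rw [hZ]
    linarith
  -- gradient bound
  have hgr : ∀ (m : ℕ) v i, c + m * S < pos v → pos v ≤ c' - m * S →
      |grad mv f (v, i)| ≤ G * s ^ m := by
    intro m v i h1 h2
    have e : (S : ℤ) = 2 * R + 2 := by rw [hS]; push_cast; ring
    have hmS : (0 : ℤ) ≤ m * S := by positivity
    have h3 := decay h hf hJ hR hK hq (hen (by omega)) m (by rw [← e]; omega)
    rw [← e] at h3
    have h4 := (h.sq_le_en f (c := c + m * S) (c' := c' - m * S) (v := v)
      (h.mem_win.2 ⟨h1, h2⟩) i).trans h3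
    have h5 : |grad mv f (v, i)| ≤ Real.sqrt (q ^ m * Z) := by
      rw [← Real.sqrt_sq_eq_abs]
      exact Real.sqrt_le_sqrt h4
    have h6 : Real.sqrt (q ^ m * Z) = s ^ m * Real.sqrt Z := by
      have h7 : q ^ m = (Real.sqrt q ^ m) ^ 2 := by
        rw [← pow_mul, mul_comm, pow_mul, Real.sq_sqrt hq0.le]
      rw [Real.sqrt_mul (by positivity), hs]
      congr 1
      conv_lhs => rw [h7]
      exact Real.sqrt_sq (by positivity)
    rw [h6] at h5
    refine h5.trans ?_
    rw [hG, mul_comm]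
    apply mul_le_mul_of_nonneg_right _ (by positivity)
    linarith [abs_nonneg L]
  -- gradient bound near a position
  have hnear : ∀ (x : ℤ), c ≤ x → x ≤ c' → ∀ u i, |pos u - x| ≤ R →
      |grad mv f (u, i)| ≤ G * κ * (τ ^ (c' - x) + τ ^ (x - c)) := by
    intro x hx1 hx2 u i hu
    rw [abs_le] at hu
    obtain ⟨d, hd⟩ : ∃ d : ℤ, d = min (x - c) (c' - x) := ⟨_, rfl⟩
    have hd0 : 0 ≤ d := by rw [hd]; omega
    have hτd : τ ^ d ≤ τ ^ (c' - x) + τ ^ (x - c) := by
      have p1 : 0 < τ ^ (c' - x) := zpow_pos hτ0 _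
      have p2 : 0 < τ ^ (x - c) := zpow_pos hτ0 _
      rcases min_choice (x - c) (c' - x) with h3 | h3
      · rw [hd, h3]; linarith
      · rw [hd, h3]; linarith
    have hgoal : |grad mv f (u, i)| ≤ G * (κ * τ ^ d) := by
      by_cases hdR : d ≤ R
      · have h1 : |grad mv f (u, i)| ≤ G := by
          refine (hLR u i (by omega) (by omega)).trans ?_
          rw [hG]
          linarith [Real.sqrt_nonneg Z]
        have h2 : 1 ≤ κ * τ ^ d := by
          rw [hκ, inv_mul_eq_div, le_div_iff₀ (by positivity), one_mul]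
          have : τ ^ (S + R + 1) = τ ^ ((S + R + 1 : ℕ) : ℤ) := (zpow_natCast τ _).symm
          rw [this]
          apply zpow_le_zpow_right_of_le_one₀ hτ0 hτ1.le
          push_cast
          omega
        calc |grad mv f (u, i)| ≤ G * 1 := by rw [mul_one]; exact h1
          _ ≤ G * (κ * τ ^ d) := mul_le_mul_of_nonneg_left h2 hG0
      · obtain ⟨m, hm⟩ : ∃ m : ℕ, (m : ℤ) = (d - R - 1) / S :=
          ⟨((d - R - 1) / S).toNat, Int.toNat_of_nonneg (Int.ediv_nonneg (by omega) (by omega))⟩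
        have hS0 : (0 : ℤ) < S := by rw [hS]; omega
        have h1 : (m : ℤ) * S ≤ d - R - 1 := by
          rw [hm]; exact Int.ediv_mul_le _ hS0.ne'
        have h2 : d - R - 1 < (m + 1 : ℤ) * S := by
          rw [hm]; exact Int.lt_ediv_add_one_mul_self _ hS0
        have h3 := hgr m u i (by omega) (by omega)
        refine h3.trans (mul_le_mul_of_nonneg_left ?_ hG0)
        have h4 : s ^ m ≤ (τ ^ S) ^ m := pow_le_pow_left₀ hs0.le hτS m
        refine h4.trans ?_
        rw [hκ, inv_mul_eq_div, le_div_iff₀ (by positivity), ← pow_mul, ← pow_add]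
        have : τ ^ (S * m + (S + R + 1)) = τ ^ ((S * m + (S + R + 1) : ℕ) : ℤ) :=
          (zpow_natCast τ _).symm
        rw [this]
        apply zpow_le_zpow_right_of_le_one₀ hτ0 hτ1.le
        push_cast
        nlinarith
    calc |grad mv f (u, i)| ≤ G * (κ * τ ^ d) := hgoal
      _ ≤ G * (κ * (τ ^ (c' - x) + τ ^ (x - c))) :=
          mul_le_mul_of_nonneg_left (mul_le_mul_of_nonneg_left hτd hκ0.le) hG0
      _ = _ := by ring
  -- near points
  obtain ⟨B, hB⟩ : ∃ B : ℝ, B = N * G * κ := ⟨_, rfl⟩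
  have hB0 : 0 ≤ B := by rw [hB]; positivity
  have hpt : ∀ v w, c ≤ pos v → pos v ≤ c' → |pos v - pos w| ≤ 3 * r + 3 →
      |f v - f w| ≤ B * (τ ^ (c' - pos v) + τ ^ (pos v - c)) := by
    intro v w h1 h2 h3
    obtain ⟨l, hl, rfl⟩ := h.conn v w h3
    rw [abs_sub_comm]
    have hrN : (r : ℤ) * N ≤ R := by rw [← hRz]; nlinarith
    have h4 := foldr_lip_loc h (f := f) (L := G * κ * (τ ^ (c' - pos v) + τ ^ (pos v - c)))
      (R := r * N) (v := v) (fun i u hu => hnear (pos v) h1 h2 u i (hu.trans hrN)) l (by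
        apply mul_le_mul_of_nonneg_left _ (by positivity)
        exact_mod_cast hl)
    refine h4.trans ?_
    have p1 : 0 < τ ^ (c' - pos v) := zpow_pos hτ0 _
    have p2 : 0 < τ ^ (pos v - c) := zpow_pos hτ0 _
    have h5 : (l.length : ℝ) ≤ N := by exact_mod_cast hl
    calc G * κ * (τ ^ (c' - pos v) + τ ^ (pos v - c)) * l.length
        ≤ G * κ * (τ ^ (c' - pos v) + τ ^ (pos v - c)) * N :=
          mul_le_mul_of_nonneg_left h5 (by positivity)
      _ = _ := by rw [hB]; ring
  -- telescoping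
  obtain ⟨Φ, hΦ⟩ : ∃ Φ : ℤ → ℝ, ∀ x, Φ x = B / (1 - τ) * (τ ^ (c' + 1 - x) - τ ^ (x - c)) :=
    ⟨_, fun _ => rfl⟩
  have h1τ : 0 < 1 - τ := by linarith
  have hΦ1 : ∀ x, Φ (x + 1) - Φ x = B * (τ ^ (c' - x) + τ ^ (x - c)) := by
    intro x
    have e1 : c' + 1 - (x + 1) = c' - x := by ring
    have e2 : x + 1 - c = (x - c) + 1 := by ring
    have e3 : c' + 1 - x = (c' - x) + 1 := by ring
    rw [hΦ, hΦ, e1, e2, e3, zpow_add_one₀ hτ0.ne', zpow_add_one₀ hτ0.ne']
    field_simp
    ring
  have hΦm : Monotone Φ := by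
    apply monotone_int_of_le_succ
    intro x
    have p1 : 0 < τ ^ (c' - x) := zpow_pos hτ0 _
    have p2 : 0 < τ ^ (x - c) := zpow_pos hτ0 _
    have := hΦ1 x
    have h3 : 0 ≤ B * (τ ^ (c' - x) + τ ^ (x - c)) := by positivity
    linarith
  have hmain : ∀ v w, c ≤ pos v → pos v ≤ pos w → pos w ≤ c' →
      |f v - f w| ≤ 2 * (N * G * κ) / (1 - τ) := by
    intro v w h1 h2 h3
    have h4 := chain_tel h hΦm (fun v w a1 a2 a3 a4 => by
      rw [hΦ1]; exact hpt v w a1 (a2.trans a3) a4) v w h1 h2 h3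
    refine h4.trans ?_
    rw [hΦ, hΦ, ← hB]
    have p1 : 0 < τ ^ (c' + 1 - pos v) := zpow_pos hτ0 _
    have p2 : 0 < τ ^ (pos w + 1 - c) := zpow_pos hτ0 _
    have p3 : τ ^ (c' + 1 - (pos w + 1)) ≤ 1 := by
      rw [← zpow_zero τ]
      exact zpow_le_zpow_right_of_le_one₀ hτ0 hτ1.le (by omega)
    have p4 : τ ^ (pos v - c) ≤ 1 := by
      rw [← zpow_zero τ]
      exact zpow_le_zpow_right_of_le_one₀ hτ0 hτ1.le (by omega)
    have h5 : 0 ≤ B / (1 - τ) := by positivity
    rw [← mul_sub]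
    have e : 2 * B / (1 - τ) = B / (1 - τ) * 2 := by ring
    rw [e]
    apply mul_le_mul_of_nonneg_left _ h5
    linarith
  intro v w h1 h2 h3 h4
  rcases le_total (pos v) (pos w) with h5 | h5
  · exact hmain v w h1 h5 h4
  · rw [abs_sub_comm]
    exact hmain w v h3 h5 h2

/-- Affine form: a function which is harmonic on a window is, up to a bounded error, its current times
the harmonic coordinate. -/
theorem affine_bound {ι : Type} [Fintype ι] (r M N : ℕ) (L : ℝ) :
    ∃ C : ℝ, ∀ {V : Type} {mv : ι → V → V} {rev : ι → ι} {pos : V → ℤ},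
      IsStrand mv rev pos r M N → ∀ {H : V → ℝ}, IsHC mv pos H → ∀ (f : V → ℝ) (c c' : ℤ),
      (∀ v i, c - r * (N + 2) ≤ pos v → pos v ≤ c' + r * (N + 2) → |f (mv i v) - f v| ≤ L) →
      (∀ v, c < pos v → pos v ≤ c' → lap mv f v = 0) →
      ∀ v w, c ≤ pos v → pos v ≤ c' → c ≤ pos w → pos w ≤ c' →
        |(f v - f w) - cur mv pos f c * (H v - H w)| ≤ C := by
  obtain ⟨C, hC⟩ := osc_bound (ι := ι) r M N (|L| + M * Fintype.card ι * |L|)
  refine ⟨C, ?_⟩
  intro V mv rev pos h H hH f c c' hL hf v w h1 h2 h3 h4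
  obtain ⟨a, ha⟩ : ∃ a : ℝ, a = cur mv pos f c := ⟨_, rfl⟩
  have hcc : c ≤ c' := h1.trans h2
  have haL : |a| ≤ M * Fintype.card ι * |L| := by
    rw [ha]
    unfold cur E
    have h5 := h.abs_finsum_cut c (grad mv f) (B := |L|) (fun p hp => by
      unfold IsStrand.ed at hp
      rw [Finset.mem_product, h.mem_win] at hp
      have hr : (r : ℤ) ≤ r * (N + 2) := by nlinarith [Nat.zero_le N, Nat.zero_le r]
      exact (hL p.1 p.2 (by omega) (by omega)).trans (le_abs_self L)) (abs_nonneg L)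
    rw [abs_mul]
    have h6 : |(1 / 2 : ℝ)| ≤ 1 := by norm_num [abs_le]
    calc |(1 / 2 : ℝ)| * |∑ᶠ p, grad mv (cut pos c) p * grad mv f p|
        ≤ 1 * |∑ᶠ p, grad mv (cut pos c) p * grad mv f p| :=
          mul_le_mul_of_nonneg_right h6 (abs_nonneg _)
      _ ≤ _ := by rw [one_mul]; exact h5
  have key := hC h (fun v => f v - a * H v) c c' ?_ ?_ ?_ v w h1 h2 h3 h4
  · have e : (f v - f w) - cur mv pos f c * (H v - H w) =
        (fun v => f v - a * H v) v - (fun v => f v - a * H v) w := by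
      simp only [← ha]
      ring
    rw [e]
    exact key
  · intro u i h5 h6
    have h7 := hL u i h5 h6
    have h8 := hH.lip i u
    have e : (fun v => f v - a * H v) (mv i u) - (fun v => f v - a * H v) u =
        (f (mv i u) - f u) - a * (H (mv i u) - H u) := by
      simp only
      ring
    rw [e]
    calc |(f (mv i u) - f u) - a * (H (mv i u) - H u)|
        ≤ |f (mv i u) - f u| + |a * (H (mv i u) - H u)| := abs_sub _ _
      _ ≤ |L| + M * Fintype.card ι * |L| := by
          apply add_le_add (h7.trans (le_abs_self L))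
          rw [abs_mul]
          calc |a| * |H (mv i u) - H u| ≤ |a| * 1 :=
                mul_le_mul_of_nonneg_left h8 (abs_nonneg _)
            _ ≤ _ := by rw [mul_one]; exact haL
  · intro u h5 h6
    have h7 := hf u h5 h6
    have h8 := hH.harm u
    unfold lap at h7 h8 ⊢
    have e : ∑ i, ((fun v => f v - a * H v) (mv i u) - (fun v => f v - a * H v) u)
        = ∑ i, (f (mv i u) - f u) - a * ∑ i, (H (mv i u) - H u) := by
      rw [Finset.mul_sum, ← Finset.sum_sub_distrib]
      apply Finset.sum_congr rfl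
      intro i _
      ring
    rw [e, h7, h8]
    ring
  · have h5 := hH.cur c
    have h6 : E mv (cut pos c) (fun v => f v - a * H v) =
        E mv (cut pos c) f - a * E mv (cut pos c) H := by
      rw [E_sub_right f (fun v => a * H v) (GF_cut h c), E_mul_right H a (GF_cut h c)]
    unfold Strand.cur at h5 ha ⊢
    rw [h6]
    have : (1 / 2) * (E mv (cut pos c) f - a * E mv (cut pos c) H) =
        (1 / 2) * E mv (cut pos c) f - a * ((1 / 2) * E mv (cut pos c) H) := by ring
    rw [this, h5, ← ha]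
    ring

end NIG.Strand
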