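import Pool.Agent.helper98.NIG.E01
import Pool.Agent.helper98.NIG.E03

/-!
# NIG-E05: a token locked over an interval moves affinely, with a slope equal to its sign

`hN : A.BCN N`, `hc : A.BCc c0`.
`lock_affine`: there are `C1 : ℝ` and `c1 : ℕ` such that for every `ε > 0` there is `n : ℕ` with: if `a0 ∈ orb z`,
`t0 ∈ D`, `LockI z α β a0 t0`, `α + c1 ≤ pos z a0 ≤ β - c1` then there is a slope `κ : ℝ` such that
(1) for all paths `h, h'` from `a0` inside of `[α, β]` with end points at positions in `[α + c1, β - c1]`: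
`|dh (h t0) (h' t0) - κ dh (h a0) (h' a0)| ≤ C1`;
(2) if `h` is such a path, `α + c1 + n ≤ pos z (h a0) ≤ β - c1 - n` and `Near n σ (h a0) (h t0)` then
`|κ - σ| ≤ ε`.

PROOF.  Strand of `z`: `V = A.orb z`, `mv = A.mvx z`, `pos = A.posx z` (`A.isStrand hN hz`), `H = Hc (orb z)`
(`Hc_spec`). For a point `a ∈ orb z` with position in `[α + c0, β - c0]` choose a path `h_a` inside `[α, β]` from
`a0` to `a` (`exists_path`; this needs `α + c0 ≤ pos a0 ≤ β - c0`), and put `f a = Hc (orb t0) (h_a t0)`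
(`f a = 0` for other `a`). By `LockI.eq` `f a = Hc (orb t0) (h t0)` for every path `h` inside `[α, β]` from `a0`
to `a`. If `a` and `s a` (`s ∈ S`) both have positions in `[α + c0, β - c0]` then
`f (s a) - f a = hδ s (h_a t0)` (`s * h_a` is a path inside `[α, β]`; `hδ_of_mem`), of absolute value `≤ 1`
(`hδ_lip`; `h_a t0 ∈ D`). Window `c = α + c0 + 2ρ`, `c' = β - c0 - 2ρ` (`c1 = c0 + 2 ρ + 1` or so): for `v` with
`c - ρ ≤ pos v ≤ c' + ρ` all `mv i v` are in `[α + c0, β - c0]`; so the Lipschitz hypothesis of `affine_bound`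
(`L = 1`) holds, and `lap f v = ∑ s, hδ s (h_v t0) = 0` (`hδ_harm`). Put `κ = cur f c`; (1) is
`affine_bound` (`C1` depends on `ρ, F, S, N` only), using `dh x y = Hc (orb x) y - Hc (orb x) x`.
(2): for a cut `k` with `c ≤ k ≤ c'` `cur f k = κ` (`cur_sub`, all `lap f v = 0`). Let `a = h a0`, `t = h t0`,
`k = pos z a`, `n ≥ c0 + 2ρ + ...`. `cur f k` and `cur H k = 1` are sums over the same edges `(v, s v)` crossing the
cut `k` (`cur_cross`), with `v` at a position in `(k - ρ, k]`, of `f (s v) - f v`, `H (s v) - H v`. Write `v = g a`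
with `g` reached from `a` in the window of radius `ρ + c0 ≤ n` (`BCc`), then `s g` is reached in the window
`2ρ + c0 ≤ n`, and `f (s v) - f v = hδ (s g) t - hδ g t = σ (hδ (s g) a - hδ g a) + error = σ (H (s v) - H v) + error`,
`|error| ≤ 2 / (n + 1)` by `Near`. The number of edges is at most `(2ρ+1) |F| |S|`
(`card_ed`), so `|κ - σ| ≤ 2 (2ρ+1) |F| |S| / (n + 1) ≤ ε` for large `n`.
-/

namespace Pool.Agent.helper98.NIG

variable {b : Base} {F : Type}

namespace Sys

open _root_.NIG.Strand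

open Classical in
/-- the height of the token transported from `a0` to `v` inside of `[α, β]` -/
noncomputable def E05_f (A : Sys b F) [Fintype F] (z : Pt b F) (α β : ℤ) (a0 t0 : Pt b F)
    (v : A.orb z) : ℝ :=
  if h : ∃ g, A.RIn z α β a0 g ∧ g a0 = v.1 then A.Hc (A.orb t0) (h.choose t0) else 0

theorem E05_f_eq [Fintype F] {A : Sys b F} {z : Pt b F} {α β : ℤ} {a0 t0 : Pt b F}
    (ha : a0 ∈ A.orb z) (h1 : α ≤ pos z a0) (h2 : pos z a0 ≤ β) (hl : A.LockI z α β a0 t0)
    {g : Equiv.Perm (Pt b F)} (hg : A.RIn z α β a0 g) {v : A.orb z} (hv : g a0 = v.1) :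
    A.E05_f z α β a0 t0 v = A.Hc (A.orb t0) (g t0) := by
  classical
  have h : ∃ g, A.RIn z α β a0 g ∧ g a0 = v.1 := ⟨g, hg, hv⟩
  unfold E05_f
  rw [dif_pos h]
  congr 1
  exact hl.eq ha h1 h2 h.choose_spec.1 hg (h.choose_spec.2.trans hv.symm)

theorem lock_affine [Fintype F] (A : Sys b F) {N c0 : ℕ} (hN : A.BCN N) (hc : A.BCc c0) :
    ∃ (C1 : ℝ) (c1 : ℕ), c0 ≤ c1 ∧ ∀ ε : ℝ, 0 < ε → ∃ n : ℕ, ∀ z ∈ A.D, ∀ a0 ∈ A.orb z,
    ∀ t0 ∈ A.D, ∀ α β : ℤ, A.LockI z α β a0 t0 → α + c1 ≤ pos z a0 → pos z a0 ≤ β - c1 →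
    ∃ κ : ℝ,
      (∀ h h', A.RIn z α β a0 h → A.RIn z α β a0 h' →
        α + c1 ≤ pos z (h a0) → pos z (h a0) ≤ β - c1 →
        α + c1 ≤ pos z (h' a0) → pos z (h' a0) ≤ β - c1 →
        |A.dh (h t0) (h' t0) - κ * A.dh (h a0) (h' a0)| ≤ C1) ∧
      (∀ h, A.RIn z α β a0 h → ∀ σ : ℝ, (σ = 1 ∨ σ = -1) →
        α + c1 + n ≤ pos z (h a0) → pos z (h a0) ≤ β - c1 - n →
        A.Near n σ (h a0) (h t0) → |κ - σ| ≤ ε) := by
  classical
  set M : ℕ := (2 * A.ρ + 1) * Fintype.card F with hM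
  obtain ⟨C1, hC1⟩ := affine_bound (ι := A.S) A.ρ M N 1
  obtain ⟨P, hPdef⟩ : ∃ P : ℕ, P = A.ρ * (N + 2) := ⟨_, rfl⟩
  have hP2 : 2 * A.ρ ≤ P := by rw [hPdef, mul_comm]; exact Nat.mul_le_mul_left _ (by omega)
  refine ⟨C1, c0 + (P + A.ρ), by omega, fun ε hε => ?_⟩
  refine ⟨max (c0 + 2 * A.ρ) ⌈(M * Fintype.card A.S : ℝ) / ε⌉₊, ?_⟩
  set n : ℕ := max (c0 + 2 * A.ρ) ⌈(M * Fintype.card A.S : ℝ) / ε⌉₊ with hn
  have hn1 : c0 + 2 * A.ρ ≤ n := le_max_left _ _
  have hn2 : (M * Fintype.card A.S : ℝ) / ε ≤ n := by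
    have h0 : ⌈(M * Fintype.card A.S : ℝ) / ε⌉₊ ≤ n := le_max_right _ _
    exact (Nat.le_ceil _).trans (Nat.cast_le.2 h0)
  intro z hz a0 ha0 t0 ht0 α β hl hα hβ
  push_cast at hα hβ
  have hρ0 : (0 : ℤ) ≤ A.ρ := by positivity
  have hc00 : (0 : ℤ) ≤ c0 := by positivity
  have hPz : (A.ρ : ℤ) * (N + 2) = P := by rw [hPdef]; push_cast; ring
  have hP2z : (2 : ℤ) * A.ρ ≤ P := by exact_mod_cast hP2
  have ha0l : α ≤ pos z a0 := by linarith
  have ha0r : pos z a0 ≤ β := by linarith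
  have hst := A.isStrand hN hz
  have hH := A.Hc_spec hN hz
  set f : A.orb z → ℝ := A.E05_f z α β a0 t0 with hf
  have hfe : ∀ {g : Equiv.Perm (Pt b F)}, A.RIn z α β a0 g → ∀ {v : A.orb z}, g a0 = v.1 →
      f v = A.Hc (A.orb t0) (g t0) := fun {g} hg {v} hv => E05_f_eq ha0 ha0l ha0r hl hg hv
  -- representation of the gradients
  have hgr : ∀ v : A.orb z, α + c0 + A.ρ ≤ A.posx z v → A.posx z v ≤ β - c0 - A.ρ →
      ∃ t ∈ A.D, ∀ s : A.S, f (A.mvx z s v) - f v = A.hδ s.1 t := by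
    intro v hv1 hv2
    have hv1' : α + c0 + A.ρ ≤ pos z v.1 := hv1
    have hv2' : pos z v.1 ≤ β - c0 - A.ρ := hv2
    obtain ⟨g, hg, hga⟩ := exists_path hc hz ha0 v.2 (l := α) (r := β) (by linarith) (by linarith)
      (by linarith) (by linarith)
    refine ⟨g t0, A.map_mem hg.mem_G ht0, fun s => ?_⟩
    have hgv : g a0 ∈ A.orb z := orb_of_orb ha0 hg.mem_G
    have hstep := abs_le.1 (abs_disp_le (A.pw s.1 s.2).1 (g a0))
    have hp := pos_orb hgv (A.mem_G_of_mem_S s.2)
    have hsg : A.RIn z α β a0 (s.1 * g) := by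
      refine hg.trans ha0 (RIn.step hgv s.2 ?_ ?_)
      · rw [hp, hga]; rw [hga] at hstep; linarith [hstep.1]
      · rw [hp, hga]; rw [hga] at hstep; linarith [hstep.2]
    rw [hfe hg hga, hfe hsg (v := A.mvx z s v) (by
      rw [Equiv.Perm.mul_apply, hga]; rfl)]
    rw [hδ_of_mem (A.orb_map hg.mem_G (A.orb_self t0))]
    rfl
  have hlap : ∀ v : A.orb z, α + c0 + (P + A.ρ) < A.posx z v →
      A.posx z v ≤ β - c0 - (P + A.ρ) →
      lap (A.mvx z) f v = 0 := by
    intro v hv1 hv2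
    obtain ⟨t, ht, hts⟩ := hgr v (by linarith) (by linarith)
    unfold lap
    rw [Finset.sum_congr rfl (fun s _ => hts s)]
    rw [← hδ_harm hN ht, ← Finset.sum_coe_sort A.S]
  refine ⟨cur (A.mvx z) (A.posx z) f (α + c0 + (P + A.ρ)), ?_, ?_⟩
  · intro h h' hh hh' e1 e2 e1' e2'
    push_cast at e1 e2 e1' e2'
    have key := hC1 hst hH f (α + c0 + (P + A.ρ)) (β - c0 - (P + A.ρ)) (by
      intro v s hv1 hv2
      rw [hPz] at hv1 hv2
      obtain ⟨t, ht, hts⟩ := hgr v (by linarith) (by linarith)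
      rw [hts s]
      exact hδ_lip hN ht s.2) hlap ⟨h' a0, orb_of_orb ha0 hh'.mem_G⟩
      ⟨h a0, orb_of_orb ha0 hh.mem_G⟩
      (by show _ ≤ pos z (h' a0); linarith) (by show pos z (h' a0) ≤ _; linarith)
      (by show _ ≤ pos z (h a0); linarith) (by show pos z (h a0) ≤ _; linarith)
    rw [hfe hh' rfl, hfe hh rfl] at key
    have d1 : A.dh (h t0) (h' t0) = A.Hc (A.orb t0) (h' t0) - A.Hc (A.orb t0) (h t0) := by
      unfold dh
      rw [A.orb_eq (A.orb_map hh.mem_G (A.orb_self t0))]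
    have d2 : A.dh (h a0) (h' a0) = A.Hc (A.orb z) (h' a0) - A.Hc (A.orb z) (h a0) := by
      unfold dh
      rw [A.orb_eq (orb_of_orb ha0 hh.mem_G)]
    rw [d1, d2]
    exact key
  · intro h hh σ hσ e1 e2 hnear
    push_cast at e1 e2
    set a := h a0 with ha
    set t := h t0 with ht
    have haz : a ∈ A.orb z := orb_of_orb ha0 hh.mem_G
    have haD : a ∈ A.D := orb_mem_D hz haz
    have htt : t ∈ A.orb t0 := A.orb_map hh.mem_G (A.orb_self t0)
    set k := pos z a with hk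
    have hn1' : (c0 : ℤ) + 2 * A.ρ ≤ n := by exact_mod_cast hn1
    have hcur : cur (A.mvx z) (A.posx z) f k =
        cur (A.mvx z) (A.posx z) f (α + c0 + (P + A.ρ)) := by
      have := cur_sub hst f (c := α + c0 + (P + A.ρ)) (c' := k) (by linarith)
      rw [Finset.sum_eq_zero (fun v hv => ?_)] at this
      · linarith
      · rw [hst.mem_win] at hv
        exact hlap v hv.1 (by linarith [hv.2])
    have hcH : cur (A.mvx z) (A.posx z) (fun v => A.Hc (A.orb z) v.1) k = 1 := hH.cur k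
    set G : A.orb z × A.S → ℝ := fun p => grad (A.mvx z) f p -
      σ * grad (A.mvx z) (fun v => A.Hc (A.orb z) v.1) p with hG
    have hsum : cur (A.mvx z) (A.posx z) f (α + c0 + (P + A.ρ)) - σ =
        (1 / 2) * ∑ᶠ p, grad (A.mvx z) (cut (A.posx z) k) p * G p := by
      rw [hst.finsum_cut, ← hcur]
      have h1 := hst.cur_eq f k
      have h2 := hst.cur_eq (fun v => A.Hc (A.orb z) v.1) k
      rw [hcH] at h2
      have h3 : ∑ p ∈ hst.ed k, grad (A.mvx z) (cut (A.posx z) k) p * G p =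
          ∑ p ∈ hst.ed k, grad (A.mvx z) (cut (A.posx z) k) p * grad (A.mvx z) f p -
          σ * ∑ p ∈ hst.ed k, grad (A.mvx z) (cut (A.posx z) k) p *
            grad (A.mvx z) (fun v => A.Hc (A.orb z) v.1) p := by
        rw [Finset.mul_sum, ← Finset.sum_sub_distrib]
        refine Finset.sum_congr rfl fun p _ => ?_
        rw [hG]
        ring
      rw [h3, h1]
      linear_combination (-σ) * h2
    have hB : ∀ p ∈ hst.ed k, |G p| ≤ 2 * (1 / ((n : ℝ) + 1)) := by
      rintro ⟨v, s⟩ hp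
      unfold IsStrand.ed at hp
      rw [Finset.mem_product, hst.mem_win] at hp
      obtain ⟨⟨hv1, hv2⟩, -⟩ := hp
      have hv1' : k - A.ρ < pos z v.1 := hv1
      have hv2' : pos z v.1 ≤ k + A.ρ := hv2
      -- an element from `a` to `v`
      obtain ⟨g0, hg0, hg0v⟩ : ∃ g ∈ A.G, v.1 = g a := by
        have : v.1 ∈ A.orb a := by rw [A.orb_eq haz]; exact v.2
        exact this
      have hd : pos z v.1 = k + disp g0 a := by
        rw [hg0v]; exact pos_orb haz hg0
      obtain ⟨g, hgr', hga⟩ := hc a haD g0 hg0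
      rw [← hg0v] at hga
      have hgn : A.Reach a (Set.Icc (-(n : ℤ)) n) g := by
        refine Reach.mono (Set.Icc_subset_Icc ?_ ?_) hgr'
        · have : -(A.ρ : ℤ) ≤ min 0 (disp g0 a) := le_min (by linarith) (by linarith)
          linarith
        · have : max 0 (disp g0 a) ≤ A.ρ := max_le (by linarith) (by linarith)
          linarith
      have hgG := hgn.mem_G
      have hsG := A.mem_G_of_mem_S s.2
      have hdg : disp g a = pos z v.1 - k := by
        have := pos_orb haz hgG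
        rw [hga] at this
        linarith
      have hstep := abs_le.1 (abs_disp_le (A.pw s.1 s.2).1 (g a))
      have hsgn : A.Reach a (Set.Icc (-(n : ℤ)) n) (s.1 * g) := by
        refine Reach.step hgn s.2 ?_
        have e : pos a (s.1 (g a)) = disp s.1 (g a) + disp g a :=
          disp_mul (A.G_le_PW hsG) (A.G_le_PW hgG) a
        rw [e, hdg]
        exact ⟨by linarith [hstep.1], by linarith [hstep.2]⟩
      have hin : ∀ {g' : Equiv.Perm (Pt b F)}, A.Reach a (Set.Icc (-(n : ℤ)) n) g' →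
          A.RIn z α β a0 (g' * h) := by
        intro g' hg'
        refine hh.trans ha0 ?_
        show A.Reach a (Set.Icc (α - pos z a) (β - pos z a)) g'
        exact Reach.mono (Set.Icc_subset_Icc (by linarith) (by linarith)) hg'
      have hf1 : f v = A.Hc (A.orb t0) (g t) := by
        rw [hfe (hin hgn) (v := v) hga]
        rfl
      have hf2 : f (A.mvx z s v) = A.Hc (A.orb t0) (s.1 (g t)) := by
        rw [hfe (hin hsgn) (v := A.mvx z s v) (by
          show s.1 (g a) = s.1 v.1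
          rw [hga])]
        rfl
      have h1 : grad (A.mvx z) f (v, s) = A.hδ (s.1 * g) t - A.hδ g t := by
        unfold grad
        simp only
        rw [hf1, hf2, hδ_of_mem htt, hδ_of_mem htt]
        simp only [Equiv.Perm.mul_apply]
        ring
      have h2 : grad (A.mvx z) (fun v => A.Hc (A.orb z) v.1) (v, s) =
          A.hδ (s.1 * g) a - A.hδ g a := by
        unfold grad
        simp only
        rw [hδ_of_mem haz, hδ_of_mem haz]
        simp only [Equiv.Perm.mul_apply]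
        rw [hga]
        show A.Hc (A.orb z) (s.1 v.1) - A.Hc (A.orb z) v.1 = _
        ring
      have n1 := abs_le.1 (hnear g hgn).2
      have n2 := abs_le.1 (hnear (s.1 * g) hsgn).2
      have hGe : G (v, s) = (A.hδ (s.1 * g) t - σ * A.hδ (s.1 * g) a) -
          (A.hδ g t - σ * A.hδ g a) := by
        rw [hG]
        simp only
        rw [h1, h2]
        ring
      rw [hGe, abs_le]
      constructor <;> linarith [n1.1, n1.2, n2.1, n2.2]
    have hfin := hst.abs_finsum_cut k G hB (by positivity)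
    rw [hsum, abs_mul]
    have hnpos : (0 : ℝ) < (n : ℝ) + 1 := by positivity
    have hfin2 : (M * Fintype.card A.S : ℝ) / ((n : ℝ) + 1) ≤ ε := by
      rw [div_le_iff₀ hnpos]
      rw [div_le_iff₀ hε] at hn2
      nlinarith
    calc |(1 / 2 : ℝ)| * |∑ᶠ p, grad (A.mvx z) (cut (A.posx z) k) p * G p|
        ≤ |(1 / 2 : ℝ)| * (M * Fintype.card A.S * (2 * (1 / ((n : ℝ) + 1)))) :=
          mul_le_mul_of_nonneg_left hfin (abs_nonneg _)
      _ = (M * Fintype.card A.S : ℝ) / ((n : ℝ) + 1) := by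
          rw [abs_of_pos (by norm_num : (0 : ℝ) < 1 / 2)]
          field_simp
      _ ≤ ε := hfin2

end Sys

end Pool.Agent.helper98.NIG
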