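import Pool.Agent.helper98.NIG.E04
import Pool.Agent.helper98.NIG.E05

/-!
# NIG-E06: comparison of two locked tokens; signs of long locks; short loops suffice

PROOFS.
* `lock_short`: for every `W` there is `L` such that: if all `h` reached from `z` in the window `W` by at most
  `L` generators (`h = l.prod`, `l.length ≤ L`) with `h z = z` fix `y`, then all loops in the window fix `y`.
  PROOF: the component of `z` in the window has at most `P = (2W+1) |F|` points (`Reach.disp_mem`), each is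
  joined to `z` by a path in the window of length `≤ P` (shortest path: repetitions can be cut out); choose such `w_p`
  for each point `p`, `w_z = 1`. For an edge `p → s p` in the window `w_(s p)⁻¹ s w_p` is a loop in the window of
  length `≤ 2P + 1 =: L`, so it fixes `y`: `s w_p y = w_(s p) y`. By induction along a path `h`: `h y = w_(h z) y`. For a
  loop: `h y = y`. (To state it for lists: `ReachL A x I l`: all the intermediate products of the list `l` have
  positions in `I`; define it in this file.)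
* `sign_unique`: `lock_affine` with `ε = 1/4`, `n` its scale (`≥ n1`): if `LockI z α β a0 t0` and `h, h'` are
  paths inside `[α, β]` with end points at distance `≥ c1 + n` from both ends, with `Near n σ (h a0) (h t0)`,
  `Near n σ' (h' a0) (h' t0)` then `σ = σ'` (`|κ - σ|, |κ - σ'| ≤ 1/4`).
* `compare` (CMP): Let `n1` be the scale of `parallel` (enlarge it if necessary: `near_mono`), `n*` = max of `n1`, the scale
  of `lock_affine` for `ε = 1/4`, and the scale of `near_sign`. Hypothesis: both tokens have the sign `σ` at one point `h_m a0` far from the ends (`Near n* σ`).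
  Given `C`. Let `κ1, κ2` be the slopes of `t1, t2` on `[α, β]`. `D h = dh (h t1) (h t2)`; by (1) of
  `lock_affine` and additivity of `dh` on an orbit: `|D h' - D h - (κ2 - κ1) dh (h a0) (h' a0)| ≤ 2 C1`.
  Let `C2 = C + 2 C1 + 1`, `C3` with `|pos t t'| ≤ C3` if `|dh t t'| ≤ C2` (`pos_bound`), `M = m(C3) + m* + c1 + n* + ρ + 1` where `m(C3)`
  is from `parallel` and `m*` from `lock_near` for the scale `n*`. Let `η > 0` with `2 η N (M + ρ + 2) ≤ 1` (`hδ_upper`: `|dh (h a0) (h'' a0)| ≤ N (|difference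
  of the positions| + 1)`), `n_η` the scale of `lock_affine` for `ε = η`, `m_η` from `lock_near` for the scale
  `n_η`, and `L = 4 (M + m_η + n_η + c1) + ...`. At a point `h_c a0` near the middle of `[α, β]` the window `m_η` is inside, so
  `Near n_η σ_i (h_c a0) (h_c t_i)`, `|κ_i - σ_i| ≤ η`; and `σ_i = σ` by `sign_unique` (`near_mono`). So `|κ1 - κ2| ≤ 2 η`.
  Let `h'` be the path with `|D h'| ≤ C`. Choose a path `h''` to a point at distance between `M` and `M + ρ` from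
  `h' a0` towards the middle (`syn`, `exists_path`). Then `|D h''| ≤ C + 2 C1 + 1 = C2`. The window of radius `m(C3)` (and `m*`)
  around `h'' a0` is inside `[α, β]`, so both tokens are locked there, `Near n* σ_i'' (h'' a0) (h'' t_i)` by `lock_near`,
  `σ_i'' = σ` by `sign_unique`. `parallel` gives `h'' t1 = h'' t2`.
-/

namespace Pool.Agent.helper98.NIG

variable {b : Base} {F : Type}

namespace Sys

/-- the path of the list `l` (applied from the right) from `x` stays at positions in `I` -/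
def ReachL (A : Sys b F) (x : Pt b F) (I : Set ℤ) : List (Equiv.Perm (Pt b F)) → Prop
  | [] => True
  | s :: l => s ∈ A.S ∧ pos x (s (l.prod x)) ∈ I ∧ ReachL A x I l

/-- the path of the list `l` from `a` stays at positions in `I` relative to `x` -/
def E06_R (A : Sys b F) (x : Pt b F) (I : Set ℤ) (a : Pt b F) : List (Equiv.Perm (Pt b F)) → Prop
  | [] => True
  | s :: l => s ∈ A.S ∧ pos x (s (l.prod a)) ∈ I ∧ E06_R A x I a l

theorem E06_R_iff {A : Sys b F} {x : Pt b F} {I : Set ℤ} {l : List (Equiv.Perm (Pt b F))} :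
    A.ReachL x I l ↔ A.E06_R x I x l := by
  induction l with
  | nil => exact Iff.rfl
  | cons s l ih =>
    change (s ∈ A.S ∧ pos x (s (l.prod x)) ∈ I ∧ A.ReachL x I l) ↔
      (s ∈ A.S ∧ pos x (s (l.prod x)) ∈ I ∧ A.E06_R x I x l)
    rw [ih]

theorem E06_R_append {A : Sys b F} {x a : Pt b F} {I : Set ℤ}
    {l1 l2 : List (Equiv.Perm (Pt b F))} :
    A.E06_R x I a (l1 ++ l2) ↔ A.E06_R x I (l2.prod a) l1 ∧ A.E06_R x I a l2 := by
  induction l1 with
  | nil => exact ⟨fun h => ⟨trivial, h⟩, fun h => h.2⟩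
  | cons s l ih =>
    change (s ∈ A.S ∧ pos x (s ((l ++ l2).prod a)) ∈ I ∧ A.E06_R x I a (l ++ l2)) ↔
      (s ∈ A.S ∧ pos x (s (l.prod (l2.prod a))) ∈ I ∧ A.E06_R x I (l2.prod a) l) ∧
        A.E06_R x I a l2
    rw [ih, List.prod_append, Equiv.Perm.mul_apply]
    tauto

theorem E06_R_end {A : Sys b F} {x a : Pt b F} {I : Set ℤ} (h0 : pos x a ∈ I)
    {l : List (Equiv.Perm (Pt b F))} (h : A.E06_R x I a l) : pos x (l.prod a) ∈ I := by
  cases l with
  | nil => exact h0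
  | cons s l =>
    rw [List.prod_cons]
    exact h.2.1

theorem E06_R_inv {A : Sys b F} {x a : Pt b F} {I : Set ℤ} (h0 : pos x a ∈ I)
    {l : List (Equiv.Perm (Pt b F))} (h : A.E06_R x I a l) :
    A.E06_R x I (l.prod a) (l.map fun s => s⁻¹).reverse := by
  induction l with
  | nil => exact trivial
  | cons s l ih =>
    obtain ⟨h1, -, h3⟩ := h
    rw [List.map_cons, List.reverse_cons, E06_R_append]
    have e1 : (s :: l).prod a = s (l.prod a) := by rw [List.prod_cons]; rfl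
    have e2 : ([s⁻¹] : List (Equiv.Perm (Pt b F))).prod ((s :: l).prod a) = l.prod a := by
      rw [List.prod_singleton, e1]
      exact s.symm_apply_apply _
    rw [e2]
    refine ⟨ih h3, A.inv_mem s h1, ?_, trivial⟩
    have e3 : s⁻¹ ((([] : List (Equiv.Perm (Pt b F))).prod) ((s :: l).prod a)) = l.prod a := by
      rw [List.prod_nil, e1]
      exact s.symm_apply_apply _
    rw [e3]
    exact E06_R_end h0 h3

theorem E06_R_G {A : Sys b F} {x a : Pt b F} {I : Set ℤ} {l : List (Equiv.Perm (Pt b F))}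
    (h : A.E06_R x I a l) : l.prod ∈ A.G := by
  induction l with
  | nil => exact A.G.one_mem
  | cons s l ih =>
    rw [List.prod_cons]
    exact mul_mem (A.mem_G_of_mem_S h.1) (ih h.2.2)

theorem E06_chain {α : Type*} (B : ℕ → Set α) {Z : Set α} (hZ : Z.Finite) (hsub : ∀ j, B j ⊆ Z)
    (hmono : ∀ j, B j ⊆ B (j + 1)) (hstab : ∀ j, B (j + 1) ⊆ B j → B (j + 2) ⊆ B (j + 1))
    (h0 : (B 0).Nonempty) (j : ℕ) : B j ⊆ B Z.ncard := by
  have hm : Monotone B := monotone_nat_of_le_succ hmono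
  have h1 : ∀ i, B (i + 1) ⊆ B i → ∀ j, B j ⊆ B i := by
    intro i hi j
    have h2 : ∀ k, B (i + k + 1) ⊆ B (i + k) := by
      intro k
      induction k with
      | zero => exact hi
      | succ k ih => exact hstab _ ih
    have h3 : ∀ k, B (i + k) ⊆ B i := by
      intro k
      induction k with
      | zero => exact subset_rfl
      | succ k ih => exact (h2 k).trans ih
    exact (hm (Nat.le_add_left j i)).trans (h3 j)
  by_contra hcon
  have h2 : ∀ i, i ≤ Z.ncard → ¬ B (i + 1) ⊆ B i := fun i hi h =>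
    hcon ((h1 i h j).trans (hm hi))
  have h3 : ∀ i, i ≤ Z.ncard → i + 1 ≤ (B i).ncard := by
    intro i
    induction i with
    | zero =>
      intro _
      exact (Set.ncard_pos (hZ.subset (hsub 0))).2 h0
    | succ i ih =>
      intro hi
      have h4 := ih (by omega)
      have h5 : B i ⊂ B (i + 1) := ⟨hmono i, h2 i (by omega)⟩
      have h6 := Set.ncard_lt_ncard h5 (hZ.subset (hsub (i + 1)))
      omega
  have h4 := h3 _ le_rfl
  have h5 := Set.ncard_le_ncard (hsub Z.ncard) hZ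
  omega

/-- every point reached in the window is reached by a short list -/
theorem E06_short [Finite F] (A : Sys b F) (W : ℕ) (z : Pt b F)
    {h : Equiv.Perm (Pt b F)} (hh : A.Reach z (Set.Icc (-(W : ℤ)) W) h) :
    ∃ l : List (Equiv.Perm (Pt b F)), l.length ≤ (2 * W + 1) * Nat.card F ∧
      A.E06_R z (Set.Icc (-(W : ℤ)) W) z l ∧ l.prod z = h z := by
  have h00 : pos z z ∈ Set.Icc (-(W : ℤ)) W := by
    rw [pos_self]
    exact ⟨by omega, by omega⟩
  let B : ℕ → Set (Pt b F) := fun j => {p | ∃ l : List (Equiv.Perm (Pt b F)), l.length ≤ j ∧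
    A.E06_R z (Set.Icc (-(W : ℤ)) W) z l ∧ l.prod z = p}
  let Z : Set (Pt b F) := (fun q : ℤ × F => ((sh q.1 z.1, q.2) : Pt b F)) ''
    (Set.Icc (-(W : ℤ)) W ×ˢ (Set.univ : Set F))
  have hfin : (Set.Icc (-(W : ℤ)) W ×ˢ (Set.univ : Set F)).Finite :=
    (Set.finite_Icc _ _).prod Set.finite_univ
  have hZ : Z.Finite := hfin.image _
  have hcard : Z.ncard ≤ (2 * W + 1) * Nat.card F := by
    refine (Set.ncard_image_le hfin).trans ?_
    rw [Set.ncard_prod, Set.ncard_univ]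
    refine Nat.mul_le_mul_right _ ?_
    rw [Set.ncard_eq_toFinset_card' (Set.Icc (-(W : ℤ)) W), Set.toFinset_Icc, Int.card_Icc]
    omega
  have hsub : ∀ j, B j ⊆ Z := by
    rintro j p ⟨l, -, hl, rfl⟩
    exact ⟨(pos z (l.prod z), (l.prod z).2), ⟨E06_R_end h00 hl, trivial⟩,
      (eq_of_pos (sameLine_of_mem_PW (A.G_le_PW (E06_R_G hl)) z)).symm⟩
  have hmono : ∀ j, B j ⊆ B (j + 1) := by
    rintro j p ⟨l, h1, h2, h3⟩
    exact ⟨l, h1.trans (Nat.le_succ j), h2, h3⟩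
  have hstab : ∀ j, B (j + 1) ⊆ B j → B (j + 2) ⊆ B (j + 1) := by
    rintro j hj p ⟨l, h1, h2, rfl⟩
    cases l with
    | nil => exact ⟨[], Nat.zero_le _, trivial, rfl⟩
    | cons s l =>
      obtain ⟨l', k1, k2, k3⟩ := hj ⟨l, by simpa using h1, h2.2.2, rfl⟩
      refine ⟨s :: l', by simpa using k1, ⟨h2.1, ?_, k2⟩, ?_⟩
      · rw [k3]
        exact h2.2.1
      · rw [List.prod_cons, List.prod_cons, Equiv.Perm.mul_apply, Equiv.Perm.mul_apply, k3]
  have h0 : (B 0).Nonempty := ⟨z, [], le_rfl, trivial, rfl⟩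
  have hex : ∃ j, h z ∈ B j := by
    clear hcard hsub hstab
    induction hh with
    | one => exact ⟨0, [], le_rfl, trivial, rfl⟩
    | @step g s _ hs hp ih =>
      obtain ⟨j, l, h1, h2, h3⟩ := ih
      refine ⟨j + 1, s :: l, by simpa using h1, ⟨hs, ?_, h2⟩, ?_⟩
      · rw [h3]
        exact hp
      · rw [List.prod_cons, Equiv.Perm.mul_apply, Equiv.Perm.mul_apply, h3]
  obtain ⟨j, hj⟩ := hex
  obtain ⟨l, h1, h2, h3⟩ := E06_chain B hZ hsub hmono hstab h0 j hj
  exact ⟨l, h1.trans hcard, h2, h3⟩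

theorem lock_short [Finite F] (A : Sys b F) (W : ℕ) : ∃ L : ℕ, ∀ z y : Pt b F,
    (∀ l : List (Equiv.Perm (Pt b F)), l.length ≤ L → A.ReachL z (Set.Icc (-(W : ℤ)) W) l →
      l.prod z = z → l.prod y = y) →
    ∀ h, A.Reach z (Set.Icc (-(W : ℤ)) W) h → h z = z → h y = y := by
  refine ⟨2 * ((2 * W + 1) * Nat.card F) + 1, fun z y H => ?_⟩
  have h00 : pos z z ∈ Set.Icc (-(W : ℤ)) W := by
    rw [pos_self]
    exact ⟨by omega, by omega⟩
  -- two short lists with the same end point agree on `y`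
  have key : ∀ h, A.Reach z (Set.Icc (-(W : ℤ)) W) h → ∀ l : List (Equiv.Perm (Pt b F)),
      l.length ≤ (2 * W + 1) * Nat.card F → A.E06_R z (Set.Icc (-(W : ℤ)) W) z l →
      l.prod z = h z → h y = l.prod y := by
    intro h hh
    induction hh with
    | one =>
      intro l h1 h2 h3
      exact (H l (by omega) (E06_R_iff.2 h2) h3).symm
    | @step g s hg hs hp ih =>
      intro l h1 h2 h3
      obtain ⟨l', k1, k2, k3⟩ := E06_short A W z hg
      have h4 := ih l' k1 k2 k3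
      have hR : A.E06_R z (Set.Icc (-(W : ℤ)) W) z (s :: l') := by
        refine ⟨hs, ?_, k2⟩
        rw [k3]
        exact hp
      have hprod : (s :: l').prod z = l.prod z := by
        rw [List.prod_cons, Equiv.Perm.mul_apply, k3, h3, Equiv.Perm.mul_apply]
      have h5 := H ((l.map fun s => s⁻¹).reverse ++ (s :: l')) (by
        rw [List.length_append, List.length_reverse, List.length_map, List.length_cons]
        omega) (by
        rw [E06_R_iff, E06_R_append]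
        refine ⟨?_, hR⟩
        rw [hprod]
        exact E06_R_inv h00 h2) (by
        rw [List.prod_append, Equiv.Perm.mul_apply, hprod, ← List.prod_inv_reverse]
        exact l.prod.symm_apply_apply z)
      rw [List.prod_append, Equiv.Perm.mul_apply, ← List.prod_inv_reverse,
        Equiv.Perm.inv_eq_iff_eq, List.prod_cons, Equiv.Perm.mul_apply] at h5
      rw [Equiv.Perm.mul_apply, h4]
      exact h5
  intro h hh hz
  obtain ⟨l, h1, h2, h3⟩ := E06_short A W z hh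
  rw [key h hh l h1 h2 h3]
  exact H l (by omega) (E06_R_iff.2 h2) (h3.trans hz)

theorem E06b_sign {σ σ' κ : ℝ} (h1 : σ = 1 ∨ σ = -1) (h2 : σ' = 1 ∨ σ' = -1)
    (h3 : |κ - σ| ≤ 1 / 4) (h4 : |κ - σ'| ≤ 1 / 4) : σ = σ' := by
  rw [abs_le] at h3 h4
  rcases h1 with rfl | rfl <;> rcases h2 with rfl | rfl
  · rfl
  · exfalso; linarith [h3.1, h3.2, h4.1, h4.2]
  · exfalso; linarith [h3.1, h3.2, h4.1, h4.2]
  · rfl

theorem sign_unique [Fintype F] (A : Sys b F) {N c0 : ℕ} (hN : A.BCN N) (hc : A.BCc c0) :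
    ∃ (c1 n : ℕ), c0 ≤ c1 ∧ ∀ z ∈ A.D, ∀ a0 ∈ A.orb z, ∀ t0 ∈ A.D, ∀ α β : ℤ,
      A.LockI z α β a0 t0 → α + c1 ≤ pos z a0 → pos z a0 ≤ β - c1 →
      ∀ h h', A.RIn z α β a0 h → A.RIn z α β a0 h' → ∀ σ σ' : ℝ, (σ = 1 ∨ σ = -1) →
        (σ' = 1 ∨ σ' = -1) →
        α + c1 + n ≤ pos z (h a0) → pos z (h a0) ≤ β - c1 - n →
        α + c1 + n ≤ pos z (h' a0) → pos z (h' a0) ≤ β - c1 - n →
        A.Near n σ (h a0) (h t0) → A.Near n σ' (h' a0) (h' t0) → σ = σ' := by
  obtain ⟨C1, c1, hc1, H⟩ := A.lock_affine hN hc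
  obtain ⟨n, hn⟩ := H (1 / 4) (by norm_num)
  refine ⟨c1, n, hc1, fun z hz a0 ha0 t0 ht0 α β hl hα hβ h h' hh hh' σ σ' hσ hσ' p1 p2 q1 q2
    hn1 hn2 => ?_⟩
  obtain ⟨κ, -, hκ⟩ := hn z hz a0 ha0 t0 ht0 α β hl hα hβ
  exact E06b_sign hσ hσ' (hκ h hh σ hσ p1 p2 hn1) (hκ h' hh' σ' hσ' q1 q2 hn2)

/-- a token locked over `[α, β]` is near at scale `n` at a point where the window `m` is inside -/
theorem E06b_near [Fintype F] {A : Sys b F} {n m : ℕ}
    (hm : ∀ a ∈ A.D, ∀ t ∈ A.D,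
      (∀ h, A.Reach a (Set.Icc (-(m : ℤ)) m) h → h a = a → h t = t) →
      ∃ σ : ℝ, (σ = 1 ∨ σ = -1) ∧ A.Near n σ a t)
    {z a0 t0 : Pt b F} (hz : z ∈ A.D) (ha0 : a0 ∈ A.orb z) (ht0 : t0 ∈ A.D) {α β : ℤ}
    (hl : A.LockI z α β a0 t0) (hα : α ≤ pos z a0) (hβ : pos z a0 ≤ β)
    {h : Equiv.Perm (Pt b F)} (hh : A.RIn z α β a0 h) (p1 : α + m ≤ pos z (h a0))
    (p2 : pos z (h a0) ≤ β - m) :
    ∃ σ : ℝ, (σ = 1 ∨ σ = -1) ∧ A.Near n σ (h a0) (h t0) := by
  have haD := orb_mem_D hz ha0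
  refine hm (h a0) (A.map_mem hh.mem_G haD) (h t0) (A.map_mem hh.mem_G ht0) ?_
  intro g hg hfix
  have h1 := hl.map ha0 hα hβ hh
  refine h1 g ?_ hfix
  exact Reach.mono (Set.Icc_subset_Icc (by linarith) (by linarith)) hg

/-- `c1` margin, `n` scale of the signs. -/
theorem compare [Fintype F] (A : Sys b F) {N c0 : ℕ} (hN : A.BCN N) (hc : A.BCc c0)
    (hred : A.Reduced) :
    ∃ (c1 n : ℕ), c0 ≤ c1 ∧ ∀ C : ℝ, ∃ L : ℕ, ∀ z ∈ A.D, ∀ a0 ∈ A.orb z, ∀ t1 ∈ A.D,
      ∀ t2 ∈ A.orb t1, ∀ α β : ℤ, L ≤ β - α → A.LockI z α β a0 t1 → A.LockI z α β a0 t2 →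
      α + c1 ≤ pos z a0 → pos z a0 ≤ β - c1 →
      ∀ h, A.RIn z α β a0 h → ∀ σ : ℝ, (σ = 1 ∨ σ = -1) →
        α + c1 + n ≤ pos z (h a0) → pos z (h a0) ≤ β - c1 - n →
        A.Near n σ (h a0) (h t1) → A.Near n σ (h a0) (h t2) →
      ∀ h', A.RIn z α β a0 h' → α + c1 ≤ pos z (h' a0) → pos z (h' a0) ≤ β - c1 →
        |A.dh (h' t1) (h' t2)| ≤ C → t1 = t2 := by
  obtain ⟨n1, hpar⟩ := A.parallel hN hred
  obtain ⟨C1, c1, hc1, H⟩ := A.lock_affine hN hc
  obtain ⟨nq, hq⟩ := H (1 / 4) (by norm_num)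
  obtain ⟨K, hK⟩ := A.pos_bound hN
  refine ⟨c1, max n1 nq, hc1, fun C => ?_⟩
  set n : ℕ := max n1 nq with hn
  have hn1 : n1 ≤ n := le_max_left _ _
  have hnq : nq ≤ n := le_max_right _ _
  set C2 : ℝ := C + 2 * C1 + 1 with hC2
  set C3 : ℕ := ⌈(K : ℝ) * (C2 + 1)⌉₊ with hC3
  obtain ⟨m3, hm3⟩ := hpar C3
  obtain ⟨ms, hms⟩ := A.lock_near hN hred n
  set M : ℕ := m3 + ms + n with hM
  set η : ℝ := 1 / (2 * (N * (M + A.ρ + 1)) + 1) with hη
  have hden : (0 : ℝ) < 2 * (N * (M + A.ρ + 1)) + 1 := by positivity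
  have hη0 : 0 < η := by rw [hη]; positivity
  obtain ⟨ne, hne⟩ := H η hη0
  obtain ⟨me, hme⟩ := A.lock_near hN hred (max ne n)
  refine ⟨2 * (2 * M + A.ρ + c1) + 2 * (me + ne + n + c1 + A.ρ) + 2, ?_⟩
  intro z hz a0 ha0 t1 ht1 t2 ht2 α β hL hl1 hl2 hα hβ h hh σ hσ p1 p2 hN1 hN2 h' hh' q1 q2 hC
  push_cast at hL
  have ht2D : t2 ∈ A.D := orb_mem_D ht1 ht2
  have haD := orb_mem_D hz ha0
  have hρ0 : (0 : ℤ) ≤ A.ρ := by positivity
  have hc10 : (0 : ℤ) ≤ c1 := by positivity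
  have hc0' : (c0 : ℤ) ≤ c1 := by exact_mod_cast hc1
  have hα' : α ≤ pos z a0 := by linarith
  have hβ' : pos z a0 ≤ β := by linarith
  have hn1' : (n1 : ℤ) ≤ n := by exact_mod_cast hn1
  have hnq' : (nq : ℤ) ≤ n := by exact_mod_cast hnq
  have hMz : (M : ℤ) = m3 + ms + n := by rw [hM]; push_cast; ring
  -- the slopes for `1/4`
  obtain ⟨κq1, -, hκq1⟩ := hq z hz a0 ha0 t1 ht1 α β hl1 hα hβ
  obtain ⟨κq2, -, hκq2⟩ := hq z hz a0 ha0 t2 ht2D α β hl2 hα hβ
  -- signs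
  have sgn1 : ∀ g, A.RIn z α β a0 g → ∀ σ' : ℝ, (σ' = 1 ∨ σ' = -1) →
      α + c1 + n ≤ pos z (g a0) → pos z (g a0) ≤ β - c1 - n → A.Near n σ' (g a0) (g t1) →
      σ' = σ := fun g hg σ' hσ' r1 r2 hN' =>
    E06b_sign hσ' hσ (hκq1 g hg σ' hσ' (by linarith) (by linarith) (near_mono hnq hN'))
      (hκq1 h hh σ hσ (by linarith) (by linarith) (near_mono hnq hN1))
  have sgn2 : ∀ g, A.RIn z α β a0 g → ∀ σ' : ℝ, (σ' = 1 ∨ σ' = -1) →
      α + c1 + n ≤ pos z (g a0) → pos z (g a0) ≤ β - c1 - n → A.Near n σ' (g a0) (g t2) →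
      σ' = σ := fun g hg σ' hσ' r1 r2 hN' =>
    E06b_sign hσ' hσ (hκq2 g hg σ' hσ' (by linarith) (by linarith) (near_mono hnq hN'))
      (hκq2 h hh σ hσ (by linarith) (by linarith) (near_mono hnq hN2))
  -- the slopes for `η`
  obtain ⟨κ1, hκ1, hκ1'⟩ := hne z hz a0 ha0 t1 ht1 α β hl1 hα hβ
  obtain ⟨κ2, hκ2, hκ2'⟩ := hne z hz a0 ha0 t2 ht2D α β hl2 hα hβ
  -- a point in the middle
  obtain ⟨v, hv, hvp⟩ := A.hit hz ((α + β) / 2)
  have hvp' := abs_le.1 hvp
  have hmid1 : (α + β) / 2 * 2 ≤ α + β := Int.ediv_mul_le _ two_ne_zero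
  have hmid2 : α + β < ((α + β) / 2 + 1) * 2 := Int.lt_ediv_add_one_mul_self _ two_pos
  obtain ⟨hC', hhC, hCv⟩ := exists_path hc hz ha0 hv (l := α) (r := β) (by linarith) (by linarith)
    (by linarith [hvp'.1]) (by linarith [hvp'.2])
  have hNe : (max ne n : ℕ) ≤ ne + n := max_le (Nat.le_add_right _ _) (Nat.le_add_left _ _)
  have mid : ∀ t ∈ A.D, A.LockI z α β a0 t → ∃ σ' : ℝ, (σ' = 1 ∨ σ' = -1) ∧
      A.Near (max ne n) σ' (hC' a0) (hC' t) := fun t ht hlt =>
    E06b_near hme hz ha0 ht hlt hα' hβ' hhC (by rw [hCv]; linarith [hvp'.1])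
      (by rw [hCv]; linarith [hvp'.2])
  have hκη1 : |κ1 - σ| ≤ η := by
    obtain ⟨σ', hσ', hnr⟩ := mid t1 ht1 hl1
    have e1 := sgn1 hC' hhC σ' hσ' (by rw [hCv]; linarith [hvp'.1])
      (by rw [hCv]; linarith [hvp'.2]) (near_mono (le_max_right _ _) hnr)
    rw [e1] at hnr
    exact hκ1' hC' hhC σ hσ (by rw [hCv]; linarith [hvp'.1]) (by rw [hCv]; linarith [hvp'.2])
      (near_mono (le_max_left _ _) hnr)
  have hκη2 : |κ2 - σ| ≤ η := by
    obtain ⟨σ', hσ', hnr⟩ := mid t2 ht2D hl2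
    have e1 := sgn2 hC' hhC σ' hσ' (by rw [hCv]; linarith [hvp'.1])
      (by rw [hCv]; linarith [hvp'.2]) (near_mono (le_max_right _ _) hnr)
    rw [e1] at hnr
    exact hκ2' hC' hhC σ hσ (by rw [hCv]; linarith [hvp'.1]) (by rw [hCv]; linarith [hvp'.2])
      (near_mono (le_max_left _ _) hnr)
  have hκ12 : |κ2 - κ1| ≤ 2 * η := by
    have h1 := abs_sub_le κ2 σ κ1
    rw [abs_sub_comm σ κ1] at h1
    linarith
  -- the point towards the middle
  have hG' := hh'.mem_G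
  have hxD : h' a0 ∈ A.D := A.map_mem hG' haD
  have hxo : h' a0 ∈ A.orb z := orb_of_orb ha0 hG'
  obtain ⟨g, hg, hgd, hgp1, hgp2⟩ : ∃ g ∈ A.G, |disp g (h' a0)| ≤ M + A.ρ ∧
      α + c1 + M ≤ pos z (g (h' a0)) ∧ pos z (g (h' a0)) ≤ β - c1 - M := by
    rcases le_or_gt (pos z (h' a0)) ((α + β) / 2) with hle | hlt
    · obtain ⟨g, hg, d1, d2⟩ := A.syn hxD (M : ℤ)
      have e := pos_orb hxo hg
      refine ⟨g, hg, ?_, ?_, ?_⟩
      · rw [abs_le]
        exact ⟨by linarith [(by positivity : (0 : ℤ) ≤ M)], by linarith⟩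
      · rw [e]; linarith
      · rw [e]; linarith
    · obtain ⟨g, hg, d1, d2⟩ := A.syn hxD (-(M : ℤ) - A.ρ)
      have e := pos_orb hxo hg
      refine ⟨g, hg, ?_, ?_, ?_⟩
      · rw [abs_le]
        exact ⟨by linarith, by linarith [(by positivity : (0 : ℤ) ≤ M)]⟩
      · rw [e]; linarith
      · rw [e]; linarith
  have hM0 : (0 : ℤ) ≤ M := by positivity
  have hgo : g (h' a0) ∈ A.orb z := orb_of_orb hxo hg
  obtain ⟨h'', hh'', hv''⟩ := exists_path hc hz ha0 hgo (l := α) (r := β) (by linarith)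
    (by linarith) (by linarith) (by linarith)
  have hG'' := hh''.mem_G
  -- the difference at `h''`
  have hdD : A.dh (h'' t1) (h'' t2) = A.dh (h' t1) (h' t2) + A.dh (h' t2) (h'' t2)
      - A.dh (h' t1) (h'' t1) := by
    have o1 : h' t1 ∈ A.orb t1 := A.orb_map hG' (A.orb_self t1)
    have o2 : h' t2 ∈ A.orb (h' t1) := by
      rw [A.orb_eq o1]
      exact orb_of_orb ht2 hG'
    have o3 : h'' t1 ∈ A.orb (h' t1) := by
      rw [A.orb_eq o1]
      exact A.orb_map hG'' (A.orb_self t1)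
    have e1 := dh_add (A := A) (z := h'' t2) o2
    have e2 := dh_add (A := A) (z := h'' t2) o3
    linarith
  have hdA : |A.dh (h' a0) (h'' a0)| ≤ N * (M + A.ρ + 1) := by
    rw [hv'', dh_map]
    refine (A.hδ_upper hN hxD hg).trans ?_
    have : (|disp g (h' a0)| : ℝ) ≤ M + A.ρ := by exact_mod_cast hgd
    push_cast
    gcongr
  have hb1 := hκ1 h' h'' hh' hh'' q1 q2 (by rw [hv'']; linarith) (by rw [hv'']; linarith)
  have hb2 := hκ2 h' h'' hh' hh'' q1 q2 (by rw [hv'']; linarith) (by rw [hv'']; linarith)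
  have hsl : |(κ2 - κ1) * A.dh (h' a0) (h'' a0)| ≤ 1 := by
    rw [abs_mul]
    calc |κ2 - κ1| * |A.dh (h' a0) (h'' a0)| ≤ (2 * η) * (N * (M + A.ρ + 1)) :=
          mul_le_mul hκ12 hdA (abs_nonneg _) (by positivity)
      _ ≤ 1 := by
        rw [hη]
        rw [show 2 * (1 / (2 * ((N : ℝ) * (M + A.ρ + 1)) + 1)) * (N * (M + A.ρ + 1)) =
          (2 * (N * (M + A.ρ + 1))) / (2 * (N * (M + A.ρ + 1)) + 1) by ring]
        rw [div_le_one hden]
        linarith
  have hD2 : |A.dh (h'' t1) (h'' t2)| ≤ C2 := by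
    rw [abs_le] at hb1 hb2 hsl hC ⊢
    rw [hdD, hC2]
    constructor
    · nlinarith [hb1.1, hb1.2, hb2.1, hb2.2, hsl.1, hsl.2, hC.1, hC.2]
    · nlinarith [hb1.1, hb1.2, hb2.1, hb2.2, hsl.1, hsl.2, hC.1, hC.2]
  have hD1 : h'' t1 ∈ A.D := A.map_mem hG'' ht1
  have ho12 : h'' t2 ∈ A.orb (h'' t1) := by
    rw [A.orb_eq (A.orb_map hG'' (A.orb_self t1))]
    exact orb_of_orb ht2 hG''
  have hpos : |pos (h'' t1) (h'' t2)| ≤ (C3 : ℤ) := by
    have h1 := hK (h'' t1) hD1 (h'' t2) ho12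
    have h2 : (|(pos (h'' t1) (h'' t2) : ℝ)|) ≤ (C3 : ℝ) := by
      refine h1.trans (le_trans ?_ (Nat.le_ceil _))
      gcongr
    exact_mod_cast h2
  -- the signs at `h''`
  have near1 : A.Near n σ (h'' a0) (h'' t1) := by
    obtain ⟨σ', hσ', hnr⟩ := E06b_near hms hz ha0 ht1 hl1 hα' hβ' hh''
      (by rw [hv'']; linarith) (by rw [hv'']; linarith)
    have e1 := sgn1 h'' hh'' σ' hσ' (by rw [hv'']; linarith) (by rw [hv'']; linarith) hnr
    rwa [e1] at hnr
  have near2 : A.Near n σ (h'' a0) (h'' t2) := by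
    obtain ⟨σ', hσ', hnr⟩ := E06b_near hms hz ha0 ht2D hl2 hα' hβ' hh''
      (by rw [hv'']; linarith) (by rw [hv'']; linarith)
    have e1 := sgn2 h'' hh'' σ' hσ' (by rw [hv'']; linarith) (by rw [hv'']; linarith) hnr
    rwa [e1] at hnr
  have hfin : h'' t1 = h'' t2 := by
    refine hm3 (h'' a0) (A.map_mem hG'' haD) (h'' t1) hD1 (h'' t2) ho12 hpos ?_ σ hσ
      (near_mono hn1 near1) (near_mono hn1 near2)
    intro k hk hfix
    have hk' : A.RIn z α β (h'' a0) k := by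
      refine Reach.mono (Set.Icc_subset_Icc ?_ ?_) hk
      · rw [hv'']; linarith
      · rw [hv'']; linarith
    exact ⟨hl1.map ha0 hα' hβ' hh'' k hk' hfix, hl2.map ha0 hα' hβ' hh'' k hk' hfix⟩
  exact h''.injective hfin

end Sys

end Pool.Agent.helper98.NIG
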