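import Pool.Agent.helper98.NIG.E10
import Pool.Agent.helper98.NIG.E06
import Pool.Agent.helper97.NIG.Strip2

/-!
# NIG-E11: the strip theorem

If the orbit of `y` under the loops of `z` inside of `[l, r]` is finite then `y` is fixed by these loops (both
ends good, `z` deep inside).

PROOF. Constants. `n` = maximum of `n0` (`no_cfg`), scale of `near_sign`, scale `n_su` of `sign_unique` (margin `c_su`);
`R0` from `top_token n`; `m` = `m0(n)` (`no_cfg`) + (number of `lock_near n`) + `c_su + n_su + 2 c0 + R0 + ρ + 1`; `M = m + ρ`, `Lg = 2 c0 + 2 ρ`;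
`C0 = max Cs (2 Λ (R0 + 2 c0 + ρ + M + 1))`; `Y0, Wm` from `no_cfg`; `K = 2 Λ (Y0 + R0 + ρ + 3)`, `W'` from `URaise (Lg + 2) K`.
`W1 = Wm + 3 c0 + R0 + M + Lg + c_su + n_su + ρ`. Given `L1`: `W2c` from `no_cfg`; `Y1 = W1 + L1 + W' + Lg + 3 c0 + 2 ρ + M + 1`, `W2 = W2c + Y1 + R0 + W1 + L1 + W' + c0`.
Given `L2`: `Dp = 2 (W2 + L2) + 4 c0 + 4 M + Y1 + 4 R0 + 4 ρ + 10`.
Let `z, y, l, r` be given. `R a := {q | ∃ k, RIn z l r z k ∧ k z = a ∧ q = k y}` (`z` is at position `0`).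
(0) `PFam c0 z y l r R`. `ne`: `exists_path`. `fin`: if `k0` is a path from `z` to `a` then `R a = k0 '' (R z)` (`RIn.inv`, `RIn.trans`), `R z` is finite by hypothesis.
`eqv`: compose with `h`, `h⁻¹`.
(1) If `a ∈ orb z` has a position in `[l + c0, r - c0]`, `q ∈ R a` and `LockI z l r a q` then `LockI z l r z y`: `q = k y`, `a = k z`, `LockI.map` with `k⁻¹`
(`RIn.inv`). SO IT IS ENOUGH TO FIND ONE TOKEN LOCKED OVER `[l, r]`.
(2) `top_token n` for `Fam z y (l + c0) (r - c0) R`: `v, w`, `w ≤ v + R0`. (T) as in E10 (`GoodOn.lock`): the tops over an interval of good points are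
transported and locked.
(B1) `w > r - Y1`. Then `v ≥ w - R0 > r - W2`, and `v' = min v (r - c0 - R0)` satisfies `v' ≥ r - W2`. `q = top z` (sign `-1`) is locked over `[l + c0 + R0, v']`, so over
`[l + W2, r - W2]`; `GoodL c0 W2 L2` (`β = r - W2`): over `[l, r - W2]`; `GoodR c0 W2 L2` (`α = l`): over `[l, r]`. (1).
(B2) `v < l + Y1`: `w ≤ v + R0 < l + W2`, `q = top z` of sign `1` locked over `[max w (l + c0 + R0), r - c0 - R0] ⊇ [l + W2, r - W2]`: the same.
(B3) `l + Y1 ≤ v` and `w ≤ r - Y1`. `w' = max w (l + c0 + R0)`. Let `a1` be an orbit point at a position in `[r - W1 - c0 - ρ, r - W1 - c0]`, `t1 = top a1` (sign `1`), locked over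
`[w', r - c0 - R0]`, so over `[w', r - W1]`, so over `[w', r]` (`GoodR c0 W1 L1`, `w' ≤ r - W1 - L1`). If `LockI z l r a1 t1`: (1). Otherwise let `e` be the least element of
`[l, w']` with `LockI z e r a1 t1`: `l < e`, `¬ LockI z (e - 1) r a1 t1`.
(E2) `e ≥ l + W2`: otherwise `LockI z (l + W2) r a1 t1`, and `GoodL c0 W2 L2` (`β = r`) gives `LockI z l r a1 t1`. So `w' = w`, `e ≤ w`.
(E3) For a path `h` inside `[e, r]` from `a1` with `e + c0 ≤ pos (h a1) ≤ e + Lg - c0`: `¬ LockI z (e - 1) (e + Lg) (h a1) (h t1)`: otherwise `LockI.glue` (`α = e`, `β = e + Lg`)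
with `LockI z e r (h a1) (h t1)` gives `LockI z (e - 1) r (h a1) (h t1)`, and `LockI.map` with `h⁻¹` a contradiction.
(E4) `v > e + Y0`: as (A3) of E10 with the base point `a1` and the token `t1`: `ae` an orbit point at a position in `[e + c0, e + c0 + ρ]`, `te = he t1`, `URaise` gives a loop `g` of `ae`
in the window `W'` (inside `[l, r]`: `l + W' ≤ e`, `e + Lg + W' ≤ r` as `e ≤ w ≤ r - Y1`) with `K ≤ dh te (g te)`; `aw` an orbit point at a position in `[w + c0, w + c0 + ρ]`, `k` a short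
path from `ae` to `aw` inside `[e, r]`; `top aw = k te` (there is a path inside `[w, r - c0 - R0]` from `a1` to `aw`; `LockI.eq` over `[e, r]`), `k g te ∈ R aw`, so
`K ≤ 2 Λ (w - e + ρ + 1)`, `w - e > Y0 + R0`, `v ≥ w - R0 > e + Y0`.
Let `v1 = min v w`, `a'` an orbit point at a position in `[v1 - M, v1 - m]`, `τ' = top a'` (sign `-1`), locked over `[l + c0 + R0, v1]`, so over `[l + W1, v1]`, so over `[l, v1]` by
`GoodL c0 W1 L1` (`β = v1 > e ≥ l + W2`). `t0' = k t1` for a path `k` inside `[e, r]` from `a1` to `a'`.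
(E5) The new configuration (`new_cfg`, as in E10) over `[l, v1]` with `a', t0', τ', e`: `t_sgn`: for a path `h` inside `[e, v1]` from `a'` to a point `p` at a position in
`[e + m, v1 - m]` the token `h t0'` is locked over the window `m` around `p`, so `Near n σ p (h t0')` for some `σ = ±1` (`lock_near n`); `sign_unique` for `(a1, t1)` on `[e, r]`
(`Near n 1 a1 t1`, `a1 ≤ r - W1 - c0`, `W1 ≥ c_su + n_su`) gives `σ = 1`. `t_end`: (E3). `τ_sgn`, `τ_top`: `h τ' = top p` for positions in `[l + m, v1 - m]` (`m ≥ 2 c0 + R0`).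
`t0' ≠ τ'`: `near_sign`. `gap`: `≤ 2 Λ (R0 + 2 c0 + ρ + M + 1)` as in E10. Contradiction to `no_cfg` (`GoodL c0 W1 L1 z l`, `l + W2c ≤ e`, `e + Y0 < v1`).
-/

namespace Pool.Agent.helper98.NIG

variable {b : Base} {F : Type}

namespace Sys

theorem strip [Fintype F] (A : Sys b F) {N c0 : ℕ} (hN : A.BCN N) (hc : A.BCc c0)
    (hred : A.Reduced) (hur : A.URaise) : ∃ W1 : ℕ, ∀ L1 : ℕ, ∃ W2 : ℕ, ∀ L2 : ℕ, ∃ Dp : ℕ,
      ∀ z ∈ A.D, ∀ y ∈ A.D, ∀ l r : ℤ, A.GoodL c0 W1 L1 z l → A.GoodL c0 W2 L2 z l →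
        A.GoodR c0 W1 L1 z r → A.GoodR c0 W2 L2 z r → l + Dp ≤ 0 → Dp ≤ r →
        {t : Pt b F | ∃ h, A.RIn z l r z h ∧ h z = z ∧ t = h y}.Finite → A.LockI z l r z y :=
  strip' A hN hc hred hur

end Sys

end Pool.Agent.helper98.NIG
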