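import Pool.Agent.helper98.NIG.E07
import Pool.Agent.helper98.NIG.E09
import Pool.Agent.helper98.NIG.E11
import Pool.Agent.helper35.NIG.Q03

/-!
# NIG-E12: FREE2

PROOFS.
* `good_mono`: `GoodL c0 W L z l` implies `GoodL c0 W L' z l` for `L ≤ L'` (and `GoodR`): clear.
* `loops_fg`: let `I = Set.Icc (l - pos z z) (r - pos z z)`, `l ≤ 0 ≤ r`. For every point `p` of the component of `z` in `[l, r]` (finitely many points: positions
  in `[l, r]` and finitely many floors) choose `w_p` with `RIn z l r z w_p`, `w_p z = p`, `w_z = 1`. Let `T` be the finite set of the elements `(w_(s p))⁻¹ s w_p`, `s ∈ S`, `p` and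
  `s p` in the component. For every path `h` (`RIn z l r z h`): `h ∈ w_(h z) * closure T` (induction on `Reach`: `s * h = s w_p k = w_(s p) ((w_(s p))⁻¹ s w_p) k`, `p = h z`).
  For a loop `h`: `h ∈ closure T`. All elements of `T` are loops, so in `A.G` and fix `z`; they lie in `W M` for some `M` (`exists_W`, finitely many), so
  `closure T ≤ Stb M {z}`.
* `unb_of_infinite`: let `H = Stb M {z}`; the set `S' = {g | g ∈ W M ∧ g z = z}` is finite (`W_finite`), contains `1`, is closed under inverses (`W_inv`), consists of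
  piecewise shifts of radius `ρ M` (`W_isPW` or `G_le_PW` and finiteness): a `Gen b F` with group `H`. `Gen.big_imp_infinite`: `R1`. If `{g y | g ∈ H}` is infinite then some
  `g ∈ H` has `R1 ≤ |disp g y|` (otherwise the points `g y` are among the finitely many points `(sh k y.1, φ)`, `|k| < R1`), so `Unb H y`.
* `free2`: `c0` from `A.BC`, `w = ρ + 1` (`exists_SYN`), `N` from `exists_BCN`, `uraise` with `raise`. `strip`: `W1`. `good_endsL W1`, `good_endsR W1`: `L1` = maximum. `W2` from `strip`.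
  `good_endsL`, `good_endsR` with `W2`: `L2` = maximum, `C`. `Dp`. Let `z, y ∈ D`, `¬ Rel z y`. By `rel_of_le` (helper2/NIG/L25) there is `g0 ∈ G` with `g0 z = z`, `g0 y ≠ y`;
  it is reached from `z` in `Icc (-C0) C0` (`exists_reach_bounded`). Choose `l ≤ -(Dp + C0)` (`m = -(Dp + C0) - C`) and `r ≥ Dp + C0` good. `LockI z l r z y` fails (`g0`), so by `strip` the orbit of
  `y` under the loops of `z` inside `[l, r]` is infinite. `loops_fg`, `unb_of_infinite`: `Unb (Stb M {z}) y`. `free2_of_fr` (helper35/NIG/Q03).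
-/

namespace Pool.Agent.helper98.NIG

variable {b : Base} {F : Type}

namespace Sys

theorem good_monoL {A : Sys b F} {c0 W L L' : ℕ} (hL : L ≤ L') {z : Pt b F} {l : ℤ}
    (h : A.GoodL c0 W L z l) : A.GoodL c0 W L' z l := by
  have hL' : (L : ℤ) ≤ L' := by exact_mod_cast hL
  intro a ha t ht β h1 h2 h3 h4
  exact h a ha t ht β (by linarith) h2 h3 h4

theorem good_monoR {A : Sys b F} {c0 W L L' : ℕ} (hL : L ≤ L') {z : Pt b F} {r : ℤ}
    (h : A.GoodR c0 W L z r) : A.GoodR c0 W L' z r := by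
  have hL' : (L : ℤ) ≤ L' := by exact_mod_cast hL
  intro a ha t ht α h1 h2 h3 h4
  exact h a ha t ht α (by linarith) h2 h3 h4

theorem loops_fg [Finite F] (A : Sys b F) {z : Pt b F} {l r : ℤ} (hl : l ≤ 0) (hr : 0 ≤ r) :
    ∃ M : ℕ, ∀ h, A.RIn z l r z h → h z = z → h ∈ A.Stb M {z} := by
  classical
  have h0 : (0 : ℤ) ∈ Set.Icc (l - pos z z) (r - pos z z) := by
    rw [pos_self]
    exact ⟨by linarith, by linarith⟩
  -- the points of the component
  obtain ⟨P, hP⟩ : ∃ P : Set (Pt b F), ∀ p, p ∈ P ↔ ∃ w, A.RIn z l r z w ∧ w z = p :=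
    ⟨{p | ∃ w, A.RIn z l r z w ∧ w z = p}, fun _ => Iff.rfl⟩
  have hPfin : P.Finite := by
    refine (Set.Finite.image (fun q : ℤ × F => ((sh q.1 z.1, q.2) : Pt b F))
      ((Set.finite_Icc (l - pos z z) (r - pos z z)).prod Set.finite_univ)).subset ?_
    intro p hp
    obtain ⟨w, hw, rfl⟩ := (hP p).1 hp
    refine ⟨(disp w z, (w z).2), ⟨Reach.disp_mem h0 hw, trivial⟩, ?_⟩
    exact (eq_of_pos (sameLine_of_mem_PW (A.G_le_PW hw.mem_G) z)).symm
  have hex : ∀ p : Pt b F, ∃ w : Equiv.Perm (Pt b F), p ∈ P → A.RIn z l r z w ∧ w z = p := by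
    intro p
    by_cases hp : p ∈ P
    · obtain ⟨w, hw⟩ := (hP p).1 hp
      exact ⟨w, fun _ => hw⟩
    · exact ⟨1, fun h => absurd h hp⟩
  choose w hw using hex
  have hzP : z ∈ P := (hP z).2 ⟨1, Reach.one, rfl⟩
  -- the generators
  obtain ⟨T, hTfin, hT1, hT2, hT3⟩ : ∃ T : Set (Equiv.Perm (Pt b F)), T.Finite ∧
      (∀ t ∈ T, t ∈ A.G ∧ t z = z) ∧ w z ∈ T ∧
      ∀ s ∈ A.S, ∀ p ∈ P, s p ∈ P → (w (s p))⁻¹ * s * w p ∈ T := by
    refine ⟨insert (w z) ((fun q : Equiv.Perm (Pt b F) × Pt b F =>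
      (w (q.1 q.2))⁻¹ * q.1 * w q.2) '' {q | q.1 ∈ A.S ∧ q.2 ∈ P ∧ q.1 q.2 ∈ P}), ?_, ?_, ?_, ?_⟩
    · refine Set.Finite.insert _ (Set.Finite.image _ ?_)
      exact (A.S.finite_toSet.prod hPfin).subset fun q hq => ⟨hq.1, hq.2.1⟩
    · rintro t (rfl | ⟨⟨s, p⟩, ⟨hs, hp, hsp⟩, rfl⟩)
      · exact ⟨(hw z hzP).1.mem_G, (hw z hzP).2⟩
      · refine ⟨mul_mem (mul_mem (A.G.inv_mem (hw _ hsp).1.mem_G) (A.mem_G_of_mem_S hs))
          (hw p hp).1.mem_G, ?_⟩
        show (w (s p))⁻¹ (s (w p z)) = z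
        rw [(hw p hp).2, Equiv.Perm.inv_eq_iff_eq]
        exact (hw _ hsp).2.symm
    · exact Set.mem_insert _ _
    · intro s hs p hp hsp
      exact Set.mem_insert_of_mem _ ⟨(s, p), ⟨hs, hp, hsp⟩, rfl⟩
  have hM0 : ∀ t : Equiv.Perm (Pt b F), ∃ n : ℕ, t ∈ T → t ∈ A.W n := by
    intro t
    by_cases ht : t ∈ T
    · obtain ⟨n, hn⟩ := A.exists_W (hT1 t ht).1
      exact ⟨n, fun _ => hn⟩
    · exact ⟨0, fun h => absurd h ht⟩
  choose f hf using hM0
  have hM : ∀ t ∈ T, t ∈ A.W (hTfin.toFinset.sup f) := fun t ht =>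
    A.W_mono (Finset.le_sup (hTfin.mem_toFinset.2 ht)) (hf t ht)
  have hle : Subgroup.closure T ≤ A.Stb (hTfin.toFinset.sup f) {z} := by
    refine Subgroup.closure_mono fun t ht => ⟨hM t ht, fun x hx => ?_⟩
    rw [Set.mem_singleton_iff.1 hx]
    exact (hT1 t ht).2
  have key : ∀ h, A.Reach z (Set.Icc (l - pos z z) (r - pos z z)) h →
      (w (h z))⁻¹ * h ∈ Subgroup.closure T := by
    intro h hh
    induction hh with
    | one =>
      rw [mul_one]
      exact Subgroup.inv_mem _ (Subgroup.subset_closure hT2)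
    | @step g s hg hs hp ih =>
      have h1 : g z ∈ P := (hP _).2 ⟨g, hg, rfl⟩
      have h2 : s (g z) ∈ P := (hP _).2 ⟨s * g, Reach.step hg hs hp, rfl⟩
      have h3 : (w ((s * g) z))⁻¹ * (s * g) =
          ((w (s (g z)))⁻¹ * s * w (g z)) * ((w (g z))⁻¹ * g) := by
        rw [Equiv.Perm.mul_apply]
        group
      rw [h3]
      exact mul_mem (Subgroup.subset_closure (hT3 s hs _ h1 h2)) ih
  refine ⟨hTfin.toFinset.sup f, fun h hh hfix => hle ?_⟩
  have h1 := key h hh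
  rw [hfix] at h1
  have h2 := mul_mem (Subgroup.subset_closure hT2) h1
  rwa [mul_inv_cancel_left] at h2

theorem unb_of_infinite [Finite F] (A : Sys b F) (M : ℕ) (z y : Pt b F)
    (h : {t : Pt b F | ∃ g ∈ A.Stb M {z}, t = g y}.Infinite) : Unb (A.Stb M {z}) y := by
  have hfin : {g | g ∈ A.W M ∧ ∀ x ∈ ({z} : Set (Pt b F)), g x = x}.Finite :=
    (A.W_finite M).subset fun g hg => hg.1
  let B : Gen b F :=
    { S := hfin.toFinset
      ρ := A.ρ * M
      pw := by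
        intro s hs
        have h1 : s ∈ A.W M := ((hfin.mem_toFinset).1 hs).1
        exact ⟨A.W_isPW h1, A.W_isPW (A.W_inv h1)⟩
      one_mem := (hfin.mem_toFinset).2 ⟨A.W_mono (Nat.zero_le M) rfl, fun _ _ => rfl⟩
      inv_mem := by
        intro s hs
        obtain ⟨h1, h2⟩ := (hfin.mem_toFinset).1 hs
        refine (hfin.mem_toFinset).2 ⟨A.W_inv h1, fun x hx => ?_⟩
        rw [Equiv.Perm.inv_eq_iff_eq]
        exact (h2 x hx).symm }
  have hG : B.G = A.Stb M {z} := by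
    show Subgroup.closure (hfin.toFinset : Set (Equiv.Perm (Pt b F))) = _
    rw [hfin.coe_toFinset]
    rfl
  obtain ⟨R1, -, hR⟩ := B.big_imp_infinite
  obtain ⟨g, hg, hg1⟩ : ∃ g ∈ A.Stb M {z}, (R1 : ℤ) ≤ |disp g y| := by
    by_contra hcon
    push Not at hcon
    refine h ((Set.Finite.image (fun q : ℤ × F => ((sh q.1 y.1, q.2) : Pt b F))
      ((Set.finite_Icc (-(R1 : ℤ)) R1).prod Set.finite_univ)).subset ?_)
    rintro _ ⟨g, hg, rfl⟩
    have h1 := abs_lt.1 (hcon g hg)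
    have hgG : g ∈ A.G := (A.Stb_le_Fix M _ hg).1
    refine ⟨(disp g y, (g y).2), ⟨⟨h1.1.le, h1.2.le⟩, trivial⟩, ?_⟩
    exact (eq_of_pos (sameLine_of_mem_PW (A.G_le_PW hgG) y)).symm
  rw [← hG] at hg ⊢
  exact hR y g hg hg1

theorem free2 [Fintype F] (A : Sys b F) (hred : A.Reduced) : A.FREE2 := by
  obtain ⟨c0, hc⟩ := A.BC
  have hw : A.SYN (A.ρ + 1) := exists_SYN A
  obtain ⟨N, hN⟩ := A.exists_BCN
  have hur : A.URaise := uraise A hN (raise A hN hc hw hred)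
  obtain ⟨W1, h1⟩ := strip A hN hc hred hur
  obtain ⟨La, hLa⟩ := good_endsL A hc hw hred W1
  obtain ⟨Lb, hLb⟩ := good_endsR A hc hw hred W1
  obtain ⟨W2, h2⟩ := h1 (max La Lb)
  obtain ⟨La', Ca, hLa'⟩ := hLa W2
  obtain ⟨Lb', Cb, hLb'⟩ := hLb W2
  obtain ⟨Dp, h3⟩ := h2 (max La' Lb')
  refine free2_of_fr fun z hz y hy hrel => ?_
  obtain ⟨g0, hg0, hg0z, hg0y⟩ : ∃ g ∈ A.G, g z = z ∧ g y ≠ y := by
    by_contra hcon
    push Not at hcon
    exact hrel (rel_of_le hred hc hw hz hy hcon)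
  obtain ⟨C0, hC0⟩ := A.exists_reach_bounded hg0
  obtain ⟨l, hl1, hl2, hl3, hl4⟩ := hLa' z hz (-(Dp + |C0|) - Ca)
  obtain ⟨r, hr1, hr2, hr3, hr4⟩ := hLb' z hz (Dp + |C0|)
  have hC1 := abs_nonneg C0
  have hC2 := le_abs_self C0
  have hDp : (0 : ℤ) ≤ Dp := Int.natCast_nonneg _
  have hinf : {t : Pt b F | ∃ h, A.RIn z l r z h ∧ h z = z ∧ t = h y}.Infinite := by
    intro hfin
    have h4 := h3 z hz y hy l r (good_monoL (le_max_left _ _) hl3)
      (good_monoL (le_max_left _ _) hl4) (good_monoR (le_max_right _ _) hr3)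
      (good_monoR (le_max_right _ _) hr4) (by linarith) (by linarith) hfin
    refine hg0y (h4 g0 ?_ hg0z)
    refine Reach.mono (Set.Icc_subset_Icc ?_ ?_) (hC0 z)
    · rw [pos_self]
      linarith
    · rw [pos_self]
      linarith
  obtain ⟨M, hM⟩ := A.loops_fg (z := z) (l := l) (r := r) (by linarith) (by linarith)
  refine ⟨M, A.unb_of_infinite M z y (hinf.mono ?_)⟩
  rintro _ ⟨h, hh1, hh2, rfl⟩
  exact ⟨h, hM h hh1 hh2, rfl⟩

end Sys

end Pool.Agent.helper98.NIG
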