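import Pool.Agent.helper35.NIG.V09
import Pool.Agent.helper98.NIG.E12

/-!
# NIG: reduced systems have exponential growth
-/

namespace Pool.Agent.helper98.NIG

/-- The group of a reduced system has exponential growth. -/
theorem Sys.exp_of_red {b : Base} {F : Type} [Fintype F] (A : Sys b F) (hA : A.Reduced) :
    ExpGrowth A.G :=
  Sys.exp_reduced (fun A hA => A.free2 hA) A hA

end Pool.Agent.helper98.NIG
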