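import Pool.Agent.helper98.NIG.C01

/-!
# NIG-C06: closed invariant sets are clopen; minimal components

PROOFS.  `P : PSys b F`, `[Finite F]`.
`Cl P E`: `E ⊆ P.D`, invariant under `P.G`, closed (every point all of whose windows are windows of
points of `E` is in `E`).
For `y : b.Hull` let `e y` = the number of orbits on the line of `y` which are contained in `E` (a
subset of the finite set `P.lineOrb y`).
* `e_const`: `e y ≤ e y'` for all `y y'`. For every `n : ℕ` choose by `linear_rec` a `t n` with `sh (t n) y`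
  agreeing with `y'` on the window `n`. Let `O_1, ..., O_m` be the `E`-orbits on the line of `y`. By
  `PSys.hit` each has a point at a position in `[t n, t n + ρ]`: `(sh k (sh (t n) y), φ)` with
  `0 ≤ k ≤ ρ`; let `c n : Fin m → ℤ × F` be the coordinates `(k, φ)`; finitely many values, so constant `= c` along
  an ultrafilter on `ℕ` (`Filter.hyperfilter ℕ`). The points `(sh k y', φ)`, `(k, φ) = c i`, are in `E`
  by closedness (their windows are windows of points of `E`), and they are pairwise in different orbits by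
  `same_iff_of_agree` at `y'` (window `ρ`) and `same_shift`. So `m ≤ e y'`.
* `clopen_of_closed`: suppose that for every `n` there are `x n ∈ E`, `x' n ∉ E` with
  `Agree n (x n) (x' n)`. Take limits along an ultrafilter: `x n → x`, then also `x' n → x`; `x ∈ E`
  (closed); `x' n ∈ P.D` eventually (`clopen`). Let `m` be the constant value of `e`. The `m`
  `E`-orbits on the line of `x' n` have points with coordinates `c n i`, `0 ≤ k ≤ ρ`, relative to
  `(x' n).1`, constant along the ultrafilter; their limits `(sh k x.1, φ)` are in `E`, pairwise in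
  different orbits and in different orbits than `x` (since `x' n`, at coordinates `(0, φ0)`, is not in
  an `E`-orbit): `m + 1` different `E`-orbits on the line of `x`, contradiction.
* `cmp x` = closure of the orbit of `x` = `{z | ∀ N, ∃ g ∈ P.G, Agree N (g x) z}`. For `x ∈ P.D` it is
  contained in `P.D`, closed and invariant (`agree_map`). `cmp_eq`: if `z ∈ cmp x` then `cmp z ⊆ cmp x`
  (closed, invariant), and with the radius `N` of the clopen set `cmp z` there is `g` with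
  `Agree N (g x) z`, so `g x ∈ cmp z`, `x ∈ cmp z`, `cmp x ⊆ cmp z`.
* `cmp_uniform`: there is `N` with `cmp x = cmp x'` for all `x, x' ∈ P.D` with `Agree N x x'`: otherwise take
  `x n, x' n → x`; `cmp x` is clopen, so `x n, x' n ∈ cmp x` eventually, `cmp (x n) = cmp x = cmp (x' n)`.
* `cmp_finite`: so `{cmp x | x ∈ P.D}` is finite (finitely many patterns of radius `N`, finite `F`).
-/

namespace Pool.Agent.helper98.NIG

variable {b : Base} {F : Type}

namespace PSys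

variable (P : PSys b F)

/-- closed invariant subsets of `P.D` -/
structure Cl (E : Set (Pt b F)) : Prop where
  sub : E ⊆ P.D
  inv : ∀ g ∈ P.G, ∀ x ∈ E, g x ∈ E
  closed : ∀ x : Pt b F, (∀ N : ℕ, ∃ x' ∈ E, Agree N x' x) → x ∈ E

/-- the `E`-orbits on the line of `y` -/
private def C06_eO (E : Set (Pt b F)) (y : b.Hull) : Set (Set (Pt b F)) :=
  {O | ∃ (k : ℤ) (φ : F), ((sh k y, φ) : Pt b F) ∈ E ∧ O = P.orb (sh k y, φ)}

private theorem C06_eO_finite [Finite F] {E : Set (Pt b F)} (hE : P.Cl E) (y : b.Hull) :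
    (C06_eO P E y).Finite := by
  refine (P.lineOrb_finite y).subset ?_
  rintro O ⟨k, φ, h, rfl⟩
  exact ⟨k, φ, hE.sub h, rfl⟩

private theorem C06_eO_sh (E : Set (Pt b F)) (y : b.Hull) (n : ℤ) :
    C06_eO P E (sh n y) = C06_eO P E y := by
  ext O
  constructor
  · rintro ⟨k, φ, h, rfl⟩
    rw [sh_sh] at h ⊢
    exact ⟨k + n, φ, h, rfl⟩
  · rintro ⟨k, φ, h, rfl⟩
    refine ⟨k - n, φ, ?_⟩
    rw [sh_sh, sub_add_cancel]
    exact ⟨h, rfl⟩

private theorem C06_mem_of_orb_eq {E : Set (Pt b F)} (hE : P.Cl E) {x a : Pt b F} (hx : x ∈ E)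
    (h : P.orb x = P.orb a) : a ∈ E := by
  obtain ⟨g, hg, rfl⟩ := (P.orb_eq_iff (x := x) (a := a)).2 h.symm
  exact hE.inv g hg x hx

/-- coordinates of the `E`-orbits of a line -/
private theorem C06_rep [Finite F] {E : Set (Pt b F)} (hE : P.Cl E) (y : b.Hull) {m : ℕ}
    (hm : (C06_eO P E y).ncard = m) : ∃ c : Fin m → ℤ × F, (∀ i, |(c i).1| ≤ P.ρ) ∧
      (∀ i, ((sh (c i).1 y, (c i).2) : Pt b F) ∈ E) ∧
      Function.Injective fun i => P.orb (sh (c i).1 y, (c i).2) := by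
  have h1 : ∀ O : C06_eO P E y, ∃ t : ℤ × F, |t.1| ≤ P.ρ ∧ ((sh t.1 y, t.2) : Pt b F) ∈ E ∧
      O.1 = P.orb (sh t.1 y, t.2) := by
    rintro ⟨O, k, φ, hk, rfl⟩
    obtain ⟨k1, φ1, h0, h1, -, e⟩ := P.C01_rep (hE.sub hk)
    exact ⟨(k1, φ1), by rwa [abs_of_nonneg h0], C06_mem_of_orb_eq P hE hk e, e⟩
  choose r hr using h1
  have hfin : Finite (C06_eO P E y) := C06_eO_finite P hE y
  have hcard : Nat.card (C06_eO P E y) = m := by
    rw [← hm]
    rfl
  let q : C06_eO P E y ≃ Fin m := Finite.equivFinOfCardEq hcard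
  refine ⟨fun i => r (q.symm i), fun i => (hr _).1, fun i => (hr _).2.1, fun i j hij => ?_⟩
  have h2 : (q.symm i).1 = (q.symm j).1 := by
    rw [(hr (q.symm i)).2.2, (hr (q.symm j)).2.2]
    exact hij
  exact q.symm.injective (Subtype.ext h2)

private theorem C06_le [Finite F] {E : Set (Pt b F)} (hE : P.Cl E) (y : b.Hull) {ι : Type}
    [Finite ι] (c : ι → ℤ × F) (hc : ∀ i, ((sh (c i).1 y, (c i).2) : Pt b F) ∈ E)
    (hi : Function.Injective fun i => P.orb (sh (c i).1 y, (c i).2)) :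
    Nat.card ι ≤ (C06_eO P E y).ncard := by
  have hfin : Finite (C06_eO P E y) := C06_eO_finite P hE y
  refine Nat.card_le_card_of_injective
    (fun i => (⟨P.orb (sh (c i).1 y, (c i).2), ⟨_, _, hc i, rfl⟩⟩ : C06_eO P E y)) ?_
  intro i j hij
  exact hi (congrArg Subtype.val hij)

/-- limits of the coordinates along an ultrafilter -/
private theorem C06_lim [Finite F] (U : Ultrafilter ℕ) (u : ℕ → b.Hull) (y : b.Hull)
    (hu : ∀ N : ℕ, ∀ᶠ n in (U : Filter ℕ), AgreeH N y (u n)) {ι : Type} [Finite ι]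
    (c : ℕ → ι → ℤ × F) (hc : ∀ᶠ n in (U : Filter ℕ), (∀ i, |(c n i).1| ≤ P.ρ) ∧
      (∀ i, ((sh (c n i).1 (u n), (c n i).2) : Pt b F) ∈ P.D) ∧
      Function.Injective fun i => P.orb (sh (c n i).1 (u n), (c n i).2)) :
    ∃ d : ι → ℤ × F, (∀ᶠ n in (U : Filter ℕ), c n = d) ∧
      Function.Injective fun i => P.orb (sh (d i).1 y, (d i).2) := by
  -- a constant value
  have hs : {d : ι → ℤ × F | ∀ i, |(d i).1| ≤ P.ρ}.Finite := by
    have h1 : {d : ι → ℤ × F | ∀ i, d i ∈ Set.Icc (-(P.ρ : ℤ)) P.ρ ×ˢ (Set.univ : Set F)}.Finite :=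
      Set.Finite.pi' fun _ => (Set.finite_Icc _ _).prod Set.finite_univ
    refine h1.subset ?_
    intro d hd i
    exact ⟨abs_le.1 (hd i), trivial⟩
  obtain ⟨d, hd, hcd⟩ := (Ultrafilter.eventually_exists_mem_iff (f := U)
    (P := fun (d : ι → ℤ × F) (n : ℕ) => c n = d) hs).1
    (hc.mono fun n hn => ⟨c n, hn.1, rfl⟩)
  refine ⟨d, hcd, ?_⟩
  obtain ⟨N, hN⟩ := P.same_of_agree y P.ρ
  obtain ⟨n, ⟨hn1, hn2⟩, hn3, hn4, hn5⟩ := (((hu (max N (2 * P.ρ))).and hcd).and hc).exists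
  subst hn2
  have hmem : ∀ i, ((sh (c n i).1 y, (c n i).2) : Pt b F) ∈ P.D := by
    intro i
    refine (P.clopen _ _ (C01_agree hn1 (M := P.ρ) (c n i).1 (c n i).2 ?_)).2 (hn4 i)
    have h1 := hn3 i
    have h2 : ((2 * P.ρ : ℕ) : ℤ) ≤ ((max N (2 * P.ρ) : ℕ) : ℤ) := by
      exact_mod_cast le_max_right _ _
    push_cast at h2 ⊢
    linarith
  intro i j hij
  apply hn5
  have h1 : P.Same y (c n j).1 (c n j).2 (c n i).1 (c n i).2 := (P.C01_same_iff (hmem j)).2 hij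
  have h2 := hN (u n) (fun k hk => hn1 k (hk.trans (by exact_mod_cast le_max_left _ _)))
    _ _ _ _ (hn3 j) (hn3 i) h1
  exact (P.C01_same_iff (hn4 j)).1 h2

private theorem C06_mem_lim {E : Set (Pt b F)} (hE : P.Cl E) (U : Ultrafilter ℕ)
    (u : ℕ → b.Hull) (y : b.Hull)
    (hu : ∀ N : ℕ, ∀ᶠ n in (U : Filter ℕ), AgreeH N y (u n)) (k : ℤ) (φ : F)
    (h : ∀ᶠ n in (U : Filter ℕ), ((sh k (u n), φ) : Pt b F) ∈ E) :
    ((sh k y, φ) : Pt b F) ∈ E := by
  apply hE.closed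
  intro N
  obtain ⟨n, hn, hn'⟩ := ((hu (k.natAbs + N)).and h).exists
  refine ⟨_, hn', ?_⟩
  refine (C01_agree hn k φ ?_).symm
  push_cast
  exact le_rfl

private theorem C06_e_le [Finite F] {E : Set (Pt b F)} (hE : P.Cl E) (y y' : b.Hull) :
    (C06_eO P E y).ncard ≤ (C06_eO P E y').ncard := by
  obtain ⟨C, -, hC⟩ := linear_rec b
  choose t _ _ ht using fun n : ℕ => hC y y' n 0
  set m := (C06_eO P E y).ncard with hm
  choose c hc1 hc2 hc3 using fun n : ℕ => C06_rep P hE (sh (t n) y) (m := m)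
    (by rw [C06_eO_sh])
  let U : Ultrafilter ℕ := Filter.hyperfilter ℕ
  have hu : ∀ N : ℕ, ∀ᶠ n in (U : Filter ℕ), AgreeH N y' (sh (t n) y) := by
    intro N
    have h1 : ∀ᶠ n in Filter.atTop, N ≤ n := Filter.eventually_ge_atTop N
    have h2 : ∀ᶠ n in (U : Filter ℕ), N ≤ n :=
      h1.filter_mono (by rw [← Nat.cofinite_eq_atTop]; exact Filter.hyperfilter_le_cofinite)
    refine h2.mono fun n hn k hk => (ht n k (hk.trans (by exact_mod_cast hn))).symm
  obtain ⟨d, hd, hinj⟩ := C06_lim P U (fun n => sh (t n) y) y' hu c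
    (Filter.Eventually.of_forall fun n => ⟨hc1 n, fun i => hE.sub (hc2 n i), hc3 n⟩)
  have h1 := C06_le P hE y' d (fun i => C06_mem_lim P hE U (fun n => sh (t n) y) y' hu _ _
    (hd.mono fun n hn => by rw [← hn]; exact hc2 n i)) hinj
  rwa [Nat.card_fin] at h1

theorem clopen_of_closed [Finite F] {E : Set (Pt b F)} (hE : P.Cl E) :
    ∃ N : ℕ, ∀ x x' : Pt b F, Agree N x x' → (x ∈ E ↔ x' ∈ E) := by
  by_contra hcon
  push Not at hcon
  have h1 : ∀ n : ℕ, ∃ x x' : Pt b F, Agree n x x' ∧ x ∈ E ∧ x' ∉ E := by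
    intro n
    obtain ⟨x, x', ha, h⟩ := hcon n
    rcases h with ⟨h, h'⟩ | ⟨h, h'⟩
    · exact ⟨x, x', ha, h, h'⟩
    · exact ⟨x', x, ha.symm, h', h⟩
  choose u u' ha hu hu' using h1
  let U : Ultrafilter ℕ := Filter.hyperfilter ℕ
  obtain ⟨x, hx⟩ := exists_ulim U u
  have hge : ∀ N : ℕ, ∀ᶠ n in (U : Filter ℕ), N ≤ n := fun N =>
    (Filter.eventually_ge_atTop N).filter_mono
      (by rw [← Nat.cofinite_eq_atTop]; exact Filter.hyperfilter_le_cofinite)
  have hx' : ∀ N : ℕ, ∀ᶠ n in (U : Filter ℕ), Agree N (u' n) x := fun N =>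
    ((hx N).and (hge N)).mono fun n hn => ((ha n).mono hn.2).symm.trans hn.1
  have hxE : x ∈ E := by
    apply hE.closed
    intro N
    obtain ⟨n, hn⟩ := (hx N).exists
    exact ⟨_, hu n, hn⟩
  have hD : ∀ᶠ n in (U : Filter ℕ), u' n ∈ P.D :=
    (hx' P.ρ).mono fun n hn => (P.clopen _ _ hn).2 (hE.sub hxE)
  set m := (C06_eO P E x.1).ncard with hm
  have hmn : ∀ n, (C06_eO P E (u' n).1).ncard = m := fun n =>
    le_antisymm (C06_e_le P hE _ _) (C06_e_le P hE _ _)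
  choose c hc1 hc2 hc3 using fun n : ℕ => C06_rep P hE (u' n).1 (m := m) (hmn n)
  have hu2 : ∀ N : ℕ, ∀ᶠ n in (U : Filter ℕ), AgreeH N x.1 (u' n).1 := fun N =>
    (hx' N).mono fun n hn k hk => (hn.2 k hk).symm
  let c' : ℕ → Option (Fin m) → ℤ × F := fun n i => i.elim (0, (u' n).2) (c n)
  have key : ∀ᶠ n in (U : Filter ℕ), (∀ i, |(c' n i).1| ≤ P.ρ) ∧
      (∀ i, ((sh (c' n i).1 (u' n).1, (c' n i).2) : Pt b F) ∈ P.D) ∧
      Function.Injective fun i => P.orb (sh (c' n i).1 (u' n).1, (c' n i).2) := by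
    refine hD.mono fun n hn => ⟨?_, ?_, ?_⟩
    · rintro (_ | i)
      · simp [c']
      · exact hc1 n i
    · rintro (_ | i)
      · change ((sh 0 (u' n).1, (u' n).2) : Pt b F) ∈ P.D
        rw [sh_zero]
        exact hn
      · exact hE.sub (hc2 n i)
    · have hno : ∀ i : Fin m, P.orb (sh (c n i).1 (u' n).1, (c n i).2) ≠
          P.orb (sh 0 (u' n).1, (u' n).2) := by
        intro i hi
        have h2 := C06_mem_of_orb_eq P hE (hc2 n i) hi
        rw [sh_zero] at h2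
        exact hu' n h2
      rintro (_ | i) (_ | j) hij
      · rfl
      · exact absurd hij.symm (hno j)
      · exact absurd hij (hno i)
      · exact congrArg some (hc3 n hij)
  obtain ⟨d, hd, hinj⟩ := C06_lim P U (fun n => (u' n).1) x.1 hu2 c' key
  have hdE : ∀ i, ((sh (d i).1 x.1, (d i).2) : Pt b F) ∈ E := by
    rintro (_ | i)
    · obtain ⟨n, hn, hn'⟩ := (hd.and (hx' 0)).exists
      rw [← hn]
      change ((sh 0 x.1, (u' n).2) : Pt b F) ∈ E
      rw [sh_zero, hn'.1]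
      exact hxE
    · exact C06_mem_lim P hE U (fun n => (u' n).1) x.1 hu2 _ _
        (hd.mono fun n hn => by rw [← hn]; exact hc2 n i)
  have h2 := C06_le P hE x.1 d hdE hinj
  rw [← hm, Finite.card_option, Nat.card_fin] at h2
  omega

/-- the orbit closure -/
def cmp (x : Pt b F) : Set (Pt b F) := {z | ∀ N : ℕ, ∃ g ∈ P.G, Agree N (g x) z}

theorem cmp_cl {x : Pt b F} (hx : x ∈ P.D) : P.Cl (P.cmp x) := by
  refine ⟨fun z hz => ?_, fun g hg z hz N => ?_, fun z hz N => ?_⟩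
  · obtain ⟨g, hg, h⟩ := hz P.ρ
    exact (P.clopen _ _ h).1 (P.map_mem hg hx)
  · obtain ⟨r, hr, -⟩ := P.G_le_PW hg
    obtain ⟨h, hh, h1⟩ := hz (r + N)
    exact ⟨g * h, mul_mem hg hh, agree_map hr h1⟩
  · obtain ⟨x', hx', h1⟩ := hz N
    obtain ⟨g, hg, h2⟩ := hx' N
    exact ⟨g, hg, h2.trans h1⟩

theorem self_mem_cmp (x : Pt b F) : x ∈ P.cmp x :=
  fun N => ⟨1, Subgroup.one_mem _, Agree.refl N x⟩

theorem C06b_sub {x z : Pt b F} (hx : x ∈ P.D) (hz : z ∈ P.cmp x) : P.cmp z ⊆ P.cmp x := by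
  intro w hw
  refine (P.cmp_cl hx).closed w fun N => ?_
  obtain ⟨g, hg, h⟩ := hw N
  exact ⟨g z, (P.cmp_cl hx).inv g hg z hz, h⟩

theorem cmp_eq [Finite F] {x z : Pt b F} (hx : x ∈ P.D) (hz : z ∈ P.cmp x) :
    P.cmp z = P.cmp x := by
  have hzD : z ∈ P.D := (P.cmp_cl hx).sub hz
  refine Set.Subset.antisymm (P.C06b_sub hx hz) (P.C06b_sub hzD ?_)
  obtain ⟨N, hN⟩ := P.clopen_of_closed (P.cmp_cl hzD)
  obtain ⟨g, hg, h⟩ := hz N
  have h1 : g x ∈ P.cmp z := (hN _ _ h).2 (P.self_mem_cmp z)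
  have h2 := (P.cmp_cl hzD).inv g⁻¹ (Subgroup.inv_mem _ hg) (g x) h1
  rwa [C01_inv_apply] at h2

theorem cmp_uniform [Finite F] : ∃ N : ℕ, ∀ x ∈ P.D, ∀ x' ∈ P.D, Agree N x x' →
    P.cmp x = P.cmp x' := by
  by_contra hcon
  push Not at hcon
  choose u hu u' hu' hag hne using hcon
  obtain ⟨x, hx⟩ := exists_ulim (Filter.hyperfilter ℕ) u
  have hx' : ∀ N : ℕ, ∀ᶠ i in (Filter.hyperfilter ℕ : Filter ℕ), Agree N (u' i) x := by
    intro N
    have h1 : ∀ᶠ i in (Filter.hyperfilter ℕ : Filter ℕ), N ≤ i := by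
      have h2 : ∀ᶠ i in (Filter.atTop : Filter ℕ), N ≤ i := Filter.eventually_ge_atTop N
      rw [← Nat.cofinite_eq_atTop] at h2
      exact h2.filter_mono Filter.hyperfilter_le_cofinite
    filter_upwards [h1, hx N] with i hi h3
    exact ((hag i).symm.mono hi).trans h3
  have hxD : x ∈ P.D := by
    obtain ⟨i, hi⟩ := (hx P.ρ).exists
    exact (P.clopen _ _ hi).1 (hu i)
  obtain ⟨N, hN⟩ := P.clopen_of_closed (P.cmp_cl hxD)
  obtain ⟨i, hi, hi'⟩ := ((hx N).and (hx' N)).exists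
  have h1 : u i ∈ P.cmp x := (hN _ _ hi).2 (P.self_mem_cmp x)
  have h2 : u' i ∈ P.cmp x := (hN _ _ hi').2 (P.self_mem_cmp x)
  exact hne i ((P.cmp_eq hxD h1).trans (P.cmp_eq hxD h2).symm)

theorem cmp_finite [Finite F] : {E | ∃ x ∈ P.D, E = P.cmp x}.Finite := by
  classical
  obtain ⟨N, hN⟩ := P.cmp_uniform
  refine (Set.finite_range (fun q : (Set.Icc (-(N : ℤ)) N → Bool) × F =>
    if h : ∃ x ∈ P.D, ((fun k : Set.Icc (-(N : ℤ)) N => x.1.1 k.1), x.2) = q
    then P.cmp h.choose else ∅)).subset ?_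
  rintro E ⟨x, hx, rfl⟩
  refine ⟨((fun k : Set.Icc (-(N : ℤ)) N => x.1.1 k.1), x.2), ?_⟩
  have h : ∃ x' ∈ P.D, ((fun k : Set.Icc (-(N : ℤ)) N => x'.1.1 k.1), x'.2) =
      ((fun k : Set.Icc (-(N : ℤ)) N => x.1.1 k.1), x.2) := ⟨x, hx, rfl⟩
  beta_reduce
  rw [dif_pos h]
  refine hN _ h.choose_spec.1 _ hx ⟨(Prod.ext_iff.1 h.choose_spec.2).2, fun k hk => ?_⟩
  exact congrFun (Prod.ext_iff.1 h.choose_spec.2).1 ⟨k, abs_le.1 hk⟩

end PSys

end Pool.Agent.helper98.NIG
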