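import Pool.Agent.helper98.NIG.C05
import Pool.Agent.helper98.NIG.C06

/-!
# NIG-C07: the system of a minimal component; decomposition

PROOFS.
* `cut E s` (for an `s`-invariant set `E`): the permutation which is `s` on `E` and the identity off `E`
  (`Equiv.Perm` built by hand from `fun x => if x ∈ E then s x else x` and the same with `s⁻¹`; or
  `Equiv.Perm.ofSubtype (s.subtypePerm h)`). `cutHom`: for a subgroup `G` all of whose elements map `E` to `E`
  the map `g ↦ cut E g` is a homomorphism `G →* Equiv.Perm (Pt b F)`.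
* `exists_sys`: let `P : PSys b F`, `x ∈ P.D`, `E = P.cmp x` (clopen of some radius `N`
  by `clopen_of_closed`, invariant). The system: `S` = image of `P.S` under the cut,
  `ρ = P.ρ + N` (or the maximum; `IsPW.mono`: the cut of a piecewise shift of radius `P.ρ` along a clopen
  invariant set of radius `N` is a piecewise shift of radius `max`), `D = E`; `one_mem`, `inv_mem` clear;
  `right`, `left`: for `g ∈ P.G` the cut of `g` is in the closure of the cuts of the generators
  (`Subgroup.closure_induction` or `MonoidHom.map_closure`) and acts as `g` on `E`;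
  `minimal`: `P.cmp z' = P.cmp x = E` for `z' ∈ E` (`cmp_eq`).
  The homomorphism `P.G →* A.G`, `g ↦ cut g`, is surjective (`map_closure`).
* `decomposition`: let `A : Gen b F`, `(P, R1)` from `Gen.exists_psys` (so `P.G = A.G` by `P.S = A.S`).
  The finitely many components `E_1, ..., E_n` of `P.D` (`cmp_finite`; they cover `P.D` by
  `self_mem_cmp`) give systems `B_i` and surjections `π_i`; the finite quotient `π0` comes from
  `Gen.exists_finite_quotient`. If all `π_i g = 1` and `π0 g = 1` then `g` is trivial on every `E_i`, so on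
  `P.D = A.Dinf R1`, and outside, so `g = 1`.
-/

namespace Pool.Agent.helper98.NIG

variable {b : Base} {F : Type}

open Classical in
/-- The cut of the elements of `G` along an invariant set `E`. -/
noncomputable def C07_cut (G : Subgroup (Equiv.Perm (Pt b F))) (E : Set (Pt b F))
    (h : ∀ g ∈ G, ∀ x, g x ∈ E ↔ x ∈ E) : G →* Equiv.Perm (Pt b F) :=
  (Equiv.Perm.ofSubtype (p := fun x => x ∈ E)).comp
    { toFun := fun g => (g : Equiv.Perm (Pt b F)).subtypePerm (h g g.2)
      map_one' := rfl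
      map_mul' := fun _ _ => rfl }

theorem C07_cut_mem {G : Subgroup (Equiv.Perm (Pt b F))} {E : Set (Pt b F)}
    (h : ∀ g ∈ G, ∀ x, g x ∈ E ↔ x ∈ E) (g : G) {x : Pt b F} (hx : x ∈ E) :
    C07_cut G E h g x = (g : Equiv.Perm (Pt b F)) x := by
  classical
  unfold C07_cut
  simp only [MonoidHom.comp_apply, MonoidHom.coe_mk, OneHom.coe_mk]
  rw [Equiv.Perm.ofSubtype_apply_of_mem _ hx]
  rfl

theorem C07_cut_not_mem {G : Subgroup (Equiv.Perm (Pt b F))} {E : Set (Pt b F)}
    (h : ∀ g ∈ G, ∀ x, g x ∈ E ↔ x ∈ E) (g : G) {x : Pt b F} (hx : x ∉ E) :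
    C07_cut G E h g x = x := by
  classical
  unfold C07_cut
  simp only [MonoidHom.comp_apply, MonoidHom.coe_mk, OneHom.coe_mk]
  exact Equiv.Perm.ofSubtype_apply_of_not_mem _ hx

theorem C07_isPW {G : Subgroup (Equiv.Perm (Pt b F))} {E : Set (Pt b F)}
    (h : ∀ g ∈ G, ∀ x, g x ∈ E ↔ x ∈ E) {N ρ : ℕ}
    (hN : ∀ x x' : Pt b F, Agree N x x' → (x ∈ E ↔ x' ∈ E)) (g : G)
    (hg : IsPW ρ (g : Equiv.Perm (Pt b F))) : IsPW (max ρ N) (C07_cut G E h g) := by
  intro x
  by_cases hx : x ∈ E
  · obtain ⟨n, hn, H⟩ := hg x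
    refine ⟨n, hn.trans (by exact_mod_cast le_max_left ρ N), fun x' hx' => ?_⟩
    have h1 : x' ∈ E := (hN x x' (hx'.mono (le_max_right ρ N))).1 hx
    rw [C07_cut_mem h g hx, C07_cut_mem h g h1]
    exact H x' (hx'.mono (le_max_left ρ N))
  · refine ⟨0, by simp, fun x' hx' => ?_⟩
    have h1 : x' ∉ E := fun h2 => hx ((hN x x' (hx'.mono (le_max_right ρ N))).2 h2)
    rw [C07_cut_not_mem h g hx, C07_cut_not_mem h g h1]
    exact ⟨by simp, hx'.1.symm⟩

/-- The minimal component of `x` is (the set of) a system, and the group maps onto its group. -/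
theorem PSys.exists_sys [Finite F] (P : PSys b F) {x : Pt b F} (hx : x ∈ P.D) :
    ∃ (A : Sys b F) (π : P.G →* A.G), A.D = P.cmp x ∧ Function.Surjective π ∧
      ∀ (g : P.G), ∀ z ∈ P.cmp x,
        ((π g : A.G) : Equiv.Perm (Pt b F)) z = (g : Equiv.Perm (Pt b F)) z := by
  classical
  have hE := P.cmp_cl hx
  obtain ⟨N, hN⟩ := P.clopen_of_closed hE
  have h : ∀ g ∈ P.G, ∀ z, g z ∈ P.cmp x ↔ z ∈ P.cmp x := by
    intro g hg z
    refine ⟨fun hz => ?_, fun hz => hE.inv g hg z hz⟩
    have h1 := hE.inv g⁻¹ (P.G.inv_mem hg) (g z) hz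
    rwa [PSys.C01_inv_apply] at h1
  let cut : P.G →* Equiv.Perm (Pt b F) := C07_cut P.G (P.cmp x) h
  let f : {s // s ∈ P.S} → Equiv.Perm (Pt b F) := fun s => cut ⟨s.1, P.mem_G_of_mem_S s.2⟩
  let S : Finset (Equiv.Perm (Pt b F)) := P.S.attach.image f
  have hS : ∀ s ∈ S, ∃ (t : Equiv.Perm (Pt b F)) (ht : t ∈ P.S),
      s = cut ⟨t, P.mem_G_of_mem_S ht⟩ := by
    intro s hs
    obtain ⟨t, -, rfl⟩ := Finset.mem_image.1 hs
    exact ⟨t.1, t.2, rfl⟩
  have hS' : ∀ (t : Equiv.Perm (Pt b F)) (ht : t ∈ P.S), cut ⟨t, P.mem_G_of_mem_S ht⟩ ∈ S :=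
    fun t ht => Finset.mem_image.2 ⟨⟨t, ht⟩, Finset.mem_attach _ _, rfl⟩
  have himg : (cut '' ((fun g : P.G => (g : Equiv.Perm (Pt b F))) ⁻¹'
      (P.S : Set (Equiv.Perm (Pt b F))))) = (S : Set (Equiv.Perm (Pt b F))) := by
    ext s
    constructor
    · rintro ⟨t, ht, rfl⟩
      exact Finset.mem_coe.2 (hS' t.1 ht)
    · intro hs
      obtain ⟨t, ht, rfl⟩ := hS s hs
      exact ⟨⟨t, P.mem_G_of_mem_S ht⟩, ht, rfl⟩
  have hrange : cut.range = Subgroup.closure (S : Set (Equiv.Perm (Pt b F))) := by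
    rw [← himg, ← MonoidHom.map_closure, MonoidHom.range_eq_map]
    congr 1
    exact (Subgroup.closure_closure_coe_preimage (k := (P.S : Set (Equiv.Perm (Pt b F))))).symm
  have hmem : ∀ g : P.G, cut g ∈ Subgroup.closure (S : Set (Equiv.Perm (Pt b F))) := by
    intro g
    rw [← hrange]
    exact ⟨g, rfl⟩
  have hcut : ∀ (g : P.G) (z : Pt b F), z ∈ P.cmp x → cut g z = (g : Equiv.Perm (Pt b F)) z :=
    fun g z hz => C07_cut_mem h g hz
  have hdisp : ∀ (g : P.G) (z : Pt b F), z ∈ P.cmp x →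
      disp (cut g) z = disp (g : Equiv.Perm (Pt b F)) z := by
    intro g z hz
    unfold disp
    rw [hcut g z hz]
  let A : Sys b F :=
    { S := S
      ρ := max P.ρ N
      D := P.cmp x
      pw := by
        intro s hs
        obtain ⟨t, ht, rfl⟩ := hS s hs
        refine ⟨C07_isPW h hN _ (P.pw t ht).1, ?_⟩
        have h1 : (cut ⟨t, P.mem_G_of_mem_S ht⟩).symm = cut (⟨t, P.mem_G_of_mem_S ht⟩ : P.G)⁻¹ :=
          (map_inv cut _).symm
        rw [h1]
        exact C07_isPW h hN _ (P.pw t ht).2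
      one_mem := by
        have h1 := hS' 1 P.one_mem
        have h2 : (⟨1, P.mem_G_of_mem_S P.one_mem⟩ : P.G) = 1 := rfl
        rwa [h2, map_one] at h1
      inv_mem := by
        intro s hs
        obtain ⟨t, ht, rfl⟩ := hS s hs
        rw [← map_inv]
        exact hS' t⁻¹ (P.inv_mem t ht)
      clopen := fun z z' hz => hN z z' (hz.mono (le_max_right _ _))
      nonempty := ⟨x, P.self_mem_cmp x⟩
      maps := by
        intro s hs z hz
        obtain ⟨t, ht, rfl⟩ := hS s hs
        rw [hcut _ z hz]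
        exact (h t (P.mem_G_of_mem_S ht) z).2 hz
      triv := by
        intro s hs z hz
        obtain ⟨t, ht, rfl⟩ := hS s hs
        exact C07_cut_not_mem h _ hz
      right := by
        intro z hz M
        obtain ⟨g, hg, hM⟩ := P.right z (hE.sub hz) M
        exact ⟨cut ⟨g, hg⟩, hmem _, by rw [hdisp _ z hz]; exact hM⟩
      left := by
        intro z hz M
        obtain ⟨g, hg, hM⟩ := P.left z (hE.sub hz) M
        exact ⟨cut ⟨g, hg⟩, hmem _, by rw [hdisp _ z hz]; exact hM⟩
      minimal := by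
        intro z hz w hw M
        have h1 : w ∈ P.cmp z := by
          rw [P.cmp_eq hx hz]
          exact hw
        obtain ⟨g, hg, hM⟩ := h1 M
        refine ⟨cut ⟨g, hg⟩, hmem _, ?_⟩
        rw [hcut _ z hz]
        exact hM }
  refine ⟨A, cut.codRestrict A.G hmem, rfl, ?_, fun g z hz => hcut g z hz⟩
  rintro ⟨a, ha⟩
  have ha' : a ∈ cut.range := by
    rw [hrange]
    exact ha
  obtain ⟨g, rfl⟩ := ha'
  exact ⟨g, rfl⟩

/-- Decomposition of a finitely generated group of piecewise shifts. -/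
theorem Gen.decomposition [Finite F] (A : Gen b F) :
    ∃ (n : ℕ) (B : Fin n → Sys b F) (π : ∀ i, A.G →* (B i).G) (Q : Type) (_ : Group Q)
      (_ : Finite Q) (π0 : A.G →* Q), (∀ i, Function.Surjective (π i)) ∧
      ∀ g : A.G, (∀ i, π i g = 1) → π0 g = 1 → g = 1 := by
  classical
  obtain ⟨P, R1, hS, hD⟩ := A.exists_psys
  have hG : A.G = P.G := by
    unfold Gen.G PSys.G
    rw [hS]
  obtain ⟨Q, i1, i2, π0, hπ0⟩ := A.exists_finite_quotient R1
  have hfin := P.cmp_finite
  let s : Finset (Set (Pt b F)) := hfin.toFinset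
  have hx : ∀ i : Fin s.card, ∃ x ∈ P.D, (s.equivFin.symm i).1 = P.cmp x := by
    intro i
    exact (Set.Finite.mem_toFinset hfin).1 (s.equivFin.symm i).2
  choose x hxD hxE using hx
  choose B π hBD hsurj happ using fun i => P.exists_sys (hxD i)
  let ι : A.G →* P.G := (MulEquiv.subgroupCongr hG).toMonoidHom
  have hι : ∀ g : A.G, ((ι g : P.G) : Equiv.Perm (Pt b F)) = (g : Equiv.Perm (Pt b F)) :=
    fun g => rfl
  refine ⟨s.card, B, fun i => (π i).comp ι, Q, i1, i2, π0, ?_, ?_⟩
  · intro i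
    exact (hsurj i).comp (MulEquiv.subgroupCongr hG).surjective
  · intro g h1 h2
    ext1
    refine Equiv.ext fun z => ?_
    change (g : Equiv.Perm (Pt b F)) z = z
    by_cases hz : z ∈ P.D
    · have hz1 : P.cmp z ∈ s := (Set.Finite.mem_toFinset hfin).2 ⟨z, hz, rfl⟩
      let i : Fin s.card := s.equivFin ⟨P.cmp z, hz1⟩
      have hi : P.cmp (x i) = P.cmp z := by
        rw [← hxE i, Equiv.symm_apply_apply]
      have h3 := happ i (ι g) z (by rw [hi]; exact P.self_mem_cmp z)
      have h4 : π i (ι g) = 1 := h1 i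
      rw [h4, hι] at h3
      exact h3.symm
    · rw [hD] at hz
      exact hπ0 g h2 z hz

end Pool.Agent.helper98.NIG
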