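import Pool.Agent.helper98.NIG.B04

/-!
# NIG-B05: ultrafilter limits of points, stabilisers

PROOFS.
* `exists_ulim`: for every `k : ℤ` the value `(u i).1.1 k : Bool` is eventually constant along the
  ultrafilter (`Ultrafilter` on a partition into two sets), and `(u i).2` is eventually constant because
  `F` is finite. Let `y k`, `φ` be the values. `y ∈ b.Hull`: for `N`, the finitely many `k` with
  `|k| ≤ N`: eventually `(u i).1.1 k = y k` for all of them (`Filter.eventually_all_finset` or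
  `Filter.biInter_finset_mem`); take such an `i` and the `m` of `(u i).1.2 N`.
* `mem_of_ulim`: `A.D` is clopen with radius `A.ρ`.
* `fix_of_ulim`, ...: if `g ∈ PW` (radius `ρ`) and `Agree (ρ+1) x x'` then `g x = x ↔ g x' = x'`:
  `g x = x` iff `disp g x = 0` and `(g x).2 = x.2` (`pos` determines the first coordinate).
* `rel_closed`: if `A.Rel (u i) (v i)` for all `i` and `u`, `v` converge to `x`, `y` then `A.Rel x y`.
* `rel_iff_le`...
-/

namespace Pool.Agent.helper98.NIG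

variable {b : Base} {F : Type}

theorem exists_ulim [Finite F] {ι : Type*} (U : Ultrafilter ι) (u : ι → Pt b F) :
    ∃ x : Pt b F, ∀ N : ℕ, ∀ᶠ i in (U : Filter ι), Agree N (u i) x := by
  classical
  -- the limit of the second coordinate
  obtain ⟨φ, hφ⟩ : ∃ φ : F, ∀ᶠ i in (U : Filter ι), (u i).2 = φ := by
    have h1 : ∀ᶠ i in (U : Filter ι), ∃ φ : F, (u i).2 = φ :=
      Filter.Eventually.of_forall fun i => ⟨_, rfl⟩
    by_contra hcon
    push Not at hcon
    have h2 : ∀ φ : F, ∀ᶠ i in (U : Filter ι), (u i).2 ≠ φ := fun φ => hcon φ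
    have h3 : ∀ᶠ i in (U : Filter ι), ∀ φ : F, (u i).2 ≠ φ := Filter.eventually_all.2 h2
    obtain ⟨i, hi⟩ := (h1.and h3).exists
    obtain ⟨⟨φ, h4⟩, h5⟩ := hi
    exact h5 φ h4
  -- the limit of the first coordinate
  obtain ⟨y, hy⟩ : ∃ y : ℤ → Bool, ∀ k : ℤ, ∀ᶠ i in (U : Filter ι), (u i).1.1 k = y k := by
    have h1 : ∀ k : ℤ, ∃ c : Bool, ∀ᶠ i in (U : Filter ι), (u i).1.1 k = c := by
      intro k
      by_cases h : ∀ᶠ i in (U : Filter ι), (u i).1.1 k = true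
      · exact ⟨true, h⟩
      · refine ⟨false, ?_⟩
        have h2 := Ultrafilter.eventually_not.2 h
        refine h2.mono fun i hi => ?_
        exact Bool.eq_false_iff.2 hi
    choose y hy using h1
    exact ⟨y, hy⟩
  have hfin : ∀ N : ℕ, ∀ᶠ i in (U : Filter ι), ∀ k : ℤ, |k| ≤ N → (u i).1.1 k = y k := by
    intro N
    have h1 : ∀ᶠ i in (U : Filter ι), ∀ k ∈ Finset.Icc (-(N : ℤ)) N, (u i).1.1 k = y k :=
      (Filter.eventually_all_finset _).2 fun k _ => hy k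
    refine h1.mono fun i hi k hk => hi k ?_
    rw [Finset.mem_Icc]
    exact abs_le.1 hk
  have hyH : y ∈ b.Hull := by
    intro N
    obtain ⟨i, hi⟩ := (hfin N).exists
    obtain ⟨m, hm, h⟩ := (u i).1.2 N
    exact ⟨m, hm, fun n hn => by rw [← hi n hn]; exact h n hn⟩
  refine ⟨(⟨y, hyH⟩, φ), fun N => ?_⟩
  exact (hφ.and (hfin N)).mono fun i hi => ⟨hi.1, hi.2⟩

/-- two elements have the same value at `x` iff at `x'`, if the windows agree -/
theorem eq_iff_of_agree {ρ : ℕ} {g g' : Equiv.Perm (Pt b F)} (hg : IsPW ρ g) (hg' : IsPW ρ g')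
    {x x' : Pt b F} (h : Agree ρ x x') : g x = g' x ↔ g x' = g' x' := by
  obtain ⟨n, -, H⟩ := hg x
  obtain ⟨n', -, H'⟩ := hg' x
  have h0 := H x (Agree.refl _ _)
  have h1 := H x' h
  have h0' := H' x (Agree.refl _ _)
  have h1' := H' x' h
  constructor
  · intro he
    have h2 : n = n' := by
      apply sh_inj (y := x.1)
      rw [← h0.1, ← h0'.1, he]
    refine Prod.ext ?_ ?_
    · rw [h1.1, h1'.1, h2]
    · rw [h1.2, h1'.2, he]
  · intro he
    have h2 : n = n' := by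
      apply sh_inj (y := x'.1)
      rw [← h1.1, ← h1'.1, he]
    refine Prod.ext ?_ ?_
    · rw [h0.1, h0'.1, h2]
    · rw [← h1.2, ← h1'.2, he]

theorem fix_iff_of_agree {ρ : ℕ} {g : Equiv.Perm (Pt b F)} (hg : IsPW ρ g) {x x' : Pt b F}
    (h : Agree ρ x x') : g x = x ↔ g x' = x' := by
  have h1 : IsPW ρ (1 : Equiv.Perm (Pt b F)) := IsPW.mono (Nat.zero_le ρ) IsPW.one
  exact eq_iff_of_agree hg h1 h

namespace Sys

theorem mem_D_of_ulim (A : Sys b F) {ι : Type*} {U : Ultrafilter ι} {u : ι → Pt b F}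
    {x : Pt b F} (hu : ∀ N : ℕ, ∀ᶠ i in (U : Filter ι), Agree N (u i) x)
    (h : ∀ᶠ i in (U : Filter ι), u i ∈ A.D) : x ∈ A.D := by
  obtain ⟨i, hi, hi'⟩ := ((hu A.ρ).and h).exists
  exact (A.clopen _ _ hi).1 hi'

/-- convergence is preserved by the elements of `PW` -/
theorem ulim_map {g : Equiv.Perm (Pt b F)} (hg : g ∈ PW b F) {ι : Type*} {U : Ultrafilter ι}
    {u : ι → Pt b F} {x : Pt b F} (hu : ∀ N : ℕ, ∀ᶠ i in (U : Filter ι), Agree N (u i) x) :
    ∀ N : ℕ, ∀ᶠ i in (U : Filter ι), Agree N (g (u i)) (g x) := by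
  obtain ⟨ρ, hρ, -⟩ := hg
  intro N
  exact (hu (ρ + N)).mono fun i hi => agree_map hρ hi

theorem rel_of_ulim (A : Sys b F) {ι : Type*} {U : Ultrafilter ι} {u v : ι → Pt b F}
    {x y : Pt b F} (hu : ∀ N : ℕ, ∀ᶠ i in (U : Filter ι), Agree N (u i) x)
    (hv : ∀ N : ℕ, ∀ᶠ i in (U : Filter ι), Agree N (v i) y)
    (h : ∀ g ∈ A.G, ∀ᶠ i in (U : Filter ι), (g (u i) = u i ↔ g (v i) = v i)) : A.Rel x y := by
  intro g hg
  obtain ⟨ρ, hρ, -⟩ := A.G_le_PW hg
  obtain ⟨i, ⟨hi, hi'⟩, hi''⟩ := (((hu ρ).and (hv ρ)).and (h g hg)).exists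
  rw [← fix_iff_of_agree hρ hi, ← fix_iff_of_agree hρ hi']
  exact hi''

theorem Rel.refl (A : Sys b F) (x : Pt b F) : A.Rel x x := fun _ _ => Iff.rfl

theorem Rel.symm {A : Sys b F} {x y : Pt b F} (h : A.Rel x y) : A.Rel y x :=
  fun g hg => (h g hg).symm

theorem Rel.trans {A : Sys b F} {x y z : Pt b F} (h : A.Rel x y) (h' : A.Rel y z) :
    A.Rel x z := fun g hg => (h g hg).trans (h' g hg)

theorem Rel.map {A : Sys b F} {x y : Pt b F} (h : A.Rel x y) {g : Equiv.Perm (Pt b F)}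
    (hg : g ∈ A.G) : A.Rel (g x) (g y) := by
  have key : ∀ (k : Equiv.Perm (Pt b F)) (z : Pt b F), k (g z) = g z ↔ (g⁻¹ * k * g) z = z := by
    intro k z
    rw [Equiv.Perm.mul_apply, Equiv.Perm.mul_apply, Equiv.Perm.inv_eq_iff_eq]
  intro k hk
  rw [key, key]
  exact h _ (A.G.mul_mem (A.G.mul_mem (A.G.inv_mem hg) hk) hg)

end Sys

end Pool.Agent.helper98.NIG
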