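import Pool.Agent.helper98.NIG.C01
import Pool.Agent.helper97.NIG.HarmSys

/-!
# NIG-C02: bounded connectivity for systems (LOC, BC, BCN, SYN) and the harmonic coordinate

PROOFS.
* `syn`: `PSys.hit` for `A.toP` (`A.toP.G = A.G` by `rfl`).
* `bcn_all`: `PSys.bcn`.
* `exists_BCN`: `bcn_all` with `M = 3ρ + 3`.
* `loc`: from `bcn_all M`: if `l.prod x = g x`, `l.length ≤ L` then `A.Reach x (Icc (-(Lρ)) (Lρ)) l.prod`:
  along the path the position changes by at most `ρ` in every step (`abs_disp_le`). `c = L ρ`.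
* `BC`: let `c` be the constant of `loc` for `M = 3ρ + 3` (`R = c + ρ + 1` or so). Let `g ∈ A.G`,
  `d = disp g x`, say `0 ≤ d` (the case `d ≤ 0` is symmetric: use `syn` with `n = -(i (ρ+1))`, or
  apply the first case to `g x`, `g⁻¹` and `Reach.inv`). Prove by (strong) induction on `⌊d⌋`
  (as a natural number): choose by `syn` an element `h ∈ A.G` with `d' := disp h x`,
  `d - (2 ρ + 1) ≤ d' ≤ d - (ρ + 1)` if `d ≥ 2ρ + 2` or so (otherwise `loc` alone suffices).
  By induction there is `h'` with `h' x = h x` and a path in `[-R, d' + R]`; `loc` at the point `h x`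
  for `g h⁻¹` (displacement `d - d' ≤ 2ρ+1`) gives a path from `h x` to `g x` in the positions
  `[d' - c, d' + c]` relative to `x`; compose with `Reach.trans`.
* `exists_harm`: `Sys.harm_of_BCN` of helper97.
-/

namespace Pool.Agent.helper98.NIG

variable {b : Base} {F : Type}

namespace Sys

variable (A : Sys b F)

theorem syn {x : Pt b F} (hx : x ∈ A.D) (n : ℤ) :
    ∃ g ∈ A.G, n ≤ disp g x ∧ disp g x ≤ n + A.ρ :=
  A.toP.hit hx n

theorem bcn_all [Finite F] (M : ℕ) : ∃ L : ℕ, ∀ x ∈ A.D, ∀ g ∈ A.G, |disp g x| ≤ M →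
    ∃ l : List (Equiv.Perm (Pt b F)), l.length ≤ L ∧ (∀ s ∈ l, s ∈ A.S) ∧ l.prod x = g x :=
  A.toP.bcn M

theorem exists_BCN [Finite F] : ∃ N, A.BCN N := by
  obtain ⟨L, hL⟩ := A.bcn_all (3 * A.ρ + 3)
  refine ⟨L, fun x hx g hg hd => hL x hx g hg ?_⟩
  push_cast
  exact hd

theorem exists_harm [Fintype F] : Nonempty (Harm A) := by
  obtain ⟨N, hN⟩ := A.exists_BCN
  exact A.harm_of_BCN hN

/-- A product of `n` generators is reached inside of `[-nρ, nρ]`. -/
theorem c02_reach_prod (x : Pt b F) (l : List (Equiv.Perm (Pt b F))) (hl : ∀ s ∈ l, s ∈ A.S) :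
    A.Reach x (Set.Icc (-((l.length * A.ρ : ℕ) : ℤ)) ((l.length * A.ρ : ℕ) : ℤ)) l.prod := by
  induction l with
  | nil => exact Reach.one
  | cons s l ih =>
    have ih1 := ih fun t ht => hl t (List.mem_cons_of_mem _ ht)
    have hs : s ∈ A.S := hl s List.mem_cons_self
    have hle : ((l.length * A.ρ : ℕ) : ℤ) + A.ρ = (((s :: l).length * A.ρ : ℕ) : ℤ) := by
      rw [List.length_cons]
      push_cast
      ring
    have h0 : (0 : ℤ) ∈ Set.Icc (-((l.length * A.ρ : ℕ) : ℤ)) ((l.length * A.ρ : ℕ) : ℤ) := by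
      constructor <;> omega
    have h1 := ih1.disp_mem h0
    have h2 := abs_le.1 (abs_disp_le (A.pw s hs).1 (l.prod x))
    rw [List.prod_cons]
    refine Reach.step (ih1.mono (Set.Icc_subset_Icc (by omega) (by omega))) hs ?_
    have h3 : pos x (s (l.prod x)) = disp s (l.prod x) + disp l.prod x :=
      disp_mul (A.G_le_PW (A.mem_G_of_mem_S hs)) (A.G_le_PW ih1.mem_G) x
    rw [h3]
    exact ⟨by linarith [h1.1, h2.1], by linarith [h1.2, h2.2]⟩

theorem loc [Finite F] (M : ℕ) : ∃ c : ℕ, ∀ x ∈ A.D, ∀ g ∈ A.G, |disp g x| ≤ M →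
    ∃ g', A.Reach x (Set.Icc (-(c : ℤ)) c) g' ∧ g' x = g x := by
  obtain ⟨L, hL⟩ := A.bcn_all M
  refine ⟨L * A.ρ, fun x hx g hg hd => ?_⟩
  obtain ⟨l, h1, h2, h3⟩ := hL x hx g hg hd
  have h4 : ((l.length * A.ρ : ℕ) : ℤ) ≤ ((L * A.ρ : ℕ) : ℤ) :=
    Int.ofNat_le.2 (Nat.mul_le_mul_right _ h1)
  exact ⟨l.prod, (A.c02_reach_prod x l h2).mono (Set.Icc_subset_Icc (by linarith) h4), h3⟩

theorem BC [Finite F] : ∃ R : ℕ, ∀ x ∈ A.D, ∀ g ∈ A.G,
    ∃ g', A.Reach x (Set.Icc (min 0 (disp g x) - R) (max 0 (disp g x) + R)) g' ∧ g' x = g x := by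
  obtain ⟨c, hc⟩ := A.loc (2 * A.ρ + 2)
  -- the case of a nonnegative displacement
  have key : ∀ n : ℕ, ∀ x ∈ A.D, ∀ g ∈ A.G, 0 ≤ disp g x → disp g x ≤ n →
      ∃ g', A.Reach x (Set.Icc (-(c : ℤ)) (disp g x + c)) g' ∧ g' x = g x := by
    intro n
    induction n using Nat.strong_induction_on with
    | _ n ih =>
      intro x hx g hg h0 hn
      by_cases hd : disp g x ≤ ((2 * A.ρ + 2 : ℕ) : ℤ)
      · obtain ⟨g', h1, h2⟩ := hc x hx g hg (by rw [abs_of_nonneg h0]; exact hd)
        exact ⟨g', h1.mono (Set.Icc_subset_Icc le_rfl (by linarith)), h2⟩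
      · push Not at hd
        push_cast at hd
        obtain ⟨h, hh, h1, h2⟩ := A.syn hx (disp g x - (2 * A.ρ + 1))
        obtain ⟨h', h3, h4⟩ := ih (disp h x).toNat (by omega) x hx h hh (by omega) (by omega)
        have hhx : h x ∈ A.D := A.map_mem hh hx
        have hd1 : disp (g * h⁻¹) (h x) = disp g x - disp h x := by
          have h5 := disp_mul (A.G_le_PW (mul_mem hg (A.G.inv_mem hh))) (A.G_le_PW hh) x
          rw [inv_mul_cancel_right] at h5
          linarith
        have hd2 : (g * h⁻¹) (h x) = g x := by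
          rw [Equiv.Perm.mul_apply]
          congr 1
          exact h.symm_apply_apply x
        have hd3 : disp h' x = disp h x := by
          unfold disp
          rw [h4]
        obtain ⟨k, h6, h7⟩ := hc (h x) hhx (g * h⁻¹) (mul_mem hg (A.G.inv_mem hh)) (by
          rw [hd1, abs_le]
          push_cast
          constructor <;> linarith)
        refine ⟨k * h', ?_, ?_⟩
        · refine Reach.trans (h3.mono (Set.Icc_subset_Icc le_rfl (by linarith))) ?_
          rw [h4, hd3]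
          refine h6.mono fun m hm => ?_
          change m + disp h x ∈ Set.Icc _ _
          exact ⟨by linarith [hm.1], by linarith [hm.2]⟩
        · rw [Equiv.Perm.mul_apply, h4, h7, hd2]
  refine ⟨c, fun x hx g hg => ?_⟩
  rcases le_total 0 (disp g x) with h0 | h0
  · obtain ⟨g', h1, h2⟩ := key (disp g x).toNat x hx g hg h0 (by omega)
    refine ⟨g', ?_, h2⟩
    rw [min_eq_left h0, max_eq_right h0, zero_sub]
    exact h1
  · have hinv : disp g⁻¹ (g x) = - disp g x := disp_inv (A.G_le_PW hg) x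
    have hx1 : g⁻¹ (g x) = x := g.symm_apply_apply x
    obtain ⟨k, h1, h2⟩ := key (- disp g x).toNat (g x) (A.map_mem hg hx) g⁻¹ (A.G.inv_mem hg)
      (by omega) (by omega)
    rw [hx1] at h2
    have h3 : disp k (g x) = - disp g x := by
      rw [← hinv]
      unfold disp
      rw [h2, hx1]
    have h4 := h1.inv (by constructor <;> omega)
    rw [h2] at h4
    refine ⟨k⁻¹, ?_, ?_⟩
    · rw [min_eq_right h0, max_eq_left h0, zero_add]
      refine h4.mono fun m hm => ?_
      have hm' : m + disp k (g x) ∈ Set.Icc (-(c : ℤ)) (disp g⁻¹ (g x) + c) := hm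
      rw [h3, hinv] at hm'
      exact ⟨by linarith [hm'.1], by linarith [hm'.2]⟩
    · rw [Equiv.Perm.inv_eq_iff_eq]
      exact h2.symm

end Sys

end Pool.Agent.helper98.NIG
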