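import Pool.Agent.helper98.NIG.E00
import Pool.Agent.helper97.NIG.TopAsm

/-!
# NIG-E02: the top token theorem (P5)

PROOF (strand of `z`: `V = A.orb z`, `NIG.Strand`).  Let `Hy = Hc (orb y)`, `f a = max {Hy t | t ∈ R a}` (attained,
because the positions, hence the heights, are bounded above), `def a = ∑ s, (f (s a) - f a)`. For `a` with all
`s a` in `[l, r]`: `f (s a) ≥ Hy (s t)` for the top `t` of `a`, so `def a ≥ ∑ s (Hy (s t) - Hy t) = 0`; and
`|f (s a) - f a| ≤ K0` (Lipschitz constant of `Hy`; use `R (s a) = s '' R a` in both directions).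
(1) SLOPES. `α ∈ ℝ`, `x, t ∈ D`, `hδ g t = α * hδ g x` for all `g ∈ G` implies `Rel x t` and `α = 1 ∨ α = -1`:
   `α ≠ 0` (`t` has unbounded orbit). If `g x = x` then for all `k`: `k g k⁻¹` fixes `k x`, so
   `hδ (k g k⁻¹) (k t) = 0`: `k t`, `k g t` have the same height: bounded distance for ever, so `g t = t` by
   `Reduced`; symmetrically `g t = t → g x = x` (`α ≠ 0`). `|α| = 1`: the set of the pairs `(x, t)` with
   `hδ g t = α hδ g x` for all `g` is closed and invariant, so by minimality every `x ∈ D` has such a `t`
   (and the relation can be iterated: `x → t → t2 → ...`, ratio `α^n`); if `|α| > 1` the increments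
   `hδ s t_n = α^n hδ s x` are unbounded unless `hδ s x = 0` for all `s`, `x`; if `|α| < 1` a limit of the `t_n`
   has `hδ g = 0` for all `g`: both are impossible.
(2) COMPACTNESS. For all `n` there are `N1 ≥ n`, `ε0 > 0` such that: if `[pos a - N1, pos a + N1] ⊆ [l, r]` and
   `def a' ≤ ε0` for all `a'` in this window, then `∃ t, ∃ σ ∈ {1, -1}, GoodT R n σ a t` and `def a = 0`.
   Suppose not: sequences (`i → ∞`, `N1 = i`, `ε0 = 1/i`); let `t_i` be a top token over `a_i`; ultralimit
   `(a_i, t_i) → (a*, t*)`. For fixed `g ∈ G` (reached in a bounded window)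
   `F_i(g) = f_i (g a_i) - f_i (a_i) - hδ g t_i ≥ 0` (`g t_i ∈ R_i (g a_i)`), bounded in `i`. Let `F(g)`, `φ(g)` be
   the limits of `F_i(g)`, `f_i (g a_i) - f_i (a_i)`; `φ(g)` depends on `g a*` only, is Lipschitz and harmonic
   on `orb a*` (defects tend to 0), so `φ(g) = α hδ g a*` (`IsHC.affine`). `F(g) = α hδ g a* - hδ g t* ≥ 0`,
   `F(1) = 0`, and `∑ s F(s g) = |S| F(g)`, so by induction on words `F = 0`. By (1) `Rel a* t*`, `α = ±1 =: σ`.
   So `Near n σ a_i t_i` for almost all `i` (finitely many loops suffice: the condition for all `g` reached in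
   the window depends only on the end points: positions in the window; write it with finitely many `g`
   as in `loc`: for the lock the loops of length `≤ 2 * (number of points) + 1` generate all the loops).
   UNIQUENESS: if `t'_i ≠ t_i` is a token over `a_i` with `Hy t'_i ≥ Hy t_i` (equal) then `|pos t_i t'_i|` is bounded
   (equal heights), same orbit; limit `t'*` on the line of `t*`, in the orbit of `t*` (`orb_iff_ulim`), with
   `hδ g t'* = α hδ g a* = hδ g t*` for all `g` (apply the above to `t'_i`), so `t'* = t*` by `Reduced`, so the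
   offsets are zero: `t'_i = t_i`. Likewise over `s a_i`: a token `t'_i ∈ R (s a_i)`, `t'_i ≠ s t_i` with
   `Hy t'_i ≥ Hy (s t_i)`: `0 ≤ Hy t'_i - Hy (s t_i) ≤ F_i(s) → 0`: bounded distance; if `t'_i` is a top token of
   `s a_i` then the same argument at `s a_i` (same function `f_i`, same `α`) gives `t'* = s t*`, contradiction. So
   `s t_i` is the unique top over `s a_i` and `f_i (s a_i) - f_i a_i = hδ s t_i`, so `def a_i = 0`.
(3) COUNTING. The current of `f` through the cuts inside `[l + c, r - c]` is bounded by `K1` (`abs_cur_le`) and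
   nondecreasing (`cur_sub`: the difference is the sum of `def`), so the number of `a` with `def a > ε0` in
   there is `≤ 2 K1 / ε0`.
(4) SIGNS. If `GoodT R n' σ a t` with `n'` large then the current of `f` at the cut `pos a` is within `η(n')` of
   `σ`, `η(n') → 0` (the increments of `f` near `a` are `hδ` of the transported token, which are `σ` times
   those of `a` up to `1/(n'+1)`; unit current of `Hz`; NOTE: near `a` the top token over `g a` is `g t` only if
   the points in between are good too; so use windows of good points: call `a` `n'`-good if the defects are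
   `≤ ε0(n')` on the window `N1(n') + N1(n') + ...` so that all the points of the window `n'` around `a` satisfy
   (2)).
   Take `ε0 = ε0(n)` for the given `n`, and `n'` with `η(n') ≤ ε0 / 2`, `η(n') ≤ 1/4`. Between two `n'`-good points of
   the same sign the total defect is `≤ ε0`, so by (2) every point in between (at distance `≥ N1(n)` from
   both) is good for `n`, of the same sign. To the right of an `n'`-good point of sign `+1` there is none of
   sign `-1`. By (3) for `n'` every interval of length `≥ R'` inside `[l + c, r - c]` contains an `n'`-good point.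
   Let `v'` = the last `n'`-good position of sign `-1`, `w'` = the first one of sign `+1`: `w' - v' ≤ R'`, and
   `v = v' - N1(n)`, `w = w' + N1(n)`, `R0 = R' + 2 N1(n) + c + ...`.
-/

namespace Pool.Agent.helper98.NIG

variable {b : Base} {F : Type}

namespace Sys

theorem slopes [Fintype F] (A : Sys b F) {N : ℕ} (hN : A.BCN N) (hred : A.Reduced)
    {x t : Pt b F} (hx : x ∈ A.D) (ht : t ∈ A.D) {α : ℝ}
    (h : ∀ g ∈ A.G, A.hδ g t = α * A.hδ g x) : A.Rel x t ∧ (α = 1 ∨ α = -1) :=
  slopes' hN hred hx ht h

theorem top_token [Fintype F] (A : Sys b F) {N : ℕ} (hN : A.BCN N) (hred : A.Reduced) (n : ℕ) :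
    ∃ R0 : ℕ, ∀ z ∈ A.D, ∀ y ∈ A.D, ∀ (l r : ℤ) (R : Pt b F → Set (Pt b F)), A.Fam z y l r R →
    ∃ v w : ℤ, w ≤ v + R0 ∧
      (∀ a ∈ A.orb z, l + R0 ≤ pos z a → pos z a ≤ v → ∃ t, A.GoodT R n (-1) a t) ∧
      (∀ a ∈ A.orb z, w ≤ pos z a → pos z a ≤ r - R0 → ∃ t, A.GoodT R n 1 a t) :=
  top_token' hN hred n

end Sys

end Pool.Agent.helper98.NIG
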