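import Pool.Agent.helper98.NIG.E06

/-!
# NIG-E08: uniform raising

`Raise A`: for `z, y ∈ D` with `¬ Rel z y` the heights of the tokens `h y`, `h ∈ G_z`, are unbounded above.
`URaise A`: uniform version: for all `W`, `K` there is `W'` such that if a loop of `z ∈ D` in the window `W` moves `y ∈ D`
then some loop `h` of `z` in the window `W'` has `dh y (h y) ≥ K`.

PROOF of `uraise`. Suppose not: fix `W, K`; for every `i : ℕ` there are `z_i, y_i ∈ D`, a loop of `z_i` in the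
window `W` moving `y_i`, and no loop `h` of `z_i` in the window `i` with `dh y_i (h y_i) ≥ K`. By `lock_short` there is a
list `l_i` of generators, of length `≤ L`, with `l_i.prod z_i = z_i`, `l_i.prod y_i ≠ y_i`. Ultralimit
(`Filter.hyperfilter ℕ`): `z_i → z`, `y_i → y`, `z, y ∈ D`; `l_i` is constant `= l` along the
ultrafilter (finitely many lists), `g = l.prod ∈ G`; by `fix_iff_of_agree` `g z = z`, `g y ≠ y`. So `¬ Rel z y`
and `Raise` gives `h ∈ G`, `h z = z`, `dh y (h y) ≥ K + 1`. `h` is reached in a bounded window `C`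
(`exists_reach_bounded`), `h z_i = z_i` for almost all `i`, and `dh y_i (h y_i) = hδ h y_i → hδ h y = dh y (h y)`
(`tendsto_hδ`, `dh_map`), so `dh y_i (h y_i) ≥ K` for almost all `i`, in particular for some `i ≥ C`:
contradiction.
-/

namespace Pool.Agent.helper98.NIG

variable {b : Base} {F : Type}

namespace Sys

/-- rows of unrelated pairs are unbounded above -/
def Raise (A : Sys b F) : Prop := ∀ z ∈ A.D, ∀ y ∈ A.D, ¬ A.Rel z y → ∀ K : ℝ,
  ∃ h ∈ A.G, h z = z ∧ K ≤ A.dh y (h y)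

/-- uniform version of `Raise` -/
def URaise (A : Sys b F) : Prop := ∀ (W : ℕ) (K : ℝ), ∃ W' : ℕ, ∀ z ∈ A.D, ∀ y ∈ A.D,
  (∃ h, A.Reach z (Set.Icc (-(W : ℤ)) W) h ∧ h z = z ∧ h y ≠ y) →
  ∃ h, A.Reach z (Set.Icc (-(W' : ℤ)) W') h ∧ h z = z ∧ K ≤ A.dh y (h y)

theorem E08_fin (A : Sys b F) (n : ℕ) :
    {g : Equiv.Perm (Pt b F) | ∃ l : List (Equiv.Perm (Pt b F)), l.length ≤ n ∧
      (∀ s ∈ l, s ∈ A.S) ∧ l.prod = g}.Finite := by
  induction n with
  | zero =>
    refine (Set.finite_singleton (1 : Equiv.Perm (Pt b F))).subset ?_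
    rintro g ⟨l, hl, -, rfl⟩
    rw [List.length_eq_zero_iff.1 (Nat.le_zero.1 hl)]
    rfl
  | succ n ih =>
    refine (Set.Finite.union (Set.finite_singleton (1 : Equiv.Perm (Pt b F)))
      (Set.Finite.image2 (fun s g => s * g) A.S.finite_toSet ih)).subset ?_
    rintro g ⟨l, hl, hS, rfl⟩
    cases l with
    | nil => exact Or.inl rfl
    | cons s l =>
      refine Or.inr ⟨s, hS s List.mem_cons_self, l.prod, ⟨l, ?_, ?_, rfl⟩, List.prod_cons.symm⟩
      · simpa using hl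
      · exact fun s' hs' => hS s' (List.mem_cons_of_mem _ hs')

theorem E08_mem {A : Sys b F} {z : Pt b F} {I : Set ℤ} {l : List (Equiv.Perm (Pt b F))}
    (h : A.ReachL z I l) : ∀ s ∈ l, s ∈ A.S := by
  induction l with
  | nil => exact fun s hs => absurd hs List.not_mem_nil
  | cons s l ih =>
    intro s' hs'
    rcases List.mem_cons.1 hs' with rfl | hs'
    · exact h.1
    · exact ih h.2.2 s' hs'

theorem uraise [Fintype F] (A : Sys b F) {N : ℕ} (hN : A.BCN N) (hr : A.Raise) : A.URaise := by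
  intro W K
  by_contra hcon
  push Not at hcon
  choose z hz y hy h0 hno using hcon
  obtain ⟨L, hL⟩ := A.lock_short W
  -- short loops
  have h1 : ∀ i, ∃ g ∈ {g : Equiv.Perm (Pt b F) | ∃ l : List (Equiv.Perm (Pt b F)),
      l.length ≤ L ∧ (∀ s ∈ l, s ∈ A.S) ∧ l.prod = g}, g (z i) = z i ∧ g (y i) ≠ y i := by
    intro i
    by_contra hc
    push Not at hc
    obtain ⟨h, hh, hhz, hhy⟩ := h0 i
    exact hhy (hL (z i) (y i) (fun l hl hR hlz => hc l.prod ⟨l, hl, E08_mem hR, rfl⟩ hlz) h hh hhz)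
  choose v hv hvz hvy using h1
  set U : Ultrafilter ℕ := Filter.hyperfilter ℕ with hU
  have hge : ∀ m : ℕ, ∀ᶠ i in (U : Filter ℕ), m ≤ i :=
    fun m => Nat.hyperfilter_le_atTop (Filter.eventually_ge_atTop m)
  obtain ⟨g, hg, hgv⟩ : ∃ g ∈ {g : Equiv.Perm (Pt b F) | ∃ l : List (Equiv.Perm (Pt b F)),
      l.length ≤ L ∧ (∀ s ∈ l, s ∈ A.S) ∧ l.prod = g}, ∀ᶠ i in (U : Filter ℕ), v i = g := by
    rw [← Ultrafilter.eventually_exists_mem_iff (E08_fin A L)]
    exact Filter.Eventually.of_forall fun i => ⟨v i, hv i, rfl⟩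
  have hgG : g ∈ A.G := by
    obtain ⟨l, -, hS, rfl⟩ := hg
    exact list_prod_mem fun s hs => A.mem_G_of_mem_S (hS s hs)
  obtain ⟨z', hz'⟩ := exists_ulim U z
  obtain ⟨y', hy'⟩ := exists_ulim U y
  have hzD : z' ∈ A.D := A.mem_D_of_ulim hz' (Filter.Eventually.of_forall hz)
  have hyD : y' ∈ A.D := A.mem_D_of_ulim hy' (Filter.Eventually.of_forall hy)
  obtain ⟨ρ, hρ, -⟩ := A.G_le_PW hgG
  have hrel : ¬ A.Rel z' y' := by
    intro hR
    obtain ⟨i, ⟨hi1, hi2⟩, hi3⟩ := (((hz' ρ).and (hy' ρ)).and hgv).exists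
    have e1 : g z' = z' := by
      rw [← fix_iff_of_agree hρ hi1, ← hi3]
      exact hvz i
    have e2 := (hR g hgG).1 e1
    rw [← fix_iff_of_agree hρ hi2, ← hi3] at e2
    exact hvy i e2
  obtain ⟨h, hh, hhz, hK⟩ := hr z' hzD y' hyD hrel (K + 1)
  obtain ⟨C, hC⟩ := A.exists_reach_bounded hh
  obtain ⟨ρ', hρ', -⟩ := A.G_le_PW hh
  have hlim := tendsto_hδ hN hy' hy hh
  have hev : ∀ᶠ i in (U : Filter ℕ), K < A.hδ h (y i) := by
    refine hlim.eventually (lt_mem_nhds ?_)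
    rw [dh_map] at hK
    linarith
  obtain ⟨i, ⟨hi1, hi2⟩, hi3⟩ := (((hz' ρ').and hev).and (hge C.toNat)).exists
  have h2 := hno i h (Reach.mono (Set.Icc_subset_Icc (by omega) (by omega)) (hC (z i)))
    ((fix_iff_of_agree hρ' hi1).2 hhz)
  rw [dh_map] at h2
  linarith

end Sys

end Pool.Agent.helper98.NIG
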