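import Pool.Agent.helper98.NIG.Defs

/-!
# NIG-B01: the two skeletons (Chacon `p = 3`, Rudin-Shapiro `p = 2`)

PROOFS.  Write `m = p^v u` with `p` not dividing `u` (`v = padicValInt p m`, `m ≠ 0`).

* `τ3 m = true` iff `u ≡ 2 mod 3`.
  `anti`: `-m = 3^v (-u)` and `u ≡ 1 iff -u ≡ 2` mod 3.
  `loc`: if `3^K` does not divide `m` then `v < K` (in particular `m ≠ 0`); `m' = m + 3^(K+1) t`
  `= 3^v (u + 3^(K+1-v) t)`, so `m'` has the same valuation and its unit part is congruent to `u`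
  modulo 3.
  `mis`: `r = 3^j r'`, `3 ∤ r'`. Take `m0 = -r`. If `m = -r + 3^(j+1) t` then `m = 3^j (-r' + 3t)` and
  `m - r = 3^j (-2r' + 3t)`, both have valuation `j`, unit parts `-r'` and `-2r' ≡ r'` mod 3, which
  are different non-zero residues. `m0 - r = -2r` is not divisible by `3^(j+1)`.
* `τ2 m = xor (u % 4 = 3) (2 ≤ v and v even)`.
  `anti`: `u % 4 = 3 iff (-u) % 4 = 1`, same `v`.
  `loc`: `v < K`, `m' = m + 2^(K+1) t = 2^v (u + 2^(K+1-v) t)` with `K+1-v ≥ 2`, so same `v` and `u`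
  unchanged mod 4.
  `mis`: `j ≥ 1`, `r = 2^j r'`, `r'` odd. Take `m0 = 2^(j-1)`. If `m = 2^(j-1) + 2^(j+1) t` then
  `m = 2^(j-1)(1 + 4t)`, `m - r = 2^(j-1) (1 + 4t - 2r')`: same valuation `j-1`, and
  `1 + 4t - 2r' ≡ 3` mod 4. So the values differ. `m0` and `m0 - r` are not divisible by `2^j`.
(All `%` and `/` are on `ℤ`; it may be convenient to prove first: for `m = p^v * u` with `¬ p ∣ u`,
`padicValInt p m = v` and `m / p^v = u`.)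
-/

namespace Pool.Agent.helper98.NIG

/-- The Chacon skeleton. -/
def tau3 (m : ℤ) : Bool := decide ((m / 3 ^ (padicValInt 3 m)) % 3 = 2)

/-- The Rudin-Shapiro skeleton. -/
def tau2 (m : ℤ) : Bool :=
  xor (decide ((m / 2 ^ (padicValInt 2 m)) % 4 = 3))
    (decide (2 ≤ padicValInt 2 m ∧ padicValInt 2 m % 2 = 0))

theorem B01_dec {p : ℕ} (hp : p.Prime) {m : ℤ} (hm : m ≠ 0) :
    ∃ (v : ℕ) (u : ℤ), ¬ (p : ℤ) ∣ u ∧ m = (p : ℤ) ^ v * u := by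
  have hf : FiniteMultiplicity (p : ℤ) m := by
    rw [Int.finiteMultiplicity_iff]
    refine ⟨?_, hm⟩
    rw [Int.natAbs_natCast]
    exact hp.one_lt.ne'
  obtain ⟨c, hc, hd⟩ := hf.exists_eq_pow_mul_and_not_dvd
  exact ⟨_, c, hd, hc⟩

theorem B01_val {p : ℕ} (hp : p.Prime) (v : ℕ) {u : ℤ} (hu : ¬ (p : ℤ) ∣ u) :
    padicValInt p ((p : ℤ) ^ v * u) = v := by
  have : Fact p.Prime := ⟨hp⟩
  have hu0 : u ≠ 0 := by
    rintro rfl
    exact hu (dvd_zero _)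
  have hp0 : (p : ℤ) ^ v ≠ 0 := pow_ne_zero _ (by exact_mod_cast hp.ne_zero)
  rw [padicValInt.mul hp0 hu0, padicValInt.eq_zero_of_not_dvd hu, add_zero, ← Nat.cast_pow,
    padicValInt.of_nat, padicValNat.prime_pow]

/-- value of `tau3` (for later use) -/
theorem tau3_eq (v : ℕ) (u : ℤ) (hu : ¬ (3 : ℤ) ∣ u) : tau3 (3 ^ v * u) = decide (u % 3 = 2) := by
  have h := B01_val Nat.prime_three v (u := u) hu
  have h' : padicValInt 3 (3 ^ v * u) = v := h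
  unfold tau3
  rw [h', Int.mul_ediv_cancel_left _ (pow_ne_zero _ (by norm_num))]

/-- value of `tau2` (for later use) -/
theorem tau2_eq (v : ℕ) (u : ℤ) (hu : ¬ (2 : ℤ) ∣ u) :
    tau2 (2 ^ v * u) = xor (decide (u % 4 = 3)) (decide (2 ≤ v ∧ v % 2 = 0)) := by
  have h := B01_val Nat.prime_two v (u := u) hu
  have h' : padicValInt 2 (2 ^ v * u) = v := h
  unfold tau2
  rw [h', Int.mul_ediv_cancel_left _ (pow_ne_zero _ (by norm_num))]

theorem B01_dvd {p : ℤ} (hp : p ≠ 0) (j : ℕ) (x : ℤ) : p ^ (j + 1) ∣ p ^ j * x ↔ p ∣ x := by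
  rw [pow_succ]
  exact mul_dvd_mul_iff_left (pow_ne_zero _ hp)

theorem B01_anti3 (m : ℤ) (hm : m ≠ 0) : tau3 (-m) = !(tau3 m) := by
  obtain ⟨v, u, hu, rfl⟩ := B01_dec Nat.prime_three hm
  have hu' : ¬ (3 : ℤ) ∣ u := hu
  have h1 : ¬ (3 : ℤ) ∣ -u := by rwa [dvd_neg]
  change tau3 (-(3 ^ v * u)) = !(tau3 (3 ^ v * u))
  rw [← mul_neg, tau3_eq v _ h1, tau3_eq v u hu', ← decide_not, decide_eq_decide]
  omega

theorem B01_loc3 (K : ℕ) (m m' : ℤ) (h : ¬ (3 : ℤ) ^ K ∣ m) (h' : (3 : ℤ) ^ (K + 1) ∣ m - m') :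
    tau3 m = tau3 m' := by
  have hm : m ≠ 0 := by
    rintro rfl
    exact h (dvd_zero _)
  obtain ⟨v, u, hu, hm'⟩ := B01_dec Nat.prime_three hm
  replace hu : ¬ (3 : ℤ) ∣ u := hu
  replace hm' : m = 3 ^ v * u := hm'
  have hv : v < K := by
    by_contra hv
    apply h
    rw [hm']
    exact Dvd.dvd.mul_right (pow_dvd_pow 3 (not_lt.1 hv)) u
  obtain ⟨t, ht⟩ := h'
  obtain ⟨w, hw⟩ : ∃ w, K + 1 = v + (w + 2) := ⟨K + 1 - v - 2, by omega⟩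
  have e : m' = 3 ^ v * (u - 3 * (3 ^ (w + 1) * t)) := by
    have : m' = m - 3 ^ (K + 1) * t := by linarith
    rw [this, hm', hw, pow_add, show (3 : ℤ) ^ (w + 2) = 3 * 3 ^ (w + 1) by ring]
    ring
  set y := 3 ^ (w + 1) * t
  have h1 : ¬ (3 : ℤ) ∣ (u - 3 * y) := by omega
  rw [hm', e, tau3_eq v u hu, tau3_eq v _ h1, decide_eq_decide]
  omega

theorem B01_mis3 (j : ℕ) (r : ℤ) (_ : 1 ≤ j) (h : (3 : ℤ) ^ j ∣ r)
    (h' : ¬ (3 : ℤ) ^ (j + 1) ∣ r) :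
    ∃ m0 : ℤ, (3 : ℤ) ^ (j - 1) ∣ m0 ∧ ¬ (3 : ℤ) ^ (j + 1) ∣ m0 ∧ ¬ (3 : ℤ) ^ (j + 1) ∣ m0 - r ∧
      ∀ m : ℤ, (3 : ℤ) ^ (j + 1) ∣ m - m0 → tau3 m ≠ tau3 (m - r) := by
  obtain ⟨r', rfl⟩ := h
  rw [B01_dvd (by norm_num)] at h'
  refine ⟨-(3 ^ j * r'), ?_, ?_, ?_, ?_⟩
  · rw [dvd_neg]
    exact Dvd.dvd.mul_right (pow_dvd_pow 3 (by omega)) r'
  · rw [dvd_neg, B01_dvd (by norm_num)]
    exact h'
  · rw [show -(3 ^ j * r') - 3 ^ j * r' = 3 ^ j * (-2 * r') by ring, B01_dvd (by norm_num)]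
    omega
  · rintro m ⟨t, ht⟩
    have e1 : m = 3 ^ j * (-r' + 3 * t) := by
      have : m = -(3 ^ j * r') + 3 ^ (j + 1) * t := by linarith
      rw [this, pow_succ]
      ring
    have e2 : m - 3 ^ j * r' = 3 ^ j * (-2 * r' + 3 * t) := by
      rw [e1]
      ring
    rw [e2, e1, tau3_eq j _ (by omega), tau3_eq j _ (by omega), Ne, decide_eq_decide]
    have h3 : r' % 3 = 1 ∨ r' % 3 = 2 := by omega
    rcases h3 with h3 | h3
    · have a1 : (-r' + 3 * t) % 3 = 2 := by omega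
      have a2 : (-2 * r' + 3 * t) % 3 = 1 := by omega
      rw [a1, a2]
      norm_num
    · have a1 : (-r' + 3 * t) % 3 = 1 := by omega
      have a2 : (-2 * r' + 3 * t) % 3 = 2 := by omega
      rw [a1, a2]
      norm_num

theorem B01_anti2 (m : ℤ) (hm : m ≠ 0) : tau2 (-m) = !(tau2 m) := by
  obtain ⟨v, u, hu, rfl⟩ := B01_dec Nat.prime_two hm
  have hu' : ¬ (2 : ℤ) ∣ u := hu
  have h1 : ¬ (2 : ℤ) ∣ -u := by rwa [dvd_neg]
  change tau2 (-(2 ^ v * u)) = !(tau2 (2 ^ v * u))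
  have h2 : decide (-u % 4 = 3) = !(decide (u % 4 = 3)) := by
    rw [← decide_not, decide_eq_decide]
    omega
  rw [← mul_neg, tau2_eq v _ h1, tau2_eq v u hu', h2, Bool.not_xor]

theorem B01_loc2 (K : ℕ) (m m' : ℤ) (h : ¬ (2 : ℤ) ^ K ∣ m) (h' : (2 : ℤ) ^ (K + 1) ∣ m - m') :
    tau2 m = tau2 m' := by
  have hm : m ≠ 0 := by
    rintro rfl
    exact h (dvd_zero _)
  obtain ⟨v, u, hu, hm'⟩ := B01_dec Nat.prime_two hm
  replace hu : ¬ (2 : ℤ) ∣ u := hu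
  replace hm' : m = 2 ^ v * u := hm'
  have hv : v < K := by
    by_contra hv
    apply h
    rw [hm']
    exact Dvd.dvd.mul_right (pow_dvd_pow 2 (not_lt.1 hv)) u
  obtain ⟨t, ht⟩ := h'
  obtain ⟨w, hw⟩ : ∃ w, K + 1 = v + (w + 2) := ⟨K + 1 - v - 2, by omega⟩
  have e : m' = 2 ^ v * (u - 4 * (2 ^ w * t)) := by
    have : m' = m - 2 ^ (K + 1) * t := by linarith
    rw [this, hm', hw, pow_add, show (2 : ℤ) ^ (w + 2) = 4 * 2 ^ w by ring]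
    ring
  set y := 2 ^ w * t
  have h1 : ¬ (2 : ℤ) ∣ (u - 4 * y) := by omega
  have h2 : decide ((u - 4 * y) % 4 = 3) = decide (u % 4 = 3) := by
    rw [decide_eq_decide]
    omega
  rw [hm', e, tau2_eq v u hu, tau2_eq v _ h1, h2]

theorem B01_mis2 (j : ℕ) (r : ℤ) (hj : 1 ≤ j) (h : (2 : ℤ) ^ j ∣ r)
    (h' : ¬ (2 : ℤ) ^ (j + 1) ∣ r) :
    ∃ m0 : ℤ, (2 : ℤ) ^ (j - 1) ∣ m0 ∧ ¬ (2 : ℤ) ^ (j + 1) ∣ m0 ∧ ¬ (2 : ℤ) ^ (j + 1) ∣ m0 - r ∧
      ∀ m : ℤ, (2 : ℤ) ^ (j + 1) ∣ m - m0 → tau2 m ≠ tau2 (m - r) := by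
  obtain ⟨r', rfl⟩ := h
  rw [B01_dvd (by norm_num)] at h'
  obtain ⟨i, rfl⟩ : ∃ i, j = i + 1 := ⟨j - 1, by omega⟩
  rw [show i + 1 - 1 = i by omega]
  have hd : ∀ x : ℤ, ¬ (2 : ℤ) ∣ x → ¬ (2 : ℤ) ^ (i + 1 + 1) ∣ 2 ^ i * x := by
    intro x hx hx'
    apply hx
    rw [← B01_dvd (by norm_num) i]
    exact (pow_dvd_pow 2 (by omega)).trans hx'
  refine ⟨2 ^ i, dvd_rfl, ?_, ?_, ?_⟩
  · have := hd 1 (by norm_num)
    rwa [mul_one] at this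
  · rw [show (2 : ℤ) ^ i - 2 ^ (i + 1) * r' = 2 ^ i * (1 - 2 * r') by ring]
    exact hd _ (by omega)
  · rintro m ⟨t, ht⟩
    have e1 : m = 2 ^ i * (1 + 4 * t) := by
      have : m = 2 ^ i + 2 ^ (i + 1 + 1) * t := by linarith
      rw [this]
      ring
    have e2 : m - 2 ^ (i + 1) * r' = 2 ^ i * (1 + 4 * t - 2 * r') := by
      rw [e1]
      ring
    have d1 : decide ((1 + 4 * t) % 4 = 3) = false := by
      rw [decide_eq_false_iff_not]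
      omega
    have d2 : decide ((1 + 4 * t - 2 * r') % 4 = 3) = true := by
      rw [decide_eq_true_iff]
      omega
    rw [e2, e1, tau2_eq i _ (by omega), tau2_eq i _ (by omega), d1, d2]
    cases decide (2 ≤ i ∧ i % 2 = 0) <;> simp

/-- The Chacon base. -/
def chaconBase : Base where
  p := 3
  two_le := by norm_num
  τ := tau3
  anti := B01_anti3
  loc := B01_loc3
  mis := B01_mis3

/-- The Rudin-Shapiro base. -/
def rsBase : Base where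
  p := 2
  two_le := by norm_num
  τ := tau2
  anti := B01_anti2
  loc := B01_loc2
  mis := B01_mis2

end Pool.Agent.helper98.NIG
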