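import Pool.Agent.helper98.NIG.Defs

/-!
# NIG-B02: singular sequences, addresses, gates

PROOFS.  Write `P = (b.p : ℤ)`.
* `skel_mem`: given `N` choose `K` with `N < P^K` (`P ≥ 2`). By `anti` one of `m = P^(K+1)`,
  `m = -P^(K+1)` satisfies `τ (-m) = h`; `|m| > N`. For `0 < |n| ≤ N`: `P^K` does not divide `n`
  and `P^(K+1)` divides `n - (n - m) = m`, so `τ n = τ (n - m)` by `loc`. For `n = 0` use
  `τ (-m) = h`.
* `exists_addr`: for every `N` there is `m_N` with `y n = τ (n - m_N)` for `|n| ≤ N`. The residues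
  `m_N % P^(J+1)` take finitely many values, so some `r` with `0 ≤ r < P^(J+1)` is the residue for
  arbitrarily large `N` (otherwise for each residue `r` there is a bound, take the maximum of the
  bounds). For `n` with `¬ P^J ∣ n - r` take such an `N ≥ |n|`: `y n = τ (n - m_N) = τ (n - r)`
  by `loc J` (`¬ P^J ∣ n - r`, `P^(J+1) ∣ (n - r) - (n - m_N)`).
* `exists_gate`: take the window `N = |a| + P^(K+1) + P^K` and `m` from the definition of the hull,
  and `c` in `[a, a + P^(K+1))` congruent to `m` modulo `P^(K+1)`. For `0 < |k| < P^K`: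
  `y (c+k) = τ (c + k - m) = τ k` by `loc K` (`¬ P^K ∣ k`).
* `gate_addr`: put `c` and `r`; suppose `¬ P^J ∣ r - c`, put `s = r - c`, `j = ` the largest exponent
  with `P^j ∣ s` (`j < J`). For every `u` with `0 < |u| < P^(J+2)`, `¬ P^J ∣ u`, `¬ P^J ∣ u - s`:
  `τ u = y (c + u) = τ (c + u - r) = τ (u - s)` (gate, then address). Both sides depend only on `u`
  modulo `P^(J+1)` (`loc J`), so (*) `τ u = τ (u - s)` for ALL `u` with `¬ P^J ∣ u`, `¬ P^J ∣ u - s`
  (every such `u` is congruent mod `P^(J+1)` to some `u'` with `0 < u' < P^(J+1)`).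
  Case `j ≥ 1`: `mis j s` gives `m0`; `u = m0` satisfies `¬ P^(j+1) ∣ m0`, `¬ P^(j+1) ∣ m0 - s` and
  `j + 1 ≤ J`, so (*) contradicts `τ m0 ≠ τ (m0 - s)`.
  Case `j = 0`: then `P * s` is divisible by `P` and not by `P^2` (as `P ∤ s`; NOTE: `p` need not be prime,
  but `P^2 ∣ P s` gives `P ∣ s`). `mis 1 (P s)` gives `m0`. Choose `u ≡ m0` mod `P^2` with
  `¬ P^J ∣ u - i s` for all `0 ≤ i ≤ p`: for `i = 0` and `i = p` this holds for all
  `u ≡ m0` mod `P^2` (`J ≥ 3`); for `1 ≤ i ≤ p - 1` exclude the residue `i s` mod `P^J`: at most `p - 1`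
  excluded residues among the `P^(J-2) ≥ P > p - 1` residues `m0 + P^2 t`, `0 ≤ t < P^(J-2)`. Then
  `τ u = τ (u - s) = ... = τ (u - p s)` by (*) `p` times, contradicting `mis`.
* `addr_unique`: apply the same argument (or `gate_addr` to a gate `c` of level `J + 2` found by
  `exists_gate`, twice): `P^J ∣ r - c` and `P^J ∣ r' - c`.
* `sing_of_addr`: `y ≠ y'` differ at some `n0`. For every `J ≥ 3` the common `r_J` satisfies
  `P^J ∣ n0 - r_J` (else both are `τ (n0 - r_J)`). For `n ≠ n0` choose `J ≥ 3` with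
  `¬ P^J ∣ n - n0`; `y n = τ (n - r_(J+1)) = τ (n - n0)` (`¬ P^(J+1) ∣ n - r_(J+1)` because
  `P^(J+1) ∣ n0 - r_(J+1)` and `¬ P^(J+1) ∣ n - n0`; then `loc J`). The same for `y'`. Hence
  `y = sh (-n0) (sg (y n0))` etc.
-/

namespace Pool.Agent.helper98.NIG

variable (b : Base)

/-- The singular sequence with the value `h` at the hole. -/
def skel (h : Bool) : ℤ → Bool := fun n => if n = 0 then h else b.τ n

theorem B02_two_le : (2 : ℤ) ≤ (b.p : ℤ) := by
  exact_mod_cast b.two_le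

theorem B02_lt_pow (N : ℕ) : (N : ℤ) < (b.p : ℤ) ^ N := by
  have h1 : 1 < b.p := by
    have := b.two_le
    omega
  exact_mod_cast Nat.lt_pow_self h1

theorem B02_pow_pos (N : ℕ) : (0 : ℤ) < (b.p : ℤ) ^ N := by
  have := B02_two_le b
  positivity

theorem B02_pow_le {M N : ℕ} (h : M ≤ N) : (b.p : ℤ) ^ M ≤ (b.p : ℤ) ^ N := by
  have := B02_two_le b
  exact pow_le_pow_right₀ (by linarith) h

/-- small nonzero numbers are not divisible -/
theorem B02_not_dvd {K : ℕ} {n : ℤ} (h0 : n ≠ 0) (h : |n| < (b.p : ℤ) ^ K) :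
    ¬ (b.p : ℤ) ^ K ∣ n := by
  intro hd
  have h1 : (b.p : ℤ) ^ K ≤ |n| := Int.le_of_dvd (abs_pos.2 h0) ((dvd_abs _ _).2 hd)
  linarith

theorem skel_mem (h : Bool) : skel b h ∈ b.Hull := by
  intro N
  have hK := B02_lt_pow b N
  have hle := B02_pow_le b (Nat.le_succ N)
  have hpos := B02_pow_pos b (N + 1)
  obtain ⟨m, hm, hτ⟩ : ∃ m : ℤ, (m = (b.p : ℤ) ^ (N + 1) ∨ m = -(b.p : ℤ) ^ (N + 1)) ∧
      b.τ (-m) = h := by
    by_cases hc : b.τ (-((b.p : ℤ) ^ (N + 1))) = h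
    · exact ⟨_, Or.inl rfl, hc⟩
    · refine ⟨-(b.p : ℤ) ^ (N + 1), Or.inr rfl, ?_⟩
      have h1 := b.anti ((b.p : ℤ) ^ (N + 1)) hpos.ne'
      rw [neg_neg]
      rw [h1] at hc
      revert hc
      cases b.τ ((b.p : ℤ) ^ (N + 1)) <;> cases h <;> simp
  have habs : |m| = (b.p : ℤ) ^ (N + 1) := by
    rcases hm with rfl | rfl
    · exact abs_of_pos hpos
    · rw [abs_neg]
      exact abs_of_pos hpos
  have hdvd : (b.p : ℤ) ^ (N + 1) ∣ m := by
    rcases hm with rfl | rfl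
    · exact dvd_refl _
    · exact (dvd_neg).2 (dvd_refl _)
  refine ⟨m, ?_, fun n hn => ?_⟩
  · rw [habs]
    exact lt_of_lt_of_le hK hle
  · unfold skel
    by_cases hn0 : n = 0
    · subst hn0
      rw [if_pos rfl, zero_sub, hτ]
    · rw [if_neg hn0]
      refine b.loc N n (n - m) (B02_not_dvd b hn0 (lt_of_le_of_lt hn hK)) ?_
      rw [sub_sub_cancel]
      exact hdvd

/-- The singular point of the hull. -/
def sg (h : Bool) : b.Hull := ⟨skel b h, skel_mem b h⟩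

variable {b}

/-- `r` is an address of `y` at level `J`. -/
def Addr (y : b.Hull) (J : ℕ) (r : ℤ) : Prop :=
  ∀ n : ℤ, ¬ (b.p : ℤ) ^ J ∣ n - r → y.1 n = b.τ (n - r)

/-- `c` is a gate of level `K` of `y`: near `c` the sequence looks like the skeleton. -/
def IsGate (y : b.Hull) (K : ℕ) (c : ℤ) : Prop :=
  ∀ k : ℤ, 0 < |k| → |k| < (b.p : ℤ) ^ K → y.1 (c + k) = b.τ k

theorem exists_addr (y : b.Hull) (J : ℕ) : ∃ r : ℤ, Addr y J r := by
  have hpos := B02_pow_pos b (J + 1)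
  choose m hm using y.2
  have hfin : Finite (Set.Ico (0 : ℤ) ((b.p : ℤ) ^ (J + 1))) := Set.finite_Ico _ _
  obtain ⟨r, hr⟩ := Finite.exists_infinite_fiber
    (fun N : ℕ => (⟨m N % (b.p : ℤ) ^ (J + 1), Int.emod_nonneg _ hpos.ne',
      Int.emod_lt_of_pos _ hpos⟩ : Set.Ico (0 : ℤ) ((b.p : ℤ) ^ (J + 1))))
  refine ⟨r.1, fun n hn => ?_⟩
  have hr' := Set.infinite_coe_iff.1 hr
  obtain ⟨N, hN, hlt⟩ := hr'.exists_gt n.natAbs
  have hN1 : m N % (b.p : ℤ) ^ (J + 1) = r.1 := congrArg Subtype.val hN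
  have h1 : |n| ≤ (N : ℤ) := by
    rw [Int.abs_eq_natAbs]
    exact_mod_cast hlt.le
  rw [(hm N).2 n h1]
  symm
  refine b.loc J (n - r.1) (n - m N) hn ?_
  have h2 : n - r.1 - (n - m N) = m N - r.1 := by ring
  rw [h2, ← hN1]
  exact Int.dvd_self_sub_emod

theorem exists_gate (y : b.Hull) (K : ℕ) (a : ℤ) :
    ∃ c : ℤ, a ≤ c ∧ c < a + (b.p : ℤ) ^ (K + 1) ∧ IsGate y K c := by
  have hpos := B02_pow_pos b (K + 1)
  obtain ⟨m, -, hm⟩ := y.2 (a.natAbs + b.p ^ (K + 1) + b.p ^ K)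
  have h1 := Int.emod_nonneg (m - a) hpos.ne'
  have h2 := Int.emod_lt_of_pos (m - a) hpos
  refine ⟨a + (m - a) % (b.p : ℤ) ^ (K + 1), by linarith, by linarith, ?_⟩
  intro k hk0 hk
  have h3 : |a + (m - a) % (b.p : ℤ) ^ (K + 1) + k| ≤
      ((a.natAbs + b.p ^ (K + 1) + b.p ^ K : ℕ) : ℤ) := by
    push_cast
    have h4 := abs_add_le (a + (m - a) % (b.p : ℤ) ^ (K + 1)) k
    have h5 := abs_add_le a ((m - a) % (b.p : ℤ) ^ (K + 1))
    rw [abs_of_nonneg h1] at h5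
    linarith
  rw [hm _ h3]
  symm
  refine b.loc K k _ (B02_not_dvd b (abs_pos.1 hk0) hk) ?_
  have h6 : k - (a + (m - a) % (b.p : ℤ) ^ (K + 1) + k - m) =
      (m - a) - (m - a) % (b.p : ℤ) ^ (K + 1) := by ring
  rw [h6]
  exact Int.dvd_self_sub_emod

/-- the shift identity -/
theorem B02_star {y : b.Hull} {J : ℕ} {c r : ℤ} (hc : IsGate y (J + 2) c)
    (hr : Addr y J r) (u : ℤ) (hu : ¬ (b.p : ℤ) ^ J ∣ u)
    (hus : ¬ (b.p : ℤ) ^ J ∣ u - (r - c)) : b.τ u = b.τ (u - (r - c)) := by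
  have hpos := B02_pow_pos b (J + 1)
  have hd : (b.p : ℤ) ^ (J + 1) ∣ u - u % (b.p : ℤ) ^ (J + 1) := Int.dvd_self_sub_emod
  have hd' : (b.p : ℤ) ^ J ∣ u - u % (b.p : ℤ) ^ (J + 1) :=
    (pow_dvd_pow _ (Nat.le_succ J)).trans hd
  have h1 := Int.emod_nonneg u hpos.ne'
  have h2 := Int.emod_lt_of_pos u hpos
  generalize u % (b.p : ℤ) ^ (J + 1) = u' at hd hd' h1 h2
  have hu' : ¬ (b.p : ℤ) ^ J ∣ u' := by
    intro h
    apply hu
    have := dvd_add hd' h
    rwa [sub_add_cancel] at this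
  have hus' : ¬ (b.p : ℤ) ^ J ∣ u' - (r - c) := by
    intro h
    apply hus
    have := dvd_add hd' h
    have e : u - u' + (u' - (r - c)) = u - (r - c) := by ring
    rwa [e] at this
  have hne : u' ≠ 0 := by
    rintro rfl
    exact hu' (dvd_zero _)
  have h3 : |u'| < (b.p : ℤ) ^ (J + 2) := by
    rw [abs_of_nonneg h1]
    exact lt_of_lt_of_le h2 (B02_pow_le b (by omega))
  have e1 := hc u' (abs_pos.2 hne) h3
  have e2 := hr (c + u') (by
    have e : c + u' - r = u' - (r - c) := by ring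
    rw [e]
    exact hus')
  have e3 : c + u' - r = u' - (r - c) := by ring
  rw [e3] at e2
  have e4 := b.loc J u u' hu hd
  have e5 := b.loc J (u - (r - c)) (u' - (r - c)) hus (by
    have e : u - (r - c) - (u' - (r - c)) = u - u' := by ring
    rw [e]
    exact hd)
  rw [e4, e5, ← e1, e2]

/-- a good starting residue -/
theorem B02_exists_u {J : ℕ} (hJ : 3 ≤ J) (m0 s : ℤ) :
    ∃ u : ℤ, (b.p : ℤ) ^ 2 ∣ u - m0 ∧ ∀ i : ℕ, 1 ≤ i → i < b.p →
      ¬ (b.p : ℤ) ^ J ∣ u - i * s := by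
  by_contra hcon
  push Not at hcon
  have h2 := b.two_le
  have hp := B02_two_le b
  have hcon' : ∀ t : ℕ, ∃ i : ℕ, 1 ≤ i ∧ i < b.p ∧
      (b.p : ℤ) ^ J ∣ m0 + (b.p : ℤ) ^ 2 * t - i * s := by
    intro t
    obtain ⟨i, hi1, hi2, hi3⟩ := hcon (m0 + (b.p : ℤ) ^ 2 * t) ⟨t, by ring⟩
    exact ⟨i, hi1, hi2, hi3⟩
  choose i hi1 hi2 hi3 using hcon'
  have hcard : (Finset.Ico 1 b.p).card < (Finset.range b.p).card := by
    rw [Nat.card_Ico, Finset.card_range]
    omega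
  obtain ⟨t, ht, t', ht', hne, heq⟩ := Finset.exists_ne_map_eq_of_card_lt_of_maps_to hcard
    (f := i) (fun t _ => Finset.mem_coe.2 (Finset.mem_Ico.2 ⟨hi1 t, hi2 t⟩))
  have h3 := dvd_sub (hi3 t) (hi3 t')
  rw [heq] at h3
  have h4 : m0 + (b.p : ℤ) ^ 2 * t - i t' * s - (m0 + (b.p : ℤ) ^ 2 * t' - i t' * s) =
      (b.p : ℤ) ^ 2 * (t - t') := by ring
  rw [h4] at h3
  have h5 : (b.p : ℤ) ^ 2 * (b.p : ℤ) ∣ (b.p : ℤ) ^ 2 * (t - t') := by
    have : (b.p : ℤ) ^ 2 * (b.p : ℤ) = (b.p : ℤ) ^ 3 := by ring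
    rw [this]
    exact (pow_dvd_pow _ hJ).trans h3
  have h6 : (b.p : ℤ) ∣ (t : ℤ) - t' :=
    (mul_dvd_mul_iff_left (pow_ne_zero 2 (by linarith : (b.p : ℤ) ≠ 0))).1 h5
  have ht1 := Finset.mem_range.1 ht
  have ht2 := Finset.mem_range.1 ht'
  have h7 : |(t : ℤ) - t'| < (b.p : ℤ) := by
    rw [abs_lt]
    constructor <;> omega
  have h8 : (t : ℤ) - t' = 0 := Int.eq_zero_of_abs_lt_dvd h6 h7
  apply hne
  omega

theorem gate_addr {y : b.Hull} {J : ℕ} (hJ : 3 ≤ J) {c r : ℤ} (hc : IsGate y (J + 2) c)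
    (hr : Addr y J r) : (b.p : ℤ) ^ J ∣ r - c := by
  classical
  by_contra hs
  have hstar := B02_star hc hr
  generalize hsd : r - c = s at hs hstar
  have hp := B02_two_le b
  -- the exact power of `P` in `s`
  have hex : ∃ k : ℕ, ¬ (b.p : ℤ) ^ k ∣ s := ⟨J, hs⟩
  have hk := Nat.find_spec hex
  have hkJ : Nat.find hex ≤ J := Nat.find_min' hex hs
  have hk0 : Nat.find hex ≠ 0 := by
    intro h
    rw [h, pow_zero] at hk
    exact hk (one_dvd _)
  obtain ⟨j, hj⟩ := Nat.exists_eq_succ_of_ne_zero hk0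
  have hj1 : (b.p : ℤ) ^ j ∣ s := by
    by_contra h
    have := Nat.find_min' hex h
    omega
  rw [hj] at hk hkJ
  rcases Nat.eq_zero_or_pos j with h0 | h1
  · subst h0
    have hk' : ¬ (b.p : ℤ) ∣ s := by
      simpa using hk
    obtain ⟨m0, -, hm1, hm2, hm3⟩ := b.mis 1 ((b.p : ℤ) * s) le_rfl
      (by rw [pow_one]; exact Dvd.intro _ rfl)
      (by
        intro h
        apply hk'
        have h2 : (b.p : ℤ) ^ (1 + 1) = (b.p : ℤ) * (b.p : ℤ) := by ring
        rw [h2] at h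
        exact (mul_dvd_mul_iff_left (by linarith : (b.p : ℤ) ≠ 0)).1 h)
    norm_num at hm1 hm2 hm3
    obtain ⟨u, hu1, hu2⟩ := B02_exists_u (b := b) hJ m0 s
    have hle : (b.p : ℤ) ^ 2 ∣ (b.p : ℤ) ^ J := pow_dvd_pow _ (by omega)
    have hall : ∀ i : ℕ, i ≤ b.p → ¬ (b.p : ℤ) ^ J ∣ u - i * s := by
      intro i hi
      rcases Nat.eq_zero_or_pos i with hi0 | hi0
      · subst hi0
        intro h
        apply hm1
        have h3 := dvd_sub (hle.trans h) hu1
        have e : u - ((0 : ℕ) : ℤ) * s - (u - m0) = m0 := by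
          push_cast
          ring
        rwa [e] at h3
      · rcases Nat.lt_or_ge i b.p with hlt | hge
        · exact hu2 i hi0 hlt
        · have hip : i = b.p := le_antisymm hi hge
          subst hip
          intro h
          apply hm2
          have h3 := dvd_sub (hle.trans h) hu1
          have e : u - (b.p : ℤ) * s - (u - m0) = m0 - (b.p : ℤ) * s := by ring
          rwa [e] at h3
    have hind : ∀ i : ℕ, i ≤ b.p → b.τ u = b.τ (u - i * s) := by
      intro i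
      induction i with
      | zero =>
        intro _
        norm_num
      | succ i ih =>
        intro hi
        have e : u - ((i + 1 : ℕ) : ℤ) * s = u - i * s - s := by
          push_cast
          ring
        have h3 := hall (i + 1) hi
        rw [e] at h3 ⊢
        rw [ih (by omega)]
        exact hstar _ (hall i (by omega)) h3
    exact hm3 u hu1 (hind b.p le_rfl)
  · obtain ⟨m0, -, hm1, hm2, hm3⟩ := b.mis j s h1 hj1 hk
    have hle : (b.p : ℤ) ^ (j + 1) ∣ (b.p : ℤ) ^ J := pow_dvd_pow _ hkJ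
    refine hm3 m0 (by simp) (hstar m0 (fun h => hm1 (hle.trans h)) (fun h => hm2 (hle.trans h)))

theorem addr_unique {y : b.Hull} {J : ℕ} (hJ : 3 ≤ J) {r r' : ℤ} (hr : Addr y J r)
    (hr' : Addr y J r') : (b.p : ℤ) ^ J ∣ r - r' := by
  obtain ⟨c, -, -, hc⟩ := exists_gate y (J + 2) 0
  have h1 := gate_addr hJ hc hr
  have h2 := gate_addr hJ hc hr'
  have h3 := dvd_sub h1 h2
  have e : r - c - (r' - c) = r - r' := by ring
  rwa [e] at h3

/-- A multiple shift of an address: `r + t` is an address when `P^(J+1) ∣ t`. -/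
theorem Addr.add {y : b.Hull} {J : ℕ} {r t : ℤ} (hr : Addr y J r)
    (ht : (b.p : ℤ) ^ (J + 1) ∣ t) : Addr y J (r + t) := by
  intro n hn
  have ht' : (b.p : ℤ) ^ J ∣ t := (pow_dvd_pow _ (Nat.le_succ J)).trans ht
  have h1 : ¬ (b.p : ℤ) ^ J ∣ n - r := by
    intro h
    apply hn
    have h2 := dvd_sub h ht'
    have e : n - r - t = n - (r + t) := by ring
    rwa [e] at h2
  rw [hr n h1]
  refine b.loc J _ _ h1 ?_
  have e : n - r - (n - (r + t)) = t := by ring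
  rw [e]
  exact ht

theorem B02_off {y : b.Hull} {n0 : ℤ} (h : ∀ J : ℕ, ∃ r : ℤ, Addr y J r ∧ (b.p : ℤ) ^ J ∣ n0 - r)
    {n : ℤ} (hn : n ≠ n0) : y.1 n = b.τ (n - n0) := by
  have hne : n - n0 ≠ 0 := sub_ne_zero.2 hn
  have hlt : |n - n0| < (b.p : ℤ) ^ (n - n0).natAbs := by
    rw [Int.abs_eq_natAbs]
    exact B02_lt_pow b _
  have hnd := B02_not_dvd b hne hlt
  generalize (n - n0).natAbs = J at hlt hnd
  obtain ⟨r, hr, hd⟩ := h (J + 1)
  have hnd' : ¬ (b.p : ℤ) ^ (J + 1) ∣ n - r := by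
    intro h1
    apply hnd
    have h2 := dvd_sub h1 hd
    have e : n - r - (n0 - r) = n - n0 := by ring
    rw [e] at h2
    exact (pow_dvd_pow _ (Nat.le_succ J)).trans h2
  rw [hr n hnd']
  symm
  refine b.loc J _ _ hnd ?_
  have e : n - n0 - (n - r) = -(n0 - r) := by ring
  rw [e]
  exact (dvd_neg).2 hd

theorem sing_of_addr {y y' : b.Hull} (hne : y ≠ y')
    (h : ∀ J : ℕ, ∃ r : ℤ, Addr y J r ∧ Addr y' J r) :
    ∃ (n : ℤ) (h : Bool), y = sh n (sg b h) ∧ y' = sh n (sg b (!h)) := by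
  obtain ⟨n0, hn0⟩ : ∃ n0, y.1 n0 ≠ y'.1 n0 := by
    by_contra hcon
    push Not at hcon
    exact hne (Subtype.ext (funext hcon))
  have hdv : ∀ J : ℕ, ∃ r : ℤ, (Addr y J r ∧ Addr y' J r) ∧ (b.p : ℤ) ^ J ∣ n0 - r := by
    intro J
    obtain ⟨r, hr, hr'⟩ := h J
    refine ⟨r, ⟨hr, hr'⟩, ?_⟩
    by_contra hcon
    exact hn0 ((hr n0 hcon).trans (hr' n0 hcon).symm)
  have hy : ∀ n, n ≠ n0 → y.1 n = b.τ (n - n0) := fun n hn =>
    B02_off (fun J => by
      obtain ⟨r, hr, hd⟩ := hdv J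
      exact ⟨r, hr.1, hd⟩) hn
  have hy' : ∀ n, n ≠ n0 → y'.1 n = b.τ (n - n0) := fun n hn =>
    B02_off (fun J => by
      obtain ⟨r, hr, hd⟩ := hdv J
      exact ⟨r, hr.2, hd⟩) hn
  refine ⟨-n0, y.1 n0, ?_, ?_⟩
  · apply Subtype.ext
    funext k
    show y.1 k = skel b (y.1 n0) (k + -n0)
    unfold skel
    by_cases hk : k = n0
    · subst hk
      rw [if_pos (by ring)]
    · rw [if_neg (by omega), hy k hk]
      rfl
  · apply Subtype.ext
    funext k
    show y'.1 k = skel b (!(y.1 n0)) (k + -n0)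
    unfold skel
    by_cases hk : k = n0
    · subst hk
      rw [if_pos (by ring)]
      revert hn0
      cases y.1 k <;> cases y'.1 k <;> simp
    · rw [if_neg (by omega), hy' k hk]
      rfl

end Pool.Agent.helper98.NIG
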