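import Pool.Agent.helper98.NIG.B02

/-!
# NIG-B03: linear recurrence and bounded powers of the hull

PROOFS.  `P = (b.p : ℤ)`, `p ≥ 2`.
* `linear_rec` (with `C = P^8`): let `y, y'`, `N`, `a` be given. Choose `K` with
  `2N + 2 ≤ P^K ≤ P (2N + 2)` (the least `K` with `2N+2 ≤ P^K`). By definition of the hull for `y'` with
  a large window `M` (`M ≥ N`) there is `m` with `|m| > M` and `y' n = τ (n - m)` for `|n| ≤ N`
  (only `|m| > N` is needed).
  (1) There is at most one `n0` with `|n0| ≤ N` and `P^K ∣ n0 - m` (two of them differ by a non-zero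
  multiple of `P^K > 2N`). If there is none put `n0 = 0`, `g = -m`... more uniformly: we look for
  `g' : ℤ` with `|g'| ≤ P^(K+4)`, `P^(K+2) ∣ g' + m` and, if `n0` exists, `n0 + g' ≠ 0`,
  `τ (n0 + g') = τ (n0 - m)`.
    - If no `n0` exists take `g'` = the residue of `-m` mod `P^(K+2)` in `[0, P^(K+2))`.
    - If `n0` exists put `g = n0 - m` (`g ≠ 0` because `|m| > N`). If `¬ P^(K+3) ∣ g` let `q` be the residue of
      `g` mod `P^(K+4)` in `[0, P^(K+4))`, it is not divisible by `P^(K+3)`, so `q ≠ 0` and `τ q = τ g` by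
      `loc (K+3)`; `g' = q - n0`. If `P^(K+3) ∣ g` take `q = ± P^(K+3)` with `τ q = τ g` (`anti`),
      `g' = q - n0`.
  (2) By `exists_gate y (K + 6) a'` there is a gate `c` of level `K + 6` in `[a', a' + P^(K+7))`, where
  `a' = a + P^(K+5)`; put `t = c + g'`. Then `t ≥ a` and `t ≤ a + C (N + 1)` (check the powers:
  `P^(K+5) + P^(K+7) + P^(K+4) + N ≤ P^8 ... `: use `P^K ≤ P (2N+2)`; take `C = P^12` if more room is convenient:
  the constant in the statement is existential).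
  For `|n| ≤ N`: `y (n + t) = y (c + (n + g')) = τ (n + g')` provided `0 < |n + g'| < P^(K+6)`.
  For `n ≠ n0`: `¬ P^K ∣ n - m`, `P^(K+1) ∣ (n + g') - (n - m)`, so `n + g' ≠ 0` (it is not divisible by
  `P^K` either) and `τ (n + g') = τ (n - m) = y' n`. For `n = n0` it is the choice of `g'`.
* `bounded_powers` (`C = p^2 + 2 p + 4` or larger, existential): let `s ≠ 0` and assume `y (n + s) = y n` for
  all `n` in `[a, a + C |s|]`. Let `j` be maximal with `P^j ∣ s`.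
  Case `j ≥ 1`: `mis j s` gives `m0`; let `r` be an address of `y` at level `j + 1` (`exists_addr`). In every
  interval of length `P^(j+1) ≤ P |s|` there is `n` with `n + s - r ≡ m0` mod `P^(j+1)`, and then
  `y (n+s) = τ (n + s - r) ≠ τ (n - r) = y n` (both arguments are not divisible by `P^(j+1)`).
  Case `j = 0`: then `y (n + p s) = y n` for all `n` in `[a + p|s|, a + C|s| - p |s|]` (iterate `p`
  times), and `P ∣ P s`, `¬ P^2 ∣ P s`: argue as in the first case with `P s` and `j = 1` (interval of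
  length `P^2`).
* `sh_inj`: a consequence: if `sh n y = sh m y` then `y (k + (n - m)) = y k` for all `k`, so `n = m`.
-/

namespace Pool.Agent.helper98.NIG

variable {b : Base}

theorem B03_two_le (b : Base) : (2 : ℤ) ≤ (b.p : ℤ) := by exact_mod_cast b.two_le

theorem B03_pow_lt (b : Base) {i j : ℕ} (h : i < j) : (b.p : ℤ) ^ i < (b.p : ℤ) ^ j :=
  pow_lt_pow_right₀ (by linarith [B03_two_le b]) h

theorem B03_bool {x y : Bool} (h : ¬ x = y) : (!x) = y := by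
  revert h
  cases x <;> cases y <;> simp

theorem B03_exists_res (M r a : ℤ) (hM : 0 < M) : ∃ n : ℤ, a ≤ n ∧ n < a + M ∧ M ∣ n - r := by
  refine ⟨a + (r - a) % M, ?_, ?_, ?_⟩
  · have := Int.emod_nonneg (r - a) hM.ne'
    linarith
  · have := Int.emod_lt_of_pos (r - a) hM
    linarith
  · have h : a + (r - a) % M - r = -((r - a) - (r - a) % M) := by ring
    rw [h, dvd_neg]
    exact Int.dvd_self_sub_emod

/-- The choice of `g'`. -/
theorem B03_choice (b : Base) (N K : ℕ) (hK : 2 * (N : ℤ) + 2 ≤ (b.p : ℤ) ^ K) (m : ℤ)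
    (hm : (N : ℤ) < |m|) : ∃ g : ℤ, |g| ≤ (b.p : ℤ) ^ (K + 4) + N ∧
      ∀ n : ℤ, |n| ≤ N → n + g ≠ 0 ∧ b.τ (n + g) = b.τ (n - m) := by
  have hP := B03_two_le b
  have hP0 : (0 : ℤ) < (b.p : ℤ) := by linarith
  -- the generic points
  have gen : ∀ g : ℤ, (b.p : ℤ) ^ (K + 1) ∣ g + m → ∀ n : ℤ, ¬ (b.p : ℤ) ^ K ∣ n - m →
      n + g ≠ 0 ∧ b.τ (n + g) = b.τ (n - m) := by
    intro g hg n hn
    have h1 : (b.p : ℤ) ^ K ∣ g + m := (pow_dvd_pow _ (Nat.le_succ K)).trans hg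
    constructor
    · intro h0
      apply hn
      have h2 : n - m = -(g + m) := by linarith
      rw [h2, dvd_neg]
      exact h1
    · symm
      apply b.loc K _ _ hn
      have h3 : n - m - (n + g) = -(g + m) := by ring
      rw [h3, dvd_neg]
      exact hg
  by_cases hex : ∃ n0 : ℤ, |n0| ≤ N ∧ (b.p : ℤ) ^ K ∣ n0 - m
  · obtain ⟨n0, hn0, hd0⟩ := hex
    have huniq : ∀ n : ℤ, |n| ≤ N → (b.p : ℤ) ^ K ∣ n - m → n = n0 := by
      intro n hn hd
      have h1 : (b.p : ℤ) ^ K ∣ n - n0 := by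
        have := dvd_sub hd hd0
        have h2 : n - m - (n0 - m) = n - n0 := by ring
        rwa [h2] at this
      by_contra hne
      have h2 : (b.p : ℤ) ^ K ≤ |n - n0| := by
        apply Int.le_of_dvd (abs_pos.mpr (sub_ne_zero.mpr hne))
        rwa [dvd_abs]
      have h3 : |n - n0| ≤ |n| + |n0| := abs_sub n n0
      linarith
    have hg0 : n0 - m ≠ 0 := by
      intro h
      have : n0 = m := by linarith
      rw [this] at hn0
      linarith
    obtain ⟨q, hq0, hqτ, hqd, hqs⟩ : ∃ q : ℤ, q ≠ 0 ∧ b.τ q = b.τ (n0 - m) ∧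
        (b.p : ℤ) ^ (K + 1) ∣ q - (n0 - m) ∧ |q| ≤ (b.p : ℤ) ^ (K + 4) := by
      by_cases hd : (b.p : ℤ) ^ (K + 3) ∣ n0 - m
      · have hpos : (0 : ℤ) < (b.p : ℤ) ^ (K + 3) := by positivity
        have hdd : (b.p : ℤ) ^ (K + 1) ∣ (b.p : ℤ) ^ (K + 3) := pow_dvd_pow _ (by omega)
        have hle : (b.p : ℤ) ^ (K + 3) ≤ (b.p : ℤ) ^ (K + 4) := (B03_pow_lt b (by omega)).le
        by_cases ht : b.τ ((b.p : ℤ) ^ (K + 3)) = b.τ (n0 - m)
        · exact ⟨_, hpos.ne', ht, dvd_sub hdd (hdd.trans hd), by rwa [abs_of_pos hpos]⟩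
        · refine ⟨-(b.p : ℤ) ^ (K + 3), neg_ne_zero.mpr hpos.ne', ?_, ?_, ?_⟩
          · rw [b.anti _ hpos.ne']
            exact B03_bool ht
          · exact dvd_sub ((dvd_neg).mpr hdd) (hdd.trans hd)
          · rw [abs_neg, abs_of_pos hpos]
            exact hle
      · have hpos : (0 : ℤ) < (b.p : ℤ) ^ (K + 4) := by positivity
        have hdiv : (b.p : ℤ) ^ (K + 4) ∣ (n0 - m) - (n0 - m) % (b.p : ℤ) ^ (K + 4) :=
          Int.dvd_self_sub_emod
        have hq : ¬ (b.p : ℤ) ^ (K + 3) ∣ (n0 - m) % (b.p : ℤ) ^ (K + 4) := by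
          intro h
          apply hd
          have h1 : (b.p : ℤ) ^ (K + 3) ∣ (n0 - m) - (n0 - m) % (b.p : ℤ) ^ (K + 4) :=
            (pow_dvd_pow _ (by omega)).trans hdiv
          have := dvd_add h1 h
          simpa using this
        refine ⟨(n0 - m) % (b.p : ℤ) ^ (K + 4), ?_, ?_, ?_, ?_⟩
        · intro h
          apply hq
          rw [h]
          exact dvd_zero _
        · symm
          exact b.loc (K + 3) _ _ hd hdiv
        · have h1 : (n0 - m) % (b.p : ℤ) ^ (K + 4) - (n0 - m) =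
              -((n0 - m) - (n0 - m) % (b.p : ℤ) ^ (K + 4)) := by ring
          rw [h1, dvd_neg]
          exact (pow_dvd_pow _ (by omega)).trans hdiv
        · rw [abs_of_nonneg (Int.emod_nonneg _ hpos.ne')]
          exact (Int.emod_lt_of_pos _ hpos).le
    refine ⟨q - n0, ?_, ?_⟩
    · have := abs_sub q n0
      linarith
    · intro n hn
      by_cases hd : (b.p : ℤ) ^ K ∣ n - m
      · have := huniq n hn hd
        subst this
        have h1 : n + (q - n) = q := by ring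
        rw [h1]
        exact ⟨hq0, hqτ⟩
      · apply gen _ _ n hd
        have h1 : q - n0 + m = q - (n0 - m) := by ring
        rwa [h1]
  · push Not at hex
    have hpos : (0 : ℤ) < (b.p : ℤ) ^ (K + 1) := by positivity
    refine ⟨(-m) % (b.p : ℤ) ^ (K + 1), ?_, ?_⟩
    · rw [abs_of_nonneg (Int.emod_nonneg _ hpos.ne')]
      have h1 := Int.emod_lt_of_pos (-m) hpos
      have h2 := B03_pow_lt b (show K + 1 < K + 4 by omega)
      have h3 : (0 : ℤ) ≤ N := Int.natCast_nonneg N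
      linarith
    · intro n hn
      apply gen _ _ n (hex n hn)
      have h1 : (-m) % (b.p : ℤ) ^ (K + 1) + m = -((-m) - (-m) % (b.p : ℤ) ^ (K + 1)) := by ring
      rw [h1, dvd_neg]
      exact Int.dvd_self_sub_emod

theorem B03_exists_K (b : Base) (N : ℕ) : ∃ K : ℕ, 2 * (N : ℤ) + 2 ≤ (b.p : ℤ) ^ K ∧
    (b.p : ℤ) ^ K ≤ b.p * (2 * (N : ℤ) + 2) := by
  have hP := B03_two_le b
  have hP0 : (0 : ℤ) < (b.p : ℤ) := by linarith
  have hex : ∃ K : ℕ, 2 * (N : ℤ) + 2 ≤ (b.p : ℤ) ^ K := by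
    refine ⟨2 * N + 2, ?_⟩
    have h1 : 2 * N + 2 < b.p ^ (2 * N + 2) := Nat.lt_pow_self b.two_le
    exact_mod_cast h1.le
  classical
  refine ⟨Nat.find hex, Nat.find_spec hex, ?_⟩
  have hne : Nat.find hex ≠ 0 := by
    intro h0
    have := Nat.find_spec hex
    rw [h0, pow_zero] at this
    have h3 : (0 : ℤ) ≤ N := Int.natCast_nonneg N
    linarith
  obtain ⟨K, hK⟩ := Nat.exists_eq_succ_of_ne_zero hne
  have h1 : ¬ (2 * (N : ℤ) + 2 ≤ (b.p : ℤ) ^ K) := Nat.find_min hex (by omega)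
  rw [hK, pow_succ]
  push Not at h1
  nlinarith

theorem linear_rec (b : Base) : ∃ C : ℕ, 0 < C ∧ ∀ (y y' : b.Hull) (N : ℕ) (a : ℤ),
    ∃ t : ℤ, a ≤ t ∧ t ≤ a + C * (N + 1) ∧ ∀ n : ℤ, |n| ≤ N → y.1 (n + t) = y'.1 n := by
  have hP := B03_two_le b
  have hP0 : (0 : ℤ) < (b.p : ℤ) := by linarith
  have hp0 : 0 < b.p := by exact_mod_cast hP0
  refine ⟨2 * b.p ^ 10, by positivity, fun y y' N a => ?_⟩
  have hN0 : (0 : ℤ) ≤ N := Int.natCast_nonneg N
  obtain ⟨K, hK1, hK2⟩ := B03_exists_K b N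
  obtain ⟨m, hm, hy'⟩ := y'.2 N
  obtain ⟨g, hg, hgn⟩ := B03_choice b N K hK1 m hm
  obtain ⟨c, hc1, hc2, hc3⟩ := exists_gate y (K + 6) (a + (b.p : ℤ) ^ (K + 5))
  have hKpos : (0 : ℤ) < (b.p : ℤ) ^ K := by positivity
  set Q : ℤ := (b.p : ℤ) ^ K with hQ
  have e4 : (b.p : ℤ) ^ (K + 4) = Q * (b.p : ℤ) ^ 4 := pow_add _ _ _
  have e5 : (b.p : ℤ) ^ (K + 5) = (b.p : ℤ) ^ (K + 4) * b.p := pow_succ _ _
  have e6 : (b.p : ℤ) ^ (K + 6) = (b.p : ℤ) ^ (K + 5) * b.p := pow_succ _ _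
  have e7 : (b.p : ℤ) ^ (K + 6 + 1) = (b.p : ℤ) ^ (K + 6) * b.p := pow_succ _ _
  have e8 : (b.p : ℤ) ^ (K + 8) = (b.p : ℤ) ^ (K + 6 + 1) * b.p := pow_succ _ _
  have e9 : (b.p : ℤ) ^ (K + 9) = (b.p : ℤ) ^ (K + 8) * b.p := pow_succ _ _
  have h4 : Q ≤ (b.p : ℤ) ^ (K + 4) := (B03_pow_lt b (by omega)).le
  have h5 : 2 * (b.p : ℤ) ^ (K + 4) ≤ (b.p : ℤ) ^ (K + 5) := by rw [e5]; nlinarith
  have h6 : 2 * (b.p : ℤ) ^ (K + 5) ≤ (b.p : ℤ) ^ (K + 6) := by rw [e6]; nlinarith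
  have h7 : 2 * (b.p : ℤ) ^ (K + 6) ≤ (b.p : ℤ) ^ (K + 6 + 1) := by rw [e7]; nlinarith
  have h8 : 2 * (b.p : ℤ) ^ (K + 6 + 1) ≤ (b.p : ℤ) ^ (K + 8) := by rw [e8]; nlinarith
  have h9 : 2 * (b.p : ℤ) ^ (K + 8) ≤ (b.p : ℤ) ^ (K + 9) := by rw [e9]; nlinarith
  have h10 : (b.p : ℤ) ^ (K + 9) ≤ 2 * (b.p : ℤ) ^ 10 * (N + 1) := by
    have : (b.p : ℤ) ^ (K + 9) = Q * (b.p : ℤ) ^ 9 := pow_add _ _ _
    rw [this]
    have h11 : Q * (b.p : ℤ) ^ 9 ≤ (b.p * (2 * (N : ℤ) + 2)) * (b.p : ℤ) ^ 9 :=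
      mul_le_mul_of_nonneg_right hK2 (by positivity)
    have h12 : (b.p * (2 * (N : ℤ) + 2)) * (b.p : ℤ) ^ 9 = 2 * (b.p : ℤ) ^ 10 * (N + 1) := by ring
    linarith
  have hg' := abs_le.mp hg
  refine ⟨c + g, ?_, ?_, ?_⟩
  · linarith [hg'.1]
  · push_cast
    linarith [hg'.2]
  · intro n hn
    obtain ⟨h0, hτ⟩ := hgn n hn
    have h1 : n + (c + g) = c + (n + g) := by ring
    rw [h1, hc3 (n + g) (abs_pos.mpr h0), hτ, hy' n hn]
    have h2 := abs_add_le n g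
    linarith

theorem B03_key {b : Base} (y : b.Hull) (s : ℤ) (j : ℕ) (hj : 1 ≤ j) (h1 : (b.p : ℤ) ^ j ∣ s)
    (h2 : ¬ (b.p : ℤ) ^ (j + 1) ∣ s) (a : ℤ) :
    ∃ n : ℤ, a ≤ n ∧ n < a + (b.p : ℤ) ^ (j + 1) ∧ y.1 (n + s) ≠ y.1 n := by
  have hP := B03_two_le b
  have hP0 : (0 : ℤ) < (b.p : ℤ) := by linarith
  obtain ⟨m0, -, hm1, hm2, hm3⟩ := b.mis j s hj h1 h2
  obtain ⟨r, hr⟩ := exists_addr y (j + 1)
  obtain ⟨n, hn1, hn2, hn3⟩ := B03_exists_res ((b.p : ℤ) ^ (j + 1)) (m0 + r - s) a (by positivity)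
  refine ⟨n, hn1, hn2, ?_⟩
  have e1 : (b.p : ℤ) ^ (j + 1) ∣ (n + s - r) - m0 := by
    have : (n + s - r) - m0 = n - (m0 + r - s) := by ring
    rwa [this]
  have e2 : ¬ (b.p : ℤ) ^ (j + 1) ∣ n + s - r := by
    intro h
    apply hm1
    have := dvd_sub h e1
    simpa using this
  have e3 : ¬ (b.p : ℤ) ^ (j + 1) ∣ n - r := by
    intro h
    apply hm2
    have := dvd_sub h e1
    have h3 : n - r - (n + s - r - m0) = m0 - s := by ring
    rwa [h3] at this
  rw [hr (n + s) e2, hr n e3]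
  have := hm3 (n + s - r) e1
  have h4 : n + s - r - s = n - r := by ring
  rwa [h4] at this

theorem bounded_powers (b : Base) : ∃ C : ℕ, 0 < C ∧ ∀ (y : b.Hull) (s : ℤ), s ≠ 0 → ∀ a : ℤ,
    ∃ n : ℤ, a ≤ n ∧ n ≤ a + C * |s| ∧ y.1 (n + s) ≠ y.1 n := by
  have hP := B03_two_le b
  have hP0 : (0 : ℤ) < (b.p : ℤ) := by linarith
  have hp0 : 0 < b.p := by exact_mod_cast hP0
  refine ⟨b.p ^ 2 + 2 * b.p, by positivity, fun y s hs a => ?_⟩
  have hs1 : 1 ≤ |s| := Int.one_le_abs hs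
  have hex : ∃ K : ℕ, ¬ (b.p : ℤ) ^ K ∣ s := by
    refine ⟨s.natAbs, fun h => ?_⟩
    have h1 : (b.p : ℤ) ^ s.natAbs ≤ |s| := by
      apply Int.le_of_dvd (by linarith)
      rwa [dvd_abs]
    have h2 : s.natAbs < b.p ^ s.natAbs := Nat.lt_pow_self b.two_le
    have h3 : (s.natAbs : ℤ) < (b.p : ℤ) ^ s.natAbs := by exact_mod_cast h2
    have h4 : (s.natAbs : ℤ) = |s| := Int.natCast_natAbs s
    linarith
  classical
  obtain ⟨j, hj1, hj2⟩ : ∃ j : ℕ, (b.p : ℤ) ^ j ∣ s ∧ ¬ (b.p : ℤ) ^ (j + 1) ∣ s := by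
    have hne : Nat.find hex ≠ 0 := by
      intro h0
      have := Nat.find_spec hex
      rw [h0, pow_zero] at this
      exact this (one_dvd s)
    obtain ⟨K, hK⟩ := Nat.exists_eq_succ_of_ne_zero hne
    refine ⟨K, ?_, ?_⟩
    · have := Nat.find_min hex (m := K) (by omega)
      push Not at this
      exact this
    · have := Nat.find_spec hex
      rwa [hK] at this
  rcases Nat.eq_zero_or_pos j with h0 | hpos
  · subst h0
    have d1 : (b.p : ℤ) ^ 1 ∣ b.p * s := by simp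
    have d2 : ¬ (b.p : ℤ) ^ (1 + 1) ∣ b.p * s := by
      intro h
      apply hj2
      have h3 : (b.p : ℤ) ^ (1 + 1) = b.p * b.p := by ring
      rw [h3] at h
      simpa using (mul_dvd_mul_iff_left hP0.ne').mp h
    obtain ⟨n, hn1, hn2, hn3⟩ := B03_key y (b.p * s) 1 le_rfl d1 d2 (a + b.p * |s|)
    by_contra hcon
    push Not at hcon
    apply hn3
    have hstep : ∀ i : ℕ, i ≤ b.p → y.1 (n + i * s) = y.1 n := by
      intro i
      induction i with
      | zero => intro _; simp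
      | succ i ih =>
        intro hi
        have h1 := ih (by omega)
        have hi2 : (i : ℤ) ≤ b.p := by
          have : i ≤ b.p := by omega
          exact_mod_cast this
        have hi0 : (0 : ℤ) ≤ i := Int.natCast_nonneg i
        have hb : |(i : ℤ) * s| ≤ b.p * |s| := by
          rw [abs_mul, abs_of_nonneg hi0]
          exact mul_le_mul_of_nonneg_right hi2 (abs_nonneg s)
        have hb' := abs_le.mp hb
        have h2 := hcon (n + i * s) (by linarith [hb'.1]) (by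
          push_cast
          have h5 : (b.p : ℤ) ^ 2 ≤ (b.p : ℤ) ^ 2 * |s| := by nlinarith [sq_nonneg (b.p : ℤ)]
          have h6 : (b.p : ℤ) ^ (1 + 1) = (b.p : ℤ) ^ 2 := rfl
          have h7 : ((b.p : ℤ) ^ 2 + 2 * b.p) * |s| = (b.p : ℤ) ^ 2 * |s| + 2 * (b.p * |s|) := by
            ring
          rw [h7]
          linarith [hb'.2])
        have h3 : n + ((i + 1 : ℕ) : ℤ) * s = n + i * s + s := by
          push_cast
          ring
        rw [h3, h2, h1]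
    exact hstep b.p le_rfl
  · obtain ⟨n, hn1, hn2, hn3⟩ := B03_key y s j hpos hj1 hj2 a
    refine ⟨n, hn1, ?_, hn3⟩
    have h1 : (b.p : ℤ) ^ j ≤ |s| := by
      apply Int.le_of_dvd (by linarith)
      rwa [dvd_abs]
    have h2 : (b.p : ℤ) ^ (j + 1) ≤ b.p * |s| := by
      rw [pow_succ, mul_comm]
      exact mul_le_mul_of_nonneg_left h1 hP0.le
    push_cast
    have h3 : (0 : ℤ) ≤ (b.p : ℤ) ^ 2 * |s| := by positivity
    have h4 : (0 : ℤ) ≤ b.p * |s| := by positivity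
    have h5 : ((b.p : ℤ) ^ 2 + 2 * b.p) * |s| = (b.p : ℤ) ^ 2 * |s| + 2 * (b.p * |s|) := by ring
    rw [h5]
    linarith

theorem sh_inj {y : b.Hull} {n m : ℤ} (h : sh n y = sh m y) : n = m := by
  by_contra hne
  obtain ⟨C, -, hC⟩ := bounded_powers b
  obtain ⟨k, -, -, hk⟩ := hC y (n - m) (sub_ne_zero.mpr hne) 0
  apply hk
  have h1 : (sh n y).1 (k - m) = (sh m y).1 (k - m) := by rw [h]
  rw [sh_apply, sh_apply] at h1
  have h2 : k + (n - m) = k - m + n := by ring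
  rw [h2, h1, sub_add_cancel]

end Pool.Agent.helper98.NIG
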