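import Pool.Agent.helper98.NIG.B03

/-!
# NIG-B04: positions, displacements, elementary facts on systems

PROOFS.  `sh_inj` (B03) makes the integer in the definition of `pos` unique, everything else is a short
computation: `pos_sh`: `Classical.choose_spec` and `sh_inj`; `pos_add`: compose with `sh_sh`.
For `g ∈ PW` the point `g x` is on the line of `x` (definition of `IsPW`, `Agree.refl`).
`disp_eq_of_agree`, `agree_map`: from `IsPW`: if `Agree (ρ + N) x x'` then both `g x`, `g x'` are shifts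
by the same `n`, `|n| ≤ ρ`, with the same second coordinate, and the windows of radius `N` of
`sh n x.1`, `sh n x'.1` agree.
For a system: `A.G ≤ PW b F` by `Subgroup.closure_le`; `A.D` is invariant under `A.G` by
`Subgroup.closure_induction` (use `inv_mem`, or that `s⁻¹ ∈ A.S`).
-/

namespace Pool.Agent.helper98.NIG

variable {b : Base} {F : Type}

private theorem perm_inv_apply {α : Type*} (g : Equiv.Perm α) (x : α) : g⁻¹ (g x) = x :=
  g.symm_apply_apply x

private theorem perm_apply_inv {α : Type*} (g : Equiv.Perm α) (x : α) : g (g⁻¹ x) = x :=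
  g.apply_symm_apply x

theorem sameLine_refl (x : Pt b F) : SameLine x x := ⟨0, (sh_zero _).symm⟩

theorem sameLine_symm {x x' : Pt b F} (h : SameLine x x') : SameLine x' x := by
  obtain ⟨n, hn⟩ := h
  exact ⟨-n, by rw [hn, sh_sh, neg_add_cancel, sh_zero]⟩

theorem sameLine_trans {x x' x'' : Pt b F} (h : SameLine x x') (h' : SameLine x' x'') :
    SameLine x x'' := by
  obtain ⟨n, hn⟩ := h
  obtain ⟨m, hm⟩ := h'
  exact ⟨m + n, by rw [hm, hn, sh_sh]⟩

theorem sameLine_sh (x : Pt b F) (n : ℤ) (φ : F) : SameLine x (sh n x.1, φ) := ⟨n, rfl⟩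

theorem pos_spec {x x' : Pt b F} (h : SameLine x x') : x'.1 = sh (pos x x') x.1 := by
  have h' : ∃ n : ℤ, x'.1 = sh n x.1 := h
  unfold pos
  rw [dif_pos h']
  exact h'.choose_spec

theorem pos_eq {x x' : Pt b F} {n : ℤ} (h : x'.1 = sh n x.1) : pos x x' = n :=
  sh_inj ((pos_spec ⟨n, h⟩).symm.trans h)

theorem pos_sh (x : Pt b F) (n : ℤ) (φ : F) : pos x (sh n x.1, φ) = n := pos_eq rfl

theorem eq_of_pos {x x' : Pt b F} (h : SameLine x x') : x' = (sh (pos x x') x.1, x'.2) :=
  Prod.ext (pos_spec h) rfl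

theorem pos_self (x : Pt b F) : pos x x = 0 := pos_eq (sh_zero _).symm

theorem pos_add {x x' x'' : Pt b F} (h : SameLine x x') (h' : SameLine x' x'') :
    pos x x'' = pos x x' + pos x' x'' := by
  apply pos_eq
  conv_lhs => rw [pos_spec h', pos_spec h, sh_sh, add_comm]

theorem pos_neg {x x' : Pt b F} (h : SameLine x x') : pos x' x = - pos x x' := by
  have h1 := pos_add h (sameLine_symm h)
  rw [pos_self] at h1
  linarith

theorem sameLine_of_mem_PW {g : Equiv.Perm (Pt b F)} (hg : g ∈ PW b F) (x : Pt b F) :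
    SameLine x (g x) := by
  obtain ⟨ρ, hρ, -⟩ := hg
  obtain ⟨n, -, H⟩ := hρ x
  exact ⟨n, (H x (Agree.refl _ _)).1⟩

theorem disp_mul {g h : Equiv.Perm (Pt b F)} (hg : g ∈ PW b F) (hh : h ∈ PW b F) (x : Pt b F) :
    disp (g * h) x = disp g (h x) + disp h x := by
  have h1 := pos_add (sameLine_of_mem_PW hh x) (sameLine_of_mem_PW hg (h x))
  rw [add_comm] at h1
  exact h1

theorem disp_one (x : Pt b F) : disp (1 : Equiv.Perm (Pt b F)) x = 0 := pos_self x

theorem disp_inv {g : Equiv.Perm (Pt b F)} (hg : g ∈ PW b F) (x : Pt b F) :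
    disp g⁻¹ (g x) = - disp g x := by
  have h := disp_mul (inv_mem hg) hg x
  rw [inv_mul_cancel, disp_one] at h
  linarith

theorem abs_disp_le {ρ : ℕ} {g : Equiv.Perm (Pt b F)} (hg : IsPW ρ g) (x : Pt b F) :
    |disp g x| ≤ ρ := by
  obtain ⟨n, hn, H⟩ := hg x
  rw [disp, pos_eq (H x (Agree.refl _ _)).1]
  exact hn

theorem disp_eq_of_agree {ρ : ℕ} {g : Equiv.Perm (Pt b F)} (hg : IsPW ρ g) {x x' : Pt b F}
    (h : Agree ρ x x') : disp g x = disp g x' := by
  obtain ⟨n, hn, H⟩ := hg x
  rw [disp, disp, pos_eq (H x (Agree.refl _ _)).1, pos_eq (H x' h).1]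

theorem agree_map {ρ N : ℕ} {g : Equiv.Perm (Pt b F)} (hg : IsPW ρ g) {x x' : Pt b F}
    (h : Agree (ρ + N) x x') : Agree N (g x) (g x') := by
  obtain ⟨n, hn, H⟩ := hg x
  have h0 := H x (Agree.refl _ _)
  have h1 := H x' (h.mono (by omega))
  refine ⟨h1.2.symm, fun k hk => ?_⟩
  rw [h0.1, h1.1, sh_apply, sh_apply]
  apply h.2
  push_cast
  exact (abs_add_le k n).trans (by linarith)

/-- If `x`, `x'` agree on a window of radius `N` then so do their shifts by `n` on the window of
radius `N - |n|`. -/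
theorem agree_sh {N M : ℕ} {x x' : Pt b F} (h : Agree N x x') (n : ℤ) (φ : F)
    (hn : |n| + M ≤ N) : Agree M (sh n x.1, φ) (sh n x'.1, φ) := by
  refine ⟨rfl, fun k hk => ?_⟩
  change x.1.1 (k + n) = x'.1.1 (k + n)
  exact h.2 _ ((abs_add_le k n).trans (by linarith))

namespace Sys

variable (A : Sys b F)

theorem G_le_PW : A.G ≤ PW b F :=
  (Subgroup.closure_le _).2 fun s hs => ⟨A.ρ, A.pw s hs⟩

theorem mem_G_of_mem_S {s : Equiv.Perm (Pt b F)} (hs : s ∈ A.S) : s ∈ A.G :=
  Subgroup.subset_closure hs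

theorem map_mem_iff {g : Equiv.Perm (Pt b F)} (hg : g ∈ A.G) {x : Pt b F} :
    g x ∈ A.D ↔ x ∈ A.D := by
  have key : ∀ x, g x ∈ A.D ↔ x ∈ A.D := by
    induction hg using Subgroup.closure_induction with
    | mem s hs =>
      intro x
      refine ⟨fun h => ?_, A.maps s hs x⟩
      have h1 := A.maps _ (A.inv_mem s hs) _ h
      rwa [perm_inv_apply] at h1
    | one => exact fun x => Iff.rfl
    | mul g h _ _ ihg ihh => exact fun x => (ihg (h x)).trans (ihh x)
    | inv g _ ih =>
      intro x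
      rw [← ih (g⁻¹ x), perm_apply_inv]
  exact key x

theorem map_mem {g : Equiv.Perm (Pt b F)} (hg : g ∈ A.G) {x : Pt b F} (hx : x ∈ A.D) :
    g x ∈ A.D := (A.map_mem_iff hg).2 hx

theorem map_of_not_mem {g : Equiv.Perm (Pt b F)} (hg : g ∈ A.G) {x : Pt b F} (hx : x ∉ A.D) :
    g x = x := by
  have key : ∀ x, x ∉ A.D → g x = x := by
    induction hg using Subgroup.closure_induction with
    | mem s hs => exact A.triv s hs
    | one => exact fun x _ => rfl
    | mul g h _ _ ihg ihh =>
      intro x hx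
      rw [Equiv.Perm.mul_apply, ihh x hx, ihg x hx]
    | inv g _ ih =>
      intro x hx
      rw [Equiv.Perm.inv_eq_iff_eq, ih x hx]
  exact key x hx

theorem Reach.mem_G {A : Sys b F} {x : Pt b F} {I : Set ℤ} {g : Equiv.Perm (Pt b F)}
    (h : A.Reach x I g) : g ∈ A.G := by
  induction h with
  | one => exact A.G.one_mem
  | step _ hs _ ih => exact mul_mem (A.mem_G_of_mem_S hs) ih

theorem Reach.mono {A : Sys b F} {x : Pt b F} {I J : Set ℤ} (hIJ : I ⊆ J)
    {g : Equiv.Perm (Pt b F)} (h : A.Reach x I g) : A.Reach x J g := by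
  induction h with
  | one => exact Reach.one
  | step _ hs hp ih => exact Reach.step ih hs (hIJ hp)

/-- The end of a path is in the interval. -/
theorem Reach.disp_mem {A : Sys b F} {x : Pt b F} {I : Set ℤ} (h0 : (0 : ℤ) ∈ I)
    {g : Equiv.Perm (Pt b F)} (h : A.Reach x I g) : disp g x ∈ I := by
  cases h with
  | one => rwa [disp_one]
  | step _ _ hp => exact hp

/-- Paths can be composed: positions are relative to the first point. -/
theorem Reach.trans {A : Sys b F} {x : Pt b F} {I : Set ℤ} {g h : Equiv.Perm (Pt b F)}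
    (hg : A.Reach x I g) (hh : A.Reach (g x) {k | k + disp g x ∈ I} h) : A.Reach x I (h * g) := by
  induction hh with
  | one => rwa [one_mul]
  | @step h s hh hs hp ih =>
    rw [mul_assoc]
    refine Reach.step ih hs ?_
    have h1 := pos_add (sameLine_of_mem_PW (A.G_le_PW hg.mem_G) x)
      (sameLine_of_mem_PW (A.G_le_PW (mul_mem (A.mem_G_of_mem_S hs) hh.mem_G)) (g x))
    rw [add_comm] at h1
    have h2 : pos (g x) (s (h (g x))) + disp g x ∈ I := hp
    have h3 : pos x (s ((h * g) x)) = pos (g x) (s (h (g x))) + disp g x := h1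
    rwa [h3]

/-- Paths can be reversed. -/
theorem Reach.inv {A : Sys b F} {x : Pt b F} {I : Set ℤ} (h0 : (0 : ℤ) ∈ I)
    {g : Equiv.Perm (Pt b F)} (hg : A.Reach x I g) :
    A.Reach (g x) {k | k + disp g x ∈ I} g⁻¹ := by
  induction hg with
  | one => rw [inv_one]; exact Reach.one
  | @step g s hg hs hp ih =>
    have hsP := A.G_le_PW (A.mem_G_of_mem_S hs)
    have h1 : disp s⁻¹ (s (g x)) = - disp s (g x) := disp_inv hsP (g x)
    have h2 : disp (s * g) x = disp s (g x) + disp g x := disp_mul hsP (A.G_le_PW hg.mem_G) x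
    have h3 : s⁻¹ (s (g x)) = g x := perm_inv_apply _ _
    rw [mul_inv_rev]
    refine Reach.trans (g := s⁻¹) ?_ ?_
    · have h4 : A.Reach ((s * g) x) {k | k + disp (s * g) x ∈ I} (s⁻¹ * 1) := by
        refine Reach.step Reach.one (A.inv_mem s hs) ?_
        change disp s⁻¹ (s (g x)) + disp (s * g) x ∈ I
        rw [h1, h2, neg_add_cancel_left]
        exact hg.disp_mem h0
      rwa [mul_one] at h4
    · change A.Reach (s⁻¹ (s (g x))) {k | k + disp s⁻¹ (s (g x)) + disp (s * g) x ∈ I} g⁻¹
      rw [h3, h1, h2]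
      refine ih.mono fun k hk => ?_
      change k + -disp s (g x) + (disp s (g x) + disp g x) ∈ I
      have h5 : k + -disp s (g x) + (disp s (g x) + disp g x) = k + disp g x := by ring
      rw [h5]
      exact hk

/-- Every element of the group is reached in the whole line. -/
theorem reach_univ {g : Equiv.Perm (Pt b F)} (hg : g ∈ A.G) (x : Pt b F) :
    A.Reach x Set.univ g := by
  have key : ∀ x, A.Reach x Set.univ g := by
    induction hg using Subgroup.closure_induction with
    | mem s hs =>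
      intro x
      have h1 : A.Reach x Set.univ (s * 1) := Reach.step Reach.one hs trivial
      rwa [mul_one] at h1
    | one => exact fun x => Reach.one
    | mul g h _ _ ihg ihh => exact fun x => (ihh x).trans (ihg (h x))
    | inv g _ ih =>
      intro x
      have h1 := (ih (g⁻¹ x)).inv (Set.mem_univ _)
      rw [perm_apply_inv] at h1
      exact h1
  exact key x

/-- An element is reached in a bounded interval, uniformly in the point. -/
theorem exists_reach_bounded {g : Equiv.Perm (Pt b F)} (hg : g ∈ A.G) :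
    ∃ C : ℤ, ∀ x : Pt b F, A.Reach x (Set.Icc (-C) C) g := by
  have key : ∃ C : ℤ, 0 ≤ C ∧ ∀ x : Pt b F, A.Reach x (Set.Icc (-C) C) g := by
    induction hg using Subgroup.closure_induction with
    | mem s hs =>
      refine ⟨A.ρ, by positivity, fun x => ?_⟩
      have h1 : A.Reach x (Set.Icc (-(A.ρ : ℤ)) A.ρ) (s * 1) :=
        Reach.step Reach.one hs (abs_le.1 (abs_disp_le (A.pw s hs).1 x))
      rwa [mul_one] at h1
    | one => exact ⟨0, le_rfl, fun x => Reach.one⟩
    | mul g h _ _ ihg ihh =>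
      obtain ⟨C, hC, H⟩ := ihg
      obtain ⟨C', hC', H'⟩ := ihh
      refine ⟨C + C', by linarith, fun x => ?_⟩
      have h0 : (0 : ℤ) ∈ Set.Icc (-C') C' := ⟨by linarith, hC'⟩
      have h1 := (H' x).disp_mem h0
      refine ((H' x).mono (Set.Icc_subset_Icc (by linarith) (by linarith))).trans
        ((H (h x)).mono fun k hk => ?_)
      exact ⟨by linarith [hk.1, h1.1], by linarith [hk.2, h1.2]⟩
    | inv g _ ih =>
      obtain ⟨C, hC, H⟩ := ih
      refine ⟨2 * C, by linarith, fun x => ?_⟩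
      have h0 : (0 : ℤ) ∈ Set.Icc (-C) C := ⟨by linarith, hC⟩
      have h1 := (H (g⁻¹ x)).disp_mem h0
      have h2 := (H (g⁻¹ x)).inv h0
      rw [perm_apply_inv] at h2
      refine h2.mono fun k hk => ?_
      exact ⟨by linarith [hk.1, h1.2], by linarith [hk.2, h1.1]⟩
  obtain ⟨C, -, H⟩ := key
  exact ⟨C, H⟩

/-- A path depends only on a window. -/
theorem Reach.congr {A : Sys b F} {x x' : Pt b F} {N : ℕ} {I : Set ℤ}
    (hI : ∀ k ∈ I, |k| + A.ρ ≤ N) (h0 : (0 : ℤ) ∈ I) (hx : Agree N x x')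
    {g : Equiv.Perm (Pt b F)} (h : A.Reach x I g) :
    A.Reach x' I g ∧ disp g x' = disp g x ∧ (g x').2 = (g x).2 := by
  induction h with
  | one => exact ⟨Reach.one, by rw [disp_one, disp_one], hx.1.symm⟩
  | @step g s hg hs hp ih =>
    obtain ⟨ih1, ih2, ih3⟩ := ih
    have hgP := A.G_le_PW hg.mem_G
    have hsP := A.G_le_PW (A.mem_G_of_mem_S hs)
    have h1 : Agree A.ρ (g x) (g x') := by
      have h2 : g x = (sh (disp g x) x.1, (g x).2) := eq_of_pos (sameLine_of_mem_PW hgP x)
      have h3 : g x' = (sh (disp g x) x'.1, (g x).2) := by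
        rw [← ih2, ← ih3]
        exact eq_of_pos (sameLine_of_mem_PW hgP x')
      rw [h2, h3]
      exact agree_sh hx _ _ (hI _ (hg.disp_mem h0))
    have h4 : disp s (g x') = disp s (g x) := (disp_eq_of_agree (A.pw s hs).1 h1).symm
    have h5 : disp (s * g) x' = disp (s * g) x := by
      rw [disp_mul hsP hgP, disp_mul hsP hgP, h4, ih2]
    refine ⟨Reach.step ih1 hs ?_, h5, ?_⟩
    · change disp (s * g) x' ∈ I
      rw [h5]
      exact hp
    · obtain ⟨n, -, H⟩ := (A.pw s hs).1 (g x)
      exact (H _ h1).2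

end Sys

end Pool.Agent.helper98.NIG
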