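import Pool.Agent.helper98.NIG.B05

/-!
# NIG-C03: crossing classes of intervals for an arbitrary finite set of piecewise shifts

The line of `y : b.Hull` is identified with `ℤ × F` (`(k, φ)` stands for the point `(sh k y, φ)`).

PROOFS.
* `step_*`: `Step y a a'` means that some generator maps the point `a` to the point `a'`. Symmetric by
  `inv_mem`; `|a'.1 - a.1| ≤ ρ`: the displacement is `a'.1 - a.1` by `sh_sh`, `sh_inj` (`pos_sh`,
  `abs_disp_le`); `step_agree`: radius `ρ` (`IsPW` gives the same `n` and the same second coordinate).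
* `conn_*`: `Relation.ReflTransGen` facts.
* `crossing` (crossing lemma): let `u' ≤ u`, `v ≤ v'`, `u + 2ρ ≤ v`, `Conn u' v' a a'`, `a.1 < u + ρ` and
  `v - ρ < a'.1`. Then there are `c1, c2` with `Conn u' v' a c1`, `Conn u v c1 c2`, `c1.1 < u + ρ`,
  `v - ρ < c2.1`. Proof by induction on the path (head fixed, tail growing): the invariant for the
  current end `a'` is: [the conclusion holds] or [`a'.1 < u + ρ`] or [`u + ρ ≤ a'.1 ≤ v - ρ` and there is
  `c1` with `u ≤ c1.1 < u + ρ`, `Conn u' v' a c1`, `Conn u v c1 a'`]. Step from `a'` to `a''`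
  (`|a''.1 - a'.1| ≤ ρ`): in the second case, if `a''.1 ≥ u + ρ` then `a'.1 ≥ u`, take `c1 = a'`
  (`a''.1 < u + 2ρ ≤ v`, so the edge is inside `[u, v]`); then `a''.1 ≤ v - ρ` gives the third case and
  `a''.1 > v - ρ` gives the conclusion. In the third case: `a''.1 < u + ρ`: second case;
  `u + ρ ≤ a''.1 ≤ v - ρ`: extend; `a''.1 > v - ρ`: `a''.1 ≤ v`, so the edge is inside `[u, v]` and the
  conclusion holds. (If `ρ = 0` no edge moves; the lemma is still true as stated because then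
  `a.1 = a'.1` contradicts nothing but the invariant argument works verbatim.)
* `crs_sub`: every crossing class of the larger interval contains a crossing class of the smaller one:
  `Cr u' v' a` gives `a1, a2` with `a1.1 < u' + ρ ≤ u + ρ`, `v - ρ ≤ v' - ρ < a2.1`, `Conn u' v' a1 a2`;
  apply `crossing`.
* `κ_le`: choose for every crossing class `C'` of the larger interval such a `C ⊆ C'`; this is injective
  because different classes of the larger interval are disjoint and `C` is nonempty.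
* `κ_shift`, `κ_agree`: transport by `(k, φ) ↦ (k + n, φ)`, resp. `step_agree` (all edges inside `[u, v]`
  depend only on the window `[u - ρ, v + ρ]`).
* `exists_κ_const`: let `θ` be the minimum of `κ y u v` over all `y` and `u + 2ρ ≤ v`, attained at
  `(y0, u0, v0)` (`Nat.find` or well-foundedness). With `C` from `linear_rec b` and
  `N = |u0| + |v0| + ρ` put `M0 = 2|u0| + 2|v0| + C (N+1) + 2ρ`. For `v - u ≥ M0`: `linear_rec` (for
  `y`, `y0`, `N`, `a = u + |u0|`) gives `t`, `a ≤ t ≤ a + C (N+1)`, with `sh t y` agreeing with `y0` on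
  the window `N`; `u ≤ t + u0`, `t + v0 ≤ v`; so
  `θ ≤ κ y u v ≤ κ y (t + u0) (t + v0) = κ (sh t y) u0 v0 = κ y0 u0 v0 = θ`.
* `cr_extend`, `conn_restrict`: for `J = [u, v] ⊆ J' = [u', v']` of lengths `≥ M0` (`M0 ≥ 2ρ`) the
  injection `C' ↦ C ⊆ C'` of `κ_le` is a bijection (equal finite cardinalities). So the class `C` of a
  crossing point `a` of `J` is contained in some crossing class `C'` of `J'`, which is the class of `a`
  in `J'`: `Cr u' v' a`. If `a1, a2` are crossing points of `J` and `Conn u' v' a1 a2` then their classes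
  `C1, C2` are both the chosen subset of the same `C'`, so `C1 = C2`: `Conn u v a1 a2`.
-/

namespace Pool.Agent.helper98.NIG

variable {b : Base} {F : Type}

/-- A finite symmetric set of piecewise shifts. -/
structure Gen (b : Base) (F : Type) where
  S : Finset (Equiv.Perm (Pt b F))
  ρ : ℕ
  pw : ∀ s ∈ S, PWr ρ s
  one_mem : 1 ∈ S
  inv_mem : ∀ s ∈ S, s⁻¹ ∈ S

namespace Gen

/-- the group -/
def G (A : Gen b F) : Subgroup (Equiv.Perm (Pt b F)) :=
  Subgroup.closure (A.S : Set (Equiv.Perm (Pt b F)))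

/-- an edge on the line of `y` -/
def Step (A : Gen b F) (y : b.Hull) (a a' : ℤ × F) : Prop :=
  ∃ s ∈ A.S, s (sh a.1 y, a.2) = (sh a'.1 y, a'.2)

/-- connectivity inside of `[u, v]` -/
def Conn (A : Gen b F) (y : b.Hull) (u v : ℤ) : ℤ × F → ℤ × F → Prop :=
  Relation.ReflTransGen
    (fun a a' => a.1 ∈ Set.Icc u v ∧ a'.1 ∈ Set.Icc u v ∧ A.Step y a a')

/-- `a` is a crossing point of `[u, v]` -/
def Cr (A : Gen b F) (y : b.Hull) (u v : ℤ) (a : ℤ × F) : Prop :=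
  a.1 ∈ Set.Icc u v ∧ (∃ a1, A.Conn y u v a a1 ∧ a1.1 ∈ Set.Icc u v ∧ a1.1 < u + A.ρ) ∧
    ∃ a2, A.Conn y u v a a2 ∧ a2.1 ∈ Set.Icc u v ∧ v - A.ρ < a2.1

/-- the crossing classes of `[u, v]` -/
def crs (A : Gen b F) (y : b.Hull) (u v : ℤ) : Set (Set (ℤ × F)) :=
  {C | ∃ a, A.Cr y u v a ∧ C = {a' | A.Conn y u v a a'}}

/-- the number of crossing classes -/
noncomputable def κ (A : Gen b F) (y : b.Hull) (u v : ℤ) : ℕ := (A.crs y u v).ncard

variable (A : Gen b F)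

theorem step_symm {y : b.Hull} {a a' : ℤ × F} (h : A.Step y a a') : A.Step y a' a := by
  obtain ⟨s, hs, h⟩ := h
  refine ⟨s⁻¹, A.inv_mem s hs, ?_⟩
  rw [← h]
  exact s.symm_apply_apply _

theorem pos_pair (y : b.Hull) (a a' : ℤ × F) :
    pos ((sh a.1 y, a.2) : Pt b F) (sh a'.1 y, a'.2) = a'.1 - a.1 := by
  apply pos_eq
  show sh a'.1 y = sh (a'.1 - a.1) (sh a.1 y)
  rw [sh_sh, sub_add_cancel]

theorem step_le {y : b.Hull} {a a' : ℤ × F} (h : A.Step y a a') : |a'.1 - a.1| ≤ A.ρ := by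
  obtain ⟨s, hs, h⟩ := h
  have h1 := abs_disp_le (A.pw s hs).1 ((sh a.1 y, a.2) : Pt b F)
  rw [disp, h, pos_pair] at h1
  exact h1

theorem step_agree_aux {y y' : b.Hull} {a a' : ℤ × F}
    (h : ∀ k : ℤ, |k - a.1| ≤ A.ρ → y.1 k = y'.1 k) (hs : A.Step y a a') : A.Step y' a a' := by
  obtain ⟨s, hs, hx⟩ := hs
  refine ⟨s, hs, ?_⟩
  obtain ⟨n, -, H⟩ := (A.pw s hs).1 ((sh a.1 y, a.2) : Pt b F)
  have hag : Agree A.ρ ((sh a.1 y, a.2) : Pt b F) (sh a.1 y', a.2) := by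
    refine ⟨rfl, fun k hk => ?_⟩
    rw [sh_apply, sh_apply]
    exact h _ (by rw [add_sub_cancel_right]; exact hk)
  obtain ⟨h1, -⟩ := H _ (Agree.refl _ _)
  obtain ⟨h2, h3⟩ := H _ hag
  have h4 : a'.1 - a.1 = n := by
    rw [← pos_pair y a a', ← hx]
    exact pos_eq h1
  rw [hx] at h3
  refine Prod.ext ?_ h3
  rw [h2]
  show sh n (sh a.1 y') = sh a'.1 y'
  rw [sh_sh]
  congr 1
  omega

theorem step_agree {y y' : b.Hull} {a : ℤ × F}
    (h : ∀ k : ℤ, |k - a.1| ≤ A.ρ → y.1 k = y'.1 k) (a' : ℤ × F) :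
    A.Step y a a' ↔ A.Step y' a a' :=
  ⟨A.step_agree_aux h, A.step_agree_aux fun k hk => (h k hk).symm⟩

theorem step_shift (y : b.Hull) (n : ℤ) (a a' : ℤ × F) :
    A.Step (sh n y) a a' ↔ A.Step y (a.1 + n, a.2) (a'.1 + n, a'.2) := by
  simp only [Step, sh_sh]

theorem conn_symm {y : b.Hull} {u v : ℤ} {a a' : ℤ × F} (h : A.Conn y u v a a') :
    A.Conn y u v a' a := by
  induction h with
  | refl => exact Relation.ReflTransGen.refl
  | tail _ h2 ih => exact Relation.ReflTransGen.head ⟨h2.2.1, h2.1, A.step_symm h2.2.2⟩ ih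

theorem conn_trans {y : b.Hull} {u v : ℤ} {a a' a'' : ℤ × F} (h : A.Conn y u v a a')
    (h' : A.Conn y u v a' a'') : A.Conn y u v a a'' :=
  Relation.ReflTransGen.trans h h'

theorem conn_mono {y : b.Hull} {u v u' v' : ℤ} (hu : u' ≤ u) (hv : v ≤ v') {a a' : ℤ × F}
    (h : A.Conn y u v a a') : A.Conn y u' v' a a' := by
  induction h with
  | refl => exact Relation.ReflTransGen.refl
  | tail _ h1 ih => exact Relation.ReflTransGen.tail ih ⟨⟨hu.trans h1.1.1, h1.1.2.trans hv⟩,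
      ⟨hu.trans h1.2.1.1, h1.2.1.2.trans hv⟩, h1.2.2⟩

theorem crossing {y : b.Hull} {u v u' v' : ℤ} (hu : u' ≤ u) (hv : v ≤ v')
    (huv : u + 2 * A.ρ ≤ v) {a a' : ℤ × F} (h : A.Conn y u' v' a a') (ha : a.1 < u + A.ρ)
    (ha' : v - A.ρ < a'.1) : ∃ c1 c2 : ℤ × F, A.Conn y u' v' a c1 ∧ A.Conn y u v c1 c2 ∧
      c1.1 ∈ Set.Icc u v ∧ c2.1 ∈ Set.Icc u v ∧ c1.1 < u + A.ρ ∧ v - A.ρ < c2.1 := by
  have key : (∃ c1 c2 : ℤ × F, A.Conn y u' v' a c1 ∧ A.Conn y u v c1 c2 ∧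
      c1.1 ∈ Set.Icc u v ∧ c2.1 ∈ Set.Icc u v ∧ c1.1 < u + A.ρ ∧ v - A.ρ < c2.1) ∨
      a'.1 < u + A.ρ ∨ (u + A.ρ ≤ a'.1 ∧ a'.1 ≤ v - A.ρ ∧ ∃ c1 : ℤ × F, u ≤ c1.1 ∧
        c1.1 < u + A.ρ ∧ A.Conn y u' v' a c1 ∧ A.Conn y u v c1 a') := by
    clear ha'
    induction h with
    | refl => exact Or.inr (Or.inl ha)
    | @tail b₁ c₁ h1 h2 ih =>
      obtain ⟨hb, hc, hst⟩ := h2
      have hle := abs_le.1 (A.step_le hst)
      rcases ih with ih | ih | ⟨i1, i2, d, d1, d2, d3, d4⟩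
      · exact Or.inl ih
      · by_cases hc1 : c₁.1 < u + A.ρ
        · exact Or.inr (Or.inl hc1)
        · have hbm : b₁.1 ∈ Set.Icc u v := ⟨by omega, by omega⟩
          have hcm : c₁.1 ∈ Set.Icc u v := ⟨by omega, by omega⟩
          have hconn : A.Conn y u v b₁ c₁ := Relation.ReflTransGen.single ⟨hbm, hcm, hst⟩
          by_cases hc2 : c₁.1 ≤ v - A.ρ
          · exact Or.inr (Or.inr ⟨by omega, hc2, b₁, hbm.1, ih, h1, hconn⟩)
          · exact Or.inl ⟨b₁, c₁, h1, hconn, hbm, hcm, ih, by omega⟩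
      · by_cases hc1 : c₁.1 < u + A.ρ
        · exact Or.inr (Or.inl hc1)
        · have hbm : b₁.1 ∈ Set.Icc u v := ⟨by omega, by omega⟩
          have hcm : c₁.1 ∈ Set.Icc u v := ⟨by omega, by omega⟩
          have hconn : A.Conn y u v d c₁ := Relation.ReflTransGen.tail d4 ⟨hbm, hcm, hst⟩
          by_cases hc2 : c₁.1 ≤ v - A.ρ
          · exact Or.inr (Or.inr ⟨by omega, hc2, d, d1, d2, d3, hconn⟩)
          · exact Or.inl ⟨d, c₁, d3, hconn, ⟨d1, by omega⟩, hcm, d2, by omega⟩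
  rcases key with key | key | ⟨-, key, -⟩
  · exact key
  · omega
  · omega

theorem crs_finite [Finite F] (y : b.Hull) (u v : ℤ) : (A.crs y u v).Finite := by
  have h1 : {a : ℤ × F | a.1 ∈ Set.Icc u v}.Finite := by
    refine ((Set.finite_Icc u v).prod (Set.finite_univ (α := F))).subset fun a ha => ?_
    exact ⟨ha, Set.mem_univ _⟩
  refine (h1.image fun a => {a' | A.Conn y u v a a'}).subset ?_
  rintro C ⟨a, ha, rfl⟩
  exact ⟨a, ha.1, rfl⟩

theorem crs_eq {y : b.Hull} {u v : ℤ} {C C' : Set (ℤ × F)} (h : C ∈ A.crs y u v)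
    (h' : C' ∈ A.crs y u v) {c : ℤ × F} (hc : c ∈ C) (hc' : c ∈ C') : C = C' := by
  obtain ⟨a, -, rfl⟩ := h
  obtain ⟨a', -, rfl⟩ := h'
  ext x
  constructor
  · intro hx
    exact A.conn_trans hc' (A.conn_trans (A.conn_symm hc) hx)
  · intro hx
    exact A.conn_trans hc (A.conn_trans (A.conn_symm hc') hx)

theorem crs_nonempty {y : b.Hull} {u v : ℤ} {C : Set (ℤ × F)} (h : C ∈ A.crs y u v) :
    C.Nonempty := by
  obtain ⟨a, -, rfl⟩ := h
  exact ⟨a, Relation.ReflTransGen.refl⟩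

theorem crs_sub {y : b.Hull} {u v u' v' : ℤ} (hu : u' ≤ u) (hv : v ≤ v')
    (huv : u + 2 * A.ρ ≤ v) {C' : Set (ℤ × F)} (h : C' ∈ A.crs y u' v') :
    ∃ C ∈ A.crs y u v, C ⊆ C' := by
  obtain ⟨a, ⟨-, ⟨a1, h1, h2, h3⟩, a2, h4, h5, h6⟩, rfl⟩ := h
  obtain ⟨c1, c2, k1, k2, k3, k4, k5, k6⟩ := A.crossing hu hv huv
    (A.conn_trans (A.conn_symm h1) h4) (by omega) (by omega)
  refine ⟨{c | A.Conn y u v c1 c}, ⟨c1, ⟨k3, ⟨c1, Relation.ReflTransGen.refl, k3, k5⟩,
    c2, k2, k4, k6⟩, rfl⟩, fun c hc => ?_⟩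
  exact A.conn_trans h1 (A.conn_trans k1 (A.conn_mono hu hv hc))

theorem κ_le [Finite F] {y : b.Hull} {u v u' v' : ℤ} (hu : u' ≤ u) (hv : v ≤ v')
    (huv : u + 2 * A.ρ ≤ v) : A.κ y u' v' ≤ A.κ y u v := by
  classical
  have h : ∀ C' : Set (ℤ × F), ∃ C, C' ∈ A.crs y u' v' → C ∈ A.crs y u v ∧ C ⊆ C' := by
    intro C'
    by_cases hC : C' ∈ A.crs y u' v'
    · obtain ⟨C, h1, h2⟩ := A.crs_sub hu hv huv hC
      exact ⟨C, fun _ => ⟨h1, h2⟩⟩
    · exact ⟨∅, fun h => absurd h hC⟩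
  choose f hf using h
  refine Set.ncard_le_ncard_of_injOn f (fun C' hC' => (hf C' hC').1) ?_ (A.crs_finite y u v)
  intro C₁ h1 C₂ h2 h12
  obtain ⟨c, hc⟩ := A.crs_nonempty (hf C₁ h1).1
  exact A.crs_eq h1 h2 ((hf C₁ h1).2 hc) ((hf C₂ h2).2 (h12 ▸ hc))

private theorem conn_shift (y : b.Hull) (n u v : ℤ) {a a' : ℤ × F}
    (h : A.Conn (sh n y) u v a a') :
    A.Conn y (u + n) (v + n) (a.1 + n, a.2) (a'.1 + n, a'.2) := by
  induction h with
  | refl => exact Relation.ReflTransGen.refl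
  | tail _ hs ih =>
    obtain ⟨h1, h2, h3⟩ := hs
    refine Relation.ReflTransGen.tail ih ⟨?_, ?_, (A.step_shift y n _ _).1 h3⟩
    · exact ⟨by linarith [h1.1], by linarith [h1.2]⟩
    · exact ⟨by linarith [h2.1], by linarith [h2.2]⟩

private theorem conn_shift' (y : b.Hull) (n u v : ℤ) {a a' : ℤ × F}
    (h : A.Conn y (u + n) (v + n) a a') :
    A.Conn (sh n y) u v (a.1 - n, a.2) (a'.1 - n, a'.2) := by
  induction h with
  | refl => exact Relation.ReflTransGen.refl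
  | tail _ hs ih =>
    obtain ⟨h1, h2, h3⟩ := hs
    refine Relation.ReflTransGen.tail ih ⟨?_, ?_, (A.step_shift y n _ _).2 ?_⟩
    · exact ⟨by linarith [h1.1], by linarith [h1.2]⟩
    · exact ⟨by linarith [h2.1], by linarith [h2.2]⟩
    · simpa using h3

private theorem conn_shift_iff (y : b.Hull) (n u v : ℤ) (a a' : ℤ × F) :
    A.Conn (sh n y) u v a a' ↔ A.Conn y (u + n) (v + n) (a.1 + n, a.2) (a'.1 + n, a'.2) := by
  refine ⟨A.conn_shift y n u v, fun h => ?_⟩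
  have h1 := A.conn_shift' y n u v h
  simpa using h1

private theorem cr_shift_iff (y : b.Hull) (n u v : ℤ) (a : ℤ × F) :
    A.Cr (sh n y) u v a ↔ A.Cr y (u + n) (v + n) (a.1 + n, a.2) := by
  constructor
  · rintro ⟨h0, ⟨a1, h1, h2, h3⟩, a2, h4, h5, h6⟩
    refine ⟨⟨by linarith [h0.1], by linarith [h0.2]⟩,
      ⟨(a1.1 + n, a1.2), (A.conn_shift_iff y n u v a a1).1 h1,
        ⟨by linarith [h2.1], by linarith [h2.2]⟩, by linarith⟩,
      (a2.1 + n, a2.2), (A.conn_shift_iff y n u v a a2).1 h4,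
        ⟨by linarith [h5.1], by linarith [h5.2]⟩, by linarith⟩
  · rintro ⟨h0, ⟨a1, h1, h2, h3⟩, a2, h4, h5, h6⟩
    have e1 := A.conn_shift' y n u v h1
    have e2 := A.conn_shift' y n u v h4
    simp only [add_sub_cancel_right] at e1 e2
    refine ⟨⟨by linarith [h0.1], by linarith [h0.2]⟩,
      ⟨(a1.1 - n, a1.2), e1, ⟨by linarith [h2.1], by linarith [h2.2]⟩, by linarith⟩,
      (a2.1 - n, a2.2), e2, ⟨by linarith [h5.1], by linarith [h5.2]⟩, by linarith⟩

theorem κ_shift (y : b.Hull) (n u v : ℤ) : A.κ (sh n y) u v = A.κ y (u + n) (v + n) := by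
  have hT : Function.Injective (fun a : ℤ × F => (a.1 + n, a.2)) := by
    intro a a' h
    have h1 := congrArg Prod.fst h
    have h2 := congrArg Prod.snd h
    exact Prod.ext (by simpa using h1) h2
  have key : A.crs y (u + n) (v + n) =
      (Set.image (fun a : ℤ × F => (a.1 + n, a.2))) '' A.crs (sh n y) u v := by
    ext C
    constructor
    · rintro ⟨a, ha, rfl⟩
      have e : a = ((a.1 - n, a.2).1 + n, (a.1 - n, a.2).2) := by simp
      refine ⟨{a' | A.Conn (sh n y) u v (a.1 - n, a.2) a'}, ⟨(a.1 - n, a.2), ?_, rfl⟩, ?_⟩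
      · rw [A.cr_shift_iff, ← e]; exact ha
      · ext a'
        constructor
        · rintro ⟨a'', h, rfl⟩
          have h1 := (A.conn_shift_iff y n u v _ _).1 h
          rw [← e] at h1
          exact h1
        · intro h
          have h1 := A.conn_shift' y n u v h
          exact ⟨(a'.1 - n, a'.2), h1, by simp⟩
    · rintro ⟨_, ⟨a, ha, rfl⟩, rfl⟩
      refine ⟨(a.1 + n, a.2), (A.cr_shift_iff y n u v a).1 ha, ?_⟩
      ext a'
      constructor
      · rintro ⟨a'', h, rfl⟩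
        exact (A.conn_shift_iff y n u v _ _).1 h
      · intro h
        have h1 := A.conn_shift' y n u v h
        simp only [add_sub_cancel_right] at h1
        exact ⟨(a'.1 - n, a'.2), h1, by simp⟩
  unfold κ
  rw [key, Set.ncard_image_of_injective _ hT.image_injective]

theorem κ_agree {y y' : b.Hull} {u v : ℤ}
    (h : ∀ k : ℤ, u - A.ρ ≤ k → k ≤ v + A.ρ → y.1 k = y'.1 k) : A.κ y u v = A.κ y' u v := by
  have hc : A.Conn y u v = A.Conn y' u v := by
    unfold Conn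
    congr 1
    funext a a'
    apply propext
    constructor
    · rintro ⟨h1, h2, h3⟩
      refine ⟨h1, h2, (A.step_agree (fun k hk => ?_) a').1 h3⟩
      have := abs_le.1 hk
      exact h k (by linarith [h1.1, this.1]) (by linarith [h1.2, this.2])
    · rintro ⟨h1, h2, h3⟩
      refine ⟨h1, h2, (A.step_agree (fun k hk => ?_) a').2 h3⟩
      have := abs_le.1 hk
      exact h k (by linarith [h1.1, this.1]) (by linarith [h1.2, this.2])
  unfold κ crs Cr
  rw [hc]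

theorem exists_κ_const [Finite F] : ∃ (M0 θ : ℕ), 2 * A.ρ ≤ M0 ∧
    ∀ (y : b.Hull) (u v : ℤ), M0 ≤ v - u → A.κ y u v = θ := by
  classical
  rcases isEmpty_or_nonempty b.Hull with hE | ⟨⟨yy⟩⟩
  · exact ⟨2 * A.ρ, 0, le_refl _, fun y => (hE.false y).elim⟩
  have hex : ∃ k : ℕ, ∃ (y : b.Hull) (u v : ℤ), u + 2 * A.ρ ≤ v ∧ A.κ y u v = k :=
    ⟨_, yy, 0, 2 * A.ρ, by simp, rfl⟩
  obtain ⟨y0, u0, v0, h0, hθ⟩ := Nat.find_spec hex
  have hmin : ∀ (y : b.Hull) (u v : ℤ), u + 2 * A.ρ ≤ v → Nat.find hex ≤ A.κ y u v :=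
    fun y u v huv => Nat.find_min' hex ⟨y, u, v, huv, rfl⟩
  set θ := Nat.find hex with hθdef
  obtain ⟨C, -, hC⟩ := linear_rec b
  set N : ℕ := u0.natAbs + v0.natAbs + A.ρ with hN
  refine ⟨2 * u0.natAbs + 2 * v0.natAbs + C * (N + 1) + 2 * A.ρ, θ, by omega, fun y u v huv => ?_⟩
  obtain ⟨t, ht1, ht2, ht⟩ := hC y y0 N (u + u0.natAbs)
  have hCN : (0 : ℤ) ≤ (C : ℤ) * (N + 1) := by positivity
  rw [Int.natCast_natAbs] at ht1 ht2
  have h1 := neg_abs_le u0
  have h2 := le_abs_self v0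
  have h3 := abs_nonneg v0
  have h4 := abs_nonneg u0
  push_cast at huv
  have hb : A.κ y u v ≤ A.κ y (u0 + t) (v0 + t) :=
    A.κ_le (by linarith) (by linarith) (by linarith)
  rw [← A.κ_shift, A.κ_agree (y' := y0) (u := u0) (v := v0), hθ] at hb
  · exact le_antisymm hb (hmin y u v (by linarith))
  · intro k hk1 hk2
    rw [sh_apply]
    apply ht
    rw [hN]
    push_cast
    rw [abs_le]
    constructor
    · linarith
    · linarith

private theorem mem_class_eq {y : b.Hull} {u v : ℤ} {C C' : Set (ℤ × F)}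
    (h : C ∈ A.crs y u v) (h' : C' ∈ A.crs y u v) {a : ℤ × F} (ha : a ∈ C) (ha' : a ∈ C') :
    C = C' := by
  obtain ⟨a1, -, rfl⟩ := h
  obtain ⟨a2, -, rfl⟩ := h'
  have e1 : A.Conn y u v a1 a := ha
  have e2 : A.Conn y u v a2 a := ha'
  ext z
  constructor
  · intro hz
    exact A.conn_trans (A.conn_trans e2 (A.conn_symm e1)) hz
  · intro hz
    exact A.conn_trans (A.conn_trans e1 (A.conn_symm e2)) hz

private theorem exists_match [Finite F] {M0 θ : ℕ} (hM : 2 * A.ρ ≤ M0)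
    (h : ∀ (y : b.Hull) (u v : ℤ), M0 ≤ v - u → A.κ y u v = θ) {y : b.Hull} {u v u' v' : ℤ}
    (hu : u' ≤ u) (hv : v ≤ v') (huv : M0 ≤ v - u) :
    ∃ f : Set (ℤ × F) → Set (ℤ × F), (∀ C' ∈ A.crs y u' v', f C' ⊆ C') ∧
      ∀ C ∈ A.crs y u v, ∃ C' ∈ A.crs y u' v', f C' = C := by
  have hM' : (2 : ℤ) * A.ρ ≤ M0 := by exact_mod_cast hM
  have hex : ∀ C' ∈ A.crs y u' v', ∃ C ∈ A.crs y u v, C ⊆ C' :=
    fun C' hC' => A.crs_sub hu hv (by linarith) hC'
  choose! f hfS hfs using hex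
  refine ⟨f, hfs, ?_⟩
  have hinj : Set.InjOn f (A.crs y u' v') := by
    intro C1 h1 C2 h2 he
    obtain ⟨a, ha, hC⟩ := hfS C1 h1
    have ha1 : a ∈ f C1 := by rw [hC]; exact Relation.ReflTransGen.refl
    exact A.mem_class_eq h1 h2 (hfs C1 h1 ha1) (hfs C2 h2 (he ▸ ha1))
  have himg : f '' A.crs y u' v' = A.crs y u v := by
    apply Set.eq_of_subset_of_ncard_le
    · rintro _ ⟨C', hC', rfl⟩
      exact hfS C' hC'
    · rw [hinj.ncard_image]
      have e1 : (A.crs y u v).ncard = θ := h y u v huv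
      have e2 : (A.crs y u' v').ncard = θ := h y u' v' (by linarith)
      rw [e1, e2]
    · exact A.crs_finite y u v
  intro C hC
  rw [← himg] at hC
  exact hC

theorem cr_extend [Finite F] {M0 θ : ℕ} (hM : 2 * A.ρ ≤ M0)
    (h : ∀ (y : b.Hull) (u v : ℤ), M0 ≤ v - u → A.κ y u v = θ) {y : b.Hull} {u v u' v' : ℤ}
    (hu : u' ≤ u) (hv : v ≤ v') (huv : M0 ≤ v - u) {a : ℤ × F} (ha : A.Cr y u v a) :
    A.Cr y u' v' a := by
  obtain ⟨f, hf, hs⟩ := A.exists_match hM h (y := y) hu hv huv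
  obtain ⟨C', hC', he⟩ := hs {a' | A.Conn y u v a a'} ⟨a, ha, rfl⟩
  have ha1 : a ∈ C' := hf C' hC' (by rw [he]; exact Relation.ReflTransGen.refl)
  obtain ⟨a0, ⟨-, ⟨a1, h1, h2, h3⟩, a2, h4, h5, h6⟩, rfl⟩ := hC'
  have e : A.Conn y u' v' a a0 := A.conn_symm ha1
  exact ⟨⟨hu.trans ha.1.1, ha.1.2.trans hv⟩, ⟨a1, A.conn_trans e h1, h2, h3⟩,
    a2, A.conn_trans e h4, h5, h6⟩

theorem conn_restrict [Finite F] {M0 θ : ℕ} (hM : 2 * A.ρ ≤ M0)
    (h : ∀ (y : b.Hull) (u v : ℤ), M0 ≤ v - u → A.κ y u v = θ) {y : b.Hull} {u v u' v' : ℤ}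
    (hu : u' ≤ u) (hv : v ≤ v') (huv : M0 ≤ v - u) {a a' : ℤ × F} (ha : A.Cr y u v a)
    (ha' : A.Cr y u v a') (hc : A.Conn y u' v' a a') : A.Conn y u v a a' := by
  obtain ⟨f, hf, hs⟩ := A.exists_match hM h (y := y) hu hv huv
  obtain ⟨C1, hC1, he1⟩ := hs {z | A.Conn y u v a z} ⟨a, ha, rfl⟩
  obtain ⟨C2, hC2, he2⟩ := hs {z | A.Conn y u v a' z} ⟨a', ha', rfl⟩
  have m1 : a ∈ C1 := hf C1 hC1 (by rw [he1]; exact Relation.ReflTransGen.refl)
  have m2 : a' ∈ C2 := hf C2 hC2 (by rw [he2]; exact Relation.ReflTransGen.refl)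
  have m3 : a' ∈ C1 := by
    obtain ⟨a0, -, rfl⟩ := hC1
    exact A.conn_trans m1 hc
  have e12 := A.mem_class_eq hC1 hC2 m3 m2
  have e3 : {z | A.Conn y u v a z} = {z | A.Conn y u v a' z} := by rw [← he1, ← he2, e12]
  have m4 : a' ∈ {z | A.Conn y u v a' z} := Relation.ReflTransGen.refl
  rw [← e3] at m4
  exact m4

end Gen

end Pool.Agent.helper98.NIG
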