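import Pool.Agent.helper98.NIG.C04

/-!
# NIG-C05: the finite part acts through a finite group

PROOFS.  `N = R1 + ρ`. Let `Ω` be the finite type of patterns: `(Fin (2N+1) → Bool) × F`, and
`pat x = (fun i => x.1.1 (i - N), x.2)`; `pat x = pat x'` iff `Agree N x x'`.
For `x ∉ A.Dinf R1` the set `A.orb x` is finite (positions `< R1` in absolute value; a point of the
line is determined by its position and its `F`-coordinate, `eq_of_pos`).
For `x ∉ Dinf` let `K x = {g : A.G | ∀ h ∈ A.G, g (h x) = h x}` (a subgroup of `A.G`): it is the kernel of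
`A.G → Perm (orb x)` (finite), so it has finite index. By `fin_agree` (applied to
`h⁻¹ g h`: `g (h x) = h x ↔ (h⁻¹ g h) x = x`) `K x = K x'` if `Agree N x x'`. So the infimum of all `K x`,
`x ∉ Dinf`, is an infimum of finitely many subgroups of finite index (`Ω` is finite), so it has
finite index: `Kfin = ⨅ x ∉ Dinf, K x = {g | ∀ x ∉ Dinf, g x = x}` (take `h = 1` for `⊇`... both
inclusions are clear since `Dinf` is invariant: `x ∉ Dinf → h x ∉ Dinf`; for this use the definition of
`Dinf` directly? NOTE: invariance of `Dinf R1` needs `R1` from `big_imp_infinite`; therefore `Kfin` is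
DEFINED as `{g | ∀ x ∉ Dinf, ∀ h ∈ A.G, g (h x) = h x}`.)
It is normal (conjugate). The quotient `A.G ⧸ Kfin` is a finite group: `exists_finite_quotient`.
-/

namespace Pool.Agent.helper98.NIG

variable {b : Base} {F : Type}

namespace Gen

variable (A : Gen b F)

/-- The orbits outside of `Dinf` are finite. -/
theorem c05_finite_orbit [Finite F] {R1 : ℕ} {x : Pt b F} (hx : x ∉ A.Dinf R1) :
    Finite (MulAction.orbit A.G x) := by
  have hfin : ((fun a : ℤ × F => ((sh a.1 x.1, a.2) : Pt b F)) ''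
      (Set.Icc (-(R1 : ℤ)) R1 ×ˢ Set.univ)).Finite :=
    ((Set.finite_Icc _ _).prod Set.finite_univ).image _
  refine (hfin.subset ?_).to_subtype
  rintro _ ⟨g, rfl⟩
  refine ⟨(disp (g : Equiv.Perm (Pt b F)) x, ((g : Equiv.Perm (Pt b F)) x).2), ⟨?_, trivial⟩, ?_⟩
  · have h1 : ¬ (R1 : ℤ) ≤ |disp (g : Equiv.Perm (Pt b F)) x| := fun h => hx ⟨g, g.2, h⟩
    exact abs_le.1 (not_le.1 h1).le
  · exact (eq_of_pos (sameLine_of_mem_PW (A.G_le_PW g.2) x)).symm

/-- A homomorphism of `A.G` to a finite group whose kernel acts trivially outside of `Dinf`. -/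
theorem exists_finite_quotient [Finite F] (R1 : ℕ) :
    ∃ (Q : Type) (_ : Group Q) (_ : Finite Q) (π : A.G →* Q), ∀ g : A.G, π g = 1 →
      ∀ x : Pt b F, x ∉ A.Dinf R1 → (g : Equiv.Perm (Pt b F)) x = x := by
  classical
  set N : ℕ := R1 + A.ρ with hN
  let pat : {x : Pt b F // x ∉ A.Dinf R1} → (Set.Icc (-(N : ℤ)) N → Bool) × F :=
    fun x => (fun k => x.1.1.1 k, x.1.2)
  have hpat : ∀ x x', pat x = pat x' → Agree N x.1 x'.1 := by
    intro x x' h
    have h1 : (pat x).1 = (pat x').1 := congrArg (fun z => z.1) h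
    have h2 : (pat x).2 = (pat x').2 := congrArg (fun z => z.2) h
    exact ⟨h2, fun k hk => congrFun h1 ⟨k, abs_le.1 hk⟩⟩
  have hfinI : Finite (Set.Icc (-(N : ℤ)) N) := (Set.finite_Icc _ _).to_subtype
  choose rep hrep using fun ω : Set.range pat => ω.2
  have horb : ∀ ω, Finite (MulAction.orbit A.G (rep ω).1) := fun ω =>
    A.c05_finite_orbit (rep ω).2
  refine ⟨∀ ω : Set.range pat, Equiv.Perm (MulAction.orbit A.G (rep ω).1), inferInstance,
    inferInstance, MonoidHom.pi fun ω =>
      (MulAction.toPermHom A.G (MulAction.orbit A.G (rep ω).1) :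
        A.G →* Equiv.Perm (MulAction.orbit A.G (rep ω).1)), ?_⟩
  intro g hg x hx
  set ω : Set.range pat := ⟨pat ⟨x, hx⟩, ⟨x, hx⟩, rfl⟩ with hω
  have h1 : Agree N x (rep ω).1 := hpat ⟨x, hx⟩ (rep ω) (hrep ω).symm
  have h2 : MulAction.toPermHom A.G (MulAction.orbit A.G (rep ω).1) g = 1 := congrFun hg ω
  have h3 : (g : Equiv.Perm (Pt b F)) (rep ω).1 = (rep ω).1 := by
    have h4 := congrArg (fun e : Equiv.Perm (MulAction.orbit A.G (rep ω).1) =>
      ((e ⟨(rep ω).1, MulAction.mem_orbit_self _⟩ : MulAction.orbit A.G (rep ω).1) : Pt b F)) h2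
    exact h4
  exact (A.fin_agree hx h1 g.2).2.2.2 h3

end Gen

end Pool.Agent.helper98.NIG
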