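import Pool.Agent.helper98.NIG.B05

/-!
# NIG-D01: topological full groups inside of groups of piecewise shifts

`FullGroup T` = the topological full group of a homeomorphism `T : Y ≃ₜ Y`.
`Coding b F T`: an embedding of `(Y, T)` into `Pt b F`.

PROOFS.
* `uniform`: for every continuous `n : Y → ℤ` there are `N, B : ℕ` such that `|n y| ≤ B` for all `y` and
  `n y = n y'` whenever `Agree N (e y) (e y')`: by compactness. For every `y` the set
  `{y' | n y' = n y}` is a neighbourhood of `y`, so it contains `{y' | Agree N_y (e y) (e y')}` for some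
  `N_y` (`inv_cont`); this is a neighbourhood of `y` (`cont`); finitely many of them cover `Y`; take
  the maximum `N` of their `N_y`: if `Agree N (e y) (e y')` and `y` is in the piece of `y0` then
  `Agree N_(y0) (e y0) (e y')` too (`Agree.trans`), so `n y = n y0 = n y'`. Bounded: `n` takes finitely
  many values.
* `pow_step`: for every `m : ℤ` there is `ρ` such that for all `y` there is `n`, `|n| ≤ ρ`, with
  `(e ((T ^ m) y')).1 = sh n (e y').1` and `(e ((T ^ m) y')).2 = (e ((T ^ m) y)).2` for all `y'` with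
  `Agree ρ (e y) (e y')`: induction on `|m|`, from `step`, `step_symm` (as in `IsPW.comp`).
* `perm g` (`g : Y ≃ₜ Y`): the permutation of `Pt b F` which maps `e y` to `e (g y)` and fixes all the
  points which are not in the range of `e` (e.g. `Equiv.Perm.extendDomain g.toEquiv` along
  `Equiv.ofInjective e inj : Y ≃ Set.range e`; then `Equiv.Perm.extendDomain_mul` etc. are in
  Mathlib).
* `perm_mem_PW`: `g y = (T ^ n y) y`, `n` continuous. Let `N, B` be as in `uniform`, `ρ_m` from `pow_step`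
  for `|m| ≤ B`, `N'` from `clopen`; `ρ = N + N' + ∑ ρ_m`. For `x ∉ range e`: all `x'` with
  `Agree ρ x x'` are not in the range: `n = 0`. For `x = e y`: all `x'` with `Agree ρ x x'` are `e y'` with
  `n y' = n y =: m`, and `pow_step` for `m` applies. For `g⁻¹`: it is in the full group too.
-/

namespace Pool.Agent.helper98.NIG

open Topology

/-- The topological full group of `T`, as a subgroup of the group of homeomorphisms. -/
def FullGroup {Y : Type} [TopologicalSpace Y] (T : Y ≃ₜ Y) : Subgroup (Y ≃ₜ Y) where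
  carrier := {g | ∃ n : Y → ℤ, Continuous n ∧ ∀ y, g y = (T ^ n y) y}
  one_mem' := ⟨fun _ => 0, continuous_const, fun y => by simp⟩
  mul_mem' := by
    rintro g h ⟨n, hn, hg⟩ ⟨m, hm, hh⟩
    refine ⟨fun y => n (h y) + m y, (hn.comp h.continuous).add hm, fun y => ?_⟩
    rw [Homeomorph.mul_apply, hg, zpow_add, Homeomorph.mul_apply, ← hh]
  inv_mem' := by
    rintro g ⟨n, hn, hg⟩
    refine ⟨fun y => - n (g⁻¹ y), (hn.comp g⁻¹.continuous).neg, fun y => ?_⟩
    obtain ⟨z, rfl⟩ : ∃ z, y = g z := ⟨g⁻¹ y, by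
      rw [← Homeomorph.mul_apply, mul_inv_cancel, Homeomorph.one_apply]⟩
    have h2 : g⁻¹ (g z) = z := by
      rw [← Homeomorph.mul_apply, inv_mul_cancel, Homeomorph.one_apply]
    show g⁻¹ (g z) = (T ^ (-n (g⁻¹ (g z)))) (g z)
    rw [h2, hg z, zpow_neg, ← Homeomorph.mul_apply, inv_mul_cancel, Homeomorph.one_apply]

/-- A coding of `(Y, T)` by points of `Pt b F`. -/
structure Coding (b : Base) (F : Type) {Y : Type} [TopologicalSpace Y] (T : Y ≃ₜ Y) where
  e : Y → Pt b F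
  inj : Function.Injective e
  clopen : ∃ N : ℕ, ∀ x x' : Pt b F, Agree N x x' → (x ∈ Set.range e ↔ x' ∈ Set.range e)
  cont : ∀ (N : ℕ) (y : Y), ∀ᶠ y' in 𝓝 y, Agree N (e y) (e y')
  inv_cont : ∀ (y : Y), ∀ U ∈ 𝓝 y, ∃ N : ℕ, ∀ y' : Y, Agree N (e y) (e y') → y' ∈ U
  step : ∃ ρ : ℕ, ∀ y : Y, ∃ n : ℤ, |n| ≤ ρ ∧ ∀ y' : Y, Agree ρ (e y) (e y') →
    (e (T y')).1 = sh n (e y').1 ∧ (e (T y')).2 = (e (T y)).2
  step_symm : ∃ ρ : ℕ, ∀ y : Y, ∃ n : ℤ, |n| ≤ ρ ∧ ∀ y' : Y, Agree ρ (e y) (e y') →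
    (e (T.symm y')).1 = sh n (e y').1 ∧ (e (T.symm y')).2 = (e (T.symm y)).2

namespace Coding

variable {b : Base} {F : Type} {Y : Type} [TopologicalSpace Y] {T : Y ≃ₜ Y}

theorem uniform [CompactSpace Y] (c : Coding b F T) {n : Y → ℤ} (hn : Continuous n) :
    ∃ N B : ℕ, (∀ y, |n y| ≤ B) ∧ ∀ y y', Agree N (c.e y) (c.e y') → n y = n y' := by
  classical
  have hU : ∀ y : Y, {y' | n y' = n y} ∈ 𝓝 y := fun y =>
    (hn.continuousAt (x := y)).preimage_mem_nhds (IsOpen.mem_nhds (isOpen_discrete {n y}) rfl)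
  choose Ny hNy using fun y : Y => c.inv_cont y _ (hU y)
  obtain ⟨t, -, ht⟩ := isCompact_univ.elim_nhds_subcover
    (fun y : Y => {y' | Agree (Ny y) (c.e y) (c.e y')}) (fun y _ => c.cont (Ny y) y)
  have hcov : ∀ y : Y, ∃ y0 ∈ t, Agree (Ny y0) (c.e y0) (c.e y) := by
    intro y
    have h1 := ht (Set.mem_univ y)
    simp only [Set.mem_iUnion] at h1
    obtain ⟨y0, h2, h3⟩ := h1
    exact ⟨y0, h2, h3⟩
  refine ⟨t.sup Ny, t.sup fun y => (n y).natAbs, fun y => ?_, fun y y' h => ?_⟩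
  · obtain ⟨y0, h1, h2⟩ := hcov y
    have h3 : n y = n y0 := hNy y0 y h2
    have h4 : (n y0).natAbs ≤ t.sup fun y => (n y).natAbs :=
      Finset.le_sup (f := fun y => (n y).natAbs) h1
    rw [h3, Int.abs_eq_natAbs]
    exact_mod_cast h4
  · obtain ⟨y0, h1, h2⟩ := hcov y
    have h3 : n y = n y0 := hNy y0 y h2
    have h4 : Ny y0 ≤ t.sup Ny := Finset.le_sup h1
    have h5 : n y' = n y0 := hNy y0 y' (h2.trans (h.mono h4))
    rw [h3, h5]

/-- `f` moves the coding points by a locally constant shift -/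
private def D01_St (c : Coding b F T) (f : Y → Y) : Prop :=
  ∃ ρ : ℕ, ∀ y : Y, ∃ n : ℤ, |n| ≤ ρ ∧ ∀ y' : Y, Agree ρ (c.e y) (c.e y') →
    (c.e (f y')).1 = sh n (c.e y').1 ∧ (c.e (f y')).2 = (c.e (f y)).2

private theorem D01_St_id (c : Coding b F T) {f : Y → Y} (hf : ∀ y, f y = y) : D01_St c f :=
  ⟨0, fun y => ⟨0, by simp, fun y' h => by
    rw [hf, hf]
    exact ⟨(sh_zero _).symm, h.1.symm⟩⟩⟩

private theorem D01_St_comp (c : Coding b F T) {f g h : Y → Y} (hf : D01_St c f)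
    (hg : D01_St c g) (hh : ∀ y, h y = f (g y)) : D01_St c h := by
  obtain ⟨r, hr⟩ := hf
  obtain ⟨s, hs⟩ := hg
  refine ⟨s + r, fun y => ?_⟩
  obtain ⟨n1, hn1, H1⟩ := hs y
  obtain ⟨n2, hn2, H2⟩ := hr (g y)
  refine ⟨n2 + n1, ?_, fun y' hy' => ?_⟩
  · push_cast
    exact (abs_add_le n2 n1).trans (by linarith)
  · have h0 := H1 y (Agree.refl _ _)
    have h1 := H1 y' (hy'.mono (by omega))
    have h2 : Agree r (c.e (g y)) (c.e (g y')) := by
      refine ⟨h1.2.symm, ?_⟩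
      rw [h0.1, h1.1]
      refine (agree_sh hy' n1 (c.e y).2 ?_).2
      push_cast
      linarith
    have h3 := H2 (g y') h2
    rw [hh, hh]
    refine ⟨?_, h3.2⟩
    rw [h3.1, h1.1, sh_sh]

theorem pow_step (c : Coding b F T) (m : ℤ) : ∃ ρ : ℕ, ∀ y : Y, ∃ n : ℤ, |n| ≤ ρ ∧
    ∀ y' : Y, Agree ρ (c.e y) (c.e y') →
    (c.e ((T ^ m) y')).1 = sh n (c.e y').1 ∧ (c.e ((T ^ m) y')).2 = (c.e ((T ^ m) y)).2 := by
  change D01_St c (fun y => (T ^ m) y)
  induction m using Int.induction_on with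
  | zero => exact D01_St_id c fun y => by rw [zpow_zero]; rfl
  | succ m ih =>
    exact D01_St_comp c ih (g := T) c.step fun y => by rw [zpow_add_one]; rfl
  | pred m ih =>
    exact D01_St_comp c ih (g := T.symm) c.step_symm fun y => by rw [zpow_sub_one]; rfl

/-- The full group embeds into the group of piecewise shifts. -/
theorem embed [CompactSpace Y] (c : Coding b F T) :
    ∃ φ : (Y ≃ₜ Y) →* Equiv.Perm (Pt b F), Function.Injective φ ∧
      ∀ g ∈ FullGroup T, φ g ∈ PW b F := by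
  classical
  let q : Y ≃ {x : Pt b F // x ∈ Set.range c.e} := Equiv.ofInjective c.e c.inj
  let ψ : (Y ≃ₜ Y) →* Equiv.Perm Y :=
    { toFun := fun g => g.toEquiv, map_one' := rfl, map_mul' := fun _ _ => rfl }
  have hψ : Function.Injective ψ := fun g h hgh => Homeomorph.toEquiv_injective hgh
  let φ : (Y ≃ₜ Y) →* Equiv.Perm (Pt b F) := (Equiv.Perm.extendDomainHom q).comp ψ
  have hφ1 : ∀ (g : Y ≃ₜ Y) (y : Y), φ g (c.e y) = c.e (g y) := by
    intro g y
    exact Equiv.Perm.extendDomain_apply_image (ψ g) q y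
  have hφ2 : ∀ (g : Y ≃ₜ Y) (x : Pt b F), x ∉ Set.range c.e → φ g x = x := by
    intro g x hx
    exact Equiv.Perm.extendDomain_apply_not_subtype (ψ g) q hx
  have key : ∀ g ∈ FullGroup T, ∃ ρ : ℕ, IsPW ρ (φ g) := by
    rintro g ⟨n, hn, hg⟩
    obtain ⟨N, B, hB, hN⟩ := c.uniform hn
    obtain ⟨N', hN'⟩ := c.clopen
    choose r hr using fun m : ℤ => c.pow_step m
    obtain ⟨R, hR⟩ : ∃ R : ℕ, ∀ m : ℤ, |m| ≤ B → r m ≤ R := by
      refine ⟨(Finset.Icc (-(B : ℤ)) B).sup r, fun m hm => ?_⟩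
      exact Finset.le_sup (Finset.mem_Icc.2 (abs_le.1 hm))
    refine ⟨N + N' + R, fun x => ?_⟩
    by_cases hx : x ∈ Set.range c.e
    · obtain ⟨y, rfl⟩ := hx
      obtain ⟨k, hk, H⟩ := hr (n y) y
      have hle := hR _ (hB y)
      refine ⟨k, hk.trans (by push_cast; have : (r (n y) : ℤ) ≤ R := by exact_mod_cast hle
                              linarith), fun x' hx' => ?_⟩
      obtain ⟨y', rfl⟩ := (hN' _ _ (hx'.mono (by omega))).1 ⟨y, rfl⟩
      have h1 : n y = n y' := hN y y' (hx'.mono (by omega))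
      rw [hφ1, hφ1, hg y', hg y, ← h1]
      exact H y' (hx'.mono (by omega))
    · refine ⟨0, by positivity, fun x' hx' => ?_⟩
      have hx2 : x' ∉ Set.range c.e := fun h => hx ((hN' _ _ (hx'.mono (by omega))).2 h)
      rw [hφ2 g x hx, hφ2 g x' hx2]
      exact ⟨(sh_zero _).symm, hx'.1.symm⟩
  refine ⟨φ, (Equiv.Perm.extendDomainHom_injective q).comp hψ, fun g hg => ?_⟩
  obtain ⟨ρ, hρ⟩ := key g hg
  obtain ⟨σ, hσ⟩ := key g⁻¹ ((FullGroup T).inv_mem hg)
  refine ⟨ρ + σ, hρ.mono (by omega), ?_⟩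
  rw [map_inv] at hσ
  exact IsPW.mono (by omega) hσ

end Coding

end Pool.Agent.helper98.NIG
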