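import Mathlib

/-!
# NIG: no intermediate growth in the topological full groups of the Chacon and Rudin-Shapiro
subshifts (MP_0e9457_al).  Common definitions.

* `Base`: a skeleton `τ : ℤ → Bool` (gate types as a function of the address difference);
  `p = 3` gives Chacon, `p = 2` gives Rudin-Shapiro.
* `Base.Hull`: the Toeplitz type subshift generated by the skeleton.
* `Pt b F = b.Hull × F`: the points (`F` finite: floors and sheets); a line is the set of all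
  `(sh n y, φ)`, `n : ℤ`, `φ : F`, with `y` fixed.
* `PW b F`: the group of all piecewise shifts with a finite radius.
* `Sys b F`: a finitely generated group of piecewise shifts acting on a clopen set `D`
  with bi-infinite orbits, minimally, and trivially outside `D`.
-/

namespace Pool.Agent.helper98.NIG

/-- The skeleton. -/
structure Base where
  p : ℕ
  two_le : 2 ≤ p
  τ : ℤ → Bool
  anti : ∀ m : ℤ, m ≠ 0 → τ (-m) = !(τ m)
  loc : ∀ (K : ℕ) (m m' : ℤ), ¬ (p : ℤ) ^ K ∣ m → (p : ℤ) ^ (K + 1) ∣ m - m' → τ m = τ m'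
  mis : ∀ (j : ℕ) (r : ℤ), 1 ≤ j → (p : ℤ) ^ j ∣ r → ¬ (p : ℤ) ^ (j + 1) ∣ r →
    ∃ m0 : ℤ, (p : ℤ) ^ (j - 1) ∣ m0 ∧ ¬ (p : ℤ) ^ (j + 1) ∣ m0 ∧ ¬ (p : ℤ) ^ (j + 1) ∣ m0 - r ∧
      ∀ m : ℤ, (p : ℤ) ^ (j + 1) ∣ m - m0 → τ m ≠ τ (m - r)

/-- The hull of the skeleton: all sequences whose windows are windows of the skeleton which
avoid the hole `0`. -/
def Base.Hull (b : Base) : Set (ℤ → Bool) :=
  {y | ∀ N : ℕ, ∃ m : ℤ, (N : ℤ) < |m| ∧ ∀ n : ℤ, |n| ≤ N → y n = b.τ (n - m)}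

theorem Base.Hull_shift (b : Base) {y : ℤ → Bool} (hy : y ∈ b.Hull) (n : ℤ) :
    (fun k => y (k + n)) ∈ b.Hull := by
  intro N
  obtain ⟨m, hm, h⟩ := hy (N + n.natAbs)
  refine ⟨m - n, ?_, fun k hk => ?_⟩
  · have h2 := abs_sub_abs_le_abs_sub m n
    push_cast at hm
    linarith
  · have h3 : y (k + n) = b.τ (k + n - m) := by
      apply h
      push_cast
      exact (abs_add_le k n).trans (by linarith)
    show y (k + n) = b.τ (k - (m - n))
    rw [h3]
    congr 1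
    ring

/-- The shift of the hull by `n`: `(sh n y) k = y (k + n)`. -/
def sh {b : Base} (n : ℤ) (y : b.Hull) : b.Hull := ⟨fun k => y.1 (k + n), b.Hull_shift y.2 n⟩

@[simp] theorem sh_apply {b : Base} (n : ℤ) (y : b.Hull) (k : ℤ) :
    (sh n y).1 k = y.1 (k + n) := rfl

@[simp] theorem sh_zero {b : Base} (y : b.Hull) : sh 0 y = y := by
  ext k; simp

theorem sh_sh {b : Base} (m n : ℤ) (y : b.Hull) : sh m (sh n y) = sh (m + n) y := by
  ext k; simp [add_assoc]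

/-- The points. -/
abbrev Pt (b : Base) (F : Type) := b.Hull × F

variable {b : Base} {F : Type}

/-- Two points agree on the window of radius `N`. -/
def Agree (N : ℕ) (x x' : Pt b F) : Prop :=
  x.2 = x'.2 ∧ ∀ k : ℤ, |k| ≤ N → x.1.1 k = x'.1.1 k

/-- `g` is a piecewise shift of radius `ρ`. -/
def IsPW (ρ : ℕ) (g : Pt b F → Pt b F) : Prop :=
  ∀ x : Pt b F, ∃ n : ℤ, |n| ≤ ρ ∧
    ∀ x' : Pt b F, Agree ρ x x' → (g x').1 = sh n x'.1 ∧ (g x').2 = (g x).2

/-- A permutation which is a piecewise shift of radius `ρ` together with its inverse. -/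
def PWr (ρ : ℕ) (g : Equiv.Perm (Pt b F)) : Prop := IsPW ρ g ∧ IsPW ρ g.symm

theorem Agree.refl (N : ℕ) (x : Pt b F) : Agree N x x := ⟨rfl, fun _ _ => rfl⟩

theorem Agree.symm {N : ℕ} {x x' : Pt b F} (h : Agree N x x') : Agree N x' x :=
  ⟨h.1.symm, fun k hk => (h.2 k hk).symm⟩

theorem Agree.trans {N : ℕ} {x x' x'' : Pt b F} (h : Agree N x x') (h' : Agree N x' x'') :
    Agree N x x'' := ⟨h.1.trans h'.1, fun k hk => (h.2 k hk).trans (h'.2 k hk)⟩

theorem Agree.mono {N M : ℕ} (hNM : N ≤ M) {x x' : Pt b F} (h : Agree M x x') : Agree N x x' :=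
  ⟨h.1, fun k hk => h.2 k (hk.trans (by exact_mod_cast hNM))⟩

theorem IsPW.mono {ρ σ : ℕ} (h : ρ ≤ σ) {g : Pt b F → Pt b F} (hg : IsPW ρ g) : IsPW σ g := by
  intro x
  obtain ⟨n, hn, H⟩ := hg x
  exact ⟨n, hn.trans (by exact_mod_cast h), fun x' hx' => H x' (hx'.mono h)⟩

theorem IsPW.one : IsPW 0 (id : Pt b F → Pt b F) := by
  intro x
  exact ⟨0, by simp, fun x' hx' => ⟨by simp, hx'.1.symm⟩⟩

theorem IsPW.comp {ρ σ : ℕ} {g h : Pt b F → Pt b F} (hg : IsPW ρ g) (hh : IsPW σ h) :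
    IsPW (ρ + σ) (g ∘ h) := by
  intro x
  obtain ⟨n, hn, H⟩ := hh x
  obtain ⟨m, hm, H'⟩ := hg (h x)
  refine ⟨m + n, ?_, fun x' hx' => ?_⟩
  · push_cast
    exact (abs_add_le m n).trans (by linarith)
  · have h0 := H x (Agree.refl _ _)
    have h1 := H x' (hx'.mono (by omega))
    have h2 : Agree ρ (h x) (h x') := by
      refine ⟨h1.2.symm, fun k hk => ?_⟩
      rw [h0.1, h1.1, sh_apply, sh_apply]
      apply hx'.2
      push_cast
      exact (abs_add_le k n).trans (by linarith)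
    have h3 := H' (h x') h2
    refine ⟨?_, h3.2⟩
    show (g (h x')).1 = _
    rw [h3.1, h1.1, sh_sh]

/-- The group of piecewise shifts with a finite radius. -/
def PW (b : Base) (F : Type) : Subgroup (Equiv.Perm (Pt b F)) where
  carrier := {g | ∃ ρ, PWr ρ g}
  one_mem' := ⟨0, IsPW.one, IsPW.one⟩
  mul_mem' := by
    rintro g h ⟨ρ, hρ, hρ'⟩ ⟨σ, hσ, hσ'⟩
    exact ⟨ρ + σ, hρ.comp hσ, (hσ'.comp hρ').mono (by omega)⟩
  inv_mem' := by
    rintro g ⟨ρ, hρ, hρ'⟩
    exact ⟨ρ, hρ', hρ⟩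

/-- Two points lie on the same line. -/
def SameLine (x x' : Pt b F) : Prop := ∃ n : ℤ, x'.1 = sh n x.1

open Classical in
/-- The position of `x'` relative to `x` (if they lie on the same line). -/
noncomputable def pos (x x' : Pt b F) : ℤ :=
  if h : ∃ n : ℤ, x'.1 = sh n x.1 then h.choose else 0

/-- The displacement of `x` under `g`. -/
noncomputable def disp (g : Equiv.Perm (Pt b F)) (x : Pt b F) : ℤ := pos x (g x)

/-- A minimal system with bi-infinite orbits. -/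
structure Sys (b : Base) (F : Type) where
  /-- the finite symmetric set of generators -/
  S : Finset (Equiv.Perm (Pt b F))
  /-- the radius -/
  ρ : ℕ
  /-- the clopen set on which the group acts -/
  D : Set (Pt b F)
  pw : ∀ s ∈ S, PWr ρ s
  one_mem : 1 ∈ S
  inv_mem : ∀ s ∈ S, s⁻¹ ∈ S
  clopen : ∀ x x' : Pt b F, Agree ρ x x' → (x ∈ D ↔ x' ∈ D)
  nonempty : D.Nonempty
  maps : ∀ s ∈ S, ∀ x ∈ D, s x ∈ D
  triv : ∀ s ∈ S, ∀ x, x ∉ D → s x = x
  right : ∀ x ∈ D, ∀ M : ℤ, ∃ g ∈ Subgroup.closure (S : Set (Equiv.Perm (Pt b F))), M < disp g x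
  left : ∀ x ∈ D, ∀ M : ℤ, ∃ g ∈ Subgroup.closure (S : Set (Equiv.Perm (Pt b F))), disp g x < M
  minimal : ∀ x ∈ D, ∀ z ∈ D, ∀ N : ℕ,
    ∃ g ∈ Subgroup.closure (S : Set (Equiv.Perm (Pt b F))), Agree N (g x) z

namespace Sys

/-- The group of the system. -/
def G (A : Sys b F) : Subgroup (Equiv.Perm (Pt b F)) :=
  Subgroup.closure (A.S : Set (Equiv.Perm (Pt b F)))

/-- The orbit of a point. -/
def orb (A : Sys b F) (x : Pt b F) : Set (Pt b F) := {a | ∃ g ∈ A.G, a = g x}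

/-- The system is reduced: two points of `D` on a line which stay at a bounded distance for ever
are equal. -/
def Reduced (A : Sys b F) : Prop :=
  ∀ x ∈ A.D, ∀ x' ∈ A.D, SameLine x x' → (∃ C : ℤ, ∀ g ∈ A.G, |pos (g x) (g x')| ≤ C) → x = x'

/-- `x` and `y` have the same stabiliser. -/
def Rel (A : Sys b F) (x y : Pt b F) : Prop := ∀ g ∈ A.G, g x = x ↔ g y = y

/-- `A.Reach x I g`: `g` is a product of generators such that the path of `x` along this product
stays at positions in `I` (relative to `x`). -/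
inductive Reach (A : Sys b F) (x : Pt b F) (I : Set ℤ) : Equiv.Perm (Pt b F) → Prop
  | one : Reach A x I 1
  | step {g s : Equiv.Perm (Pt b F)} : Reach A x I g → s ∈ A.S → pos x (s (g x)) ∈ I →
      Reach A x I (s * g)

/-- `y` is locked to `x` over `I`: the loops of `x` inside of `I` fix `y`. -/
def Lock (A : Sys b F) (I : Set ℤ) (x y : Pt b F) : Prop :=
  ∀ g, A.Reach x I g → g x = x → g y = y

end Sys

/-- The ball of radius `n` with respect to a finite set. -/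
def Ball {Γ : Type} [Group Γ] (T : Set Γ) (n : ℕ) : Set Γ :=
  {g | ∃ l : List Γ, l.length ≤ n ∧ (∀ s ∈ l, s ∈ T ∨ s⁻¹ ∈ T) ∧ l.prod = g}

/-- Exponential growth: some finite subset has exponentially growing balls. -/
def ExpGrowth (Γ : Type) [Group Γ] : Prop :=
  ∃ (T : Finset Γ) (c : ℝ), 1 < c ∧ ∀ n : ℕ, c ^ n ≤ ((Ball (T : Set Γ) n).ncard : ℝ)

/-- Polynomial growth: the balls of some (equivalently any) finite generating set are bounded by
a polynomial. -/
def PolyGrowth (Γ : Type) [Group Γ] : Prop :=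
  ∃ (T : Finset Γ) (d C : ℕ), Subgroup.closure (T : Set Γ) = ⊤ ∧
    ∀ n : ℕ, (Ball (T : Set Γ) n).ncard ≤ C * (n + 1) ^ d

open Classical in
/-- The sum of the weights `w s a` over the edges `(a, s a)` of the orbit of `x` which cross the
cut `c` from the left to the right (positions relative to `x`). -/
noncomputable def cutSum [Fintype F] (A : Sys b F) (x : Pt b F) (c : ℤ)
    (w : Equiv.Perm (Pt b F) → Pt b F → ℝ) : ℝ :=
  ∑ k ∈ Finset.Ioc (c - A.ρ) c, ∑ φ : F, ∑ s ∈ A.S,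
    if (sh k x.1, φ) ∈ A.orb x ∧ c < pos x (s (sh k x.1, φ)) then w s (sh k x.1, φ) else 0

/-- The harmonic coordinate of a system: `δ g x = H (g x) - H x`. -/
structure Harm [Fintype F] (A : Sys b F) where
  δ : Equiv.Perm (Pt b F) → Pt b F → ℝ
  mul : ∀ g ∈ A.G, ∀ h ∈ A.G, ∀ x ∈ A.D, δ (g * h) x = δ g (h x) + δ h x
  fix : ∀ g ∈ A.G, ∀ x ∈ A.D, g x = x → δ g x = 0
  harm : ∀ x ∈ A.D, ∑ s ∈ A.S, δ s x = 0
  /-- constants for the linear bounds -/
  c : ℝ
  C : ℝ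
  c_pos : 0 < c
  C_pos : 0 < C
  lower : ∀ g ∈ A.G, ∀ x ∈ A.D, 0 ≤ disp g x → c * (disp g x : ℝ) - C ≤ δ g x
  upper : ∀ g ∈ A.G, ∀ x ∈ A.D, |δ g x| ≤ C * |(disp g x : ℝ)| + C
  cont : ∀ g ∈ A.G, ∀ ε : ℝ, 0 < ε → ∃ N : ℕ, ∀ x ∈ A.D, ∀ x' ∈ A.D, Agree N x x' →
    |δ g x - δ g x'| < ε
  /-- unit current through every cut -/
  unit : ∀ x ∈ A.D, ∀ c : ℤ, cutSum A x c δ = 1

end Pool.Agent.helper98.NIG
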