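import Pool.Agent.helper98.NIG.C02
import Pool.Agent.helper97.NIG.PRel

/-!
# NIG-E00: P5 (strips), definitions

`Fam z y l r R`: over every point `a` of the orbit of `z` at a position in `[l, r]` (relative to `z`) there
is a nonempty set `R a` of tokens (points of the orbit of `y`), bounded on the right; the generators
transport the rows.
`Near n σ a t`: the loops of `a` inside the window of radius `n` fix `t`, and the harmonic displacements of
`t` are `σ` times those of `a` up to `1/(n+1)`.
`GoodT R n σ a t`: `t` is the unique highest token over `a`, `s t` is the unique highest token over `s a`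
for all generators `s`, and `Near n σ a t`.
-/

namespace Pool.Agent.helper98.NIG

variable {b : Base} {F : Type}

namespace Sys

/-- Equivariant rows over an interval. -/
structure Fam (A : Sys b F) (z y : Pt b F) (l r : ℤ) (R : Pt b F → Set (Pt b F)) : Prop where
  ne : ∀ a ∈ A.orb z, l ≤ pos z a → pos z a ≤ r → (R a).Nonempty
  sub : ∀ a ∈ A.orb z, l ≤ pos z a → pos z a ≤ r → R a ⊆ A.orb y
  bdd : ∀ a ∈ A.orb z, l ≤ pos z a → pos z a ≤ r → ∃ B : ℤ, ∀ t ∈ R a, pos y t ≤ B
  eqv : ∀ a ∈ A.orb z, ∀ s ∈ A.S, l ≤ pos z a → pos z a ≤ r → l ≤ pos z (s a) →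
    pos z (s a) ≤ r → R (s a) = s '' R a

/-- The pair `(a, t)` is locked with the sign `σ` at the scale `n`. -/
def Near [Fintype F] (A : Sys b F) (n : ℕ) (σ : ℝ) (a t : Pt b F) : Prop :=
  ∀ g, A.Reach a (Set.Icc (-(n : ℤ)) n) g →
    (g a = a → g t = t) ∧ |A.hδ g t - σ * A.hδ g a| ≤ 1 / ((n : ℝ) + 1)

/-- Unique highest token, transported to the unique highest token by all generators, locked. -/
def GoodT [Fintype F] (A : Sys b F) (R : Pt b F → Set (Pt b F)) (n : ℕ) (σ : ℝ)
    (a t : Pt b F) : Prop :=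
  t ∈ R a ∧ (∀ t' ∈ R a, t' ≠ t → 0 < A.dh t' t) ∧
    (∀ s ∈ A.S, ∀ t' ∈ R (s a), t' ≠ s t → 0 < A.dh t' (s t)) ∧ A.Near n σ a t

end Sys

end Pool.Agent.helper98.NIG
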