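import Pool.Agent.helper98.NIG.E00

/-!
# NIG-E01: paths inside of an interval of the line of `z`, locks over intervals, gluing

`RIn z l r a h`: `h` is a product of generators whose path from `a` stays at positions in `[l, r]` relative
to `z` (`a` is a point of the orbit of `z`). `LockI z l r a t`: all loops of `a` inside of `[l, r]` fix `t`.
`BCon c0`: bounded connectivity (as in helper2's LDefs): two points of an orbit are joined by a path which stays
between them up to `c0`; here as a hypothesis `hc : A.BCc c0`.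

PROOFS.
* `pos_orb`: positions are additive on a line.
* `RIn.*`: from `Reach.mono`, `Reach.trans`, `Reach.inv`, `Reach.disp_mem` (B04).
* `RIn.rebase`: the interval relative to another base point of the same orbit.
* `exists_path`: `a, a' ∈ orb z` with positions in `[l + c0, r - c0]`: apply `hc` at the point `a` to an element
  `g` with `g a = a'`; the path stays within `[min - c0, max + c0]`.
* `LockI.map`: conjugate a loop of `h a` by `h`. `LockI.eq`: `h⁻¹ h'` is a loop.
* `LockI.glue`: let `α + 2 c0 + 2 ρ ≤ β`, `l ≤ α`, `β ≤ r`, `a` at a position in `[α + c0, β - c0]`, `LockI z l β a t`,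
  `LockI z α r a t`. Then `LockI z l r a t`. PROOF: put `m = α + c0 + ρ`. By induction on the path `h` (from `a`,
  inside `[l, r]`) prove: (i) if `pos z (h a) ≤ m` there is `h1` with `RIn z l β a h1`, `h1 a = h a`,
  `h1 t = h t`; (ii) if `m ≤ pos z (h a)` there is `h2` with `RIn z α r a h2`, `h2 a = h a`, `h2 t = h t`.
  Start: `h = 1`. Step from `a' = h a` to `a'' = s a'`: suppose `pos a' ≤ m` (case (i) available); `s * h1` is a path
  inside `[l, β]` (`pos a'' ≤ m + ρ ≤ β`). This gives (i) for `a''` if `pos a'' ≤ m`; if `m ≤ pos a''` then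
  `pos a'' ∈ [m, m + ρ] ⊆ [α + c0, β - c0]`, so there is a path `h3` from `a` to `a''` inside `[α, β]`
  (`exists_path`), and `h3 t = s h1 t` by `LockI.eq` for `LockI z l β a t`: this is (ii). Suppose
  `m ≤ pos a'` (case (ii) available): `s * h2` is a path inside `[α, r]` (`pos a'' ≥ m - ρ ≥ α`), this gives (ii) if
  `m ≤ pos a''`, and if `pos a'' ≤ m` then `pos a'' ∈ [m - ρ, m] ⊆ [α + c0, β - c0]`, path `h3` inside
  `[α, β]`, `h3 t = s h2 t` by `LockI.eq` for `LockI z α r a t`: (i). For a loop `h` either case gives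
  `h t = h_i t = t`.
-/

namespace Pool.Agent.helper98.NIG

variable {b : Base} {F : Type}

namespace Sys

/-- bounded connectivity with the constant `c0` -/
def BCc (A : Sys b F) (c0 : ℕ) : Prop := ∀ x ∈ A.D, ∀ g ∈ A.G, ∃ g',
  A.Reach x (Set.Icc (min 0 (disp g x) - c0) (max 0 (disp g x) + c0)) g' ∧ g' x = g x

/-- paths from `a` at positions in `[l, r]` relative to `z` -/
def RIn (A : Sys b F) (z : Pt b F) (l r : ℤ) (a : Pt b F) (h : Equiv.Perm (Pt b F)) : Prop :=
  A.Reach a (Set.Icc (l - pos z a) (r - pos z a)) h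

/-- the loops of `a` inside of `[l, r]` fix `t` -/
def LockI (A : Sys b F) (z : Pt b F) (l r : ℤ) (a t : Pt b F) : Prop :=
  ∀ h, A.RIn z l r a h → h a = a → h t = t

variable {A : Sys b F}

private theorem E01_line {z a : Pt b F} (ha : a ∈ A.orb z) : SameLine z a := by
  obtain ⟨g, hg, rfl⟩ := ha
  exact sameLine_of_mem_PW (A.G_le_PW hg) z

theorem orb_of_orb {z a : Pt b F} (ha : a ∈ A.orb z) {h : Equiv.Perm (Pt b F)} (hh : h ∈ A.G) :
    h a ∈ A.orb z := by
  obtain ⟨g, hg, rfl⟩ := ha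
  exact ⟨h * g, mul_mem hh hg, rfl⟩

theorem pos_orb {z a : Pt b F} (ha : a ∈ A.orb z) {h : Equiv.Perm (Pt b F)} (hh : h ∈ A.G) :
    pos z (h a) = pos z a + disp h a :=
  pos_add (E01_line ha) (sameLine_of_mem_PW (A.G_le_PW hh) a)

theorem orb_mem_D {z a : Pt b F} (hz : z ∈ A.D) (ha : a ∈ A.orb z) : a ∈ A.D := by
  obtain ⟨g, hg, rfl⟩ := ha
  exact A.map_mem hg hz

theorem RIn.mem_G {z a : Pt b F} {l r : ℤ} {h : Equiv.Perm (Pt b F)} (hh : A.RIn z l r a h) :
    h ∈ A.G := Reach.mem_G hh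

theorem RIn.one (z a : Pt b F) (l r : ℤ) : A.RIn z l r a 1 := Reach.one

theorem RIn.mono {z a : Pt b F} {l r l' r' : ℤ} (hl : l' ≤ l) (hr : r ≤ r')
    {h : Equiv.Perm (Pt b F)} (hh : A.RIn z l r a h) : A.RIn z l' r' a h :=
  Reach.mono (Set.Icc_subset_Icc (by linarith) (by linarith)) hh

theorem RIn.pos_mem {z a : Pt b F} {l r : ℤ} (ha : a ∈ A.orb z) (hl : l ≤ pos z a)
    (hr : pos z a ≤ r) {h : Equiv.Perm (Pt b F)} (hh : A.RIn z l r a h) :
    l ≤ pos z (h a) ∧ pos z (h a) ≤ r := by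
  have h1 := Reach.disp_mem (I := Set.Icc (l - pos z a) (r - pos z a))
    ⟨by linarith, by linarith⟩ hh
  rw [pos_orb ha hh.mem_G]
  exact ⟨by linarith [h1.1], by linarith [h1.2]⟩

theorem RIn.trans {z a : Pt b F} {l r : ℤ} (ha : a ∈ A.orb z) {h h' : Equiv.Perm (Pt b F)}
    (hh : A.RIn z l r a h) (hh' : A.RIn z l r (h a) h') : A.RIn z l r a (h' * h) := by
  have hp := pos_orb ha hh.mem_G
  refine Reach.trans hh (Reach.mono (fun k hk => ?_) hh')
  have hk' : k ∈ Set.Icc (l - pos z (h a)) (r - pos z (h a)) := hk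
  rw [hp] at hk'
  exact ⟨by linarith [hk'.1], by linarith [hk'.2]⟩

theorem RIn.inv {z a : Pt b F} {l r : ℤ} (ha : a ∈ A.orb z) (hl : l ≤ pos z a)
    (hr : pos z a ≤ r) {h : Equiv.Perm (Pt b F)} (hh : A.RIn z l r a h) :
    A.RIn z l r (h a) h⁻¹ := by
  have hp := pos_orb ha hh.mem_G
  have h1 := Reach.inv (I := Set.Icc (l - pos z a) (r - pos z a))
    ⟨by linarith, by linarith⟩ hh
  refine Reach.mono (fun k hk => ?_) h1
  have hk' : k + disp h a ∈ Set.Icc (l - pos z a) (r - pos z a) := hk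
  rw [hp]
  exact ⟨by linarith [hk'.1], by linarith [hk'.2]⟩

theorem RIn.step {z a : Pt b F} {l r : ℤ} (ha : a ∈ A.orb z) {s : Equiv.Perm (Pt b F)}
    (hs : s ∈ A.S) (hl : l ≤ pos z (s a)) (hr : pos z (s a) ≤ r) : A.RIn z l r a s := by
  have hp := pos_orb ha (A.mem_G_of_mem_S hs)
  have h1 : A.Reach a (Set.Icc (l - pos z a) (r - pos z a)) (s * 1) := by
    refine Reach.step Reach.one hs ?_
    change disp s a ∈ _
    exact ⟨by linarith, by linarith⟩
  rw [mul_one] at h1
  exact h1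

theorem RIn.rebase {z z' a : Pt b F} (hz' : z' ∈ A.orb z) (ha : a ∈ A.orb z) {l r : ℤ}
    {h : Equiv.Perm (Pt b F)} :
    A.RIn z l r a h ↔ A.RIn z' (l - pos z z') (r - pos z z') a h := by
  have h1 : pos z a = pos z z' + pos z' a :=
    pos_add (E01_line hz') (sameLine_trans (sameLine_symm (E01_line hz')) (E01_line ha))
  unfold RIn
  have e1 : l - pos z a = l - pos z z' - pos z' a := by rw [h1]; ring
  have e2 : r - pos z a = r - pos z z' - pos z' a := by rw [h1]; ring
  rw [e1, e2]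

theorem exists_path {c0 : ℕ} (hc : A.BCc c0) {z a a' : Pt b F} (hz : z ∈ A.D)
    (ha : a ∈ A.orb z) (ha' : a' ∈ A.orb z) {l r : ℤ} (hl : l + c0 ≤ pos z a)
    (hr : pos z a ≤ r - c0) (hl' : l + c0 ≤ pos z a') (hr' : pos z a' ≤ r - c0) :
    ∃ h, A.RIn z l r a h ∧ h a = a' := by
  have haD := orb_mem_D hz ha
  obtain ⟨g, hg, hga⟩ : ∃ g ∈ A.G, g a = a' := by
    obtain ⟨g1, hg1, rfl⟩ := ha
    obtain ⟨g2, hg2, rfl⟩ := ha'
    refine ⟨g2 * g1⁻¹, mul_mem hg2 (A.G.inv_mem hg1), ?_⟩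
    exact congrArg g2 (g1.symm_apply_apply z)
  have hp := pos_orb ha hg
  rw [hga] at hp
  obtain ⟨g', h1, h2⟩ := hc a haD g hg
  refine ⟨g', Reach.mono (Set.Icc_subset_Icc ?_ ?_) h1, h2.trans hga⟩
  · have : l - pos z a + c0 ≤ min 0 (disp g a) := le_min (by linarith) (by linarith)
    linarith
  · have : max 0 (disp g a) ≤ r - pos z a - c0 := max_le (by linarith) (by linarith)
    linarith

theorem LockI.mono {z a t : Pt b F} {l r l' r' : ℤ} (hl : l ≤ l') (hr : r' ≤ r)
    (h : A.LockI z l r a t) : A.LockI z l' r' a t :=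
  fun g hg hga => h g (hg.mono hl hr) hga

theorem LockI.eq {z a t : Pt b F} {l r : ℤ} (ha : a ∈ A.orb z) (hl : l ≤ pos z a)
    (hr : pos z a ≤ r) (h : A.LockI z l r a t) {g g' : Equiv.Perm (Pt b F)}
    (hg : A.RIn z l r a g) (hg' : A.RIn z l r a g') (he : g a = g' a) : g t = g' t := by
  have h1 : A.RIn z l r (g a) g'⁻¹ := by
    rw [he]
    exact hg'.inv ha hl hr
  have h2 := h _ (hg.trans ha h1) (by
    rw [Equiv.Perm.mul_apply, he]; exact g'.symm_apply_apply a)
  rw [Equiv.Perm.mul_apply, Equiv.Perm.inv_eq_iff_eq] at h2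
  exact h2

theorem LockI.map {z a t : Pt b F} {l r : ℤ} (ha : a ∈ A.orb z) (hl : l ≤ pos z a)
    (hr : pos z a ≤ r) (h : A.LockI z l r a t) {g : Equiv.Perm (Pt b F)}
    (hg : A.RIn z l r a g) : A.LockI z l r (g a) (g t) := by
  intro h' hh' hfix
  have h1 : A.RIn z l r a (h' * g) := hg.trans ha hh'
  exact h.eq ha hl hr h1 hg (by rw [Equiv.Perm.mul_apply, hfix])

theorem LockI.glue {c0 : ℕ} (hc : A.BCc c0) {z a t : Pt b F} (hz : z ∈ A.D) (ha : a ∈ A.orb z)
    {l α β r : ℤ} (h1 : l ≤ α) (h2 : β ≤ r) (h3 : α + 2 * c0 + 2 * A.ρ ≤ β)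
    (h4 : α + c0 ≤ pos z a) (h5 : pos z a ≤ β - c0) (hl : A.LockI z l β a t)
    (hr : A.LockI z α r a t) : A.LockI z l r a t := by
  have hρ0 : (0 : ℤ) ≤ A.ρ := by positivity
  have hc0 : (0 : ℤ) ≤ c0 := by positivity
  have key : ∀ h, A.Reach a (Set.Icc (l - pos z a) (r - pos z a)) h →
      (pos z (h a) ≤ α + c0 + A.ρ → ∃ h1, A.RIn z l β a h1 ∧ h1 a = h a ∧ h1 t = h t) ∧
      (α + c0 + A.ρ ≤ pos z (h a) → ∃ h2, A.RIn z α r a h2 ∧ h2 a = h a ∧ h2 t = h t) := by
    intro h hh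
    induction hh with
    | one => exact ⟨fun _ => ⟨1, RIn.one _ _ _ _, rfl, rfl⟩, fun _ => ⟨1, RIn.one _ _ _ _, rfl, rfl⟩⟩
    | @step g s hg hs hp ih =>
      obtain ⟨ih1, ih2⟩ := ih
      have hgG := hg.mem_G
      have hsG := A.mem_G_of_mem_S hs
      have hga : g a ∈ A.orb z := orb_of_orb ha hgG
      have hsga : s (g a) ∈ A.orb z := orb_of_orb hga hsG
      have e0 : pos z (s (g a)) = pos z a + pos a (s (g a)) := pos_orb ha (mul_mem hsG hgG)
      have e1 : l ≤ pos z (s (g a)) := by linarith [hp.1]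
      have e2 : pos z (s (g a)) ≤ r := by linarith [hp.2]
      have e3 := pos_orb hga hsG
      have e4 := abs_le.1 (abs_disp_le (A.pw s hs).1 (g a))
      have e5 : (s * g) a = s (g a) := rfl
      have e6 : (s * g) t = s (g t) := rfl
      rw [e5, e6]
      rcases le_total (pos z (g a)) (α + c0 + A.ρ) with hcase | hcase
      · obtain ⟨k, hk, hka, hkt⟩ := ih1 hcase
        have hs1 : A.RIn z l β a (s * k) := by
          refine hk.trans ha (RIn.step (orb_of_orb ha hk.mem_G) hs ?_ ?_)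
          · rw [hka]; exact e1
          · rw [hka]; linarith [e4.2]
        have hs2 : (s * k) a = s (g a) := by rw [Equiv.Perm.mul_apply, hka]
        have hs3 : (s * k) t = s (g t) := by rw [Equiv.Perm.mul_apply, hkt]
        refine ⟨fun _ => ⟨s * k, hs1, hs2, hs3⟩, fun hm => ?_⟩
        obtain ⟨k3, hk3, hk3a⟩ := exists_path hc hz ha hsga (l := α) (r := β) h4 h5
          (by linarith) (by linarith [e4.2])
        refine ⟨k3, hk3.mono le_rfl h2, hk3a, ?_⟩
        rw [← hs3]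
        exact hl.eq ha (by linarith) (by linarith) (hk3.mono h1 le_rfl) hs1
          (by rw [hk3a, hs2])
      · obtain ⟨k, hk, hka, hkt⟩ := ih2 hcase
        have hs1 : A.RIn z α r a (s * k) := by
          refine hk.trans ha (RIn.step (orb_of_orb ha hk.mem_G) hs ?_ ?_)
          · rw [hka]; linarith [e4.1]
          · rw [hka]; exact e2
        have hs2 : (s * k) a = s (g a) := by rw [Equiv.Perm.mul_apply, hka]
        have hs3 : (s * k) t = s (g t) := by rw [Equiv.Perm.mul_apply, hkt]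
        refine ⟨fun hm => ?_, fun _ => ⟨s * k, hs1, hs2, hs3⟩⟩
        obtain ⟨k3, hk3, hk3a⟩ := exists_path hc hz ha hsga (l := α) (r := β) h4 h5
          (by linarith [e4.1]) (by linarith)
        refine ⟨k3, hk3.mono h1 le_rfl, hk3a, ?_⟩
        rw [← hs3]
        exact hr.eq ha (by linarith) (by linarith) (hk3.mono le_rfl h2) hs1
          (by rw [hk3a, hs2])
  intro h hh hfix
  obtain ⟨k1, k2⟩ := key h hh
  rcases le_total (pos z (h a)) (α + c0 + A.ρ) with hcase | hcase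
  · obtain ⟨k, hk, hka, hkt⟩ := k1 hcase
    rw [← hkt]
    exact hl k hk (hka.trans hfix)
  · obtain ⟨k, hk, hka, hkt⟩ := k2 hcase
    rw [← hkt]
    exact hr k hk (hka.trans hfix)

theorem LockI.rebase {z z' a t : Pt b F} (hz' : z' ∈ A.orb z) (ha : a ∈ A.orb z) {l r : ℤ} :
    A.LockI z l r a t ↔ A.LockI z' (l - pos z z') (r - pos z z') a t :=
  ⟨fun h g hg hga => h g ((RIn.rebase hz' ha).2 hg) hga,
    fun h g hg hga => h g ((RIn.rebase hz' ha).1 hg) hga⟩

end Sys

end Pool.Agent.helper98.NIG
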