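import Pool.Agent.helper98.NIG.E01
import Pool.Agent.helper98.NIG.E02
import Pool.Agent.helper97.NIG.PLim

/-!
# NIG-E04: one-sided stabiliser inclusion, long locks have a sign, parallel tokens

`hN : A.BCN N`, `hc : A.BCc c0` (the constant of `Sys.BC`), `hred : A.Reduced`.
PROOFS.
* `one_sided`: if all `g ∈ G` with `g a = a` fix `t` then `f (g a) = hδ g t` is well defined on `orb a`, Lipschitz and
  harmonic (`hδ_harm`), so `= α * hδ g a` (`IsHC.affine`, strand of `a`); conclude with `slopes`.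
* `lock_near` (LS): for every `n` there is `m`: if the loops of `a` in the window `m` fix `t` (`a, t ∈ D`) then
  `Near n σ a t` for some `σ = ±1`. Suppose not: for all `m` counterexamples `a_m, t_m`; ultralimit
  `a*, t* ∈ D`. Every `g` with `g a* = a*` is reached in a bounded window (`exists_reach_bounded`), fixes `a_m`
  (`fix_iff_of_agree`), so fixes `t_m` for almost all `m`, so fixes `t*`. By `one_sided` `Rel a* t*` and
  `hδ g t* = σ hδ g a*`. The condition `Near n σ a_m t_m` quantifies over infinitely many `g`, but the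
  value at `(a_m, t_m)` of a path in the window `n` depends only on its end point `g a_m` once the loops of the
  window `m ≥ n + ...` fix `t_m`: for each of the finitely many possible end points `(k, φ)`, `|k| ≤ n` (coordinates relative
  to `a*`) fix ONE `g_(k, φ) ∈ G` with `g a* = (sh k a*.1, φ)` if it exists (reached in a window `C`). For `g`
  reached from `a_m` in the window `n`: its end point has coordinates `(k, φ)`, the point `(sh k a*.1, φ)` is in the orbit of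
  `a*` by the same path (`Reach.congr`), so `g_(k,φ) a_m = g a_m`, `g⁻¹ g_(k,φ)` is a loop of `a_m` in
  the window `max n C ≤ m`, so `g t_m = g_(k,φ) t_m`, hence `hδ g t_m = hδ (g_(k,φ)) t_m` (`hδ_congr`),
  `hδ g a_m = hδ (g_(k,φ)) a_m`, and these converge to the values at `t*`, `a*` (`tendsto_hδ`).
* `near_sign`: `Near n 1 a t` and `Near n (-1) a t` is impossible for `n ≥ n0`: take `g` with `hδ g a ≥ 2` reached in
  the window `n0` (uniformly in `a`: `syn`, `hδ_lower`, `BCc`): `2 * 2 ≤ 2 / (n + 1)`.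
* `near_map`: `Near n σ a t`, `s ∈ S`, then `Near n' σ (s a) (s t)` for `2 (n' + 1) ≤ n + 1`, `n' + ρ ≤ n` (cocycle:
  `hδ g (s a) = hδ (g s) a - hδ s a`).
* `parallel` (PL): for all `C` there is `m` (with `n1` a fixed scale `≥ n0`): `a ∈ D`, `t1 ∈ D`, `t2 ∈ orb t1`,
  `|pos t1 t2| ≤ C`, all loops of `a` in the window `m` fix `t1` and `t2`, `Near n1 σ a t1`, `Near n1 σ a t2`, `σ = ±1`
  imply `t1 = t2`. Suppose not: ultralimit `a*, t1*, t2*`, where `t2* = (sh k t1*.1, φ)` with the constant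
  offset of `t2` relative to `t1` (`exists_offset` of helper97), `t2* ∈ orb t1*` (`orb_iff_ulim`). As in `lock_near`, `Rel a* ti*`,
  `hδ g ti* = σ_i hδ g a*` with `σ_1 = σ_2 = σ` (by `Near n1 σ` in the limit and the argument of `near_sign`).
  So `hδ g t1* = hδ g t2*` for all `g`, `dh (g t1*) (g t2*) = dh t1* t2*` is constant, so the distance is
  bounded (`pos_bound` of helper97, PLim), `Reduced` gives `t1* = t2*`, so `k = 0`, `φ = t1*.2` and `t1 = t2` for almost all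
  indices: contradiction.
-/

namespace Pool.Agent.helper98.NIG

variable {b : Base} {F : Type}

namespace Sys

theorem one_sided [Fintype F] (A : Sys b F) {N : ℕ} (hN : A.BCN N) (hred : A.Reduced)
    {a t : Pt b F} (ha : a ∈ A.D) (ht : t ∈ A.D) (h : ∀ g ∈ A.G, g a = a → g t = t) :
    A.Rel a t ∧ ∃ σ : ℝ, (σ = 1 ∨ σ = -1) ∧ ∀ g ∈ A.G, A.hδ g t = σ * A.hδ g a := by
  classical
  have hrep : ∀ v : A.orb a, ∃ k ∈ A.G, v.1 = k a := fun v => v.2
  choose γ hγ hγa using hrep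
  -- the value depends on the end point only
  have hval : ∀ g ∈ A.G, ∀ v : A.orb a, v.1 = g a → A.hδ (γ v) t = A.hδ g t := by
    intro g hg v hv
    apply hδ_congr
    have h1 : (g⁻¹ * γ v) a = a := by
      rw [Equiv.Perm.mul_apply, ← hγa v, hv, pinv_apply]
    have h2 := h _ (A.G.mul_mem (A.G.inv_mem hg) (hγ v)) h1
    rw [Equiv.Perm.mul_apply, Equiv.Perm.inv_eq_iff_eq] at h2
    exact h2
  set f : A.orb a → ℝ := fun v => A.hδ (γ v) t with hf
  have hmv : ∀ (s : A.S) (v : A.orb a), f (A.mvx a s v) - f v = A.hδ s.1 (γ v t) := by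
    intro s v
    have h1 : f (A.mvx a s v) = A.hδ (s.1 * γ v) t := by
      apply hval _ (A.G.mul_mem (A.mem_G_of_mem_S s.2) (hγ v))
      rw [Equiv.Perm.mul_apply, ← hγa v]
      rfl
    rw [h1, hδ_mul (hγ v)]
    simp only [hf]
    ring
  have hharm : _root_.NIG.Strand.Harm (A.mvx a) f := by
    intro v
    unfold _root_.NIG.Strand.lap
    simp_rw [hmv]
    rw [← hδ_harm hN (A.map_mem (hγ v) ht), ← Finset.sum_coe_sort A.S]
  have hlip : _root_.NIG.Strand.Lip (A.mvx a) 1 f := by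
    intro s v
    rw [hmv]
    exact hδ_lip hN (A.map_mem (hγ v) ht) s.2
  set α : ℝ := _root_.NIG.Strand.cur (A.mvx a) (A.posx a) f 0 with hα
  have key : ∀ g ∈ A.G, A.hδ g t = α * A.hδ g a := by
    intro g hg
    have h1 := (A.Hc_spec hN ha).affine (A.isStrand hN ha) hharm hlip ⟨a, A.orb_self a⟩
      ⟨g a, A.orb_map hg (A.orb_self a)⟩
    have h2 : f ⟨g a, A.orb_map hg (A.orb_self a)⟩ = A.hδ g t := hval g hg _ rfl
    have h3 : f ⟨a, A.orb_self a⟩ = 0 := by
      have h4 : f ⟨a, A.orb_self a⟩ = A.hδ 1 t := hval 1 A.G.one_mem _ rfl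
      rw [h4]
      unfold hδ
      rw [Equiv.Perm.one_apply, sub_self]
    rw [h2, h3, sub_zero] at h1
    exact h1
  obtain ⟨h1, h2⟩ := A.slopes hN hred ha ht key
  exact ⟨h1, α, h2, key⟩

/-- the end point of a path has coordinates in the window -/
theorem e04_end {A : Sys b F} {a : Pt b F} {n : ℕ} {g : Equiv.Perm (Pt b F)}
    (hg : A.Reach a (Set.Icc (-(n : ℤ)) n) g) :
    ∃ k ∈ Finset.Icc (-(n : ℤ)) n, g a = (sh k a.1, (g a).2) := by
  have h0 : (0 : ℤ) ∈ Set.Icc (-(n : ℤ)) n := ⟨by omega, by omega⟩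
  have h1 := hg.disp_mem h0
  refine ⟨disp g a, Finset.mem_Icc.2 h1, ?_⟩
  exact eq_of_pos (sameLine_of_mem_PW (A.G_le_PW hg.mem_G) a)

/-- paths from one point in a window: `g⁻¹ * g'` is a loop of the window -/
theorem e04_loop {A : Sys b F} {a : Pt b F} {n : ℕ} {g g' : Equiv.Perm (Pt b F)}
    (hg : A.Reach a (Set.Icc (-(n : ℤ)) n) g) (hg' : A.Reach a (Set.Icc (-(n : ℤ)) n) g')
    (he : g a = g' a) : A.Reach a (Set.Icc (-(n : ℤ)) n) (g⁻¹ * g') := by
  have h0 : (0 : ℤ) ∈ Set.Icc (-(n : ℤ)) n := ⟨by omega, by omega⟩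
  refine hg'.trans ?_
  have h1 := hg.inv h0
  rw [he] at h1
  have h2 : disp g a = disp g' a := by
    unfold disp
    rw [he]
  rw [h2] at h1
  exact h1

theorem lock_near [Fintype F] (A : Sys b F) {N : ℕ} (hN : A.BCN N) (hred : A.Reduced) (n : ℕ) :
    ∃ m : ℕ, ∀ a ∈ A.D, ∀ t ∈ A.D,
      (∀ h, A.Reach a (Set.Icc (-(m : ℤ)) m) h → h a = a → h t = t) →
      ∃ σ : ℝ, (σ = 1 ∨ σ = -1) ∧ A.Near n σ a t := by
  classical
  by_contra hcon
  push Not at hcon
  choose u hu v hv hlock hnot using hcon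
  let U : Ultrafilter ℕ := Filter.hyperfilter ℕ
  have hUtop : (U : Filter ℕ) ≤ Filter.atTop := by
    rw [← Nat.cofinite_eq_atTop]
    exact Filter.hyperfilter_le_cofinite
  obtain ⟨x, hx⟩ := exists_ulim U u
  obtain ⟨y, hy⟩ := exists_ulim U v
  have hxD : x ∈ A.D := A.mem_D_of_ulim hx (Filter.Eventually.of_forall hu)
  have hyD : y ∈ A.D := A.mem_D_of_ulim hy (Filter.Eventually.of_forall hv)
  have hstab : ∀ g ∈ A.G, g x = x → g y = y := by
    intro g hg hgx
    obtain ⟨C, hC⟩ := A.exists_reach_bounded hg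
    obtain ⟨ρ', hρ, -⟩ := A.G_le_PW hg
    obtain ⟨m, ⟨h1, h2⟩, h3⟩ := (((hx ρ').and (hy ρ')).and
      (hUtop (Filter.eventually_ge_atTop C.natAbs))).exists
    have h4 : g (u m) = u m := (fix_iff_of_agree hρ h1).2 hgx
    have h5 : A.Reach (u m) (Set.Icc (-(m : ℤ)) m) g :=
      (hC (u m)).mono (Set.Icc_subset_Icc (by omega) (by omega))
    exact (fix_iff_of_agree hρ h2).1 (hlock m g h5 h4)
  obtain ⟨-, σ, hσ, hval⟩ := A.one_sided hN hred hxD hyD hstab
  -- eventually `Near`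
  have hεpos : (0 : ℝ) < 1 / ((n : ℝ) + 1) := by positivity
  have hev : ∀ q ∈ (Finset.Icc (-(n : ℤ)) n) ×ˢ (Finset.univ : Finset F),
      ∀ᶠ i in (U : Filter ℕ), ∀ g, A.Reach (u i) (Set.Icc (-(n : ℤ)) n) g →
        g (u i) = (sh q.1 (u i).1, q.2) →
        |A.hδ g (v i) - σ * A.hδ g (u i)| ≤ 1 / ((n : ℝ) + 1) := by
    rintro ⟨k, φ⟩ -
    by_cases hk : (sh k x.1, φ) ∈ A.orb x
    · obtain ⟨g0, hg0, hg0x⟩ := hk
      obtain ⟨C, hC⟩ := A.exists_reach_bounded hg0
      obtain ⟨ρ', hρ, -⟩ := A.G_le_PW hg0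
      have h1 : Filter.Tendsto (fun i => |A.hδ g0 (v i) - σ * A.hδ g0 (u i)|) (U : Filter ℕ)
          (nhds 0) := by
        have h2 := (tendsto_hδ hN hy hv hg0).sub ((tendsto_hδ hN hx hu hg0).const_mul σ)
        rw [hval g0 hg0, sub_self] at h2
        have h3 := h2.abs
        rwa [abs_zero] at h3
      have h2 := h1.eventually (gt_mem_nhds hεpos)
      filter_upwards [h2, hx ρ', hUtop (Filter.eventually_ge_atTop (max C.natAbs n))] with
        i hi1 hi2 hi3 g hg hgi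
      have h4 : g0 (u i) = (sh k (u i).1, φ) := (eq_sh_iff_of_agree hρ hi2.symm).1 hg0x.symm
      have h5 : g (u i) = g0 (u i) := by rw [hgi, h4]
      have hin : n ≤ i := (le_max_right _ _).trans hi3
      have hiC : C.natAbs ≤ i := (le_max_left _ _).trans hi3
      have h6 : A.Reach (u i) (Set.Icc (-(i : ℤ)) i) g :=
        hg.mono (Set.Icc_subset_Icc (by omega) (by omega))
      have h7 : A.Reach (u i) (Set.Icc (-(i : ℤ)) i) g0 :=
        (hC (u i)).mono (Set.Icc_subset_Icc (by omega) (by omega))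
      have h8 := e04_loop h6 h7 h5
      have h9 : (g⁻¹ * g0) (u i) = u i := by
        rw [Equiv.Perm.mul_apply, ← h5, pinv_apply]
      have h10 := hlock i _ h8 h9
      rw [Equiv.Perm.mul_apply, Equiv.Perm.inv_eq_iff_eq] at h10
      rw [hδ_congr h10.symm, hδ_congr h5]
      exact le_of_lt hi1
    · have h1 := orb_iff_ulim hN hx hu k φ
      filter_upwards [h1] with i hi g hg hgi
      exact absurd (hi.1 ⟨g, hg.mem_G, hgi.symm⟩) hk
  have hev2 := (Filter.eventually_all_finset _).2 hev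
  obtain ⟨i, hi1, hi2⟩ := (hev2.and (hUtop (Filter.eventually_ge_atTop n))).exists
  apply hnot i σ hσ
  intro g hg
  refine ⟨fun hgi => ?_, ?_⟩
  · exact hlock i g (hg.mono (Set.Icc_subset_Icc (by omega) (by omega))) hgi
  · obtain ⟨k, hk, hgk⟩ := e04_end hg
    exact hi1 (k, (g (u i)).2) (Finset.mem_product.2 ⟨hk, Finset.mem_univ _⟩) g hg hgk

/-- elements with a large harmonic displacement, reached in a uniform window -/
theorem e04_far [Fintype F] (A : Sys b F) {N : ℕ} (hN : A.BCN N) :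
    ∃ c : ℕ, ∀ a ∈ A.D, ∃ g, A.Reach a (Set.Icc (-(c : ℤ)) c) g ∧ 2 ≤ A.hδ g a := by
  obtain ⟨x0, hx0⟩ := A.nonempty
  have hM := (A.Hc_spec hN hx0).M_pos (A.isStrand hN hx0)
  set c0 : ℝ := 2 / (((2 * A.ρ + 1) * Fintype.card F : ℕ) * Fintype.card A.S * (2 * A.ρ + 1) : ℝ)
    with hc0
  set C0 : ℝ := (2 + ((2 * A.ρ + 1) * Fintype.card F : ℕ) * Fintype.card A.S * N : ℝ) with hC0
  have hc0p : 0 < c0 := by
    rw [hc0]
    apply div_pos two_pos
    apply mul_pos
    · linarith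
    · positivity
  obtain ⟨K, hK⟩ := exists_nat_ge ((2 + C0) / c0)
  rw [div_le_iff₀ hc0p] at hK
  obtain ⟨c, hc⟩ := A.loc (K + A.ρ)
  refine ⟨c, fun a ha => ?_⟩
  obtain ⟨g, hg, h1, h2⟩ := A.syn ha K
  obtain ⟨g', hg', hgg⟩ := hc a ha g hg (by
    rw [abs_of_nonneg (by omega)]
    push_cast
    exact h2)
  refine ⟨g', hg', ?_⟩
  rw [hδ_congr hgg]
  have h3 := hδ_lower hN ha hg (by omega)
  rw [← hc0, ← hC0] at h3
  have h4 : (K : ℝ) ≤ (disp g a : ℝ) := by exact_mod_cast h1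
  have h5 : c0 * (K : ℝ) ≤ c0 * (disp g a : ℝ) := mul_le_mul_of_nonneg_left h4 hc0p.le
  linarith

theorem near_sign [Fintype F] (A : Sys b F) {N : ℕ} (hN : A.BCN N) :
    ∃ n0 : ℕ, ∀ n : ℕ, n0 ≤ n → ∀ a ∈ A.D, ∀ t, A.Near n 1 a t → A.Near n (-1) a t → False := by
  obtain ⟨c, hc⟩ := A.e04_far hN
  refine ⟨c, fun n hn a ha t h1 h2 => ?_⟩
  obtain ⟨g, hg, hg2⟩ := hc a ha
  have hg' : A.Reach a (Set.Icc (-(n : ℤ)) n) g :=
    hg.mono (Set.Icc_subset_Icc (by omega) (by omega))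
  have h3 := (h1 g hg').2
  have h4 := (h2 g hg').2
  have h5 : 1 / ((n : ℝ) + 1) ≤ 1 := by
    rw [div_le_one (by positivity)]
    have : (0 : ℝ) ≤ n := Nat.cast_nonneg n
    linarith
  rw [abs_le] at h3 h4
  linarith [h3.1, h3.2, h4.1, h4.2]

theorem near_mono [Fintype F] {A : Sys b F} {n n' : ℕ} (h : n' ≤ n) {σ : ℝ} {a t : Pt b F}
    (hh : A.Near n σ a t) : A.Near n' σ a t := by
  intro g hg
  obtain ⟨h1, h2⟩ := hh g (hg.mono (Set.Icc_subset_Icc (by omega) (by omega)))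
  refine ⟨h1, h2.trans ?_⟩
  apply one_div_le_one_div_of_le (by positivity)
  have : (n' : ℝ) ≤ n := by exact_mod_cast h
  linarith

theorem near_map [Fintype F] {A : Sys b F} {n n' : ℕ} (h : 2 * (n' + 1) + A.ρ ≤ n) {σ : ℝ}
    {a t : Pt b F} (hh : A.Near n σ a t) {s : Equiv.Perm (Pt b F)} (hs : s ∈ A.S) :
    A.Near n' σ (s a) (s t) := by
  intro g hg
  have hsG := A.mem_G_of_mem_S hs
  have h0 : (0 : ℤ) ∈ Set.Icc (-(n : ℤ)) n := ⟨by omega, by omega⟩
  have hρ := abs_le.1 (abs_disp_le (A.pw s hs).1 a)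
  have hs1 : A.Reach a (Set.Icc (-(n : ℤ)) n) s := by
    have h1 : A.Reach a (Set.Icc (-(n : ℤ)) n) (s * 1) := by
      refine Reach.step Reach.one hs ?_
      change disp s a ∈ Set.Icc (-(n : ℤ)) n
      exact ⟨by omega, by omega⟩
    rwa [mul_one] at h1
  have hgs : A.Reach a (Set.Icc (-(n : ℤ)) n) (g * s) := by
    refine hs1.trans (hg.mono fun k hk => ?_)
    change k + disp s a ∈ Set.Icc (-(n : ℤ)) n
    have h1 := hk.1
    have h2 := hk.2
    exact ⟨by omega, by omega⟩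
  have h1 := (hh s hs1).2
  have h2 := (hh (g * s) hgs).2
  refine ⟨fun hga => ?_, ?_⟩
  · have h3 : (g * s) a = s a := by rw [Equiv.Perm.mul_apply, hga]
    have h4 := e04_loop hs1 hgs h3.symm
    have h5 : (s⁻¹ * (g * s)) a = a := by
      rw [Equiv.Perm.mul_apply, h3, pinv_apply]
    have h6 := (hh _ h4).1 h5
    rw [Equiv.Perm.mul_apply, Equiv.Perm.inv_eq_iff_eq, Equiv.Perm.mul_apply] at h6
    exact h6
  · rw [hδ_mul hsG, hδ_mul hsG] at h2
    have h3 : 2 * (1 / ((n : ℝ) + 1)) ≤ 1 / ((n' : ℝ) + 1) := by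
      have h4 : (2 * ((n' : ℝ) + 1)) ≤ (n : ℝ) + 1 := by
        have : ((2 * (n' + 1) : ℕ) : ℝ) ≤ ((n + 1 : ℕ) : ℝ) := by
          exact_mod_cast (by omega : 2 * (n' + 1) ≤ n + 1)
        push_cast at this
        exact this
      rw [mul_one_div, div_le_div_iff₀ (by positivity) (by positivity)]
      linarith
    rw [abs_le] at h1 h2 ⊢
    constructor
    · nlinarith [h1.1, h1.2, h2.1, h2.2]
    · nlinarith [h1.1, h1.2, h2.1, h2.2]

theorem parallel [Fintype F] (A : Sys b F) {N : ℕ} (hN : A.BCN N) (hred : A.Reduced) :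
    ∃ n1 : ℕ, ∀ C : ℕ, ∃ m : ℕ, ∀ a ∈ A.D, ∀ t1 ∈ A.D, ∀ t2 ∈ A.orb t1, |pos t1 t2| ≤ C →
      (∀ h, A.Reach a (Set.Icc (-(m : ℤ)) m) h → h a = a → h t1 = t1 ∧ h t2 = t2) →
      ∀ σ : ℝ, (σ = 1 ∨ σ = -1) → A.Near n1 σ a t1 → A.Near n1 σ a t2 → t1 = t2 := by
  obtain ⟨n1, hn1⟩ := A.near_sign hN
  refine ⟨n1, fun C => ?_⟩
  by_contra hcon
  push Not at hcon
  choose a ha t1 ht1 t2 ht2 hC hlock σ hσ hnear1 hnear2 hne using hcon
  let U : Ultrafilter ℕ := Filter.hyperfilter ℕ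
  have hge : ∀ M : ℕ, ∀ᶠ i in (U : Filter ℕ), M ≤ i := fun M =>
    (Filter.eventually_ge_atTop M).filter_mono
      (by rw [← Nat.cofinite_eq_atTop]; exact Filter.hyperfilter_le_cofinite)
  obtain ⟨a', ha'⟩ := exists_ulim U a
  obtain ⟨t1', ht1'⟩ := exists_ulim U t1
  obtain ⟨k, φ, -, hoff⟩ := exists_offset U t1 t2 C (fun i => ⟨A.sameLine_orb (ht2 i), hC i⟩)
  have ht2i : ∀ i, t2 i ∈ A.D := by
    intro i
    obtain ⟨g, hg, e⟩ := ht2 i
    rw [e]
    exact A.map_mem hg (ht1 i)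
  have ht2' : ∀ M : ℕ, ∀ᶠ i in (U : Filter ℕ), Agree M (t2 i) ((sh k t1'.1, φ) : Pt b F) :=
    fun M => ((ulim_sh ht1' k φ M).and hoff).mono fun i hi => by
      rw [hi.2]
      exact hi.1
  have haD : a' ∈ A.D := A.mem_D_of_ulim ha' (Filter.Eventually.of_forall ha)
  have ht1D : t1' ∈ A.D := A.mem_D_of_ulim ht1' (Filter.Eventually.of_forall ht1)
  have ht2D : ((sh k t1'.1, φ) : Pt b F) ∈ A.D :=
    A.mem_D_of_ulim ht2' (Filter.Eventually.of_forall ht2i)
  have ht2o : ((sh k t1'.1, φ) : Pt b F) ∈ A.orb t1' := by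
    obtain ⟨i, hi1, hi2⟩ := ((orb_iff_ulim hN ht1' ht1 k φ).and hoff).exists
    rw [← hi1, ← hi2]
    exact ht2 i
  obtain ⟨σ', hσ', hσev⟩ : ∃ σ' : ℝ, (σ' = 1 ∨ σ' = -1) ∧ ∀ᶠ i in (U : Filter ℕ), σ i = σ' := by
    by_cases h : ∀ᶠ i in (U : Filter ℕ), σ i = 1
    · exact ⟨1, Or.inl rfl, h⟩
    · refine ⟨-1, Or.inr rfl, ?_⟩
      exact (Ultrafilter.eventually_not.2 h).mono fun i hi => (hσ i).resolve_left hi
  have key : ∀ (t : ℕ → Pt b F) (t' : Pt b F), (∀ i, t i ∈ A.D) →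
      (∀ M : ℕ, ∀ᶠ i in (U : Filter ℕ), Agree M (t i) t') →
      (∀ i h, A.Reach (a i) (Set.Icc (-(i : ℤ)) i) h → h (a i) = a i → h (t i) = t i) →
      (∀ i, A.Near n1 (σ i) (a i) (t i)) → ∀ g ∈ A.G, A.hδ g t' = σ' * A.hδ g a' := by
    intro t t' htD ht hfix hnear
    have ht'D : t' ∈ A.D := A.mem_D_of_ulim ht (Filter.Eventually.of_forall htD)
    have hloop : ∀ g ∈ A.G, g a' = a' → g t' = t' := by
      intro g hg hga
      obtain ⟨R, hR⟩ := A.exists_reach_bounded hg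
      obtain ⟨r, hr, -⟩ := A.G_le_PW hg
      obtain ⟨i, ⟨hi1, hi2⟩, hi3⟩ := (((ha' r).and (ht r)).and (hge R.toNat)).exists
      have h1 : g (a i) = a i := (fix_iff_of_agree hr hi1).2 hga
      have h2 := hfix i g ((hR (a i)).mono (Set.Icc_subset_Icc (by omega) (by omega))) h1
      exact (fix_iff_of_agree hr hi2).1 h2
    obtain ⟨-, τ, hτ, hτe⟩ := A.one_sided hN hred haD ht'D hloop
    have hN1 : A.Near n1 σ' a' t' := by
      intro g hg
      refine ⟨hloop g hg.mem_G, ?_⟩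
      have h1 : ∀ᶠ i in (U : Filter ℕ), A.Reach (a i) (Set.Icc (-(n1 : ℤ)) n1) g :=
        (ha' (n1 + A.ρ)).mono fun i hi => (Reach.congr (N := n1 + A.ρ)
          (fun k hk => by
            have := abs_le.2 hk
            push_cast
            linarith) (by constructor <;> omega) hi.symm hg).1
      have h2 := tendsto_hδ hN ht htD hg.mem_G
      have h3 := tendsto_hδ hN ha' ha hg.mem_G
      have h4 := (h2.sub (h3.const_mul σ')).abs
      refine le_of_tendsto h4 ?_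
      filter_upwards [h1, hσev] with i hi1 hi2
      rw [← hi2]
      exact ((hnear i) g hi1).2
    have hN2 : A.Near n1 τ a' t' := fun g hg =>
      ⟨hloop g hg.mem_G, by rw [hτe g hg.mem_G, sub_self, abs_zero]; positivity⟩
    have hτσ : τ = σ' := by
      rcases hτ with rfl | rfl
      · rcases hσ' with rfl | rfl
        · rfl
        · exact (hn1 n1 le_rfl a' haD t' hN2 hN1).elim
      · rcases hσ' with rfl | rfl
        · exact (hn1 n1 le_rfl a' haD t' hN1 hN2).elim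
        · rfl
    rw [← hτσ]
    exact hτe
  have h1 := key t1 t1' ht1 ht1' (fun i h hr hh => (hlock i h hr hh).1) hnear1
  have h2 := key t2 (sh k t1'.1, φ) ht2i ht2' (fun i h hr hh => (hlock i h hr hh).2) hnear2
  obtain ⟨K, hK⟩ := pos_bound (A := A) hN
  have heq : t1' = (sh k t1'.1, φ) := by
    refine hred t1' ht1D _ ht2D (sameLine_sh _ _ _) ?_
    obtain ⟨B, hB⟩ := exists_nat_ge (K * (|A.dh t1' (sh k t1'.1, φ)| + 1))
    refine ⟨B, fun g hg => ?_⟩
    have h3 : A.dh (g t1') (g (sh k t1'.1, φ)) = A.dh t1' (sh k t1'.1, φ) := by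
      have e1 := dh_add (A := A) (x := t1') (y := (sh k t1'.1, φ)) (z := g (sh k t1'.1, φ)) ht2o
      have e2 := dh_add (A := A) (x := t1') (y := g t1') (z := g (sh k t1'.1, φ))
        (A.orb_map hg (A.orb_self _))
      rw [dh_map] at e1 e2
      rw [h2 g hg] at e1
      rw [h1 g hg] at e2
      linarith
    have h4 := hK (g t1') (A.map_mem hg ht1D) (g (sh k t1'.1, φ)) (by
      rw [A.orb_eq (A.orb_map hg (A.orb_self t1'))]
      exact A.orb_map hg ht2o)
    rw [h3] at h4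
    have h5 := h4.trans hB
    exact_mod_cast h5
  have e1 : sh k t1'.1 = sh 0 t1'.1 := by
    rw [sh_zero]
    exact (congrArg Prod.fst heq).symm
  have e2 : k = 0 := sh_inj e1
  have e3 : t1'.2 = φ := congrArg Prod.snd heq
  obtain ⟨i, hi1, hi2⟩ := (hoff.and (ht1' 0)).exists
  apply hne i
  rw [hi1, e2, sh_zero, ← e3, ← hi2.1]

end Sys

end Pool.Agent.helper98.NIG
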