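import Pool.Agent.helper98.NIG.E07a
import Pool.Agent.helper98.NIG.E08
import Pool.Agent.helper97.NIG.Raise2

/-!
# NIG-E07: rows of unrelated pairs are unbounded above (whole lines)

PROOF of `raise`. Suppose not: `z, y ∈ D`, `¬ Rel z y`, `K` with `dh y (h y) < K` for all `h ∈ G`, `h z = z`.
Let `R a = {t | ∃ g ∈ A.G, g z = a ∧ t = g y}`.
(0) `Fam z y l r R` for all `l, r`. `bdd`: `a = g0 z`; let `t = g y`, `g z = a`; `h = g0⁻¹ g` fixes `z`, `t = g0 (h y)`, so
`dh y t = dh y (h y) + hδ g0 (h y) < K + const` (`hδ_upper`, `disp g0` is bounded), and `hδ_lower` bounds `pos y t` above.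
`eqv`: `g z = s a` iff `(s⁻¹ g) z = a`.
(1) Let `n` = maximum of the scales of `near_sign` and of `lock_affine` for `ε = 1/2`, `R0` from `top_token n`. Call `a ∈ orb z` `σ`-good if
`∃ t, GoodT R n σ a t`; such a `t =: top a` is unique, and no point is good for both signs (`near_sign`; both tops are the same).
CLAIM: one of (P) all `a ∈ orb z` are `(-1)`-good, (Q) all are `1`-good, (V) there are `v, w : ℤ` such that the points at positions `≤ v`
are `(-1)`-good and the points at positions `≥ w` are `1`-good. Proof: suppose not (P), not (Q): `a1` is not `(-1)`-good, `a2` not `1`-good, positions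
`p1, p2`. Let `L` be so large that `|p1|, |p2| + R0 < L`. `top_token` on `[-L, L]` gives `v_L, w_L`, `w_L ≤ v_L + R0`: `v_L < p1` and `w_L > p2`,
so `v_L > p2 - R0`, `w_L < p1 + R0`. So every point at a position in `[-L + R0, p2 - R0]` is `(-1)`-good, in `[p1 + R0, L - R0]` is `1`-good.
`L` is arbitrarily large: (V) with `v = p2 - R0`, `w = p1 + R0`.
(2) If `a` and `s a` (`s ∈ S`) are good then `top (s a) = s (top a)` (third clause of `GoodT` at `a` and second clause at `s a`).
(3) In the cases (P), (Q): `top (g a) = g (top a)` for all `g ∈ G` (words). With `a = z`, `t = top z = g y`, `g z = z`: all `h ∈ G` with `h z = z` fix `t`;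
`one_sided`: `Rel z t`, so `Rel (g⁻¹ z) (g⁻¹ t) = Rel z y`: contradiction.
More generally (*) `a ∈ orb z`, `t ∈ R a`, `Rel a t` is impossible.
(4) Case (V), right side. Let `a ∈ orb z` at a position `≥ w + c0 + c1 + n` (`syn`; `c1` from `lock_affine`), `t = top a`. For every `h` reached from
`a` at positions `≥ w` (relative to `z`) `h t = top (h a)`; so `Lock A {p | -c0 ≤ 1 * p} a t` and `LockI z w β a t` for all `β`.
`lock_half2` with `R = c0` (`BCc` is `BCon`), `δ = 1`: `σ, B`. `σ = 1`: suppose `σ = -1`; let `M` be large, `g` from the drift statement: `disp g a ≥ M`,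
`disp g t ≤ - disp g a + B`. `g` is reached in a bounded interval, so `RIn z w β a g` for a large `β` (lemma: a path stays in a bounded
interval), and `lock_affine` (with `β` larger) gives `κ ≥ 1/2` with `|dh t (g t) - κ dh a (g a)| ≤ C1`. `dh a (g a) ≥ c M - C` (`hδ_lower`), so
`dh t (g t) > 0` is large, but `disp g t < 0` gives `dh t (g t) ≤ C` (`hδ_lower` for `g⁻¹`): contradiction.
So `a = t` (impossible by (*), `Rel.refl`) or `AsTw c0 1 a t`: with `M = 0`: `g a = tw b h n φ`, `g t = tw b (!h) n φ`: so `z` is on the line `h` and `y`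
on the line `!h` (`map_tw` for elements of `G`).
(5) Case (V), left side: `a ∈ orb z` at a position `≤ v - (c0 + c1 + n)`, `t = top a` of sign `-1`. As in (4) with `δ = -1`: now `κ ≤ -1/2`, and `disp g a ≤ -M` gives
`dh t (g t)` large, so `disp g t > 0` and `σ = -1`. So there is `t' ∈ D`, `Rel t t'`, `Mirror t t'`, and `a = t'` (then `Rel a t`: impossible) or
`AsTw c0 (-1) a t'`. Take `M = D0` (`rel_same_line`): `g a = tw b h2 n φ`, `g t' = tw b (!h2) n φ`, `D0 ≤ |n|`. By (4) `h2 = h` and `g t ∈ orb y` is
on the line `!h`: `g t = tw b (!h) n' φ'`. `rel_same_line` (M4) for `g t'`, `g t` (`Rel`, `Mirror`, both on the line `!h`): `Rel (g t') (g a)`. So `Rel t' a`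
and `Rel a t`: impossible by (*).
-/

namespace Pool.Agent.helper98.NIG

variable {b : Base} {F : Type}

namespace Sys

theorem raise [Fintype F] (A : Sys b F) {N c0 w : ℕ} (hN : A.BCN N) (hc : A.BCc c0)
    (hw : A.SYN w) (hred : A.Reduced) : A.Raise := raise' A hN hc hw hred

end Sys

end Pool.Agent.helper98.NIG
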