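import Pool.Agent.helper2.NIG.L28

/-!
# NIG-E07a: locks on half lines, with the sign and with paths inside of the half line

PROOF of `lock_half2`: exactly the proof of `lock_half` (helper2/NIG/L28, by helper36), with the following
additional information, which this proof already contains.
* DRIFT: `g = h m * gs` (`m ≥ 0` large): it is reached from `x` in `{p | -R ≤ δ p}` (`hgs'`, then `hreach`: positions
  relative to `gs x` at least `-(ρ k + w)` in the direction `δ`, and `δ * disp gs x ≥ c + ρ k + w`); `δ * disp g x ≥ m Q - w`;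
  `|disp g y - σ disp g x| ≤ |disp (h m) (gs y) - σ disp (h m) (gs x)| + |disp gs y - σ disp gs x|`.
* TWINS: in (D) use `half_line_twins` for every `M`: either there is `M` with `g (gs x) = g (gs y')`, then `x = y'`, or for
  every `M` the element `g` is `Along`, `g = v * h m` with `m ≥ M`, `v ∈ W k`: take `M' ≥ M` so large that `M' Q ≥ w + ρ k`,
  then `g * gs` is reached from `x` in `{p | -R ≤ δ p}`: `h m` as above, then `v` by `W_reach` (positions
  `≥ δ * disp gs x + m Q - w - ρ k ≥ 0` in the direction `δ`).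
* (E): the point `y'` of the proof satisfies `Rel y y'` (`hry`), `Mirror y y'` (`hmy`).
-/

namespace Pool.Agent.helper98.NIG

variable {b : Base} {F : Type}

namespace Sys

/-- twins far away on the side `δ`, seen by paths inside of the half line `{p | -R ≤ δ p}` -/
def AsTw (A : Sys b F) (R : ℕ) (δ : ℤ) (x x1 : Pt b F) : Prop :=
  ∀ M : ℕ, ∃ g, A.Reach x {p | -(R : ℤ) ≤ δ * p} g ∧ ∃ (h : Bool) (n : ℤ) (φ : F),
    (M : ℤ) ≤ δ * n ∧ g x = tw b h n φ ∧ g x1 = tw b (!h) n φ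

theorem lock_half2 [Finite F] {A : Sys b F} (hA : A.Reduced) {R w : ℕ} (hR : A.BCon R)
    (hw : A.SYN w) {δ : ℤ} (hδ : δ = 1 ∨ δ = -1) {x y : Pt b F} (hx : x ∈ A.D) (hy : y ∈ A.D)
    (hl : A.Lock {p | -(R : ℤ) ≤ δ * p} x y) :
    ∃ (σ : ℤ) (B : ℕ), (σ = 1 ∨ σ = -1) ∧
      (∀ M : ℕ, ∃ g, A.Reach x {p | -(R : ℤ) ≤ δ * p} g ∧ (M : ℤ) ≤ δ * disp g x ∧
        |disp g y - σ * disp g x| ≤ B) ∧
      (σ = 1 → x = y ∨ A.AsTw R δ x y) ∧
      (σ = -1 → ∃ y' ∈ A.D, A.Rel y y' ∧ A.Mirror y y' ∧ (x = y' ∨ A.AsTw R δ x y')) := by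
  obtain ⟨Cs, K, C0, κ, hCs, hK, hLC⟩ := consts hR hw
  obtain ⟨m1, hm1⟩ := Dir_unique hR hw C0
  obtain ⟨Q, N', B, hQ1, hQ0, hDR⟩ := exists_DR hA hR hw hCs hK hLC w m1
  obtain ⟨n1, hn1⟩ := half_line_twins hA hR hw hCs hK Q w hQ0
  obtain ⟨n2, hn2⟩ := hlimit hR hw hCs hK Q w hQ0
  obtain ⟨n0, hn0⟩ : ∃ n0 : ℕ, n0 = max N' (max n1 n2) := ⟨_, rfl⟩
  have hn0a : N' ≤ n0 := hn0 ▸ le_max_left _ _
  have hn0b : n1 ≤ n0 := hn0 ▸ (le_max_left _ _).trans (le_max_right _ _)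
  have hn0c : n2 ≤ n0 := hn0 ▸ (le_max_right _ _).trans (le_max_right _ _)
  obtain ⟨c, hc⟩ := lock_E hA hR hw n0
  obtain ⟨k, hk⟩ : ∃ k : ℕ, k = K * (Q + w + 1) := ⟨_, rfl⟩
  have hδδ : δ * δ = 1 := by rcases hδ with rfl | rfl <;> norm_num
  -- (A)
  obtain ⟨g0, hg0, hd0⟩ : ∃ g ∈ A.G, ((c + A.ρ * k + w : ℕ) : ℤ) ≤ δ * disp g x := by
    rcases hδ with rfl | rfl
    · obtain ⟨g, hg, h1, -⟩ := hw x hx ((c + A.ρ * k + w : ℕ) : ℤ)
      exact ⟨g, hg, by linarith⟩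
    · obtain ⟨g, hg, -, h2⟩ := hw x hx (-((c + A.ρ * k + w : ℕ) : ℤ) - w)
      exact ⟨g, hg, by linarith⟩
  obtain ⟨gs, hgs, egs⟩ := hR x hx g0 hg0
  have eds := L02_disp_congr egs
  rw [← eds] at hd0
  have hgsG : gs ∈ A.G := hgs.mem_G
  have hgs' : A.Reach x {p | -(R : ℤ) ≤ δ * p} gs := by
    refine hgs.mono ?_
    rw [← eds]
    rintro p ⟨hp1, hp2⟩
    change -(R : ℤ) ≤ δ * p
    have h00 : (0 : ℤ) ≤ ((c + A.ρ * k + w : ℕ) : ℤ) := Int.natCast_nonneg _
    rcases hδ with rfl | rfl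
    · rw [min_eq_left (by linarith)] at hp1
      linarith
    · rw [max_eq_left (by linarith)] at hp2
      linarith
  have h0R : (0 : ℤ) ∈ {p : ℤ | -(R : ℤ) ≤ δ * p} := by
    change -(R : ℤ) ≤ δ * 0
    rw [mul_zero]
    linarith [Int.natCast_nonneg R]
  have hl1 : A.Lock {p | -((c + A.ρ * k + w : ℕ) : ℤ) ≤ δ * p} (gs x) (gs y) := by
    refine (lock_move h0R hl hgs').mono ?_
    intro p hp
    have hp' : -((c + A.ρ * k + w : ℕ) : ℤ) ≤ δ * p := hp
    change -(R : ℤ) ≤ δ * (p + disp gs x)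
    rw [mul_add]
    linarith [Int.natCast_nonneg R]
  have hxs : gs x ∈ A.D := A.map_mem hgsG hx
  have hys : gs y ∈ A.D := A.map_mem hgsG hy
  -- (B)
  obtain ⟨h0, hr0⟩ := exists_run hw hK Q hxs
  have hH := hr0.hrun hδ
  obtain ⟨h, hhd⟩ : ∃ h : ℤ → Equiv.Perm (Pt b F), h = fun m => h0 (δ * m) := ⟨_, rfl⟩
  rw [← hhd] at hH
  have hlow : ∀ m : ℤ, 0 ≤ m → -(w : ℤ) ≤ δ * disp (h m) (gs x) := by
    intro m hm
    have h1 := abs_le.1 (hH.near m hm)
    have h2 : (0 : ℤ) ≤ m * Q := mul_nonneg hm (Int.natCast_nonneg _)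
    rcases hδ with rfl | rfl
    · linarith [h1.1]
    · linarith [h1.2]
  have hreach : ∀ m : ℕ, A.Reach (gs x) {p | -((A.ρ * k + w : ℕ) : ℤ) ≤ δ * p} (h m) := by
    intro m
    induction m with
    | zero =>
      have e : h ((0 : ℕ) : ℤ) = 1 := hH.zero
      rw [e]
      exact Reach.one
    | succ m ih =>
      obtain ⟨u, hu, hu'⟩ := hH.step m (Int.natCast_nonneg _)
      have e : h ((m + 1 : ℕ) : ℤ) = u * h m := by
        push_cast
        exact hu'
      rw [e]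
      refine ih.trans ((W_reach hu (h m (gs x))).mono ?_)
      rintro p ⟨hp1, hp2⟩
      change -((A.ρ * k + w : ℕ) : ℤ) ≤ δ * (p + disp (h m) (gs x))
      have h1 := hlow m (Int.natCast_nonneg _)
      rw [← hk] at hp1 hp2
      rw [mul_add]
      push_cast at hp1 hp2 ⊢
      rcases hδ with rfl | rfl
      · linarith
      · linarith
  have hEs : ∀ m : ℤ, 0 ≤ m → A.E n0 (h m (gs x)) (h m (gs y)) := by
    intro m hm
    obtain ⟨m, rfl⟩ := Int.eq_ofNat_of_zero_le hm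
    have h0I : (0 : ℤ) ∈ {p : ℤ | -((c + A.ρ * k + w : ℕ) : ℤ) ≤ δ * p} := by
      change -((c + A.ρ * k + w : ℕ) : ℤ) ≤ δ * 0
      rw [mul_zero]
      linarith [Int.natCast_nonneg (c + A.ρ * k + w)]
    have hre : A.Reach (gs x) {p | -((c + A.ρ * k + w : ℕ) : ℤ) ≤ δ * p} (h m) := by
      refine (hreach m).mono ?_
      intro p hp
      have hp' : -((A.ρ * k + w : ℕ) : ℤ) ≤ δ * p := hp
      change -((c + A.ρ * k + w : ℕ) : ℤ) ≤ δ * p
      push_cast at hp' ⊢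
      linarith [Int.natCast_nonneg c]
    have hmG : h m ∈ A.G := hH.mem m (Int.natCast_nonneg _)
    refine hc _ (A.map_mem hmG hxs) _ (A.map_mem hmG hys) ((lock_move h0I hl1 hre).mono ?_)
    rintro p ⟨hp1, hp2⟩
    change -((c + A.ρ * k + w : ℕ) : ℤ) ≤ δ * (p + disp (h m) (gs x))
    have h1 := hlow m (Int.natCast_nonneg _)
    have h2 : (0 : ℤ) ≤ A.ρ * k := by positivity
    rw [mul_add]
    push_cast
    rcases hδ with rfl | rfl
    · linarith
    · linarith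
  -- (C)
  have hDRM : ∀ M : ℕ, ∃ σ : ℤ, (σ = 1 ∨ σ = -1) ∧ A.Dir C0 Q σ (gs x) (gs y) ∧
      ∀ m ≤ M, |disp (h (m : ℤ)) (gs y) - σ * δ * m * Q| ≤ B := by
    intro M
    obtain ⟨σ, hσ, h1, h2⟩ := hDR δ hδ (gs x) hxs (gs y) hys M (fun m => h (m : ℤ))
      (fun m _ => hH.mem _ (Int.natCast_nonneg _))
      (fun m _ => hH.near _ (Int.natCast_nonneg _))
      (fun m _ => by
        obtain ⟨u, hu, hu'⟩ := hH.step m (Int.natCast_nonneg _)
        refine ⟨u, hu, ?_⟩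
        push_cast
        exact hu')
      (fun m _ => E_mono hn0a (hEs _ (Int.natCast_nonneg _)))
    have e0 : h ((0 : ℕ) : ℤ) = 1 := hH.zero
    simp only [e0, disp_one, sub_zero] at h1 h2
    exact ⟨σ, hσ, h1, h2⟩
  obtain ⟨σ, hσ, hDir, -⟩ := hDRM 0
  have hdrift : ∀ m : ℤ, 0 ≤ m →
      |disp (h m) (gs y) - σ * disp (h m) (gs x)| ≤ ((B + w : ℕ) : ℤ) := by
    intro m hm
    obtain ⟨m, rfl⟩ := Int.eq_ofNat_of_zero_le hm
    obtain ⟨σ', hσ', hDir', h2⟩ := hDRM m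
    have e : σ' = σ := hm1 (gs x) hxs (gs y) Q hQ1 σ' σ hσ' hσ hDir' hDir
    rw [e] at h2
    have h3 := abs_le.1 (h2 m le_rfl)
    have h4 := abs_le.1 (hH.near m (Int.natCast_nonneg _))
    rw [abs_le]
    push_cast
    rcases hσ with rfl | rfl
    · constructor <;> linarith [h3.1, h3.2, h4.1, h4.2]
    · constructor <;> linarith [h3.1, h3.2, h4.1, h4.2]
  -- (D)
  have hfin : ∀ y' : Pt b F, y' ∈ A.D →
      (∀ m : ℤ, 0 ≤ m → A.E n0 (h m (gs x)) (h m (gs y'))) → ∀ B1 : ℕ,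
      (∀ m : ℤ, 0 ≤ m → |disp (h m) (gs y') - disp (h m) (gs x)| ≤ B1) →
      x = y' ∨ A.AsTw R δ x y' := by
    intro y' hy' hE' B1 hB1
    by_cases hxy : x = y'
    · exact Or.inl hxy
    right
    intro M
    obtain ⟨g, hg, h1⟩ := hn1 δ hδ (gs x) hxs (gs y') (A.map_mem hgsG hy') h hH
      (fun m hm => E_mono hn0b (hE' m hm)) B1 hB1 M
    rcases h1 with h1 | ⟨hb, n, φ, hn, e1, e2⟩
    · exact absurd (gs.injective (g.injective h1)) hxy
    · refine ⟨g * gs, hgs'.trans ?_, hb, n, φ, hn, e1, e2⟩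
      obtain ⟨m, hm, v, hv, rfl⟩ := hg
      obtain ⟨m, rfl⟩ := Int.eq_ofNat_of_zero_le ((Int.natCast_nonneg _).trans hm)
      have hre : A.Reach (gs x) {p | -((A.ρ * k + w : ℕ) : ℤ) ≤ δ * p} (v * h m) := by
        refine (hreach m).trans ((W_reach hv (h m (gs x))).mono ?_)
        rintro p ⟨hp1, hp2⟩
        change -((A.ρ * k + w : ℕ) : ℤ) ≤ δ * (p + disp (h m) (gs x))
        have h1 := hlow m (Int.natCast_nonneg _)
        rw [← hk] at hp1 hp2
        rw [mul_add]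
        push_cast at hp1 hp2 ⊢
        rcases hδ with rfl | rfl
        · linarith
        · linarith
      refine hre.mono ?_
      intro p hp
      have hp' : -((A.ρ * k + w : ℕ) : ℤ) ≤ δ * p := hp
      change -(R : ℤ) ≤ δ * (p + disp gs x)
      rw [mul_add]
      push_cast at hp' hd0
      linarith [Int.natCast_nonneg R, Int.natCast_nonneg c]
  refine ⟨σ, B + w + (disp gs y - σ * disp gs x).natAbs, hσ, ?_, ?_, ?_⟩
  · intro M
    refine ⟨h (M : ℤ) * gs, hgs'.trans ((hreach M).mono ?_), ?_, ?_⟩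
    · intro p hp
      have hp' : -((A.ρ * k + w : ℕ) : ℤ) ≤ δ * p := hp
      change -(R : ℤ) ≤ δ * (p + disp gs x)
      rw [mul_add]
      push_cast at hp' hd0
      linarith [Int.natCast_nonneg R, Int.natCast_nonneg c]
    · rw [disp_mul (A.G_le_PW (hH.mem (M : ℤ) (Int.natCast_nonneg _))) (A.G_le_PW hgsG), mul_add]
      have h1 := abs_le.1 (hH.near (M : ℤ) (Int.natCast_nonneg _))
      have h2 : (M : ℤ) ≤ M * Q := by
        have h3 : (1 : ℤ) ≤ Q := by exact_mod_cast hQ0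
        nlinarith [Int.natCast_nonneg M]
      push_cast at hd0
      have h4 : (0 : ℤ) ≤ A.ρ * k := by positivity
      have h5 : (M : ℤ) * Q - w ≤ δ * disp (h (M : ℤ)) (gs x) := by
        rcases hδ with rfl | rfl
        · linarith [h1.1]
        · linarith [h1.2]
      linarith [Int.natCast_nonneg c]
    · rw [disp_mul (A.G_le_PW (hH.mem (M : ℤ) (Int.natCast_nonneg _))) (A.G_le_PW hgsG),
        disp_mul (A.G_le_PW (hH.mem (M : ℤ) (Int.natCast_nonneg _))) (A.G_le_PW hgsG)]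
      have h1 := abs_le.1 (hdrift (M : ℤ) (Int.natCast_nonneg _))
      have h2 := abs_le.1 (le_refl |disp gs y - σ * disp gs x|)
      rw [abs_le]
      push_cast at h1 ⊢
      rw [mul_add]
      constructor <;> linarith [h1.1, h1.2, h2.1, h2.2]
  · rintro rfl
    refine hfin y hy hEs (B + w) (fun m hm => ?_)
    have h1 := hdrift m hm
    rw [one_mul] at h1
    exact h1
  -- (E)
  · rintro rfl
    obtain ⟨B2, hB2⟩ := hn2 δ hδ (gs x) hxs (gs y) hys h hH
      (fun m hm => E_mono hn0c (hEs m hm)) (-1) (B + w) (Or.inr rfl) hdrift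
    obtain ⟨q, hq, U, g, hal, hUM, hgx, hgy, hrel, -, hbd⟩ := hB2 (gs x) hxs
    have hmir : A.Mirror (gs x) q := by
      refine ⟨B2, fun l hlG => ?_⟩
      obtain ⟨ρ', hρ', -⟩ := A.G_le_PW hlG
      obtain ⟨i, ⟨h1, h2⟩, h3⟩ := (((hgx ρ').and (hgy ρ')).and (hbd l hlG)).exists
      rw [disp_eq_of_agree hρ' h1, disp_eq_of_agree hρ' h2] at h3
      have e : disp l q + disp l (gs x) = disp l q - -1 * disp l (gs x) := by ring
      rw [e]
      exact h3
    obtain ⟨y', hy', hry, hmy⟩ := mirror_all hxs hq hrel hmir hy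
    obtain ⟨B3, hB3⟩ := hmy.map hgsG
    have hB30 : 0 ≤ B3 := (abs_nonneg _).trans (hB3 1 A.G.one_mem)
    obtain ⟨B3, rfl⟩ := Int.eq_ofNat_of_zero_le hB30
    refine ⟨y', hy', hry, hmy, ?_⟩
    exact hfin y' hy' (fun m hm => E_trans (hEs m hm)
      (rel_iff.1 ((hry.map hgsG).map (hH.mem m hm)) n0)) (B3 + (B + w)) (fun m hm => by
        have h1 := abs_le.1 (hdrift m hm)
        have h2 := abs_le.1 (hB3 (h m) (hH.mem m hm))
        push_cast at h1 ⊢
        rw [abs_le]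
        constructor <;> linarith [h1.1, h1.2, h2.1, h2.2])

end Sys

end Pool.Agent.helper98.NIG
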